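import Pool.Agent.H87.QF.Stmts

/-! # QFM, row BAS: arcs over `x(0) = x0` and the diagonal form -/

set_option autoImplicit false

namespace Pool.Agent.H87.QF

open MvPolynomial Pool.Agent.H39.MonoR Pool.Agent.H75.Mono

namespace BasH

section PSC

variable {k : Type} [Field k] [Algebra k ℂ] {E F : Type} [Aff E] [Aff F]

theorem ps_add {f g : E → PowerSeries ℂ} (hf : PS k f) (hg : PS k g) : PS k fun e => f e + g e := by
  intro l
  simp only [map_add]
  exact (hf l).add (hg l)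

theorem ps_mul {f g : E → PowerSeries ℂ} (hf : PS k f) (hg : PS k g) : PS k fun e => f e * g e := by
  intro l
  simp only [PowerSeries.coeff_mul]
  exact PFun.sum _ fun p _ => (hf p.1).mul (hg p.2)

theorem ps_sum {J : Type*} (s : Finset J) {f : J → E → PowerSeries ℂ} (hf : ∀ j ∈ s, PS k (f j)) :
    PS k fun e => ∑ j ∈ s, f j e := by
  intro l
  simp only [map_sum]
  exact PFun.sum _ fun j hj => hf j hj l

theorem ps_comp {f : F → PowerSeries ℂ} (hf : PS k f) {g : E → F} (hg : PMap k g) :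
    PS k fun e => f (g e) := fun l => (hf l).comp hg

theorem ps_arc {J : Type} [Finite J] {N : ℕ} (j : J) :
    PS k fun y : J × Fin N → ℂ => arc y j := by
  intro l
  by_cases h : l < N
  · have e : (fun y : J × Fin N → ℂ => PowerSeries.coeff l (arc y j)) = fun y => y (j, ⟨l, h⟩) := by
      funext y
      rw [coeff_arc, dif_pos h]
    rw [e]
    exact PFun.apply _
  · have e : (fun y : J × Fin N → ℂ => PowerSeries.coeff l (arc y j)) = fun _ => 0 := by
      funext y
      rw [coeff_arc, dif_neg h]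
    rw [e]
    exact PFun.zero

theorem ps_xs (x0 : k) {d : ℕ} : PS k fun v : Fin (d + 1) → ℂ => xs x0 v := by
  intro l
  have e : (fun v : Fin (d + 1) → ℂ => PowerSeries.coeff l (xs x0 v)) =
      fun v => (if h : l < d + 1 then v ⟨l, h⟩ else 0) - algebraMap k ℂ (if l = 0 then x0 else 0) := by
    funext v
    unfold xs ser
    rw [map_sub, PowerSeries.coeff_mk, PowerSeries.coeff_C]
    congr 1
    split_ifs
    · rfl
    · rw [map_zero]
  rw [e]
  refine PFun.sub ?_ (PFun.const _)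
  by_cases h : l < d + 1
  · simp only [dif_pos h]
    exact PFun.apply _
  · simp only [dif_neg h]
    exact PFun.zero

theorem pfun_qf {J : Type} [Fintype J] {V B : J → E → PowerSeries ℂ} {F : E → PowerSeries ℂ}
    (hV : ∀ i, PS k (V i)) (hB : ∀ i, PS k (B i)) (hF : PS k F) (d : ℕ) :
    PS k fun x : E × (J × Fin (d + 1) → ℂ) => qf V B F x := by
  unfold qf
  refine ps_add (ps_add (ps_sum _ fun i _ => ?_) (ps_sum _ fun i _ => ?_)) (ps_comp hF PMap.fst)
  · have e : (fun x : E × (J × Fin (d + 1) → ℂ) => V i x.1 * arc x.2 i ^ 2) =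
        fun x => V i x.1 * (arc x.2 i * arc x.2 i) := by
      funext x
      rw [sq]
    rw [e]
    exact ps_mul (ps_comp (hV i) PMap.fst)
      (ps_mul (ps_comp (ps_arc i) PMap.snd) (ps_comp (ps_arc i) PMap.snd))
  · exact ps_mul (ps_comp (hB i) PMap.fst) (ps_comp (ps_arc i) PMap.snd)

theorem icons_rel {J : Type} [Fintype J] {V B : J → E → PowerSeries ℂ} {F : E → PowerSeries ℂ}
    (hV : ∀ i, PS k (V i)) (hB : ∀ i, PS k (B i)) (hF : PS k F) (d : ℕ) {Q : Set E} {c : E → ℂ}
    (hQ : ICons k Q) (hc : PFun k c) : ICons k (rel V B F d Q c) := by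
  refine ICons.and (hQ.mem PMap.fst) (ICons.forall_le d fun l => ICons.eq (pfun_qf hV hB hF d l) ?_)
  by_cases hl : l = d
  · simpa only [if_pos hl] using hc.comp PMap.fst
  · simpa only [if_neg hl] using PFun.zero

theorem icons_zq {J : Type} [Finite J] (f : MvPolynomial (Option J) k) (d : ℕ)
    {Q : Set (Fin (d + 1) → ℂ)} (hQ : ICons k Q) (t : Test k) :
    ICons k {x : (Option J × Fin (d + 1) → ℂ) × t.E | x.2 ∈ t.W ∧ (fun l => x.1 (none, l)) ∈ Q ∧
      Hit f d x.1 (t.c x.2)} := by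
  refine ICons.and (t.cW.mem PMap.snd) (ICons.and (hQ.mem (PMap.pi fun l => ?_))
    (ICons.hit d f PMap.fst (t.pf.comp PMap.snd)))
  exact (PFun.apply (none, l)).comp PMap.fst

end PSC

section Val

variable {R J : Type} [CommRing R] [Fintype J]

theorem val_congr (D : QD R J) {S : Type} [CommRing S] (φ : R →+* S) (a : S) {y y' : J → S}
    (h : ∀ j, a ∣ y j - y' j) : a ∣ D.val φ y - D.val φ y' := by
  have e : D.val φ y - D.val φ y' = ∑ i, ∑ j, φ (D.a i j) * (y i * y j - y' i * y' j) +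
      ∑ i, φ (D.b i) * (y i - y' i) := by
    unfold QD.val
    simp only [mul_sub, Finset.sum_sub_distrib]
    ring
  rw [e]
  refine dvd_add (Finset.dvd_sum fun i _ => Finset.dvd_sum fun j _ => Dvd.dvd.mul_left ?_ _)
    (Finset.dvd_sum fun i _ => Dvd.dvd.mul_left (h i) _)
  have e2 : y i * y j - y' i * y' j = (y i - y' i) * y j + y' i * (y j - y' j) := by ring
  rw [e2]
  exact dvd_add (Dvd.dvd.mul_right (h i) _) (Dvd.dvd.mul_left (h j) _)

theorem map_val (D : QD R J) {S T : Type} [CommRing S] [CommRing T] (φ : R →+* S) (ψ : S →+* T)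
    (y : J → S) : ψ (D.val φ y) = D.val (ψ.comp φ) fun j => ψ (y j) := by
  unfold QD.val
  simp only [map_add, map_sum, map_mul, RingHom.comp_apply]

theorem val_map (D : QD R J) {S T : Type} [CommRing S] [CommRing T] (φ : R →+* S) (ψ : S →+* T)
    (y : J → T) : (D.map φ).val ψ y = D.val (ψ.comp φ) y := rfl

/-- `M Y + s` -/
def lin {S : Type} [CommRing S] (M : J → J → S) (s Y : J → S) (j : J) : S := ∑ m, M j m * Y m + s j

theorem lin_congr {S : Type} [CommRing S] (M : J → J → S) (s : J → S) (a : S) {Y Y' : J → S}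
    (h : ∀ j, a ∣ Y j - Y' j) (j : J) : a ∣ lin M s Y j - lin M s Y' j := by
  have e : lin M s Y j - lin M s Y' j = ∑ m, M j m * (Y m - Y' m) := by
    unfold lin
    simp only [mul_sub, Finset.sum_sub_distrib]
    ring
  rw [e]
  exact Finset.dvd_sum fun m _ => Dvd.dvd.mul_left (h m) _

theorem mul_one_apply [DecidableEq J] {S : Type} [CommRing S] (φ : R →+* S) {A A' : Matrix J J R}
    (h : A * A' = 1) (Y : J → S) (j : J) :
    ∑ m, φ (A j m) * ∑ n, φ (A' m n) * Y n = Y j := by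
  have e : ∑ m, φ (A j m) * ∑ n, φ (A' m n) * Y n = ∑ n, φ ((A * A') j n) * Y n := by
    simp only [Matrix.mul_apply, map_sum, map_mul, Finset.mul_sum, Finset.sum_mul]
    rw [Finset.sum_comm]
    refine Finset.sum_congr rfl fun n _ => Finset.sum_congr rfl fun m _ => ?_
    ring
  rw [e, h, Finset.sum_eq_single j]
  · rw [Matrix.one_apply_eq, map_one, one_mul]
  · intro b _ hb
    rw [Matrix.one_apply_ne (Ne.symm hb), map_zero, zero_mul]
  · intro hj
    exact absurd (Finset.mem_univ _) hj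

end Val

section Main

variable {k : Type} [Field k] [Algebra k ℂ] {J : Type} [Fintype J] [DecidableEq J]
  {D : QD (Polynomial k) J}

/-- the truncation of a tuple of series -/
noncomputable def tr {J : Type} (d : ℕ) (Y : J → PowerSeries ℂ) : J × Fin (d + 1) → ℂ :=
  fun p => PowerSeries.coeff p.2 (Y p.1)

theorem arc_tr {J : Type} (d : ℕ) (Y : J → PowerSeries ℂ) (j : J) :
    (PowerSeries.X : PowerSeries ℂ) ^ (d + 1) ∣ arc (tr d Y) j - Y j := by
  rw [PowerSeries.X_pow_dvd_iff]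
  intro m hm
  rw [map_sub, coeff_arc, dif_pos hm]
  exact sub_self _

theorem tr_of_dvd {J : Type} {d : ℕ} {Y Y' : J → PowerSeries ℂ}
    (h : ∀ j, (PowerSeries.X : PowerSeries ℂ) ^ (d + 1) ∣ Y j - Y' j) : tr d Y = tr d Y' := by
  funext p
  have h1 := PowerSeries.X_pow_dvd_iff.1 (h p.1) p.2 p.2.2
  rw [map_sub, sub_eq_zero] at h1
  exact h1

theorem tr_arc {J : Type} {d : ℕ} (y : J × Fin (d + 1) → ℂ) : tr d (arc y) = y := by
  funext p
  unfold tr
  rw [coeff_arc, dif_pos p.2.2]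

/-- the change of variables -/
noncomputable def ch {x0 : k} (Δ : Diag (D.map (tay x0))) {d : ℕ} (v : Fin (d + 1) → ℂ)
    (Y : J → PowerSeries ℂ) : J → PowerSeries ℂ :=
  lin (fun i j => sb (xs x0 v) (Δ.A i j)) (fun j => sb (xs x0 v) (Δ.s j)) Y

/-- the map -/
noncomputable def gm {x0 : k} (Δ : Diag (D.map (tay x0))) {d : ℕ} {T : Type}
    (x : ((Fin (d + 1) → ℂ) × T) × (J × Fin (d + 1) → ℂ)) : (Option J × Fin (d + 1) → ℂ) × T :=
  (fun p => p.1.elim (x.1.1 p.2) fun j => PowerSeries.coeff p.2 (ch Δ x.1.1 (arc x.2) j), x.1.2)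

theorem arc_none {x0 : k} (Δ : Diag (D.map (tay x0))) {d : ℕ} {T : Type}
    (x : ((Fin (d + 1) → ℂ) × T) × (J × Fin (d + 1) → ℂ)) : arc (gm Δ x).1 none = ser x.1.1 := by
  ext l
  unfold ser
  rw [coeff_arc, PowerSeries.coeff_mk]
  rfl

theorem arc_some {x0 : k} (Δ : Diag (D.map (tay x0))) {d : ℕ} {T : Type}
    (x : ((Fin (d + 1) → ℂ) × T) × (J × Fin (d + 1) → ℂ)) (j : J) :
    (PowerSeries.X : PowerSeries ℂ) ^ (d + 1) ∣
      arc (gm Δ x).1 (some j) - ch Δ x.1.1 (arc x.2) j := by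
  rw [PowerSeries.X_pow_dvd_iff]
  intro m hm
  rw [map_sub, coeff_arc, dif_pos hm]
  exact sub_self _

theorem xs_zero {x0 : k} {d : ℕ} {v : Fin (d + 1) → ℂ} (hv : v 0 = algebraMap k ℂ x0) :
    PowerSeries.constantCoeff (xs x0 v) = 0 := by
  unfold xs ser
  rw [map_sub, PowerSeries.constantCoeff_C, ← PowerSeries.coeff_zero_eq_constantCoeff_apply,
    PowerSeries.coeff_mk, dif_pos (Nat.succ_pos d)]
  have e : v ⟨0, Nat.succ_pos d⟩ = v 0 := rfl
  rw [e, hv, sub_self]

/-- `f(φ(t))` through the diagonal form -/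
theorem arcEval_pol (D : QD (Polynomial k) J) {x0 : k} {d : ℕ} (φ : Option J × Fin (d + 1) → ℂ)
    (ψ : PowerSeries k →+* PowerSeries ℂ)
    (hC : ∀ c, ψ (PowerSeries.C c) = PowerSeries.C (algebraMap k ℂ c))
    (hX : ψ PowerSeries.X = xs x0 fun l => φ (none, l)) :
    arcEval k φ (pol D) = (D.map (tay x0)).val ψ fun j => arc φ (some j) := by
  have h1 : (aeval (arc φ) : MvPolynomial (Option J) k →ₐ[k] PowerSeries ℂ).toRingHom.comp
      (emb k J) = ψ.comp (tay x0) := by
    apply Polynomial.ringHom_ext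
    · intro c
      have e1 : (aeval (arc φ) : MvPolynomial (Option J) k →ₐ[k] PowerSeries ℂ).toRingHom.comp
          (emb k J) (Polynomial.C c) = algebraMap k (PowerSeries ℂ) c := by
        unfold emb
        simp
      have e2 : ψ.comp (tay x0) (Polynomial.C c) = PowerSeries.C (algebraMap k ℂ c) := by
        unfold tay
        simp only [RingHom.comp_apply, AlgHom.toRingHom_eq_coe, RingHom.coe_coe, Polynomial.aeval_C]
        exact hC c
      rw [e1, e2, PowerSeries.algebraMap_apply]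
    · have e1 : (aeval (arc φ) : MvPolynomial (Option J) k →ₐ[k] PowerSeries ℂ).toRingHom.comp
          (emb k J) Polynomial.X = arc φ none := by
        unfold emb
        simp
      have e2 : ψ.comp (tay x0) Polynomial.X = PowerSeries.C (algebraMap k ℂ x0) +
          xs x0 fun l => φ (none, l) := by
        unfold tay
        simp only [RingHom.comp_apply, AlgHom.toRingHom_eq_coe, RingHom.coe_coe, Polynomial.aeval_X,
          map_add, hC, hX]
      rw [e1, e2]
      unfold xs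
      rw [add_sub_cancel]
      ext l
      unfold ser
      rw [coeff_arc, PowerSeries.coeff_mk]
  have h2 : arcEval k φ (pol D) = (aeval (arc φ) : MvPolynomial (Option J) k →ₐ[k]
      PowerSeries ℂ).toRingHom (D.val (emb k J) fun j => X (some j)) := rfl
  rw [h2, map_val, h1, val_map]
  congr 1
  funext j
  simp

/-- the conditions agree -/
theorem cond {x0 : k} (Δ : Diag (D.map (tay x0))) {d : ℕ} {T : Type}
    (x : ((Fin (d + 1) → ℂ) × T) × (J × Fin (d + 1) → ℂ))
    (ψ : PowerSeries k →+* PowerSeries ℂ) (hψ : ∀ u, ψ u = sb (xs x0 x.1.1) u)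
    (hC : ∀ c, ψ (PowerSeries.C c) = PowerSeries.C (algebraMap k ℂ c))
    (hX : ψ PowerSeries.X = xs x0 x.1.1) {l : ℕ} (hl : l ≤ d) :
    PowerSeries.coeff l (arcEval k (gm Δ x).1 (pol D)) =
      PowerSeries.coeff l (qf (E := (Fin (d + 1) → ℂ) × T)
        (fun i e => sb (xs x0 e.1) (Δ.U i)) (fun i e => sb (xs x0 e.1) (Δ.B i))
        (fun e => sb (xs x0 e.1) Δ.c) x) := by
  rw [arcEval_pol D (x0 := x0) (gm Δ x).1 ψ hC hX]
  have h1 : (PowerSeries.X : PowerSeries ℂ) ^ (d + 1) ∣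
      ((D.map (tay x0)).val ψ fun j => arc (gm Δ x).1 (some j)) -
        (D.map (tay x0)).val ψ (ch Δ x.1.1 (arc x.2)) :=
    val_congr _ _ _ fun j => arc_some Δ x j
  have h2 : (D.map (tay x0)).val ψ (ch Δ x.1.1 (arc x.2)) = qf (E := (Fin (d + 1) → ℂ) × T)
        (fun i e => sb (xs x0 e.1) (Δ.U i)) (fun i e => sb (xs x0 e.1) (Δ.B i))
        (fun e => sb (xs x0 e.1) Δ.c) x := by
    have h3 := Δ.eq (PowerSeries ℂ) ψ (arc x.2)
    simp only [hψ] at h3
    exact h3
  rw [← h2]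
  have h4 := PowerSeries.X_pow_dvd_iff.1 h1 l (by omega)
  rw [map_sub, sub_eq_zero] at h4
  exact h4

end Main

end BasH

open BasH in
theorem BAS (hS : SBSStmt) : BASStmt := by
  intro k _ _ J _ _ D x0 Δ d Q t hQ hQ0
  obtain ⟨S1, -, S3⟩ := hS k
  -- the series are polynomial in the parameters
  have hps : ∀ u : PowerSeries k, PS k fun e : (Fin (d + 1) → ℂ) × t.E => sb (xs x0 e.1) u :=
    fun u => S3 _ _ u (ps_comp (ps_xs x0) PMap.fst)
  have hI : ICons k {e : (Fin (d + 1) → ℂ) × t.E | e.1 ∈ Q ∧ e.2 ∈ t.W} := ICons.prod hQ t.cW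
  have hg : PMap k (gm Δ (d := d) (T := t.E)) := by
    refine PMap.prodMk (PMap.pi fun p => ?_) (PMap.snd.comp PMap.fst)
    obtain ⟨a, l⟩ := p
    rcases a with _ | j
    · exact (PFun.apply l).comp (PMap.fst.comp PMap.fst)
    · have h : PS k fun x : ((Fin (d + 1) → ℂ) × t.E) × (J × Fin (d + 1) → ℂ) =>
          ch Δ x.1.1 (arc x.2) j := by
        unfold ch lin
        exact ps_add (ps_sum _ fun m _ => ps_mul (ps_comp (hps _) PMap.fst)
          (ps_comp (ps_arc m) PMap.snd)) (ps_comp (hps _) PMap.fst)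
      exact h l
  refine (mo_bij (icons_rel (fun i => hps _) (fun i => hps _) (hps _) d hI
    (t.pf.comp PMap.snd)) (icons_zq (pol D) d hQ t) hg ⟨?_, ?_, ?_⟩).symm
  · rintro ⟨⟨v, w⟩, y⟩ ⟨⟨hv, hw⟩, hc⟩
    obtain ⟨ψ, hψ, hC, hX⟩ := S1 (xs x0 v) (xs_zero (hQ0 v hv))
    refine ⟨hw, hv, fun l hl => ?_⟩
    rw [cond Δ ((v, w), y) ψ hψ hC hX hl]
    exact hc l hl
  · rintro ⟨⟨v, w⟩, y⟩ ⟨⟨hv, hw⟩, hc⟩ ⟨⟨v', w'⟩, y'⟩ ⟨⟨hv', hw'⟩, hc'⟩ hxy
    obtain ⟨h1, h2⟩ := Prod.mk.inj hxy
    have hvv : v = v' := by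
      funext l
      exact congrFun h1 (none, l)
    subst hvv
    have hww : w = w' := h2
    subst hww
    obtain ⟨ψ, hψ, hC, hX⟩ := S1 (xs x0 v) (xs_zero (hQ0 v hv))
    have h3 : ∀ j, (PowerSeries.X : PowerSeries ℂ) ^ (d + 1) ∣
        ch Δ v (arc y) j - ch Δ v (arc y') j := by
      intro j
      rw [PowerSeries.X_pow_dvd_iff]
      intro m hm
      rw [map_sub, sub_eq_zero]
      exact congrFun h1 (some j, ⟨m, hm⟩)
    have h4 : ∀ j, (PowerSeries.X : PowerSeries ℂ) ^ (d + 1) ∣ arc y j - arc y' j := by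
      intro j
      have e : arc y j - arc y' j = ∑ m, ψ (Δ.A' j m) * (ch Δ v (arc y) m - ch Δ v (arc y') m) := by
        have e1 : ∀ m, ch Δ v (arc y) m - ch Δ v (arc y') m =
            ∑ n, ψ (Δ.A m n) * (arc y n - arc y' n) := by
          intro m
          unfold ch lin
          simp only [hψ, mul_sub, Finset.sum_sub_distrib]
          ring
        simp only [e1]
        rw [mul_one_apply ψ Δ.r]
      rw [e]
      exact Finset.dvd_sum fun m _ => Dvd.dvd.mul_left (h3 m) _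
    have h5 : y = y' := by
      rw [← tr_arc y, ← tr_arc y', tr_of_dvd h4]
    rw [h5]
  · rintro ⟨φ, w⟩ ⟨hw, hv, hc⟩
    obtain ⟨ψ, hψ, hC, hX⟩ := S1 (xs x0 fun l => φ (none, l)) (xs_zero (hQ0 _ hv))
    obtain ⟨Y, hY⟩ : ∃ Y : J → PowerSeries ℂ, Y = fun j => ∑ m, ψ (Δ.A' j m) *
      (arc φ (some m) - ψ (Δ.s m)) := ⟨_, rfl⟩
    have hch : ∀ j, (PowerSeries.X : PowerSeries ℂ) ^ (d + 1) ∣
        ch Δ (fun l => φ (none, l)) (arc (tr d Y)) j - arc φ (some j) := by
      intro j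
      have e1 : ch Δ (fun l => φ (none, l)) Y j = arc φ (some j) := by
        have e2 : ch Δ (fun l => φ (none, l)) Y j = ∑ m, ψ (Δ.A j m) * Y m + ψ (Δ.s j) := by
          unfold ch lin
          simp only [hψ]
        rw [e2, hY]
        simp only []
        rw [mul_one_apply ψ Δ.l (fun m => arc φ (some m) - ψ (Δ.s m))]
        ring
      have h1 := lin_congr (fun i j => sb (xs x0 fun l => φ (none, l)) (Δ.A i j))
        (fun j => sb (xs x0 fun l => φ (none, l)) (Δ.s j)) ((PowerSeries.X : PowerSeries ℂ) ^ (d + 1))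
        (arc_tr d Y) j
      rw [← e1]
      exact h1
    have hgm : gm Δ ((fun l => φ (none, l), w), tr d Y) = (φ, w) := by
      refine Prod.ext ?_ rfl
      funext p
      obtain ⟨a, l⟩ := p
      rcases a with _ | j
      · rfl
      · have h1 := PowerSeries.X_pow_dvd_iff.1 (hch j) l l.2
        rw [map_sub, sub_eq_zero, coeff_arc, dif_pos l.2] at h1
        exact h1
    refine ⟨((fun l => φ (none, l), w), tr d Y), ⟨⟨hv, hw⟩, fun l hl => ?_⟩, hgm⟩
    rw [← cond Δ ((fun l => φ (none, l), w), tr d Y) ψ hψ hC hX hl, hgm]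
    exact hc l hl

end Pool.Agent.H87.QF
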