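import Pool.Agent.H87.QF.Stmts

/-! # Project QFM, row CON: four elementary families -/

set_option autoImplicit false

namespace Pool.Agent.H87.QF

open MvPolynomial Pool.Agent.H39.MonoR Pool.Agent.H75.Mono

section CON

variable {R : Type*} [CommRing R]

open Classical in
/-- the series of the points `(n, d)` with `P n d` -/
noncomputable def conSer (G : ℕ → ℕ → R) (P : ℕ → ℕ → Prop) : PowerSeries R :=
  PowerSeries.mk fun d => ∑ n ∈ (Finset.range (d + 1)).filter (fun n => P n d), G n d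

theorem conSer_coeff (G : ℕ → ℕ → R) (P : ℕ → ℕ → Prop) [∀ n d, Decidable (P n d)] (d : ℕ) :
    PowerSeries.coeff d (conSer G P) =
      ∑ n ∈ (Finset.range (d + 1)).filter (fun n => P n d), G n d := by
  unfold conSer
  rw [PowerSeries.coeff_mk]
  exact Finset.sum_congr (by ext n; simp) fun _ _ => rfl

/-- multiplication by `1 - u^e T^B` removes the translate by `(A, B)` -/
theorem con_shift {u : Rˣ} {e : ℤ} {A B : ℕ} {G : ℕ → ℕ → R} {P P'' : ℕ → ℕ → Prop}
    (hle : ∀ n d, P n d → n ≤ d)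
    (hG : ∀ n d, P n d → G (n + A) (d + B) = ↑(u ^ e) * G n d)
    (hP : ∀ n d, P n d → P (n + A) (d + B))
    (h'' : ∀ n d, P'' n d ↔ P n d ∧ ¬ (A ≤ n ∧ B ≤ d ∧ P (n - A) (d - B))) :
    den' u (e, B) * conSer G P = conSer G P'' := by
  classical
  ext d
  unfold den'
  rw [sub_mul, one_mul, map_sub, mul_assoc, PowerSeries.coeff_C_mul, PowerSeries.coeff_X_pow_mul',
    conSer_coeff G P d, conSer_coeff G P'' d]
  have hsplit : (∑ n ∈ (Finset.range (d + 1)).filter (fun n => P n d), G n d) =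
      (∑ n ∈ (Finset.range (d + 1)).filter (fun n => A ≤ n ∧ B ≤ d ∧ P (n - A) (d - B)), G n d) +
      ∑ n ∈ (Finset.range (d + 1)).filter (fun n => P'' n d), G n d := by
    rw [← Finset.sum_union]
    · refine Finset.sum_congr ?_ (fun _ _ => rfl)
      ext n
      simp only [Finset.mem_union, Finset.mem_filter]
      rw [h'']
      constructor
      · rintro ⟨h1, h2⟩
        by_cases h4 : A ≤ n ∧ B ≤ d ∧ P (n - A) (d - B)
        · exact Or.inl ⟨h1, h4⟩
        · exact Or.inr ⟨h1, h2, h4⟩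
      · rintro (⟨h1, h2, h3, h4⟩ | ⟨h1, h2, -⟩)
        · refine ⟨h1, ?_⟩
          have := hP _ _ h4
          rwa [Nat.sub_add_cancel h2, Nat.sub_add_cancel h3] at this
        · exact ⟨h1, h2⟩
    · rw [Finset.disjoint_left]
      intro n h1 h2
      rw [Finset.mem_filter] at h1 h2
      exact ((h'' _ _).1 h2.2).2 h1.2
  have hsum : (∑ n ∈ (Finset.range (d + 1)).filter
      (fun n => A ≤ n ∧ B ≤ d ∧ P (n - A) (d - B)), G n d) =
      ↑(u ^ e) * (if B ≤ d then PowerSeries.coeff (d - B) (conSer G P) else 0) := by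
    split_ifs with hD
    · rw [conSer_coeff, Finset.mul_sum]
      symm
      refine Finset.sum_bij' (fun n _ => n + A) (fun n _ => n - A) ?_ ?_ ?_ ?_ ?_
      · intro n hn
        rw [Finset.mem_filter] at hn ⊢
        have h1 := hle _ _ (hP _ _ hn.2)
        rw [Nat.sub_add_cancel hD] at h1
        refine ⟨Finset.mem_range.2 (by omega), by omega, hD, ?_⟩
        rw [Nat.add_sub_cancel]
        exact hn.2
      · intro n hn
        rw [Finset.mem_filter] at hn ⊢
        obtain ⟨-, -, -, h3⟩ := hn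
        have h1 := hle _ _ h3
        exact ⟨Finset.mem_range.2 (by omega), h3⟩
      · intro n _
        simp
      · intro n hn
        rw [Finset.mem_filter] at hn
        exact Nat.sub_add_cancel hn.2.1
      · intro n hn
        rw [Finset.mem_filter] at hn
        have := hG _ _ hn.2
        rw [Nat.sub_add_cancel hD] at this
        exact this.symm
    · rw [mul_zero]
      refine Finset.sum_eq_zero (fun n hn => ?_)
      rw [Finset.mem_filter] at hn
      exact absurd hn.2.2.1 hD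
  rw [hsplit, hsum, add_sub_cancel_left]

theorem conSer_zero {G : ℕ → ℕ → R} {P : ℕ → ℕ → Prop} {N : ℕ} (h : ∀ n d, P n d → d < N)
    (d : ℕ) (hd : N ≤ d) : PowerSeries.coeff d (conSer G P) = 0 := by
  classical
  rw [conSer_coeff]
  refine Finset.sum_eq_zero fun n hn => ?_
  rw [Finset.mem_filter] at hn
  exact absurd (h n d hn.2) (by omega)

/-- one shift -/
theorem con_one {u : Rˣ} {T : Type*} {e : ℤ} {A B N : ℕ} {G : ℕ → ℕ → T → R}
    {P P'' : ℕ → ℕ → Prop}
    (hle : ∀ n d, P n d → n ≤ d)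
    (hG : ∀ n d t, P n d → G (n + A) (d + B) t = ↑(u ^ e) * G n d t)
    (hP : ∀ n d, P n d → P (n + A) (d + B))
    (h'' : ∀ n d, P'' n d ↔ P n d ∧ ¬ (A ≤ n ∧ B ≤ d ∧ P (n - A) (d - B)))
    (hN : ∀ n d, P'' n d → d < N) :
    RatF u {(e, B)} fun t : T => conSer (fun n d => G n d t) P := by
  refine ⟨{(e, B)}, ?_, N, ?_⟩
  · intro p hp
    rw [Multiset.mem_singleton] at hp
    exact hp
  · intro t d hd
    rw [Multiset.map_singleton, Multiset.prod_singleton,
      con_shift (G := fun n d => G n d t) hle (fun n d h => hG n d t h) hP h'']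
    exact conSer_zero hN d hd

/-- two shifts -/
theorem con_two {u : Rˣ} {T : Type*} {e e' : ℤ} {A B A' B' N : ℕ} {G : ℕ → ℕ → T → R}
    {P P₁ P₂ : ℕ → ℕ → Prop}
    (hle : ∀ n d, P n d → n ≤ d)
    (hG : ∀ n d t, P n d → G (n + A) (d + B) t = ↑(u ^ e) * G n d t)
    (hP : ∀ n d, P n d → P (n + A) (d + B))
    (h₁ : ∀ n d, P₁ n d ↔ P n d ∧ ¬ (A ≤ n ∧ B ≤ d ∧ P (n - A) (d - B)))
    (hG' : ∀ n d t, P n d → G (n + A') (d + B') t = ↑(u ^ e') * G n d t)
    (hP' : ∀ n d, P₁ n d → P₁ (n + A') (d + B'))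
    (h₂ : ∀ n d, P₂ n d ↔ P₁ n d ∧ ¬ (A' ≤ n ∧ B' ≤ d ∧ P₁ (n - A') (d - B')))
    (hN : ∀ n d, P₂ n d → d < N) :
    RatF u {(e, B), (e', B')} fun t : T => conSer (fun n d => G n d t) P := by
  refine ⟨{(e, B), (e', B')}, ?_, N, ?_⟩
  · intro p hp
    simpa using hp
  · intro t d hd
    have e1 : (Multiset.map (den' u) {(e, B), (e', B')}).prod * conSer (fun n d => G n d t) P =
        den' u (e', B') * (den' u (e, B) * conSer (fun n d => G n d t) P) := by
      rw [Multiset.insert_eq_cons, Multiset.map_cons, Multiset.prod_cons, Multiset.map_singleton,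
        Multiset.prod_singleton]
      ring
    rw [e1, con_shift (G := fun n d => G n d t) hle (fun n d h => hG n d t h) hP h₁,
      con_shift (G := fun n d => G n d t) (fun n d h => hle n d ((h₁ n d).1 h).1)
        (fun n d h => hG' n d t ((h₁ n d).1 h).1) hP' h₂]
    exact conSer_zero hN d hd

end CON

theorem CON : CONStmt := by
  intro R _ u T
  refine ⟨?_, ?_, ?_, ?_⟩
  · intro G τ τ' a a' hτ hττ hG
    obtain ⟨δ, rfl⟩ := Nat.exists_eq_add_of_lt hττ
    have key := con_two (u := u) (T := T) (e := a) (e' := a') (A := 2) (B := 2 * τ) (A' := 2)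
      (B' := 2 * (τ + δ + 1)) (N := 3 * (τ + δ + 1)) (G := G)
      (P := fun n d => 1 ≤ n ∧ n * τ ≤ d ∧ d < n * (τ + δ + 1))
      (P₁ := fun n d => 1 ≤ n ∧ n * τ ≤ d ∧ d < n * (τ + δ + 1) ∧
        n * (τ + δ + 1) ≤ d + 2 * (δ + 1))
      (P₂ := fun n d => (1 ≤ n ∧ n * τ ≤ d ∧ d < n * (τ + δ + 1) ∧
        n * (τ + δ + 1) ≤ d + 2 * (δ + 1)) ∧ ¬ (2 ≤ n ∧ 2 * (τ + δ + 1) ≤ d ∧
          (1 ≤ n - 2 ∧ (n - 2) * τ ≤ d - 2 * (τ + δ + 1) ∧
            d - 2 * (τ + δ + 1) < (n - 2) * (τ + δ + 1) ∧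
            (n - 2) * (τ + δ + 1) ≤ d - 2 * (τ + δ + 1) + 2 * (δ + 1))))
      ?_ ?_ ?_ ?_ ?_ ?_ ?_ ?_
    · refine Eq.subst (motive := fun F => RatF u _ F) ?_ key
      funext t
      ext d
      rw [conSer_coeff, PowerSeries.coeff_mk]
    · rintro n d ⟨h1, h2, -⟩
      exact (Nat.le_mul_of_pos_right n hτ).trans h2
    · rintro n d t ⟨h1, h2, h3⟩
      exact (hG n d t h1 h2 h3).1
    · rintro n d ⟨h1, h2, h3⟩
      refine ⟨by omega, by nlinarith, by nlinarith⟩
    · intro n d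
      constructor
      · rintro ⟨h1, h2, h3, h4⟩
        refine ⟨⟨h1, h2, h3⟩, ?_⟩
        rintro ⟨h5, h6, h7, h8, h9⟩
        obtain ⟨m, rfl⟩ := Nat.exists_eq_add_of_le h5
        obtain ⟨q, rfl⟩ := Nat.exists_eq_add_of_le h6
        rw [Nat.add_sub_cancel_left] at h7 h8 h9
        rw [Nat.add_sub_cancel_left] at h8 h9
        nlinarith
      · rintro ⟨⟨h1, h2, h3⟩, h4⟩
        refine ⟨h1, h2, h3, ?_⟩
        by_contra h5
        push Not at h5
        apply h4
        have hn : 3 ≤ n := by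
          by_contra hn
          have : n = 1 ∨ n = 2 := by omega
          rcases this with rfl | rfl <;> nlinarith
        obtain ⟨m, rfl⟩ := Nat.exists_eq_add_of_le hn
        have h6 : 2 * τ ≤ d := by nlinarith
        obtain ⟨q, rfl⟩ := Nat.exists_eq_add_of_le h6
        refine ⟨by omega, h6, by omega, ?_, ?_⟩
        · rw [Nat.add_sub_cancel_left, show 3 + m - 2 = 1 + m by omega]
          nlinarith
        · rw [Nat.add_sub_cancel_left, show 3 + m - 2 = 1 + m by omega]
          nlinarith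
    · rintro n d t ⟨h1, h2, h3⟩
      exact (hG n d t h1 h2 h3).2
    · rintro n d ⟨h1, h2, h3, h4⟩
      refine ⟨by omega, by nlinarith, by nlinarith, by nlinarith⟩
    · intro n d
      exact Iff.rfl
    · rintro n d ⟨⟨h1, h2, h3, h4⟩, h5⟩
      by_contra h6
      push Not at h6
      apply h5
      have hn : 4 ≤ n := by
        by_contra hn
        have : n * (τ + δ + 1) ≤ 3 * (τ + δ + 1) := Nat.mul_le_mul_right _ (by omega)
        omega
      obtain ⟨m, rfl⟩ := Nat.exists_eq_add_of_le hn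
      have h7 : 2 * (τ + δ + 1) ≤ d := by omega
      obtain ⟨q, rfl⟩ := Nat.exists_eq_add_of_le h7
      rw [Nat.add_sub_cancel_left, show 4 + m - 2 = 2 + m by omega]
      refine ⟨by omega, h7, by omega, by nlinarith, by nlinarith, by nlinarith⟩
  · intro G τ a a' hτ hG
    have key := con_two (u := u) (T := T) (e := a) (e' := a') (A := 2) (B := 2 * τ) (A' := 0)
      (B' := 2) (N := 2 * τ + 2) (G := G)
      (P := fun n d => 1 ≤ n ∧ n * τ ≤ d)
      (P₁ := fun n d => (1 ≤ n ∧ n ≤ 2) ∧ n * τ ≤ d)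
      (P₂ := fun n d => ((1 ≤ n ∧ n ≤ 2) ∧ n * τ ≤ d) ∧ ¬ (0 ≤ n ∧ 2 ≤ d ∧
          ((1 ≤ n - 0 ∧ n - 0 ≤ 2) ∧ (n - 0) * τ ≤ d - 2)))
      ?_ ?_ ?_ ?_ ?_ ?_ ?_ ?_
    · refine Eq.subst (motive := fun F => RatF u _ F) ?_ key
      funext t
      ext d
      rw [conSer_coeff, PowerSeries.coeff_mk]
    · rintro n d ⟨h1, h2⟩
      exact (Nat.le_mul_of_pos_right n hτ).trans h2
    · rintro n d t ⟨h1, h2⟩
      exact (hG n d t h1 h2).1
    · rintro n d ⟨h1, h2⟩
      exact ⟨by omega, by nlinarith⟩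
    · intro n d
      constructor
      · rintro ⟨⟨h1, h1'⟩, h2⟩
        refine ⟨⟨h1, h2⟩, ?_⟩
        rintro ⟨h5, h6, h7, h8⟩
        omega
      · rintro ⟨⟨h1, h2⟩, h4⟩
        refine ⟨⟨h1, ?_⟩, h2⟩
        by_contra h5
        push Not at h5
        apply h4
        obtain ⟨m, rfl⟩ := Nat.exists_eq_add_of_lt h5
        have h6 : 2 * τ ≤ d := by nlinarith
        obtain ⟨q, rfl⟩ := Nat.exists_eq_add_of_le h6
        rw [Nat.add_sub_cancel_left, show 2 + m + 1 - 2 = m + 1 by omega]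
        exact ⟨by omega, h6, by omega, by nlinarith⟩
    · rintro n d t ⟨h1, h2⟩
      exact (hG n d t h1 h2).2
    · rintro n d ⟨⟨h1, h1'⟩, h2⟩
      exact ⟨⟨by omega, by omega⟩, by rw [Nat.add_zero]; omega⟩
    · intro n d
      exact Iff.rfl
    · rintro n d ⟨⟨⟨h1, h1'⟩, h2⟩, h5⟩
      by_contra h6
      push Not at h6
      apply h5
      have : n * τ ≤ 2 * τ := Nat.mul_le_mul_right _ h1'
      rw [Nat.sub_zero]
      exact ⟨by omega, by omega, ⟨h1, h1'⟩, by omega⟩
  · intro G τ a hτ hG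
    have key := con_one (u := u) (T := T) (e := a) (A := 2) (B := 2 * τ) (N := 2 * τ + 1)
      (G := fun n _ t => G n t)
      (P := fun n d => 1 ≤ n ∧ n * τ = d)
      (P'' := fun n d => (1 ≤ n ∧ n ≤ 2) ∧ n * τ = d)
      ?_ ?_ ?_ ?_ ?_
    · refine Eq.subst (motive := fun F => RatF u _ F) ?_ key
      funext t
      ext d
      rw [conSer_coeff, PowerSeries.coeff_mk]
    · rintro n d ⟨h1, h2⟩
      exact (Nat.le_mul_of_pos_right n hτ).trans h2.le
    · rintro n d t ⟨h1, h2⟩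
      exact hG n t h1
    · rintro n d ⟨h1, h2⟩
      exact ⟨by omega, by rw [Nat.add_mul, h2]⟩
    · intro n d
      constructor
      · rintro ⟨⟨h1, h1'⟩, h2⟩
        refine ⟨⟨h1, h2⟩, ?_⟩
        rintro ⟨h5, h6, h7, h8⟩
        omega
      · rintro ⟨⟨h1, h2⟩, h4⟩
        refine ⟨⟨h1, ?_⟩, h2⟩
        by_contra h5
        push Not at h5
        apply h4
        obtain ⟨m, rfl⟩ := Nat.exists_eq_add_of_lt h5
        subst h2
        have h6 : 2 * τ ≤ (2 + m + 1) * τ := Nat.mul_le_mul_right _ (by omega)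
        refine ⟨by omega, h6, by omega, ?_⟩
        rw [Nat.sub_mul]
    · rintro n d ⟨⟨h1, h1'⟩, h2⟩
      have : n * τ ≤ 2 * τ := Nat.mul_le_mul_right _ h1'
      omega
  · intro G τ a hτ hG
    have key := con_one (u := u) (T := T) (e := a) (A := 2 * τ) (B := 2 * τ) (N := 2 * τ + 1)
      (G := fun n _ t => G n t)
      (P := fun n d => 1 ≤ n ∧ n = d)
      (P'' := fun n d => (1 ≤ n ∧ n ≤ 2 * τ) ∧ n = d)
      ?_ ?_ ?_ ?_ ?_
    · refine Eq.subst (motive := fun F => RatF u _ F) ?_ key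
      funext t
      ext d
      rw [conSer_coeff, PowerSeries.coeff_mk]
      rcases Nat.eq_zero_or_pos d with rfl | hd
      · rw [if_pos rfl]
        refine Finset.sum_eq_zero fun n hn => ?_
        rw [Finset.mem_filter] at hn
        omega
      · rw [if_neg (by omega), Finset.sum_eq_single d]
        · intro n hn hne
          rw [Finset.mem_filter] at hn
          exact absurd hn.2.2 hne
        · intro hn
          exfalso
          apply hn
          rw [Finset.mem_filter]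
          exact ⟨Finset.mem_range.2 (by omega), hd, rfl⟩
    · rintro n d ⟨h1, h2⟩
      exact h2.le
    · rintro n d t ⟨h1, h2⟩
      exact hG n t h1
    · rintro n d ⟨h1, h2⟩
      exact ⟨by omega, by omega⟩
    · intro n d
      constructor
      · rintro ⟨⟨h1, h1'⟩, h2⟩
        refine ⟨⟨h1, h2⟩, ?_⟩
        rintro ⟨h5, h6, h7, h8⟩
        omega
      · rintro ⟨⟨h1, h2⟩, h4⟩
        refine ⟨⟨h1, ?_⟩, h2⟩
        by_contra h5
        push Not at h5
        apply h4
        exact ⟨by omega, by omega, by omega, by omega⟩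
    · rintro n d ⟨⟨h1, h1'⟩, h2⟩
      omega

end Pool.Agent.H87.QF
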