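import Pool.Agent.H87.QF.Stmts

/-! # Row DGN of the board `qfm`: reduced diagonal forms exist -/

set_option autoImplicit false

namespace Pool.Agent.H87.QF

open Matrix

private theorem dgn_quad {R J : Type} [CommRing R] [Fintype J] [DecidableEq J] (D : QD R J)
    (A : Matrix J J R) (U0 : J → R) (i2 : R) (h2 : i2 * 2 = 1)
    (hA : A.transpose * (Matrix.of fun i j => D.a i j + D.a j i) * A = Matrix.diagonal U0)
    {S : Type} [CommRing S] (φ : R →+* S) (z : J → S) :
    D.val φ (fun j => ∑ m, φ (A j m) * z m) =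
      ∑ i, φ (i2 * U0 i) * z i ^ 2 + ∑ i, φ (∑ j, D.b j * A j i) * z i + φ D.c := by
  set x : J → S := fun j => ∑ m, φ (A j m) * z m with hx
  set Sm : Matrix J J R := Matrix.of fun i j => D.a i j + D.a j i with hSm
  have hx' : x = (A.map φ) *ᵥ z := by
    funext j
    simp [hx, Matrix.mulVec, dotProduct]
  have h1 : (A.map φ).transpose * Sm.map φ * A.map φ = Matrix.diagonal fun i => φ (U0 i) := by
    have h := congrArg (fun M : Matrix J J R => M.map φ) hA
    simp only [Matrix.map_mul, Matrix.transpose_map] at h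
    rw [h, Matrix.diagonal_map (map_zero φ)]
  have h3 : z ⬝ᵥ (((A.map φ).transpose * Sm.map φ * A.map φ) *ᵥ z) =
      x ⬝ᵥ ((Sm.map φ) *ᵥ x) := by
    rw [← Matrix.mulVec_mulVec, ← Matrix.mulVec_mulVec, ← hx', Matrix.dotProduct_mulVec,
      Matrix.vecMul_transpose, ← hx']
  have h4 : x ⬝ᵥ ((Sm.map φ) *ᵥ x) = 2 * ∑ i, ∑ j, φ (D.a i j) * (x i * x j) := by
    have e : x ⬝ᵥ ((Sm.map φ) *ᵥ x) = ∑ i, ∑ j, φ (D.a i j) * (x i * x j) +
        ∑ i, ∑ j, φ (D.a j i) * (x i * x j) := by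
      simp only [dotProduct, Matrix.mulVec, Finset.mul_sum, ← Finset.sum_add_distrib]
      refine Finset.sum_congr rfl fun i _ => Finset.sum_congr rfl fun j _ => ?_
      simp only [hSm, Matrix.map_apply, Matrix.of_apply, map_add]
      ring
    have e2 : ∑ i, ∑ j, φ (D.a j i) * (x i * x j) = ∑ i, ∑ j, φ (D.a i j) * (x i * x j) := by
      rw [Finset.sum_comm]
      refine Finset.sum_congr rfl fun i _ => Finset.sum_congr rfl fun j _ => ?_
      rw [mul_comm (x j) (x i)]
    rw [e, e2]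
    ring
  have h5 : z ⬝ᵥ ((Matrix.diagonal fun i => φ (U0 i)) *ᵥ z) = ∑ i, φ (U0 i) * z i ^ 2 := by
    simp only [dotProduct, Matrix.mulVec_diagonal]
    exact Finset.sum_congr rfl fun i _ => by ring
  have h6 : 2 * ∑ i, ∑ j, φ (D.a i j) * (x i * x j) = ∑ i, φ (U0 i) * z i ^ 2 := by
    rw [← h4, ← h3, h1, h5]
  have h7 : ∑ i, ∑ j, φ (D.a i j) * (x i * x j) = ∑ i, φ (i2 * U0 i) * z i ^ 2 := by
    have : φ i2 * 2 = 1 := by
      have := congrArg φ h2
      rwa [map_mul, map_one, map_ofNat] at this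
    calc ∑ i, ∑ j, φ (D.a i j) * (x i * x j)
        = φ i2 * (2 * ∑ i, ∑ j, φ (D.a i j) * (x i * x j)) := by
          rw [← mul_assoc, this, one_mul]
      _ = ∑ i, φ (i2 * U0 i) * z i ^ 2 := by
          rw [h6, Finset.mul_sum]
          exact Finset.sum_congr rfl fun i _ => by rw [map_mul]; ring
  have h8 : ∑ i, φ (D.b i) * x i = ∑ i, φ (∑ j, D.b j * A j i) * z i := by
    simp only [hx, Finset.mul_sum, map_sum, map_mul, Finset.sum_mul]
    rw [Finset.sum_comm]
    exact Finset.sum_congr rfl fun i _ => Finset.sum_congr rfl fun j _ => by ring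
  show ∑ i, ∑ j, φ (D.a i j) * (x i * x j) + ∑ i, φ (D.b i) * x i + φ D.c = _
  rw [h7, h8]

theorem DGN (h1 : DIAStmt) : DGNStmt := by
  intro R _ _ _ hu J _ _ D
  classical
  obtain ⟨A, A', U0, hl, hr, hA⟩ := h1 R hu J (Matrix.of fun i j => D.a i j + D.a j i) (by
    ext i j
    simp [Matrix.transpose_apply, add_comm])
  obtain ⟨i2, h2⟩ := hu.exists_left_inv
  set U : J → R := fun i => i2 * U0 i with hU
  set B0 : J → R := fun i => ∑ j, D.b j * A j i with hB0
  set s' : J → R := fun i => if h : U i ∣ B0 i then -(h.choose * i2) else 0 with hs'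
  have hRed : ∀ i, 2 * U i * s' i + B0 i = 0 ∨ ¬ U i ∣ 2 * U i * s' i + B0 i := by
    intro i
    by_cases h : U i ∣ B0 i
    · left
      have e := h.choose_spec
      have : s' i = -(h.choose * i2) := by simp only [hs']; rw [dif_pos h]
      rw [this]
      linear_combination (-(U i * Exists.choose h)) * h2 + e
    · right
      have : s' i = 0 := by simp only [hs']; rw [dif_neg h]
      rw [this]
      simpa using h
  refine ⟨⟨A, A', hl, hr, fun j => ∑ m, A j m * s' m, U, fun i => 2 * U i * s' i + B0 i,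
    D.c + ∑ i, (U i * s' i ^ 2 + B0 i * s' i), ?_⟩, hRed⟩
  intro S _ φ y
  have e : (fun j => ∑ m, φ (A j m) * y m + φ (∑ m, A j m * s' m)) =
      fun j => ∑ m, φ (A j m) * (y m + φ (s' m)) := by
    funext j
    rw [map_sum, ← Finset.sum_add_distrib]
    exact Finset.sum_congr rfl fun m _ => by rw [map_mul]; ring
  rw [e, dgn_quad D A U0 i2 h2 hA φ (fun m => y m + φ (s' m))]
  rw [map_add, map_sum]
  have e2 : ∑ i, φ (U i) * (y i + φ (s' i)) ^ 2 + ∑ i, φ (B0 i) * (y i + φ (s' i)) =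
      ∑ i, φ (U i) * y i ^ 2 + ∑ i, φ (2 * U i * s' i + B0 i) * y i +
        ∑ i, φ (U i * s' i ^ 2 + B0 i * s' i) := by
    rw [← Finset.sum_add_distrib, ← Finset.sum_add_distrib, ← Finset.sum_add_distrib]
    refine Finset.sum_congr rfl fun i _ => ?_
    simp only [map_add, map_mul, map_pow, map_ofNat]
    ring
  show ∑ i, φ (U i) * (y i + φ (s' i)) ^ 2 + ∑ i, φ (B0 i) * (y i + φ (s' i)) + φ D.c = _
  rw [e2]
  ring

end Pool.Agent.H87.QF
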