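import Pool.Agent.H87.QF.Defs

/-! # QFM, base: the derivation `dX` of `k⟦X⟧[y]` -/

set_option autoImplicit false

namespace Pool.Agent.H87.QF

open MvPolynomial

section DX

variable {k : Type} [Field k] {J : Type}

theorem coeff_dX (q : MvPolynomial J (PowerSeries k)) (m : J →₀ ℕ) :
    coeff m (dX q) = PowerSeries.derivative k (coeff m q) := by
  classical
  rw [dX, coeff_sum]
  simp only [coeff_monomial]
  rw [Finset.sum_ite_eq' q.support m]
  split_ifs with h
  · rfl
  · rw [notMem_support_iff.1 h, map_zero]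

theorem dX_add (p q : MvPolynomial J (PowerSeries k)) : dX (p + q) = dX p + dX q := by
  ext1 m
  rw [coeff_dX, coeff_add, coeff_add, coeff_dX, coeff_dX, map_add]

@[simp] theorem dX_zero : dX (0 : MvPolynomial J (PowerSeries k)) = 0 := by
  ext1 m
  rw [coeff_dX, coeff_zero, map_zero]

theorem dX_smul (c : k) (q : MvPolynomial J (PowerSeries k)) : dX (c • q) = c • dX q := by
  ext1 m
  rw [coeff_dX, coeff_smul, coeff_smul, coeff_dX, Derivation.map_smul]

theorem dX_mul (p q : MvPolynomial J (PowerSeries k)) : dX (p * q) = dX p * q + p * dX q := by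
  classical
  ext1 m
  rw [coeff_dX, coeff_mul, map_sum, coeff_add, coeff_mul, coeff_mul, ← Finset.sum_add_distrib]
  refine Finset.sum_congr rfl fun x _ => ?_
  rw [Derivation.leibniz, coeff_dX, coeff_dX, smul_eq_mul, smul_eq_mul]
  ring

/-- `dX` as a derivation -/
noncomputable def dXD : Derivation k (MvPolynomial J (PowerSeries k))
    (MvPolynomial J (PowerSeries k)) :=
  Derivation.mk' ⟨⟨dX, dX_add⟩, dX_smul⟩ fun p q => by
    change dX (p * q) = p • dX q + q • dX p
    rw [dX_mul, smul_eq_mul, smul_eq_mul]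
    ring

theorem dXD_apply (q : MvPolynomial J (PowerSeries k)) : dXD q = dX q := rfl

theorem dX_neg (q : MvPolynomial J (PowerSeries k)) : dX (-q) = -dX q := by
  rw [← dXD_apply, map_neg, dXD_apply]

theorem dX_sub (p q : MvPolynomial J (PowerSeries k)) : dX (p - q) = dX p - dX q := by
  rw [← dXD_apply, map_sub, dXD_apply, dXD_apply]

theorem dX_sum {ι : Type*} (s : Finset ι) (q : ι → MvPolynomial J (PowerSeries k)) :
    dX (∑ i ∈ s, q i) = ∑ i ∈ s, dX (q i) := by
  rw [← dXD_apply, map_sum]
  rfl

theorem dX_pow (q : MvPolynomial J (PowerSeries k)) (n : ℕ) :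
    dX (q ^ n) = n * q ^ (n - 1) * dX q := by
  rw [← dXD_apply, Derivation.leibniz_pow, dXD_apply, nsmul_eq_mul, smul_eq_mul, mul_assoc]

theorem dX_C (u : PowerSeries k) : dX (C u : MvPolynomial J (PowerSeries k)) =
    C (PowerSeries.derivative k u) := by
  classical
  ext1 m
  rw [coeff_dX, coeff_C, coeff_C]
  split_ifs with h
  · rfl
  · rw [map_zero]

@[simp] theorem dX_X (j : J) : dX (X j : MvPolynomial J (PowerSeries k)) = 0 := by
  classical
  ext1 m
  rw [coeff_dX, coeff_X, coeff_zero]
  split_ifs with h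
  · rw [← map_one (PowerSeries.C (R := k)), PowerSeries.derivative_C]
  · rw [map_zero]

theorem dX_C_mul (u : PowerSeries k) (q : MvPolynomial J (PowerSeries k)) :
    dX (C u * q) = C (PowerSeries.derivative k u) * q + C u * dX q := by
  rw [dX_mul, dX_C]

theorem dX_X_pow (j : J) (n : ℕ) : dX ((X j : MvPolynomial J (PowerSeries k)) ^ n) = 0 := by
  rw [dX_pow, dX_X, mul_zero]

theorem dX_pderiv (i : J) (q : MvPolynomial J (PowerSeries k)) :
    dX (pderiv i q) = pderiv i (dX q) := by
  induction q using MvPolynomial.induction_on with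
  | C u => rw [pderiv_C, dX_zero, dX_C, pderiv_C]
  | add p q hp hq => rw [map_add, dX_add, dX_add, map_add, hp, hq]
  | mul_X p j hp =>
    classical
    rw [Derivation.leibniz, dX_mul, dX_X, mul_zero, add_zero, Derivation.leibniz, smul_eq_mul,
      smul_eq_mul, smul_eq_mul, smul_eq_mul, dX_add, dX_mul, dX_mul, dX_X, hp, pderiv_X]
    by_cases h : i = j
    · subst h
      rw [Pi.single_eq_same, ← map_one (C (R := PowerSeries k)), dX_C,
        ← map_one (PowerSeries.C (R := k)), PowerSeries.derivative_C]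
      simp
    · rw [Pi.single_eq_of_ne (fun h' => h h'.symm)]
      simp

end DX

end Pool.Agent.H87.QF
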