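import Pool.Agent.H87.QF.Stmts
import Pool.Agent.H87.QF.Base

/-! # QFM, row ECH: from a pre-chain of the diagonal form to a chain of `pol D` -/

set_option autoImplicit false

namespace Pool.Agent.H87.QF

open MvPolynomial Pool.Agent.H39.MonoR Pool.Agent.H75.Mono

namespace ECHx

section Val

variable {R J : Type} [CommRing R] [Fintype J]

theorem map_val (D : QD R J) {S T : Type} [CommRing S] [CommRing T] (φ : R →+* S) (ψ : S →+* T)
    (y : J → S) : ψ (D.val φ y) = D.val (ψ.comp φ) fun j => ψ (y j) := by
  simp only [QD.val, map_add, map_sum, map_mul, RingHom.comp_apply]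

theorem val_map (D : QD R J) {S T : Type} [CommRing S] [CommRing T] (φ : R →+* S) (ψ : S →+* T)
    (y : J → T) : (D.map φ).val ψ y = D.val (ψ.comp φ) y := rfl

end Val

variable {k : Type} [Field k] {J : Type} [Fintype J] [DecidableEq J]
  {D : QD (Polynomial k) J} {x0 : k} (Δ : Diag (D.map (tay x0)))

/-- the images of the variables -/
noncomputable def im : Option J → MvPolynomial J (PowerSeries k)
  | none => C (PowerSeries.C x0 + PowerSeries.X)
  | some j => ∑ m, C (Δ.A j m) * X m + C (Δ.s j)

/-- the map `x ↦ x0 + X`, `y ↦ A y + s` -/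
noncomputable def th : MvPolynomial (Option J) k →ₐ[k] MvPolynomial J (PowerSeries k) :=
  aeval (im Δ)

theorem th_X (o : Option J) : th Δ (X o) = im Δ o := aeval_X _ _

theorem th_C (a : k) : th Δ (C a) = C (PowerSeries.C a) := by
  rw [th, aeval_C]
  rfl

theorem th_pol : th Δ (pol D) = gen Δ.U Δ.B Δ.c := by
  have h1 := map_val D (emb k J) (th Δ).toRingHom fun j => X (some j)
  have h2 : (th Δ).toRingHom.comp (emb k J) =
      (C : PowerSeries k →+* MvPolynomial J (PowerSeries k)).comp (tay x0) := by
    apply Polynomial.ringHom_ext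
    · intro a
      simp only [RingHom.comp_apply, emb, tay, AlgHom.toRingHom_eq_coe, RingHom.coe_coe,
        Polynomial.aeval_C]
      rw [AlgHom.commutes]
      rfl
    · simp only [RingHom.comp_apply, emb, tay, AlgHom.toRingHom_eq_coe, RingHom.coe_coe,
        Polynomial.aeval_X]
      exact th_X Δ none
  have h3 := Δ.eq (MvPolynomial J (PowerSeries k)) C X
  rw [h2] at h1
  rw [val_map] at h3
  have h4 : (fun j => (th Δ).toRingHom (X (some j))) =
      fun j => ∑ m, C (Δ.A j m) * X m + C (Δ.s j) := by
    funext j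
    exact th_X Δ (some j)
  rw [h4] at h1
  exact h1.trans h3

theorem pderiv_im_none (l : J) : pderiv l (im Δ none) = 0 := pderiv_C

theorem pderiv_im_some (l j : J) : pderiv l (im Δ (some j)) = C (Δ.A j l) := by
  rw [im, map_add, map_sum, pderiv_C, add_zero, Finset.sum_eq_single l]
  · rw [pderiv_C_mul, pderiv_X_self, mul_one]
  · intro m _ hm
    rw [pderiv_C_mul, pderiv_X_of_ne hm, mul_zero]
  · intro h
    exact absurd (Finset.mem_univ l) h

theorem chain_y (l : J) (q : MvPolynomial (Option J) k) :
    pderiv l (th Δ q) = ∑ j, C (Δ.A j l) * th Δ (pderiv (some j) q) := by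
  induction q using MvPolynomial.induction_on with
  | C a =>
    rw [th_C, pderiv_C]
    simp only [pderiv_C, map_zero, mul_zero, Finset.sum_const_zero]
  | add p q hp hq =>
    rw [map_add, map_add, hp, hq, ← Finset.sum_add_distrib]
    refine Finset.sum_congr rfl fun j _ => ?_
    rw [map_add, map_add, mul_add]
  | mul_X p o hp =>
    rw [map_mul, Derivation.leibniz, hp, smul_eq_mul, smul_eq_mul, th_X]
    simp only [Derivation.leibniz, smul_eq_mul, map_add, map_mul, th_X, mul_add,
      Finset.sum_add_distrib]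
    congr 1
    · rcases o with _ | i
      · rw [pderiv_im_none, mul_zero, eq_comm]
        refine Finset.sum_eq_zero fun j _ => ?_
        rw [pderiv_X_of_ne (by simp), map_zero, mul_zero, mul_zero]
      · rw [pderiv_im_some, Finset.sum_eq_single i]
        · rw [pderiv_X_self, map_one, mul_one, mul_comm]
        · intro j _ hj
          rw [pderiv_X_of_ne (fun h => hj (Option.some.inj h).symm), map_zero, mul_zero, mul_zero]
        · intro h
          exact absurd (Finset.mem_univ i) h
    · rw [Finset.mul_sum]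
      refine Finset.sum_congr rfl fun j _ => ?_
      ring

theorem chain_X (q : MvPolynomial (Option J) k) :
    dX (th Δ q) = th Δ (pderiv none q) + ∑ j, dX (im Δ (some j)) * th Δ (pderiv (some j) q) := by
  induction q using MvPolynomial.induction_on with
  | C a =>
    rw [th_C, dX_C, PowerSeries.derivative_C]
    simp only [pderiv_C, map_zero, mul_zero, Finset.sum_const_zero, add_zero]
  | add p q hp hq =>
    simp only [map_add, dX_add, hp, hq, mul_add, Finset.sum_add_distrib]
    ring
  | mul_X p o hp =>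
    rw [map_mul, dX_mul, hp, th_X]
    simp only [Derivation.leibniz, smul_eq_mul, map_add, map_mul, th_X, mul_add,
      Finset.sum_add_distrib]
    have key : dX (im Δ o) = th Δ (pderiv none (X o)) +
        ∑ j, dX (im Δ (some j)) * th Δ (pderiv (some j) (X o)) := by
      rcases o with _ | i
      · rw [pderiv_X_self, map_one, im, dX_C, map_add, PowerSeries.derivative_C, zero_add]
        have h1 : ∀ j : J, dX (im Δ (some j)) * th Δ (pderiv (some j) (X none)) = 0 := fun j => by
          rw [pderiv_X_of_ne (by simp), map_zero, mul_zero]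
        rw [Finset.sum_eq_zero fun j _ => h1 j, add_zero]
        simp
      · rw [pderiv_X_of_ne (by simp), map_zero, zero_add, Finset.sum_eq_single i]
        · rw [pderiv_X_self, map_one, mul_one]
        · intro j _ hj
          rw [pderiv_X_of_ne (fun h => hj (Option.some.inj h).symm), map_zero, mul_zero]
        · intro h
          exact absurd (Finset.mem_univ i) h
    rw [key, add_mul, mul_add, Finset.sum_mul, Finset.mul_sum]
    have h2 : ∀ j : J, dX (im Δ (some j)) * (th Δ p * th Δ (pderiv (some j) (X o))) =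
        th Δ p * (dX (im Δ (some j)) * th Δ (pderiv (some j) (X o))) := fun j => by ring
    have h3 : ∀ j : J, dX (im Δ (some j)) * (im Δ o * th Δ (pderiv (some j) p)) =
        dX (im Δ (some j)) * th Δ (pderiv (some j) p) * im Δ o := fun j => by ring
    rw [Finset.sum_congr rfl fun j _ => h2 j, Finset.sum_congr rfl fun j _ => h3 j]
    ring

theorem inv_y (j : J) (q : MvPolynomial (Option J) k) :
    th Δ (pderiv (some j) q) = ∑ l, C (Δ.A' l j) * pderiv l (th Δ q) := by
  have h1 : ∀ i : J, ∑ l, Δ.A i l * Δ.A' l j = if i = j then 1 else 0 := fun i => by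
    have := congrFun (congrFun Δ.l i) j
    rw [Matrix.mul_apply, Matrix.one_apply] at this
    exact this
  calc th Δ (pderiv (some j) q)
      = ∑ i, (if i = j then 1 else 0) * th Δ (pderiv (some i) q) := by
        simp only [ite_mul, one_mul, zero_mul, Finset.sum_ite_eq', Finset.mem_univ, if_true]
    _ = ∑ i, (∑ l, C (Δ.A i l) * C (Δ.A' l j)) * th Δ (pderiv (some i) q) := by
        refine Finset.sum_congr rfl fun i _ => ?_
        congr 1
        simp only [← C_mul]
        rw [← map_sum, h1 i]
        split_ifs <;> simp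
    _ = ∑ l, C (Δ.A' l j) * pderiv l (th Δ q) := by
        simp only [chain_y, Finset.sum_mul, Finset.mul_sum]
        rw [Finset.sum_comm]
        refine Finset.sum_congr rfl fun l _ => Finset.sum_congr rfl fun i _ => ?_
        ring

/-! ### the operators -/

variable {s : ℚ} (p : PC (gen Δ.U Δ.B Δ.c) s)

/-- the derivation `∂_(y_j)` -/
noncomputable def Dy (j : J) : Module.End k p.V := ∑ l, p.ρ (C (Δ.A' l j)) * p.D l

/-- the derivations -/
noncomputable def Do : Option J → Module.End k p.V
  | none => p.DX - ∑ j, p.ρ (dX (im Δ (some j))) * Dy Δ p j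
  | some j => Dy Δ p j

theorem comm (q r : MvPolynomial J (PowerSeries k)) (v : p.V) : p.ρ q (p.ρ r v) = p.ρ r (p.ρ q v) := by
  rw [← Module.End.mul_apply, ← map_mul, mul_comm, map_mul, Module.End.mul_apply]

theorem Dy_apply (j : J) (v : p.V) : Dy Δ p j v = ∑ l, p.ρ (C (Δ.A' l j)) (p.D l v) := by
  rw [Dy, LinearMap.sum_apply]
  rfl

theorem leib_y (j : J) (q : MvPolynomial (Option J) k) (v : p.V) :
    Dy Δ p j (p.ρ (th Δ q) v) = p.ρ (th Δ (pderiv (some j) q)) v + p.ρ (th Δ q) (Dy Δ p j v) := by
  rw [Dy_apply, Dy_apply, inv_y, map_sum, LinearMap.sum_apply, map_sum, ← Finset.sum_add_distrib]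
  refine Finset.sum_congr rfl fun l _ => ?_
  rw [p.leib, map_add, comm Δ p (th Δ q), map_mul, Module.End.mul_apply]

theorem leib_o (o : Option J) (q : MvPolynomial (Option J) k) (v : p.V) :
    Do Δ p o (p.ρ (th Δ q) v) = p.ρ (th Δ (pderiv o q)) v + p.ρ (th Δ q) (Do Δ p o v) := by
  rcases o with _ | j
  · have h1 : th Δ (pderiv none q) = dX (th Δ q) -
        ∑ j, dX (im Δ (some j)) * th Δ (pderiv (some j) q) := by
      rw [chain_X]
      ring
    rw [Do, LinearMap.sub_apply, LinearMap.sub_apply, LinearMap.sum_apply, LinearMap.sum_apply,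
      h1, map_sub, LinearMap.sub_apply, map_sum, LinearMap.sum_apply, p.leibX, map_sub, map_sum]
    have h2 : ∀ j : J, (p.ρ (dX (im Δ (some j))) * Dy Δ p j) (p.ρ (th Δ q) v) =
        p.ρ (dX (im Δ (some j)) * th Δ (pderiv (some j) q)) v +
          p.ρ (th Δ q) ((p.ρ (dX (im Δ (some j))) * Dy Δ p j) v) := fun j => by
      rw [Module.End.mul_apply, Module.End.mul_apply, leib_y, map_add, comm Δ p (th Δ q), map_mul,
        Module.End.mul_apply]
    rw [Finset.sum_congr rfl fun j _ => h2 j, Finset.sum_add_distrib]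
    abel
  · exact leib_y Δ p j q v

theorem Dy_E (j : J) (n : ℕ) :
    Dy Δ p j (p.E n) = -p.ρ (th Δ (pderiv (some j) (pol D))) (p.E (n + 1)) := by
  rw [Dy_apply, inv_y, th_pol, map_sum, LinearMap.sum_apply, ← Finset.sum_neg_distrib]
  refine Finset.sum_congr rfl fun l _ => ?_
  rw [p.der, map_neg, map_mul, Module.End.mul_apply]

theorem Do_E (o : Option J) (n : ℕ) :
    Do Δ p o (p.E n) = -p.ρ (th Δ (pderiv o (pol D))) (p.E (n + 1)) := by
  rcases o with _ | j
  · have h1 : th Δ (pderiv none (pol D)) = dX (gen Δ.U Δ.B Δ.c) -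
        ∑ j, dX (im Δ (some j)) * th Δ (pderiv (some j) (pol D)) := by
      rw [← th_pol, chain_X]
      ring
    rw [Do, LinearMap.sub_apply, LinearMap.sum_apply, h1, map_sub, LinearMap.sub_apply, map_sum,
      LinearMap.sum_apply, p.derX]
    have h2 : ∀ j : J, (p.ρ (dX (im Δ (some j))) * Dy Δ p j) (p.E n) =
        -p.ρ (dX (im Δ (some j)) * th Δ (pderiv (some j) (pol D))) (p.E (n + 1)) := fun j => by
      rw [Module.End.mul_apply, Dy_E, map_neg, map_mul, Module.End.mul_apply]
    rw [Finset.sum_congr rfl fun j _ => h2 j, Finset.sum_neg_distrib]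
    abel
  · exact Dy_E Δ p j n

theorem Z_y (hZ : p.Z) (j : J) : p.ρ (th Δ (pderiv (some j) (pol D))) (p.E 0) = 0 := by
  rw [inv_y, th_pol, map_sum, LinearMap.sum_apply]
  refine Finset.sum_eq_zero fun l _ => ?_
  rw [map_mul, Module.End.mul_apply, hZ.2.2, map_zero]

theorem Z_o (hZ : p.Z) (o : Option J) : p.ρ (th Δ (pderiv o (pol D))) (p.E 0) = 0 := by
  rcases o with _ | j
  · have h1 : th Δ (pderiv none (pol D)) = dX (gen Δ.U Δ.B Δ.c) -
        ∑ j, dX (im Δ (some j)) * th Δ (pderiv (some j) (pol D)) := by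
      rw [← th_pol, chain_X]
      ring
    rw [h1, map_sub, LinearMap.sub_apply, map_sum, LinearMap.sum_apply, hZ.2.1, zero_sub,
      neg_eq_zero]
    refine Finset.sum_eq_zero fun j _ => ?_
    rw [map_mul, Module.End.mul_apply, Z_y Δ p hZ, map_zero]
  · exact Z_y Δ p hZ j

/-- the normalising factors -/
noncomputable def nf (k : Type) [Field k] (s : ℚ) (n : ℕ) : k :=
  (∏ i ∈ Finset.range n, ((s : k) + i))⁻¹

theorem nf_zero : nf k s 0 = 1 := by simp [nf]

theorem nf_succ [CharZero k] (hs : 0 < s) (n : ℕ) : nf k s n = ((s : k) + n) * nf k s (n + 1) := by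
  have h1 : ((s : k) + n) ≠ 0 := by
    have h2 : ((s + n : ℚ) : k) ≠ 0 := by
      rw [Ne, Rat.cast_eq_zero]
      have : (0 : ℚ) < s + n := by positivity
      exact this.ne'
    push_cast at h2
    exact h2
  rw [nf, nf, Finset.prod_range_succ, mul_inv]
  field_simp

end ECHx

open ECHx in
theorem ECH : ECHStmt := by
  intro k _ _ J _ _ D x0 Δ s hs p hZ
  let c : Chain k (pol D) s :=
    { V := p.V
      ρ := p.ρ.comp (th Δ)
      D := Do Δ p
      leib := fun i q v => leib_o Δ p i q v
      e := fun n => nf k s n • p.E n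
      mul := fun n => by
        change p.ρ (th Δ (pol D)) (nf k s (n + 1) • p.E (n + 1)) = nf k s n • p.E n
        rw [th_pol, map_smul, p.mul, smul_smul, nf_succ hs n, mul_comm]
      der := fun i n => by
        change Do Δ p i (nf k s n • p.E n) = (-((s : k) + n)) •
          p.ρ (th Δ (pderiv i (pol D))) (nf k s (n + 1) • p.E (n + 1))
        rw [map_smul, Do_E, map_smul, smul_smul, smul_neg, nf_succ hs n, neg_mul, neg_smul]
      ne := by
        rw [nf_zero, one_smul]
        exact p.ne }
  refine ⟨c, ?_, fun i => ?_⟩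
  · change p.ρ (th Δ (pol D)) (nf k s 0 • p.E 0) = 0
    rw [th_pol, map_smul, hZ.1, smul_zero]
  · change p.ρ (th Δ (pderiv i (pol D))) (nf k s 0 • p.E 0) = 0
    rw [map_smul, Z_o Δ p hZ, smul_zero]

end Pool.Agent.H87.QF
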