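import Pool.Agent.H87.QF.Stmts

/-! # QFM, row FIN: `P3` for quadric families -/

set_option autoImplicit false

namespace Pool.Agent.H87.QF

open MvPolynomial Pool.Agent.H39.MonoR Pool.Agent.H75.Mono

/-- a finite subset of the pairs suffices -/
theorem ratF_finset {R : Type*} [CommRing R] {u : Rˣ} {S : Set (ℤ × ℕ)} {T : Type*}
    {F : T → PowerSeries R} (h : RatF u S F) :
    ∃ S' : Finset (ℤ × ℕ), (S' : Set (ℤ × ℕ)) ⊆ S ∧ RatF u (S' : Set (ℤ × ℕ)) F := by
  classical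
  obtain ⟨l, hl, N, hN⟩ := h
  exact ⟨l.toFinset, fun p hp => hl p (Multiset.mem_toFinset.1 hp), l,
    fun p hp => Multiset.mem_toFinset.2 hp, N, hN⟩

theorem FIN (hPOL : POLStmt) (hGLO : GLOStmt) : FINStmt := by
  intro k _ _ _ J _ _ f a hf hfa
  have h0 : f - C a ≠ 0 := sub_ne_zero.2 hfa
  obtain ⟨D, hD⟩ := hPOL k J (f - C a) (by
    intro m hm
    classical
    rw [coeff_sub, coeff_C] at hm
    by_cases h1 : 0 = m
    · subst h1
      simp
    · rw [if_neg h1, sub_zero] at hm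
      exact hf m hm)
  have h1 := hGLO k J D (hD ▸ h0)
  rw [← hD] at h1
  obtain ⟨u, hu⟩ := h1
  obtain ⟨S, hS, hSu⟩ := ratF_finset hu
  exact ⟨S, ⟨u, hSu⟩, fun p hp => hS hp⟩

end Pool.Agent.H87.QF
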