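import Pool.Agent.H87.QF.Stmts
import Pool.Agent.H75.Mono.BF

/-! # QFM, row GCH: the elements `G_c` -/

set_option autoImplicit false

namespace Pool.Agent.H87.QF

open MvPolynomial Pool.Agent.H39.MonoR Pool.Agent.H75.Mono

section GCH

variable {k : Type} [Field k] {J : Type} {g : MvPolynomial J k} {t : ℚ}

/-- `t (t+1) … (t+n-1)` -/
noncomputable def gP (k : Type) [Field k] (t : ℚ) (n : ℕ) : k :=
  ∏ i ∈ Finset.range n, ((t : k) + (i : k))

/-- `(t-1) (t-2) … (t-n)` -/
noncomputable def gQ (k : Type) [Field k] (t : ℚ) (n : ℕ) : k :=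
  ∏ i ∈ Finset.range n, ((t : k) - ((i : k) + 1))

theorem gP_succ (n : ℕ) : gP k t (n + 1) = gP k t n * ((t : k) + (n : k)) :=
  Finset.prod_range_succ _ _

theorem gQ_succ (n : ℕ) : gQ k t (n + 1) = gQ k t n * ((t : k) - ((n : k) + 1)) :=
  Finset.prod_range_succ _ _

theorem gfac_ne [CharZero k] (ht : t < 1) (i : ℕ) : ((t : k) - ((i : k) + 1)) ≠ 0 := by
  intro h
  have h1 : ((t - ((i : ℚ) + 1) : ℚ) : k) = 0 := by
    push_cast
    exact h
  have h2 : t - ((i : ℚ) + 1) = 0 := by exact_mod_cast h1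
  have h3 : (0 : ℚ) ≤ i := Nat.cast_nonneg i
  linarith

theorem gQ_ne [CharZero k] (ht : t < 1) (n : ℕ) : gQ k t n ≠ 0 :=
  Finset.prod_ne_zero_iff.2 fun i _ => gfac_ne ht i

/-- the elements `G_c` of a chain -/
noncomputable def gG (c : Chain k g t) : ℤ → c.V
  | Int.ofNat n => gP k t n • c.e n
  | Int.negSucc b => (gQ k t (b + 1))⁻¹ • c.ρ (g ^ (b + 1)) (c.e 0)

theorem gG_nat (c : Chain k g t) (n : ℕ) : gG c (n : ℤ) = gP k t n • c.e n := rfl

theorem gG_neg (c : Chain k g t) (b : ℕ) :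
    gG c (-(b : ℤ)) = (gQ k t b)⁻¹ • c.ρ (g ^ b) (c.e 0) := by
  cases b with
  | zero =>
    have h : (-((0 : ℕ) : ℤ)) = ((0 : ℕ) : ℤ) := by simp
    rw [h, gG_nat]
    simp [gP, gQ]
  | succ b =>
    have h : (-((b + 1 : ℕ) : ℤ)) = Int.negSucc b := rfl
    rw [h]
    rfl

theorem gG_mul [CharZero k] (ht : t < 1) (c : Chain k g t) (z : ℤ) :
    c.ρ g (gG c (z + 1)) = ((t : k) + z) • gG c z := by
  rcases lt_or_ge z 0 with hz | hz
  · obtain ⟨b, hb⟩ : ∃ b : ℕ, z = -((b + 1 : ℕ) : ℤ) := ⟨(-z - 1).toNat, by omega⟩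
    have hb' : z + 1 = -(b : ℤ) := by rw [hb]; push_cast; ring
    rw [hb', gG_neg, hb, gG_neg, map_smul, ← Module.End.mul_apply, ← map_mul, ← pow_succ', smul_smul]
    congr 1
    rw [gQ_succ, mul_inv]
    have h1 := gfac_ne (k := k) ht b
    have h2 : (t : k) + ((-((b + 1 : ℕ) : ℤ) : ℤ) : k) = (t : k) - ((b : k) + 1) := by
      push_cast
      ring
    rw [h2]
    field_simp
  · obtain ⟨n, rfl⟩ := Int.eq_ofNat_of_zero_le hz
    have h1 : ((n : ℤ) + 1) = ((n + 1 : ℕ) : ℤ) := by push_cast; ring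
    rw [h1, gG_nat, gG_nat, map_smul, c.mul, smul_smul, gP_succ]
    congr 1
    push_cast
    ring

theorem gG_der [CharZero k] (ht : t < 1) (c : Chain k g t) (i : J) (z : ℤ) :
    c.D i (gG c z) = -c.ρ (pderiv i g) (gG c (z + 1)) := by
  rcases lt_or_ge z 0 with hz | hz
  · obtain ⟨b, hb⟩ : ∃ b : ℕ, z = -((b + 1 : ℕ) : ℤ) := ⟨(-z - 1).toNat, by omega⟩
    have hb' : z + 1 = -(b : ℤ) := by rw [hb]; push_cast; ring
    rw [hb', gG_neg, hb, gG_neg, map_smul, c.leib, c.der, map_smul, map_smul]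
    have h1 : c.ρ (g ^ (b + 1)) (c.ρ (pderiv i g) (c.e (0 + 1))) =
        c.ρ (pderiv i g) (c.ρ (g ^ b) (c.e 0)) := by
      rw [← Module.End.mul_apply, ← map_mul, ← Module.End.mul_apply, ← map_mul, pow_succ,
        mul_assoc, mul_comm g, ← mul_assoc, mul_comm (g ^ b), map_mul, Module.End.mul_apply, c.mul]
    have h2 : c.ρ (pderiv i (g ^ (b + 1))) (c.e 0) =
        ((b : k) + 1) • c.ρ (pderiv i g) (c.ρ (g ^ b) (c.e 0)) := by
      have h3 : pderiv i (g ^ (b + 1)) = ((b : k) + 1) • (pderiv i g * g ^ b) := by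
        rw [Derivation.leibniz_pow, Nat.add_sub_cancel, smul_eq_mul, nsmul_eq_mul, Algebra.smul_def,
          MvPolynomial.algebraMap_eq]
        rw [map_add, map_natCast, map_one]
        push_cast
        ring
      rw [h3, map_smul, map_mul]
      rfl
    rw [h1, h2, ← add_smul, smul_smul, ← neg_smul]
    congr 1
    rw [gQ_succ, mul_inv]
    have h4 := gfac_ne (k := k) ht b
    field_simp
    push_cast
    ring
  · obtain ⟨n, rfl⟩ := Int.eq_ofNat_of_zero_le hz
    have h1 : ((n : ℤ) + 1) = ((n + 1 : ℕ) : ℤ) := by push_cast; ring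
    rw [h1, gG_nat, gG_nat, map_smul, c.der, map_smul, smul_smul, ← neg_smul, gP_succ]
    congr 1
    ring

/-- the elements `G_c` for `t = 1` -/
noncomputable def gH (c : Chain k g t) : ℤ → c.V
  | Int.ofNat n => gP k t n • c.e n
  | Int.negSucc _ => 0

theorem GCH : GCHStmt := by
  intro k _ _ J _ g t τ hg h
  have : CharZero k := (algebraMap k ℂ).charZero
  rcases h with ⟨h2, ht⟩ | ⟨h1, ht, hu⟩
  · obtain ⟨c⟩ := exists_chain hg t
    exact ⟨{ V := c.V
             ρ := c.ρ
             D := c.D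
             leib := c.leib
             G := gG c
             mul := gG_mul ht c
             der := fun i z _ => gG_der ht c i z
             ne := by
               have : gG c 0 = c.e 0 := by
                 have := gG_nat c 0
                 simpa [gP] using this
               rw [this]
               exact c.ne }⟩
  · subst ht
    obtain ⟨c, hc⟩ := SR.one hg hu
    refine ⟨{ V := c.V
              ρ := c.ρ
              D := c.D
              leib := c.leib
              G := gH c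
              mul := fun z => ?_
              der := fun i z hz => ?_
              ne := ?_ }⟩
    · match z with
      | Int.ofNat n =>
        change c.ρ g (gP k 1 (n + 1) • c.e (n + 1)) = _ • (gP k 1 n • c.e n)
        rw [map_smul, c.mul, smul_smul, gP_succ]
        congr 1
        rw [Int.ofNat_eq_natCast, Int.cast_natCast, mul_comm]
      | Int.negSucc 0 =>
        change c.ρ g (gP k 1 0 • c.e 0) = _ • (0 : c.V)
        rw [map_smul, hc, smul_zero, smul_zero]
      | Int.negSucc (b + 1) =>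
        change c.ρ g (0 : c.V) = _ • (0 : c.V)
        rw [map_zero, smul_zero]
    · have hz' : 0 ≤ z := by
        rcases hz with hz | hz
        · omega
        · exact hz
      obtain ⟨n, rfl⟩ := Int.eq_ofNat_of_zero_le hz'
      change c.D i (gP k 1 n • c.e n) = -c.ρ (pderiv i g) (gP k 1 (n + 1) • c.e (n + 1))
      rw [map_smul, c.der, map_smul, smul_smul, ← neg_smul, gP_succ]
      congr 1
      ring
    · change gP k 1 0 • c.e 0 ≠ 0
      have : gP k (1 : ℚ) 0 = 1 := rfl
      rw [this, one_smul]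
      exact c.ne

end GCH

end Pool.Agent.H87.QF
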