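import Pool.Agent.H87.QF.Stmts
import Pool.Agent.H75.Plc.BEY

/-! # QFM, row GLO: assembly -/

set_option autoImplicit false

namespace Pool.Agent.H87.QF

open MvPolynomial Pool.Agent.H39.MonoR Pool.Agent.H75.Mono

section GLO

variable {k : Type} [Field k] {J : Type} [Fintype J] [DecidableEq J]

theorem map_val {R : Type} [CommRing R] (D : QD R J) {S S' : Type} [CommRing S] [CommRing S']
    (φ : R →+* S) (ψ : S →+* S') (y : J → S') : (D.map φ).val ψ y = D.val (ψ.comp φ) y := rfl

theorem hom_val {R : Type} [CommRing R] (D : QD R J) {S S' : Type} [CommRing S] [CommRing S']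
    (φ : R →+* S) (ψ : S →+* S') (y : J → S) :
    ψ (D.val φ y) = D.val (ψ.comp φ) fun j => ψ (y j) := by
  unfold QD.val
  simp only [map_add, map_sum, map_mul, RingHom.comp_apply]

theorem tay_injective (x0 : k) : Function.Injective (tay x0) := by
  have h : ∀ p : Polynomial k, tay x0 p = ((Polynomial.taylor x0 p : Polynomial k) : PowerSeries k) := by
    intro p
    have h1 : (tay x0) = (Polynomial.coeToPowerSeries.ringHom (R := k)).comp
        (Polynomial.taylorAlgHom x0).toRingHom := by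
      refine Polynomial.ringHom_ext (fun c => ?_) ?_
      · simp [tay]
      · simp [tay, add_comm]
    rw [h1]
    rfl
  intro p q hpq
  rw [h, h, Polynomial.coe_inj] at hpq
  exact Polynomial.taylor_injective x0 hpq

/-- the polynomial vanishes if its expansion over `k⟦X⟧` does -/
theorem pol_eq_zero {D : QD (Polynomial k) J} {x0 : k}
    (h : (D.map (tay x0)).val (C : PowerSeries k →+* MvPolynomial J (PowerSeries k)) X = 0) :
    pol D = 0 := by
  let Φ : MvPolynomial (Option J) k →+* MvPolynomial J (PowerSeries k) :=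
    (MvPolynomial.map (tay x0)).comp (optionEquivRight k J).toRingEquiv.toRingHom
  have hΦ : Function.Injective Φ := by
    have h1 := MvPolynomial.map_injective (σ := J) (tay x0) (tay_injective x0)
    exact h1.comp (optionEquivRight k J).injective
  apply hΦ
  rw [map_zero, pol, hom_val]
  rw [map_val] at h
  convert h using 2
  · refine Polynomial.ringHom_ext (fun c => ?_) ?_
    · simp [Φ, emb, algebraMap_eq]
    · simp [Φ, emb]
  · funext j
    simp [Φ]

theorem rk_pos {D : QD (Polynomial k) J} {x0 : k} {Δ : Diag (D.map (tay x0))} (hP : Pure Δ)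
    (hD : pol D ≠ 0) : 1 ≤ rk Δ.U := by
  classical
  by_contra hr
  have hr0 : rk Δ.U = 0 := by omega
  rw [rk, Finset.card_eq_zero, Finset.filter_eq_empty_iff] at hr0
  have hU : ∀ i, Δ.U i = 0 := fun i => by
    have := hr0 (Finset.mem_univ i)
    simpa using this
  apply hD
  apply pol_eq_zero (x0 := x0)
  have h1 := Δ.eq (MvPolynomial J (PowerSeries k)) C
    (fun m => ∑ l, C (Δ.A' m l) * (X l - C (Δ.s l)))
  have h2 : (fun j => ∑ m, C (Δ.A j m) * (∑ l, C (Δ.A' m l) * (X l - C (Δ.s l))) + C (Δ.s j)) =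
      (X : J → MvPolynomial J (PowerSeries k)) := by
    funext j
    have h3 : ∀ l, ∑ m, (C (Δ.A j m) : MvPolynomial J (PowerSeries k)) * C (Δ.A' m l) =
        if j = l then 1 else 0 := by
      intro l
      have h4 := congrFun (congrFun Δ.l j) l
      rw [Matrix.mul_apply, Matrix.one_apply] at h4
      simp only [← map_mul, ← map_sum, h4]
      split_ifs <;> simp
    simp only [Finset.mul_sum]
    rw [Finset.sum_comm]
    simp only [← mul_assoc, ← Finset.sum_mul, h3]
    simp
  rw [h2] at h1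
  rw [h1]
  simp [hU, hP.1, hP.2]

variable [Algebra k ℂ]

theorem pure_mem (hPUR : PURStmt) (hECH : ECHStmt) {D : QD (Polynomial k) J} {x0 : k}
    {Δ : Diag (D.map (tay x0))} (hP : Pure Δ) (hD : pol D ≠ 0) :
    (-(rk Δ.U : ℤ), 2) ∈ Gd (pol D) := by
  have := charZero k
  have hr := rk_pos hP hD
  have hB : Δ.B = 0 := funext hP.1
  obtain ⟨p, hp⟩ := hPUR k J Δ.U
  have h1 := hECH k J D x0 Δ ((rk Δ.U : ℚ) / 2) (by
    have : (0 : ℚ) < rk Δ.U := by exact_mod_cast hr
    positivity)
  rw [hB, hP.2] at h1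
  have h2 := h1 p hp
  refine ⟨by show -(rk Δ.U : ℤ) < 0; omega, by norm_num, ?_⟩
  have : -((-(rk Δ.U : ℤ) : ℤ) : ℚ) / ((2 : ℕ) : ℚ) = (rk Δ.U : ℚ) / 2 := by
    push_cast
    ring
  show SRs k (pol D) (-((-(rk Δ.U : ℤ) : ℤ) : ℚ) / ((2 : ℕ) : ℚ))
  rw [this]
  exact h2

theorem lev_mem (hLRT : LRTStmt) {D : QD (Polynomial k) J} {x0 : k}
    {Δ : Diag (D.map (tay x0))} (hR : Δ.Red) (hS : ¬ Smo Δ) {τ : ℕ} (hτ : Lev Δ τ) :
    (-(aT Δ.U τ : ℤ), 2 * τ) ∈ Gd (pol D) := by
  have h2 := hLRT k J D x0 Δ τ hR hτ hS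
  have ha : 0 < aT Δ.U τ := by
    unfold aT
    omega
  have ht : 0 < τ := hτ.1
  refine ⟨by simpa using ha, by simpa using ht, ?_⟩
  have : -((-(aT Δ.U τ : ℤ) : ℤ) : ℚ) / ((2 * τ : ℕ) : ℚ) = (aT Δ.U τ : ℚ) / (2 * τ) := by
    push_cast
    ring
  show SRs k (pol D) (-((-(aT Δ.U τ : ℤ) : ℤ) : ℚ) / ((2 * τ : ℕ) : ℚ))
  rw [this]
  exact h2

theorem pFun_poly (h : Polynomial k) : PFun k (fun x : ℂ => Polynomial.aeval x h) := by
  induction h using Polynomial.induction_on' with
  | add p q hp hq =>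
    simp only [map_add]
    exact hp.add hq
  | monomial n c =>
    simp only [Polynomial.aeval_monomial]
    exact (PFun.const c).mul (PFun.id'.pow n)

theorem ratF_zero {S : Set (ℤ × ℕ)} {F : Test k → PowerSeries (M k)} (h : ∀ t, F t = 0) :
    RatF (Lu k) S F := by
  refine RatF.mono (S := ∅) (RatF.of_fin 0 fun t n _ => ?_) (Set.empty_subset _)
  rw [h, map_zero]

theorem GLO (hDGN : DGNStmt) (hTYP : TYPStmt) (hPUD : PUDStmt) (hLOC : LOCStmt) (hGNH : GNHStmt)
    (hSPL : SPLStmt) (hNCQ : NCQStmt) (hSMG : SMGStmt) (hLRT : LRTStmt) (hPUR : PURStmt)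
    (hECH : ECHStmt) : GLOStmt := by
  intro k _ _ _ J _ _ D hD
  classical
  have hch := charZero k
  refine Inv.of_dif ?_
  -- the generic part
  obtain ⟨h, hne, hgen⟩ : ∃ h : Polynomial k, h ≠ 0 ∧ RatF (Lu k) (Gd (pol D))
      fun t : Test k => PowerSeries.mk fun d => if d = 0 then 0 else
        ↑(Lu k ^ (-(((Fintype.card J + 1) * d : ℕ) : ℤ))) *
          zd (pol D) d {v | Polynomial.aeval (v 0) h ≠ 0} t := by
    rcases hTYP k J D with ⟨h, hne, hh⟩ | ⟨⟨H⟩⟩
    · refine ⟨h, hne, ratF_zero fun t => ?_⟩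
      ext d
      rw [PowerSeries.coeff_mk, map_zero]
      split_ifs with hd
      · rfl
      · have h1 := hNCQ k J (pol D) {x | Polynomial.aeval x h ≠ 0}
          (ICons.ne (pFun_poly h) PFun.zero) hh d t (Nat.pos_of_ne_zero hd)
        have h2 : {v : Fin (d + 1) → ℂ | v 0 ∈ {x : ℂ | Polynomial.aeval x h ≠ 0}} =
            {v | Polynomial.aeval (v 0) h ≠ 0} := rfl
        rw [h2] at h1
        rw [h1, mul_zero]
    · refine ⟨H.h, H.ne, (hGNH k J D H).mono ?_⟩
      rw [Set.singleton_subset_iff]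
      obtain ⟨x0, hx0⟩ : ∃ x0 : k, H.h.eval x0 ≠ 0 := by
        by_contra hcon
        push Not at hcon
        exact H.ne (Polynomial.funext fun x => by rw [hcon x, Polynomial.eval_zero])
      obtain ⟨Δ, hΔ, hr⟩ := hPUD k J D H x0 hx0
      rw [← hr]
      exact pure_mem hPUR hECH hΔ hD
  -- the local parts
  have h2 : IsUnit (2 : PowerSeries k) := by
    rw [PowerSeries.isUnit_iff_constantCoeff, map_ofNat]
    exact (two_ne_zero (α := k)).isUnit
  have hloc : ∀ x0 : k, RatF (Lu k) (Gd (pol D))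
      fun t : Test k => PowerSeries.mk fun d => if d = 0 then 0 else
        ↑(Lu k ^ (-(((Fintype.card J + 1) * d : ℕ) : ℤ))) *
          zd (pol D) d (ordGt x0 d 0) t := by
    intro x0
    obtain ⟨Δ, hR⟩ := hDGN (PowerSeries k) h2 J (D.map (tay x0))
    by_cases hS : Smo Δ
    · refine ratF_zero fun t => ?_
      ext d
      rw [PowerSeries.coeff_mk, map_zero]
      split_ifs with hd
      · rfl
      · have h1 := hNCQ k J (pol D) {x | x = algebraMap k ℂ x0}
          (ICons.eq PFun.id' (PFun.const x0)) (fun v hv h0 => hSMG k J D x0 Δ hS v hv h0)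
          d t (Nat.pos_of_ne_zero hd)
        have h3 : {v : Fin (d + 1) → ℂ | v 0 ∈ {x : ℂ | x = algebraMap k ℂ x0}} =
            ordGt x0 d 0 := by
          ext v
          simp only [ordGt, Set.mem_ofPred_eq, Nat.le_zero]
          constructor
          · intro hv l hl
            have : l = 0 := Fin.ext hl
            rw [if_pos hl, this]
            exact hv
          · intro hv
            have := hv 0 rfl
            rwa [if_pos (by rfl)] at this
        rw [h3] at h1
        rw [h1, mul_zero]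
    · refine (hLOC k J D x0 Δ hR).mono ?_
      rintro p (⟨τ, hτ, rfl⟩ | ⟨hP, rfl⟩)
      · exact lev_mem hLRT hR hS hτ
      · exact pure_mem hPUR hECH hP hD
  -- the sum
  have hfin := h.rootSet_finite k
  have hsum := (RatF.fsum hfin.toFinset fun x0 _ => hloc x0).add hgen
  rw [Set.union_self] at hsum
  refine hsum.congr fun t => ?_
  ext d
  rw [map_add, map_sum, PowerSeries.coeff_mk, PowerSeries.coeff_mk]
  simp only [PowerSeries.coeff_mk]
  by_cases hd : d = 0
  · simp only [if_pos hd, Finset.sum_const_zero, add_zero]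
  · simp only [if_neg hd]
    rw [(hSPL k J (pol D) d).2.2 h t inferInstance hne, finsum_mem_eq_finite_toFinset_sum _ hfin,
      mul_add]
    congr 1
    exact (Finset.mul_sum _ _ _).symm

end GLO

end Pool.Agent.H87.QF
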