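import Pool.Agent.H87.QF.Stmts

/-! # QFM, row GNH: the generic part of type H -/

set_option autoImplicit false

namespace Pool.Agent.H87.QF

open MvPolynomial Pool.Agent.H39.MonoR Pool.Agent.H75.Mono

section GNH

variable {k : Type} [Field k] [Algebra k ℂ] {J : Type} [Fintype J]

private noncomputable def gx (a : PowerSeries ℂ) : Polynomial k →+* PowerSeries ℂ :=
  (Polynomial.aeval a).toRingHom

private theorem gx_cc (a : PowerSeries ℂ) (p : Polynomial k) :
    PowerSeries.constantCoeff (gx a p) = Polynomial.aeval (PowerSeries.constantCoeff a) p := by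
  change PowerSeries.constantCoeff (Polynomial.aeval a p) = _
  rw [Polynomial.aeval_def, Polynomial.hom_eval₂, Polynomial.aeval_def]
  have e : (PowerSeries.constantCoeff (R := ℂ)).comp (algebraMap k (PowerSeries ℂ)) =
      algebraMap k ℂ := by
    ext c
    rw [RingHom.comp_apply, PowerSeries.algebraMap_apply, PowerSeries.constantCoeff_C]
  rw [e]

private theorem val_map {R S S' : Type} [CommRing R] [CommRing S] [CommRing S'] (D : QD R J)
    (φ : R →+* S) (ψ : S →+* S') (y : J → S) :
    ψ (D.val φ y) = D.val (ψ.comp φ) (fun j => ψ (y j)) := by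
  unfold QD.val
  simp only [map_add, map_sum, map_mul, RingHom.comp_apply]

private theorem ae_emb {N : ℕ} (φ : Option J × Fin N → ℂ) (p : Polynomial k) :
    arcEval k φ (emb k J p) = gx (arc φ none) p := by
  change (MvPolynomial.aeval (arc φ)) (Polynomial.aeval (X none : MvPolynomial (Option J) k) p) =
    Polynomial.aeval (arc φ none) p
  rw [← Polynomial.aeval_algHom_apply, aeval_X]

private theorem ae_pol {N : ℕ} (φ : Option J × Fin N → ℂ) (D : QD (Polynomial k) J) :
    arcEval k φ (pol D) = D.val (gx (arc φ none)) (fun j => arc φ (some j)) := by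
  have h := val_map D (emb k J) (MvPolynomial.aeval (R := k) (arc φ)).toRingHom
    (fun j => X (some j))
  have e1 : ((MvPolynomial.aeval (R := k) (arc φ)).toRingHom).comp (emb k J) =
      gx (arc φ none) := RingHom.ext fun p => ae_emb φ p
  rw [e1] at h
  have e2 : (fun j => (MvPolynomial.aeval (R := k) (arc φ)).toRingHom (X (some j))) =
      fun j : J => arc φ (some j) := by
    funext j
    exact aeval_X _ _
  rw [e2] at h
  exact h

private theorem gdvd {d : ℕ} {A B : PowerSeries ℂ} :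
    (PowerSeries.X : PowerSeries ℂ) ^ (d + 1) ∣ A - B ↔
      ∀ l, l ≤ d → PowerSeries.coeff l A = PowerSeries.coeff l B := by
  rw [PowerSeries.X_pow_dvd_iff]
  constructor
  · intro h l hl
    have := h l (by omega)
    rw [map_sub, sub_eq_zero] at this
    exact this
  · intro h l hl
    rw [map_sub, h l (by omega), sub_self]

private theorem ghit {d : ℕ} (P A : PowerSeries ℂ) (c : ℂ)
    (hP : PowerSeries.constantCoeff P ≠ 0) :
    (∀ l, l ≤ d → PowerSeries.coeff l A = if l = d then c else 0) ↔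
      ∀ l, l ≤ d → PowerSeries.coeff l (P * A) =
        if l = d then PowerSeries.constantCoeff P * c else 0 := by
  have key : ∀ (A : PowerSeries ℂ) (c : ℂ),
      (∀ l, l ≤ d → PowerSeries.coeff l A = if l = d then c else 0) ↔
        (PowerSeries.X : PowerSeries ℂ) ^ (d + 1) ∣ A - PowerSeries.C c * PowerSeries.X ^ d := by
    intro A c
    rw [gdvd]
    simp only [PowerSeries.coeff_C_mul_X_pow]
  rw [key, key]
  have hX : (PowerSeries.X : PowerSeries ℂ) ∣ P - PowerSeries.C (PowerSeries.constantCoeff P) := by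
    rw [PowerSeries.X_dvd_iff, map_sub, PowerSeries.constantCoeff_C, sub_self]
  obtain ⟨R, hR⟩ := hX
  have hu : IsUnit P := by
    rw [PowerSeries.isUnit_iff_constantCoeff]
    exact isUnit_iff_ne_zero.2 hP
  have e : P * A - PowerSeries.C (PowerSeries.constantCoeff P * c) * PowerSeries.X ^ d =
      P * (A - PowerSeries.C c * PowerSeries.X ^ d) +
        PowerSeries.X ^ (d + 1) * (R * PowerSeries.C c) := by
    have h1 : P = PowerSeries.C (PowerSeries.constantCoeff P) + PowerSeries.X * R := by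
      rw [← hR]; ring
    have h2 : P * (PowerSeries.C c * PowerSeries.X ^ d) =
        (PowerSeries.C (PowerSeries.constantCoeff P) + PowerSeries.X * R) *
          (PowerSeries.C c * PowerSeries.X ^ d) := by
      rw [← h1]
    rw [mul_sub, h2, map_mul]
    ring
  rw [e]
  constructor
  · intro h
    exact dvd_add (h.mul_left P) (Dvd.intro _ rfl)
  · intro h
    have h1 : (PowerSeries.X : PowerSeries ℂ) ^ (d + 1) ∣
        P * (A - PowerSeries.C c * PowerSeries.X ^ d) :=
      (dvd_add_left (Dvd.intro _ rfl)).1 h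
    exact (hu.dvd_mul_left).1 h1

/-- the arc with given parts -/
private def gext {d : ℕ} (v : Fin (d + 1) → ℂ) (z : J × Fin (d + 1) → ℂ) :
    Option J × Fin (d + 1) → ℂ :=
  fun p => p.1.elim (v p.2) (fun j => z (j, p.2))

private theorem gext_none {d : ℕ} (v : Fin (d + 1) → ℂ) (z : J × Fin (d + 1) → ℂ) :
    arc (gext v z) none = ser v := by
  ext l
  rw [coeff_arc, ser, PowerSeries.coeff_mk]
  rfl

private theorem gext_some {d : ℕ} (v : Fin (d + 1) → ℂ) (z : J × Fin (d + 1) → ℂ) (j : J) :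
    arc (gext v z) (some j) = arc z j := by
  ext l
  rw [coeff_arc, coeff_arc]
  rfl

private theorem arc_none {d : ℕ} (φ : Option J × Fin (d + 1) → ℂ) :
    arc φ none = ser (fun l => φ (none, l)) := by
  ext l
  rw [coeff_arc, ser, PowerSeries.coeff_mk]

private theorem ser_cc {d : ℕ} (v : Fin (d + 1) → ℂ) :
    PowerSeries.constantCoeff (ser v) = v 0 := by
  rw [← PowerSeries.coeff_zero_eq_constantCoeff_apply, ser, PowerSeries.coeff_mk,
    dif_pos (Nat.succ_pos d)]
  rfl

private theorem pmap_gext {d : ℕ} {E : Type} [Aff E] {f : E → (Fin (d + 1) → ℂ)}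
    {g : E → (J × Fin (d + 1) → ℂ)} (hf : PMap k f) (hg : PMap k g) :
    PMap k (fun x => gext (f x) (g x)) := by
  refine PMap.pi ?_
  rintro ⟨_ | j, l⟩
  · exact (PFun.apply (k := k) l).comp hf
  · exact (PFun.apply (k := k) (j, l)).comp hg

variable [DecidableEq J] {D : QD (Polynomial k) J}

/-- the linear forms -/
private noncomputable def qi (H : HData D) (i : J) : MvPolynomial (Option J) k :=
  ∑ j, emb k J (H.C i j) * X (some j) + emb k J (H.b i)

private theorem ae_qi (H : HData D) (i : J) {N : ℕ} (φ : Option J × Fin N → ℂ) :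
    arcEval k φ (qi H i) = ∑ j, gx (arc φ none) (H.C i j) * arc φ (some j) +
      gx (arc φ none) (H.b i) := by
  have h : arcEval k φ (qi H i) = ∑ j, arcEval k φ (emb k J (H.C i j)) * arc φ (some j) +
      arcEval k φ (emb k J (H.b i)) := by
    unfold arcEval qi
    rw [map_add, map_sum]
    simp only [map_mul, aeval_X]
  rw [h]
  simp only [ae_emb]

/-- the diagonal form -/
private noncomputable def q2 (H : HData D) : MvPolynomial (Option J) k :=
  ∑ i, emb k J (H.u i) * X (some i) ^ 2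

private theorem ae_q2 (H : HData D) {N : ℕ} (φ : Option J × Fin N → ℂ) :
    arcEval k φ (q2 H) = ∑ i, gx (arc φ none) (H.u i) * arc φ (some i) ^ 2 := by
  have h : arcEval k φ (q2 H) = ∑ i, arcEval k φ (emb k J (H.u i)) * arc φ (some i) ^ 2 := by
    unfold arcEval q2
    rw [map_sum]
    simp only [map_mul, map_pow, aeval_X]
  rw [h]
  simp only [ae_emb]

/-- the coefficients of the diagonal form -/
private noncomputable def VV (H : HData D) (d : ℕ) (E : Type) (i : J)
    (e : (Fin (d + 1) → ℂ) × E) : PowerSeries ℂ := gx (ser e.1) (H.u i)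

private theorem qf_eq (H : HData D) (d : ℕ) (E : Type)
    (x : ((Fin (d + 1) → ℂ) × E) × (J × Fin (d + 1) → ℂ)) :
    qf (VV H d E) (fun _ _ => 0) (fun _ => 0) x = arcEval k (gext x.1.1 x.2) (q2 H) := by
  rw [ae_q2, gext_none]
  unfold qf VV
  simp only [zero_mul, Finset.sum_const_zero, add_zero, gext_some]

/-- the base -/
private def QQ (H : HData D) (d : ℕ) (t : Test k) : Set ((Fin (d + 1) → ℂ) × t.E) :=
  {e | Polynomial.aeval (e.1 0) H.h ≠ 0 ∧ e.2 ∈ t.W}

private theorem pfun_h (p : Polynomial k) (d : ℕ) :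
    PFun k (fun v : Fin (d + 1) → ℂ => Polynomial.aeval (v 0) p) := by
  refine ⟨Polynomial.aeval (X 0 : MvPolynomial (Fin (d + 1)) k) p, fun v => ?_⟩
  change Polynomial.aeval (v 0) p =
    (MvPolynomial.aeval v) (Polynomial.aeval (X 0 : MvPolynomial (Fin (d + 1)) k) p)
  rw [← Polynomial.aeval_algHom_apply, aeval_X]

private theorem pfun_h1 (p : Polynomial k) :
    PFun k (fun v : ℂ => Polynomial.aeval v p) := by
  refine ⟨Polynomial.aeval (X () : MvPolynomial Unit k) p, fun v => ?_⟩
  change Polynomial.aeval v p =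
    (MvPolynomial.aeval (fun _ : Unit => v)) (Polynomial.aeval (X () : MvPolynomial Unit k) p)
  rw [← Polynomial.aeval_algHom_apply, aeval_X]

private theorem cons_QQ (H : HData D) (d : ℕ) (t : Test k) : ICons k (QQ H d t) :=
  (ICons.ne ((pfun_h (k := k) H.h d).comp PMap.fst) PFun.zero).and (t.cW.mem PMap.snd)

/-- the substitution -/
private noncomputable def gm (H : HData D) (d : ℕ) {E : Type}
    (x : (Option J × Fin (d + 1) → ℂ) × E) :
    ((Fin (d + 1) → ℂ) × E) × (J × Fin (d + 1) → ℂ) :=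
  (((fun l => x.1 (none, l)), x.2), fun p => PowerSeries.coeff p.2 (arcEval k x.1 (qi H p.1)))

private theorem gm_arc (H : HData D) (d : ℕ) {E : Type}
    (x : (Option J × Fin (d + 1) → ℂ) × E) (i : J) :
    (PowerSeries.X : PowerSeries ℂ) ^ (d + 1) ∣
      arcEval k x.1 (qi H i) - arc (gm H d x).2 i := by
  rw [gdvd]
  intro l hl
  rw [coeff_arc, dif_pos (by omega)]
  rfl

private theorem gm_hit (H : HData D) (d : ℕ) {E : Type}
    (x : (Option J × Fin (d + 1) → ℂ) × E) (c : ℂ)
    (hx : Polynomial.aeval (x.1 (none, 0)) H.h ≠ 0) :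
    Hit (pol D) d x.1 c ↔
      Hit (q2 H) d (gext (gm H d x).1.1 (gm H d x).2)
        (Polynomial.aeval (x.1 (none, 0)) H.h * c) := by
  have hc : PowerSeries.constantCoeff (gx (arc x.1 none) H.h) =
      Polynomial.aeval (x.1 (none, 0)) H.h := by
    rw [gx_cc, arc_none, ser_cc]
  have h1 := ghit (d := d) (gx (arc x.1 none) H.h) (arcEval k x.1 (pol D)) c (by rw [hc]; exact hx)
  rw [hc, ae_pol, H.eq] at h1
  unfold Hit
  rw [ae_pol, h1]
  have e : ∀ l, l ≤ d → PowerSeries.coeff l (∑ i, gx (arc x.1 none) (H.u i) *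
      (∑ j, gx (arc x.1 none) (H.C i j) * arc x.1 (some j) + gx (arc x.1 none) (H.b i)) ^ 2) =
      PowerSeries.coeff l (arcEval k (gext (gm H d x).1.1 (gm H d x).2) (q2 H)) := by
    rw [← gdvd, ae_q2, gext_none, ← Finset.sum_sub_distrib]
    refine Finset.dvd_sum fun i _ => ?_
    rw [gext_some, ← ae_qi]
    have e1 : ser (gm H d x).1.1 = arc x.1 none := by
      rw [arc_none]
      rfl
    rw [e1, ← mul_sub, sq_sub_sq]
    exact ((gm_arc H d x i).mul_left _).mul_left _
  constructor
  · intro h l hl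
    rw [← e l hl]
    exact h l hl
  · intro h l hl
    rw [e l hl]
    exact h l hl

private theorem unit_h (H : HData D) (a : PowerSeries ℂ)
    (ha : Polynomial.aeval (PowerSeries.constantCoeff a) H.h ≠ 0) :
    IsUnit ((gx a).mapMatrix H.C : Matrix J J (PowerSeries ℂ)).det := by
  rw [← RingHom.map_det]
  have h1 : IsUnit (gx a H.h) := by
    rw [PowerSeries.isUnit_iff_constantCoeff, gx_cc]
    exact isUnit_iff_ne_zero.2 ha
  exact isUnit_of_dvd_unit (map_dvd (gx a) H.det) h1

private theorem gm_bij (H : HData D) (d : ℕ) (t : Test k) :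
    zq (pol D) d {v | Polynomial.aeval (v 0) H.h ≠ 0} t =
      mo k (rel (VV H d t.E) (fun _ _ => 0) (fun _ => 0) d (QQ H d t)
        (fun e => Polynomial.aeval (e.1 0) H.h * t.c e.2)) := by
  unfold zq
  have hp1 : PMap k (fun x : (Option J × Fin (d + 1) → ℂ) × t.E =>
      (fun l => x.1 (none, l) : Fin (d + 1) → ℂ)) :=
    PMap.pi fun l => (PFun.apply (k := k) (none, l)).comp PMap.fst
  have hA : ICons k {x : (Option J × Fin (d + 1) → ℂ) × t.E | x.2 ∈ t.W ∧
      (fun l => x.1 (none, l)) ∈ {v : Fin (d + 1) → ℂ | Polynomial.aeval (v 0) H.h ≠ 0} ∧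
      Hit (pol D) d x.1 (t.c x.2)} := by
    refine (t.cW.mem PMap.snd).and (ICons.and ?_
      (ICons.hit d (pol D) PMap.fst (t.pf.comp PMap.snd)))
    exact ICons.mem (ICons.ne (pfun_h (k := k) H.h d) PFun.zero) hp1
  have hpc : PFun k (fun x : ((Fin (d + 1) → ℂ) × t.E) × (J × Fin (d + 1) → ℂ) =>
      Polynomial.aeval (x.1.1 0) H.h * t.c x.1.2) :=
    ((pfun_h (k := k) H.h d).comp (PMap.comp PMap.fst PMap.fst)).mul
      (t.pf.comp (PMap.comp PMap.snd PMap.fst))
  have hB : ICons k (rel (VV H d t.E) (fun _ _ => 0) (fun _ => 0) d (QQ H d t)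
        (fun e => Polynomial.aeval (e.1 0) H.h * t.c e.2)) := by
    unfold rel
    refine ((cons_QQ H d t).mem PMap.fst).and ?_
    have h := ICons.hit d (q2 H) (pmap_gext (k := k) (J := J) (d := d)
      (f := fun x : ((Fin (d + 1) → ℂ) × t.E) × (J × Fin (d + 1) → ℂ) => x.1.1)
      (g := fun x => x.2) (PMap.comp PMap.fst PMap.fst) PMap.snd) hpc
    unfold Hit at h
    simp only [qf_eq]
    exact h
  have hf : PMap k (gm H d (E := t.E)) := by
    refine PMap.prodMk (PMap.prodMk hp1 PMap.snd) (PMap.pi fun p => ?_)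
    exact PFun.coeff_arcEval p.2 (qi H p.1) PMap.fst
  refine mo_bij hA hB hf ⟨?_, ?_, ?_⟩
  · rintro x ⟨h1, h2, h3⟩
    refine ⟨⟨h2, h1⟩, ?_⟩
    have h4 := (gm_hit H d x (t.c x.2) h2).1 h3
    intro l hl
    rw [qf_eq]
    exact h4 l hl
  · rintro x ⟨h1, h2, h3⟩ y ⟨h1', h2', h3'⟩ hxy
    have hv : (fun l => x.1 (none, l)) = fun l => y.1 (none, l) :=
      congrArg (fun p => p.1.1) hxy
    have hw : x.2 = y.2 := congrArg (fun p => p.1.2) hxy
    have hz : (gm H d x).2 = (gm H d y).2 := congrArg Prod.snd hxy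
    have ha : arc x.1 none = arc y.1 none := by rw [arc_none, arc_none, hv]
    set Mt : Matrix J J (PowerSeries ℂ) := (gx (arc x.1 none)).mapMatrix H.C with hM
    have hu : IsUnit Mt.det := by
      refine unit_h H _ ?_
      rw [arc_none, ser_cc]
      exact h2
    have hd : ∀ i, (PowerSeries.X : PowerSeries ℂ) ^ (d + 1) ∣
        (Mt.mulVec fun j => arc x.1 (some j) - arc y.1 (some j)) i := by
      intro i
      have e1 : (Mt.mulVec fun j => arc x.1 (some j) - arc y.1 (some j)) i =
          (arcEval k x.1 (qi H i) - arc (gm H d x).2 i) -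
            (arcEval k y.1 (qi H i) - arc (gm H d y).2 i) := by
        rw [hz, ae_qi, ae_qi, ← ha]
        have : (Mt.mulVec fun j => arc x.1 (some j) - arc y.1 (some j)) i =
            ∑ j, gx (arc x.1 none) (H.C i j) * (arc x.1 (some j) - arc y.1 (some j)) := rfl
        rw [this]
        simp only [mul_sub, Finset.sum_sub_distrib]
        ring
      rw [e1]
      exact dvd_sub (gm_arc H d x i) (gm_arc H d y i)
    have hd2 : ∀ j, (PowerSeries.X : PowerSeries ℂ) ^ (d + 1) ∣
        arc x.1 (some j) - arc y.1 (some j) := by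
      intro j
      have e2 : (fun j => arc x.1 (some j) - arc y.1 (some j)) =
          Mt⁻¹.mulVec (Mt.mulVec fun j => arc x.1 (some j) - arc y.1 (some j)) := by
        rw [Matrix.mulVec_mulVec, Matrix.nonsing_inv_mul _ hu, Matrix.one_mulVec]
      have e3 := congrFun e2 j
      rw [e3]
      exact Finset.dvd_sum fun i _ => (hd i).mul_left _
    refine Prod.ext ?_ hw
    funext p
    obtain ⟨_ | j, l⟩ := p
    · exact congrFun hv l
    · have h5 := gdvd.1 (hd2 j) l (Nat.lt_succ_iff.1 l.2)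
      rw [coeff_arc, coeff_arc, dif_pos l.2, dif_pos l.2] at h5
      exact h5
  · rintro ⟨⟨v, w⟩, z⟩ ⟨⟨h1, h2⟩, h3⟩
    set Mt : Matrix J J (PowerSeries ℂ) := (gx (ser v)).mapMatrix H.C with hM
    have hu : IsUnit Mt.det := by
      refine unit_h H _ ?_
      rw [ser_cc]
      exact h1
    set yy : J → PowerSeries ℂ := Mt⁻¹.mulVec fun i => arc z i - gx (ser v) (H.b i) with hyy
    have hy2 : ∀ i, ∑ j, gx (ser v) (H.C i j) * yy j = arc z i - gx (ser v) (H.b i) := by
      intro i
      have e2 : Mt.mulVec yy = fun i => arc z i - gx (ser v) (H.b i) := by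
        rw [hyy, Matrix.mulVec_mulVec, Matrix.mul_nonsing_inv _ hu, Matrix.one_mulVec]
      exact congrFun e2 i
    set x : (Option J × Fin (d + 1) → ℂ) × t.E :=
      (gext v (fun p => PowerSeries.coeff p.2 (yy p.1)), w) with hx
    have hxa : arc x.1 none = ser v := gext_none v (fun p => PowerSeries.coeff p.2 (yy p.1))
    have hxs : ∀ j, (PowerSeries.X : PowerSeries ℂ) ^ (d + 1) ∣ arc x.1 (some j) - yy j := by
      intro j
      rw [gdvd]
      intro l hl
      rw [hx, gext_some, coeff_arc, dif_pos (by omega)]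
    have hgm : gm H d x = ((v, w), z) := by
      refine Prod.ext rfl ?_
      funext p
      obtain ⟨i, l⟩ := p
      change PowerSeries.coeff l (arcEval k x.1 (qi H i)) = z (i, l)
      have h4 : (PowerSeries.X : PowerSeries ℂ) ^ (d + 1) ∣
          arcEval k x.1 (qi H i) - arc z i := by
        have e4 : arcEval k x.1 (qi H i) - arc z i =
            ∑ j, gx (ser v) (H.C i j) * (arc x.1 (some j) - yy j) := by
          rw [ae_qi, hxa]
          simp only [mul_sub, Finset.sum_sub_distrib]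
          rw [hy2]
          ring
        rw [e4]
        exact Finset.dvd_sum fun j _ => (hxs j).mul_left _
      have h5 := gdvd.1 h4 l (Nat.lt_succ_iff.1 l.2)
      rw [h5, coeff_arc, dif_pos l.2]
    refine ⟨x, ⟨h2, h1, ?_⟩, hgm⟩
    refine (gm_hit H d x (t.c x.2) h1).2 ?_
    rw [hgm]
    intro l hl
    have h6 := h3 l hl
    rw [qf_eq] at h6
    exact h6

/-- the indices of the top set -/
private noncomputable def II (H : HData D) (ev : Prop) : Finset J := by
  classical exact Finset.univ.filter (fun i => H.u i ≠ 0 ∧ ev)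

private theorem mem_II (H : HData D) (ev : Prop) (i : J) : i ∈ II H ev ↔ H.u i ≠ 0 ∧ ev := by
  simp only [II, Finset.mem_filter, Finset.mem_univ, true_and]

/-- the reduced top set -/
private def TT (H : HData D) (ev : Prop) {E : Type} (W : Set E) (c : E → ℂ) :
    Set ((ℂ × E) × (J → ℂ)) :=
  {x | (Polynomial.aeval x.1.1 H.h ≠ 0 ∧ x.1.2 ∈ W) ∧
    ∑ i ∈ II H ev, Polynomial.aeval x.1.1 (H.u i) * x.2 i ^ 2 =
      Polynomial.aeval x.1.1 H.h * c x.1.2}

open Classical in
private noncomputable def kap (H : HData D) (d : ℕ) (i : J) : ℕ := if H.u i = 0 then d + 1 else 0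

private theorem cons_TT (H : HData D) (ev : Prop) (t : Test k) {c : t.E → ℂ} (hc : PFun k c) :
    ICons k (TT H ev t.W c) := by
  unfold TT
  refine ICons.and (ICons.and (ICons.ne
    ((pfun_h1 (k := k) H.h).comp (PMap.comp PMap.fst PMap.fst)) PFun.zero)
    (t.cW.mem (PMap.comp PMap.snd PMap.fst))) ?_
  refine ICons.eq (PFun.sum _ fun i _ => ?_) ?_
  · exact ((pfun_h1 (k := k) (H.u i)).comp (PMap.comp PMap.fst PMap.fst)).mul
      (((PFun.apply (k := k) i).comp PMap.snd).pow 2)
  · exact ((pfun_h1 (k := k) H.h).comp (PMap.comp PMap.fst PMap.fst)).mul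
      (hc.comp (PMap.comp PMap.snd PMap.fst))

private theorem mem_top (H : HData D) (d : ℕ) (t : Test k) (c : t.E → ℂ)
    (x : ((Fin (d + 1) → ℂ) × t.E) × (J → ℂ)) :
    x ∈ top (VV H d t.E) (fun _ => 0) d (kap H d) (QQ H d t)
        (fun e => Polynomial.aeval (e.1 0) H.h * c e.2) ↔
      ((x.1.1 0, x.1.2), x.2) ∈ TT H (2 ∣ d) t.W c := by
  classical
  have e : ∑ i ∈ Finset.univ.filter (fun i => kap H d i ≤ d ∧ 2 ∣ d - kap H d i),
      PowerSeries.coeff (kap H d i) (VV H d t.E i x.1) * x.2 i ^ 2 =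
      ∑ i ∈ II H (2 ∣ d), Polynomial.aeval (x.1.1 0) (H.u i) * x.2 i ^ 2 := by
    have e1 : Finset.univ.filter (fun i => kap H d i ≤ d ∧ 2 ∣ d - kap H d i) =
        II H (2 ∣ d) := by
      ext i
      rw [mem_II]
      simp only [Finset.mem_filter, Finset.mem_univ, true_and]
      unfold kap
      by_cases hi : H.u i = 0
      · rw [if_pos hi]
        constructor
        · intro h
          exfalso
          omega
        · intro h
          exact absurd hi h.1
      · rw [if_neg hi]
        simp only [Nat.zero_le, true_and, Nat.sub_zero]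
        exact ⟨fun h => ⟨hi, h⟩, fun h => h.2⟩
    rw [e1]
    refine Finset.sum_congr rfl fun i hi => ?_
    have h2 : H.u i ≠ 0 := ((mem_II H _ i).1 hi).1
    have h3 : kap H d i = 0 := by unfold kap; rw [if_neg h2]
    rw [h3, VV, PowerSeries.coeff_zero_eq_constantCoeff_apply, gx_cc, ser_cc]
  unfold top TT QQ
  simp only [Set.mem_ofPred_eq]
  rw [e, map_zero, add_zero]

private theorem mo_top (H : HData D) (d : ℕ) (t : Test k) {c : t.E → ℂ} (hc : PFun k c) :
    mo k (top (VV H d t.E) (fun _ => 0) d (kap H d) (QQ H d t)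
        (fun e => Polynomial.aeval (e.1 0) H.h * c e.2)) =
      mo k (TT H (2 ∣ d) t.W c) * ↑(Lu k ^ (d : ℤ)) := by
  have hT := cons_TT H (2 ∣ d) t hc
  have hp : PMap k (fun x : ((Fin (d + 1) → ℂ) × t.E) × (J → ℂ) =>
      (((x.1.1 0, x.1.2), x.2) : (ℂ × t.E) × (J → ℂ))) := by
    refine PMap.prodMk (PMap.prodMk ?_ (PMap.comp PMap.snd PMap.fst)) PMap.snd
    exact PMap.of_pFun ((PFun.apply (k := k) (0 : Fin (d + 1))).comp (PMap.comp PMap.fst PMap.fst))
  have hp2 : PMap k (fun x : ((Fin (d + 1) → ℂ) × t.E) × (J → ℂ) =>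
      (fun l => x.1.1 l.succ : Fin d → ℂ)) :=
    PMap.pi fun l => (PFun.apply (k := k) l.succ).comp (PMap.comp PMap.fst PMap.fst)
  have hA : ICons k (top (VV H d t.E) (fun _ => 0) d (kap H d) (QQ H d t)
        (fun e => Polynomial.aeval (e.1 0) H.h * c e.2)) := by
    have h := hT.mem hp
    have e : {x : ((Fin (d + 1) → ℂ) × t.E) × (J → ℂ) |
        (((x.1.1 0, x.1.2), x.2) : (ℂ × t.E) × (J → ℂ)) ∈ TT H (2 ∣ d) t.W c} =
        top (VV H d t.E) (fun _ => 0) d (kap H d) (QQ H d t)
        (fun e => Polynomial.aeval (e.1 0) H.h * c e.2) := by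
      ext x
      exact (mem_top H d t c x).symm
    rwa [e] at h
  have h1 := mo_prod (k := k) hT (ICons.univ (k := k) (E := Fin d → ℂ))
  rw [mo_univ_pi, Nat.card_eq_fintype_card, Fintype.card_fin] at h1
  rw [← h1]
  refine mo_bij hA (ICons.prod hT ICons.univ) (PMap.prodMk hp hp2) ⟨?_, ?_, ?_⟩
  · intro x hx
    exact ⟨(mem_top H d t c x).1 hx, Set.mem_univ _⟩
  · rintro ⟨⟨v, w⟩, z⟩ _ ⟨⟨v', w'⟩, z'⟩ _ hxy
    simp only [Prod.mk.injEq] at hxy
    obtain ⟨⟨⟨h2, h3⟩, h4⟩, h5⟩ := hxy
    refine Prod.ext (Prod.ext ?_ h3) h4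
    funext l
    refine Fin.cases h2 (fun i => ?_) l
    exact congrFun h5 i
  · rintro ⟨⟨⟨a, w⟩, z⟩, b⟩ ⟨h2, _⟩
    refine ⟨((Fin.cons a b, w), z), (mem_top H d t c _).2 h2, rfl⟩

theorem GNH (hRLA : RLAStmt) (hCON : CONStmt) : GNHStmt := by
  classical
  intro k _ _ J _ _ D H
  have hVV : ∀ (d : ℕ) (t : Test k) (i : J), PS k (VV H d t.E i) := by
    intro d t i l
    have h := PFun.coeff_arcEval (k := k) l (emb k J (H.u i)) (pmap_gext (k := k) (J := J) (d := d)
      (f := fun e : (Fin (d + 1) → ℂ) × t.E => e.1) (g := fun _ _ => 0) PMap.fst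
      (PMap.pi fun _ => PFun.zero))
    simp only [ae_emb, gext_none] at h
    exact h
  have hEx : ∀ (d : ℕ) (t : Test k) (i : J), Exact (VV H d t.E i) (QQ H d t) d (kap H d i) := by
    intro d t i e he
    unfold kap
    by_cases hi : H.u i = 0
    · rw [if_pos hi]
      refine ⟨fun l _ _ => ?_, fun h => ?_⟩
      · rw [VV, hi, map_zero, map_zero]
      · omega
    · rw [if_neg hi]
      refine ⟨fun l h => absurd h (Nat.not_lt_zero l), fun _ => ?_⟩
      rw [VV, PowerSeries.coeff_zero_eq_constantCoeff_apply, gx_cc, ser_cc]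
      intro h0
      have h1 : H.u i ∣ H.h ^ 2 := (H.dvd i).resolve_left hi
      have h2 : Polynomial.aeval (e.1 0) (H.u i) ∣ Polynomial.aeval (e.1 0) (H.h ^ 2) :=
        map_dvd _ h1
      rw [h0, zero_dvd_iff, map_pow] at h2
      exact he.1 (pow_eq_zero_iff two_ne_zero |>.1 h2)
  have hdif : ∀ (d : ℕ) (t : Test k), 1 ≤ d →
      ↑(Lu k ^ (-(((Fintype.card J + 1) * d : ℕ) : ℤ))) *
        zd (pol D) d {v | Polynomial.aeval (v 0) H.h ≠ 0} t =
      ↑(Lu k ^ (-((H.r * ((d + 1) / 2) : ℕ) : ℤ))) *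
        (mo k (TT H (2 ∣ d) t.W t.c) - mo k (TT H (2 ∣ d) t.W fun _ => 0)) := by
    intro d t hd
    unfold zd
    rw [gm_bij, gm_bij]
    have e0 : mo k (rel (VV H d t.zr.E) (fun _ _ => 0) (fun _ => 0) d (QQ H d t.zr)
        (fun e => Polynomial.aeval (e.1 0) H.h * t.zr.c e.2)) =
        mo k (rel (VV H d t.E) (fun _ _ => 0) (fun _ => 0) d (QQ H d t) fun _ => 0) := by
      have e1 : (fun e : (Fin (d + 1) → ℂ) × t.zr.E =>
          Polynomial.aeval (e.1 0) H.h * t.zr.c e.2) = fun _ => 0 := by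
        funext e
        exact mul_zero _
      rw [e1]
      rfl
    rw [e0]
    have hpc : PFun k (fun e : (Fin (d + 1) → ℂ) × t.E =>
        Polynomial.aeval (e.1 0) H.h * t.c e.2) :=
      ((pfun_h (k := k) H.h d).comp PMap.fst).mul (t.pf.comp PMap.snd)
    have h := hRLA k ((Fin (d + 1) → ℂ) × t.E) J (VV H d t.E) (fun _ _ => 0) (fun _ => 0) d
      (kap H d) (QQ H d t) (fun e => Polynomial.aeval (e.1 0) H.h * t.c e.2) (hVV d t)
      (fun _ _ => by simp only [map_zero]; exact PFun.zero)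
      (fun _ => by simp only [map_zero]; exact PFun.zero) (cons_QQ H d t) hpc hd (hEx d t)
      (fun _ _ _ _ _ => map_zero _) (fun _ _ _ _ => map_zero _)
    rw [h, mo_top H d t t.pf]
    have e2 : mo k (top (VV H d t.E) (fun _ => 0) d (kap H d) (QQ H d t) fun _ => 0) =
        mo k (TT H (2 ∣ d) t.W fun _ => 0) * ↑(Lu k ^ (d : ℤ)) := by
      rw [← mo_top H d t (PFun.zero (k := k))]
      simp only [mul_zero]
    rw [e2]
    have e3 : (-(((Fintype.card J + 1) * d : ℕ) : ℤ)) +
        ((∑ i, (d - (d - kap H d i + 1) / 2) : ℕ) : ℤ) + (d : ℤ) =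
        -((H.r * ((d + 1) / 2) : ℕ) : ℤ) := by
      have e4 : ∀ i : J, ((d - (d - kap H d i + 1) / 2 : ℕ) : ℤ) =
          (d : ℤ) - if H.u i ≠ 0 then (((d + 1) / 2 : ℕ) : ℤ) else 0 := by
        intro i
        unfold kap
        by_cases hi : H.u i = 0
        · rw [if_pos hi, if_neg (not_not.2 hi)]
          omega
        · rw [if_neg hi, if_pos hi]
          omega
      rw [Nat.cast_sum, Finset.sum_congr rfl fun i _ => e4 i, Finset.sum_sub_distrib,
        Finset.sum_const, ← Finset.sum_filter, Finset.sum_const, Finset.card_univ]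
      have e5 : (Finset.univ.filter fun i => H.u i ≠ 0).card = H.r := by
        unfold HData.r
        rfl
      rw [e5]
      simp only [nsmul_eq_mul]
      push_cast
      ring
    rw [← e3, zpow_add, zpow_add, Units.val_mul, Units.val_mul]
    ring
  have hC := (hCON (M k) (Lu k) (Test k)).2.2.2 (fun d t =>
    ↑(Lu k ^ (-(((Fintype.card J + 1) * d : ℕ) : ℤ))) *
        zd (pol D) d {v | Polynomial.aeval (v 0) H.h ≠ 0} t) 1 (-(H.r : ℤ)) le_rfl ?_
  · exact hC
  · intro d t hd
    rw [hdif (d + 2 * 1) t (by omega), hdif d t hd]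
    have e6 : (2 ∣ d + 2 * 1) = (2 ∣ d) := by
      apply propext
      omega
    have e7 : (d + 2 * 1 + 1) / 2 = (d + 1) / 2 + 1 := by omega
    rw [e6, e7]
    have e8 : -((H.r * ((d + 1) / 2 + 1) : ℕ) : ℤ) =
        -(H.r : ℤ) + -((H.r * ((d + 1) / 2) : ℕ) : ℤ) := by
      push_cast
      ring
    rw [e8, zpow_add, Units.val_mul]
    ring

end GNH

end Pool.Agent.H87.QF
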