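import Pool.Agent.H87.QF.Stmts

/-! # QFM, row LOC: the local series at `x0` -/

set_option autoImplicit false

namespace Pool.Agent.H87.QF

open MvPolynomial Pool.Agent.H39.MonoR Pool.Agent.H75.Mono

namespace LocH

section Ord

variable {k : Type} [Field k]

theorem od_lt {u : PowerSeries k} {m : ℕ} (h : m < od u) : PowerSeries.coeff m u = 0 :=
  PowerSeries.coeff_of_lt_order_toNat m h

theorem lc_ne {u : PowerSeries k} (h : u ≠ 0) : PowerSeries.coeff (od u) u ≠ 0 :=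
  PowerSeries.coeff_order h

theorem dvd_iff {u : PowerSeries k} (h : u ≠ 0) (m : ℕ) :
    (PowerSeries.X : PowerSeries k) ^ m ∣ u ↔ m ≤ od u := by
  rw [PowerSeries.X_pow_dvd_iff]
  constructor
  · intro h1
    by_contra h2
    exact lc_ne h (h1 (od u) (by omega))
  · intro h1 i hi
    exact od_lt (by omega)

theorem coeff_ne {u : PowerSeries k} {m : ℕ} (h1 : (PowerSeries.X : PowerSeries k) ^ m ∣ u)
    (h2 : ¬ (PowerSeries.X : PowerSeries k) ^ (m + 1) ∣ u) : PowerSeries.coeff m u ≠ 0 := by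
  intro h3
  apply h2
  rw [PowerSeries.X_pow_dvd_iff] at h1 ⊢
  intro i hi
  rcases Nat.lt_succ_iff_lt_or_eq.1 hi with h | h
  · exact h1 i h
  · rw [h]
    exact h3

theorem dvd_of_od {u b : PowerSeries k} (h : u ≠ 0)
    (h1 : (PowerSeries.X : PowerSeries k) ^ od u ∣ b) : u ∣ b := by
  obtain ⟨w, hw⟩ : (PowerSeries.X : PowerSeries k) ^ od u ∣ u := (dvd_iff h _).2 le_rfl
  have hw0 : PowerSeries.constantCoeff w ≠ 0 := by
    intro h0
    apply lc_ne h
    have h2 : PowerSeries.coeff (od u) u =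
        PowerSeries.coeff (od u) ((PowerSeries.X : PowerSeries k) ^ od u * w) := by rw [← hw]
    rw [h2, PowerSeries.coeff_X_pow_mul', if_pos le_rfl, Nat.sub_self,
      PowerSeries.coeff_zero_eq_constantCoeff_apply, h0]
  have hu : IsUnit w := PowerSeries.isUnit_iff_constantCoeff.2 (isUnit_iff_ne_zero.2 hw0)
  obtain ⟨b', hb⟩ := h1
  obtain ⟨w', hw'⟩ := hu.exists_right_inv
  refine ⟨w' * b', ?_⟩
  calc b = (PowerSeries.X : PowerSeries k) ^ od u * b' := hb
    _ = (PowerSeries.X : PowerSeries k) ^ od u * (w * w') * b' := by rw [hw', mul_one]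
    _ = ((PowerSeries.X : PowerSeries k) ^ od u * w) * (w' * b') := by ring
    _ = u * (w' * b') := by rw [← hw]

end Ord

section Lev

variable {k : Type} [Field k] {J : Type} [Fintype J] [DecidableEq J] {D : QD (PowerSeries k) J}

theorem red_dvd {Δ : Diag D} (hR : Δ.Red) {i : J} {m : ℕ}
    (h1 : (PowerSeries.X : PowerSeries k) ^ m ∣ Δ.B i)
    (h2 : ¬ (PowerSeries.X : PowerSeries k) ^ (m + 1) ∣ Δ.B i) :
    (PowerSeries.X : PowerSeries k) ^ (m + 1) ∣ Δ.U i := by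
  have hB : Δ.B i ≠ 0 := fun h => h2 (h ▸ dvd_zero _)
  rcases hR i with h | h
  · exact absurd h hB
  · by_cases hU : Δ.U i = 0
    · rw [hU]
      exact dvd_zero _
    · rw [dvd_iff hU]
      by_contra h3
      exact h (dvd_of_od hU ((pow_dvd_pow _ (by omega)).trans h1))

theorem deep_mono {Δ : Diag D} {m m' : ℕ} (h : m' ≤ m) (hd : Deep Δ m) : Deep Δ m' :=
  ⟨fun i => (pow_dvd_pow _ h).trans (hd.1 i), (pow_dvd_pow _ h).trans hd.2⟩

theorem deep_zero (Δ : Diag D) : Deep Δ 0 :=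
  ⟨fun i => by rw [pow_zero]; exact one_dvd _, by rw [pow_zero]; exact one_dvd _⟩

theorem deep_le {Δ : Diag D} {m μ : ℕ} (hμ : ¬ Deep Δ (μ + 1)) (h : Deep Δ m) : m ≤ μ := by
  by_contra h1
  exact hμ (deep_mono (by omega) h)

theorem pure_deep {Δ : Diag D} (h : Pure Δ) (m : ℕ) : Deep Δ m :=
  ⟨fun i => by rw [h.1 i]; exact dvd_zero _, by rw [h.2]; exact dvd_zero _⟩

theorem exists_max {Δ : Diag D} (h : ¬ Pure Δ) : ∃ μ, Deep Δ μ ∧ ¬ Deep Δ (μ + 1) := by
  classical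
  have h1 : ∃ m, ¬ Deep Δ m := by
    by_contra h2
    push Not at h2
    apply h
    refine ⟨fun i => ?_, ?_⟩
    · by_contra h3
      have h4 := (h2 (od (Δ.B i) + 1)).1 i
      rw [dvd_iff h3] at h4
      omega
    · by_contra h3
      have h4 := (h2 (od Δ.c + 1)).2
      rw [dvd_iff h3] at h4
      omega
  obtain ⟨p, hp⟩ : ∃ p, p = Nat.find h1 := ⟨_, rfl⟩
  have h2 : ¬ Deep Δ p := hp ▸ Nat.find_spec h1
  have h3 : p ≠ 0 := by
    rintro rfl
    exact h2 (deep_zero Δ)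
  refine ⟨p - 1, ?_, ?_⟩
  · have h4 := Nat.find_min h1 (m := p - 1) (by omega)
    push Not at h4
    exact h4
  · have e : p - 1 + 1 = p := by omega
    rw [e]
    exact h2

theorem lev_bdd (Δ : Diag D) : ∃ N, ∀ τ, Lev Δ τ → τ ≤ N := by
  by_cases hP : Pure Δ
  · refine ⟨∑ i, od (Δ.U i), fun τ hτ => ?_⟩
    rcases hτ.2.2 with ⟨i, _, h⟩ | h
    · rw [← h]
      exact Finset.single_le_sum (f := fun i => od (Δ.U i)) (fun _ _ => Nat.zero_le _)
        (Finset.mem_univ i)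
    · exact absurd (pure_deep hP _) h
  · obtain ⟨μ, _, h2⟩ := exists_max hP
    exact ⟨μ, fun τ hτ => deep_le h2 hτ.2.1⟩

end Lev

section Shift

variable {k : Type} [Field k] {J : Type} [Fintype J]

/-- the indices behave well under `(n, d) ↦ (n + 2, d + 2σ)` -/
def Good (U : J → PowerSeries k) (n d σ : ℕ) : Prop :=
  ∀ i, U i ≠ 0 → (n * od (U i) ≤ d ∧ od (U i) ≤ σ) ∨
    (d < n * od (U i) ∧ d + 2 * σ < (n + 2) * od (U i) ∧ σ ≤ od (U i))

theorem kk_shift {U : J → PowerSeries k} {n d σ : ℕ} (h : Good U n d σ) :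
    kk U (n + 2) (d + 2 * σ) + 2 = kk U n d + aT U σ := by
  classical
  unfold kk aT
  rw [add_left_comm, ← Finset.sum_add_distrib, add_comm]
  congr 1
  refine Finset.sum_congr rfl fun i hi => ?_
  have hU := (Finset.mem_filter.1 hi).2
  have h1 := h i hU
  have e : (n + 2) * od (U i) = n * od (U i) + 2 * od (U i) := by ring
  rw [e] at h1 ⊢
  generalize n * od (U i) = p at h1 ⊢
  rcases h1 with h1 | h1 <;> omega

theorem kk_shift0 {U : J → PowerSeries k} {n d : ℕ} (h : ∀ i, U i ≠ 0 → n * od (U i) ≤ d) :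
    kk U n (d + 2) = kk U n d + rk U := by
  classical
  unfold kk rk
  rw [Finset.card_eq_sum_ones, ← Finset.sum_add_distrib]
  refine Finset.sum_congr rfl fun i hi => ?_
  have h1 := h i (Finset.mem_filter.1 hi).2
  omega

variable [Algebra k ℂ]

/-- the term of the constant -/
noncomputable def ct (c : PowerSeries k) (n d : ℕ) (α : ℂ) : ℂ :=
  if n ∣ d then algebraMap k ℂ (PowerSeries.coeff (d / n) c) * α ^ (d / n) else 0

theorem ct_zero {c : PowerSeries k} {n d m : ℕ} (h : (PowerSeries.X : PowerSeries k) ^ m ∣ c)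
    (hd : d < n * m) (α : ℂ) : ct c n d α = 0 := by
  unfold ct
  split_ifs
  · rw [PowerSeries.X_pow_dvd_iff.1 h _ (Nat.div_lt_of_lt_mul hd), map_zero, zero_mul]
  · rfl

theorem ld_shift {U : J → PowerSeries k} {c : PowerSeries k} {n d σ : ℕ} (h : Good U n d σ)
    (hc : ∀ α, ct c (n + 2) (d + 2 * σ) α = ct c n d α) (α : ℂ) (z : J → ℂ) :
    ld U c (n + 2) (d + 2 * σ) α z = ld U c n d α z := by
  classical
  unfold ld
  have h1 := hc α
  unfold ct at h1
  rw [h1]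
  congr 1
  refine Finset.sum_congr (Finset.filter_congr fun i _ => ?_) fun _ _ => rfl
  constructor
  · rintro ⟨hU, h2, h3⟩
    have h4 := h i hU
    have e : (n + 2) * od (U i) = n * od (U i) + 2 * od (U i) := by ring
    rw [e] at h2 h3 h4
    generalize n * od (U i) = p at h2 h3 h4 ⊢
    refine ⟨hU, ?_, ?_⟩
    · rcases h4 with h4 | h4 <;> omega
    · rcases h4 with h4 | h4 <;> omega
  · rintro ⟨hU, h2, h3⟩
    have h4 := h i hU
    have e : (n + 2) * od (U i) = n * od (U i) + 2 * od (U i) := by ring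
    rw [e] at h4 ⊢
    generalize n * od (U i) = p at h2 h3 h4 ⊢
    refine ⟨hU, ?_, ?_⟩
    · rcases h4 with h4 | h4 <;> omega
    · rcases h4 with h4 | h4 <;> omega

theorem ld_shift0 {U : J → PowerSeries k} {n d : ℕ} (h : ∀ i, U i ≠ 0 → n * od (U i) ≤ d)
    (α : ℂ) (z : J → ℂ) : ld U 0 n (d + 2) α z = ld U 0 n d α z := by
  classical
  unfold ld
  simp only [map_zero, zero_mul, ite_self]
  congr 1
  refine Finset.sum_congr (Finset.filter_congr fun i _ => ?_) fun _ _ => rfl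
  constructor
  · rintro ⟨hU, h2, h3⟩
    have h4 := h i hU
    exact ⟨hU, h4, by omega⟩
  · rintro ⟨hU, h2, h3⟩
    exact ⟨hU, by omega, by omega⟩

theorem dl_congr {U : J → PowerSeries k} {c : PowerSeries k} {n d n' d' : ℕ}
    (h : ∀ α z, ld U c n d α z = ld U c n' d' α z) (t : Test k) :
    dl U c n d t = dl U c n' d' t := by
  unfold dl
  simp only [h]

theorem dl0_shift (U : J → PowerSeries k) (d σ : ℕ) (t : Test k) :
    dl0 U (d + 2 * σ) t = dl0 U d t := by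
  have h1 : (2 ∣ d + 2 * σ) = (2 ∣ d) := propext (by omega)
  have h : ∀ z, ld0 U (d + 2 * σ) z = ld0 U d z := by
    intro z
    unfold ld0
    by_cases h2 : 2 ∣ d
    · rw [if_pos h2, if_pos (h1 ▸ h2)]
    · rw [if_neg h2, if_neg (h1 ▸ h2)]
  unfold dl0
  simp only [h]

end Shift

section Loc

variable {k : Type} [Field k] [Algebra k ℂ] {J : Type} [Fintype J] [DecidableEq J]
  {D : QD (Polynomial k) J} {x0 : k}

/-- the hypotheses of NST -/
def Cnd (Δ : Diag (D.map (tay x0))) (n d : ℕ) : Prop :=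
  1 ≤ n ∧ n ≤ d ∧ (∀ i, ∃ m, (PowerSeries.X : PowerSeries k) ^ m ∣ Δ.B i ∧ d < n * m) ∧
    ∃ m, (PowerSeries.X : PowerSeries k) ^ m ∣ Δ.c ∧ d ≤ n * m

/-- the normalised classes -/
noncomputable def Gf (D : QD (Polynomial k) J) (x0 : k) (n d : ℕ) (t : Test k) : M k :=
  ↑(Lu k ^ (-(((Fintype.card J + 1) * d : ℕ) : ℤ))) * zd (pol D) d (ordEq x0 d n) t

theorem Gf_eq (hN : NSTStmt) {Δ : Diag (D.map (tay x0))} {n d : ℕ} (h : Cnd Δ n d) (t : Test k) :
    Gf D x0 n d t = ↑(Lu k ^ (-(n : ℤ) - kk Δ.U n d)) * dl Δ.U Δ.c n d t := by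
  unfold Gf
  rw [hN k J D x0 Δ n d t h.1 h.2.1 h.2.2.1 h.2.2.2, ← mul_assoc, ← Units.val_mul, ← zpow_add]
  congr 3
  ring

theorem Gf_shift (hN : NSTStmt) {Δ : Diag (D.map (tay x0))} {n d σ : ℕ} (h1 : Cnd Δ n d)
    (h2 : Cnd Δ (n + 2) (d + 2 * σ)) (hg : Good Δ.U n d σ)
    (hc : ∀ α, ct Δ.c (n + 2) (d + 2 * σ) α = ct Δ.c n d α) (t : Test k) :
    Gf D x0 (n + 2) (d + 2 * σ) t = ↑(Lu k ^ (-(aT Δ.U σ : ℤ))) * Gf D x0 n d t := by
  rw [Gf_eq hN h1, Gf_eq hN h2, dl_congr (ld_shift hg hc), ← mul_assoc, ← Units.val_mul,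
    ← zpow_add]
  congr 3
  have h3 := kk_shift hg
  push_cast
  have h4 : (kk Δ.U (n + 2) (d + 2 * σ) : ℤ) + 2 = kk Δ.U n d + aT Δ.U σ := by exact_mod_cast h3
  linarith

theorem Gf_shift0 (hN : NSTStmt) {Δ : Diag (D.map (tay x0))} {n d : ℕ} (h1 : Cnd Δ n d)
    (h2 : Cnd Δ n (d + 2)) (hg : ∀ i, Δ.U i ≠ 0 → n * od (Δ.U i) ≤ d) (hc : Δ.c = 0)
    (t : Test k) :
    Gf D x0 n (d + 2) t = ↑(Lu k ^ (-(rk Δ.U : ℤ))) * Gf D x0 n d t := by
  rw [Gf_eq hN h1, Gf_eq hN h2, hc, dl_congr (ld_shift0 hg), ← mul_assoc, ← Units.val_mul,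
    ← zpow_add]
  congr 3
  have h3 := kk_shift0 hg
  rw [h3]
  push_cast
  ring

/-- the normalised classes of the arcs of large order -/
noncomputable def Lf (D : QD (Polynomial k) J) (x0 : k) (m d : ℕ) (t : Test k) : M k :=
  ↑(Lu k ^ (-(((Fintype.card J + 1) * d : ℕ) : ℤ))) * zd (pol D) d (ordGt x0 d m) t

theorem Lf_eq (hL : LSTStmt) {Δ : Diag (D.map (tay x0))} {m d : ℕ} (hd : 0 < d) (hm : m ≤ d)
    (h1 : ∀ i, Δ.U i ≠ 0 → od (Δ.U i) = 0 ∨ d < (m + 1) * od (Δ.U i))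
    (h2 : ∃ m', Deep Δ m' ∧ d < (m + 1) * m') (t : Test k) :
    Lf D x0 m d t = ↑(Lu k ^ (-(m : ℤ) - (k0 Δ.U * ((d + 1) / 2) : ℕ))) * dl0 Δ.U d t := by
  obtain ⟨m', hm', hlt⟩ := h2
  unfold Lf
  rw [hL k J D x0 Δ m d t hd hm h1 (fun i => ⟨m', hm'.1 i, hlt⟩) ⟨m', hm'.2, hlt⟩, ← mul_assoc,
    ← Units.val_mul, ← zpow_add]
  congr 3
  ring

end Loc

end LocH

open LocH in
theorem LOC (hSum : SUMStmt) (hCon : CONStmt) (hN : NSTStmt) (hL : LSTStmt) (hZ : ZERStmt)
    (hSpl : SPLStmt) : LOCStmt := by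
  classical
  intro k _ _ J _ _ D x0 Δ hR
  obtain ⟨S, hS⟩ : ∃ S : Set (ℤ × ℕ), S = {p : ℤ × ℕ | (∃ τ, Lev Δ τ ∧
      p = (-(aT Δ.U τ : ℤ), 2 * τ)) ∨ (Pure Δ ∧ p = (-(rk Δ.U : ℤ), 2))} := ⟨_, rfl⟩
  rw [← hS]
  have hSlev : ∀ τ, Lev Δ τ → (-(aT Δ.U τ : ℤ), 2 * τ) ∈ S := by
    intro τ hτ
    rw [hS]
    exact Or.inl ⟨τ, hτ, rfl⟩
  have hSpure : Pure Δ → (-(rk Δ.U : ℤ), 2) ∈ S := by
    intro h
    rw [hS]
    exact Or.inr ⟨h, rfl⟩
  have hC4 := (hCon (M k) (Lu k) (Test k)).2.2.2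
  obtain ⟨N, hNb⟩ := lev_bdd Δ
  obtain ⟨Λ, hΛ⟩ : ∃ Λ : Finset ℕ, ∀ τ, τ ∈ Λ ↔ Lev Δ τ := by
    refine ⟨(Finset.range (N + 1)).filter fun τ => Lev Δ τ, fun τ => ?_⟩
    rw [Finset.mem_filter, Finset.mem_range]
    exact ⟨fun h => h.2, fun h => ⟨Nat.lt_succ_of_le (hNb τ h), h⟩⟩
  by_cases hne : Λ.Nonempty
  · -- there are levels
    obtain ⟨τ₁, hτ₁, hmin⟩ : ∃ τ₁ ∈ Λ, ∀ τ ∈ Λ, τ₁ ≤ τ := ⟨_, Λ.min'_mem hne, fun τ h =>
      Λ.min'_le τ h⟩
    obtain ⟨μ, hμ, hmax⟩ : ∃ μ ∈ Λ, ∀ τ ∈ Λ, τ ≤ μ := ⟨_, Λ.max'_mem hne, fun τ h =>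
      Λ.le_max' τ h⟩
    have lev1 : ∀ τ ∈ Λ, 1 ≤ τ := fun τ h => ((hΛ τ).1 h).1
    have levD : ∀ τ ∈ Λ, Deep Δ τ := fun τ h => ((hΛ τ).1 h).2.1
    have hτ₁1 := lev1 _ hτ₁
    have hμ1 := lev1 _ hμ
    have hτμ : τ₁ ≤ μ := hmin _ hμ
    have hod : ∀ i, Δ.U i ≠ 0 → od (Δ.U i) = 0 ∨ od (Δ.U i) ∈ Λ ∨ μ < od (Δ.U i) := by
      intro i hU
      rcases Nat.eq_zero_or_pos (od (Δ.U i)) with h | h
      · exact Or.inl h
      · by_cases h1 : od (Δ.U i) ≤ μ
        · exact Or.inr (Or.inl ((hΛ _).2 ⟨h, deep_mono h1 (levD _ hμ), Or.inl ⟨i, hU, rfl⟩⟩))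
        · exact Or.inr (Or.inr (by omega))
    -- the last term
    have hlast : RatF (Lu k) S fun t : Test k => PowerSeries.mk fun d => if d = 0 then 0 else
        Lf D x0 (d / τ₁) d t := by
      have hLf : ∀ (d : ℕ) (t : Test k), 1 ≤ d → Lf D x0 (d / τ₁) d t =
          ↑(Lu k ^ (-((d / τ₁ : ℕ) : ℤ) - (k0 Δ.U * ((d + 1) / 2) : ℕ))) * dl0 Δ.U d t := by
        intro d t hd
        have h0 : d < (d / τ₁ + 1) * τ₁ := by
          rw [mul_comm]
          exact Nat.lt_mul_div_succ d (by omega)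
        have h1 : ∀ m, τ₁ ≤ m → d < (d / τ₁ + 1) * m := fun m hm =>
          lt_of_lt_of_le h0 (Nat.mul_le_mul_left _ hm)
        refine Lf_eq hL (by omega) (Nat.div_le_self _ _) (fun i hU => ?_) ⟨μ, levD _ hμ, h1 _ hτμ⟩ t
        rcases hod i hU with h | h | h
        · exact Or.inl h
        · exact Or.inr (h1 _ (hmin _ h))
        · exact Or.inr (h1 _ (by omega))
      have haT : aT Δ.U τ₁ = 2 + k0 Δ.U * τ₁ := by
        unfold aT k0
        congr 1
        rw [Finset.card_eq_sum_ones, Finset.sum_mul, ← Finset.filter_filter,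
          Finset.sum_filter (s := Finset.univ.filter fun i => Δ.U i ≠ 0)
            (p := fun i => od (Δ.U i) = 0)]
        refine Finset.sum_congr rfl fun i hi => ?_
        have hU := (Finset.mem_filter.1 hi).2
        by_cases h : od (Δ.U i) = 0
        · rw [if_pos h, h, Nat.sub_zero, one_mul]
        · rw [if_neg h]
          rcases hod i hU with h1 | h1 | h1
          · exact absurd h1 h
          · have := hmin _ h1
            omega
          · omega
      refine (hC4 (fun d t => Lf D x0 (d / τ₁) d t) τ₁ (-(aT Δ.U τ₁ : ℤ)) hτ₁1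
        (fun d t hd => ?_)).mono ?_
      · rw [hLf d t hd, hLf (d + 2 * τ₁) t (by omega), dl0_shift, ← mul_assoc, ← Units.val_mul,
          ← zpow_add]
        congr 3
        have e1 : (d + 2 * τ₁) / τ₁ = d / τ₁ + 2 := by
          rw [Nat.add_mul_div_right _ _ (by omega)]
        have e2 : (d + 2 * τ₁ + 1) / 2 = (d + 1) / 2 + τ₁ := by omega
        rw [e1, e2, haT]
        push_cast
        ring
      · rw [Set.singleton_subset_iff]
        exact hSlev _ ((hΛ _).1 hτ₁)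
    -- the first sum
    have hcone : ∀ τ ∈ Λ, ∀ τ' ∈ Λ, τ < τ' → (∀ σ ∈ Λ, σ ≤ τ ∨ τ' ≤ σ) →
        ∀ n d (t : Test k), 1 ≤ n → n * τ ≤ d → d < n * τ' →
          Gf D x0 (n + 2) (d + 2 * τ) t = ↑(Lu k ^ (-(aT Δ.U τ : ℤ))) * Gf D x0 n d t ∧
          Gf D x0 (n + 2) (d + 2 * τ') t = ↑(Lu k ^ (-(aT Δ.U τ' : ℤ))) * Gf D x0 n d t := by
      intro τ hτ τ' hτ' hlt hcons n d t hn h1 h2
      have hD := levD _ hτ'
      have cnd : ∀ n' d', 1 ≤ n' → n' * τ ≤ d' → d' < n' * τ' → Cnd Δ n' d' := by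
        intro n' d' hn' h1' h2'
        refine ⟨hn', ?_, fun i => ⟨τ', hD.1 i, h2'⟩, τ', hD.2, h2'.le⟩
        exact le_trans (Nat.le_mul_of_pos_right _ (lev1 _ hτ)) h1'
      have ez : ∀ n' d', d' < n' * τ' → ∀ α, ct Δ.c n' d' α = 0 := fun n' d' h α =>
        ct_zero hD.2 h α
      have e1 : (n + 2) * τ = n * τ + 2 * τ := by ring
      have e2 : (n + 2) * τ' = n * τ' + 2 * τ' := by ring
      have hodc : ∀ i, Δ.U i ≠ 0 → od (Δ.U i) ≤ τ ∨ τ' ≤ od (Δ.U i) := by
        intro i hU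
        rcases hod i hU with h | h | h
        · left; omega
        · exact hcons _ h
        · right
          have := hmax _ hτ'
          omega
      have good : ∀ σ, τ ≤ σ → σ ≤ τ' → Good Δ.U n d σ := by
        intro σ hσ1 hσ2 i hU
        rcases hodc i hU with h | h
        · left
          exact ⟨le_trans (Nat.mul_le_mul_left _ h) h1, by omega⟩
        · right
          have h3 : n * τ' ≤ n * od (Δ.U i) := Nat.mul_le_mul_left _ h
          have e3 : (n + 2) * od (Δ.U i) = n * od (Δ.U i) + 2 * od (Δ.U i) := by ring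
          rw [e3]
          omega
      have c1 := cnd n d hn h1 h2
      have c2 := cnd (n + 2) (d + 2 * τ) (by omega) (by rw [e1]; omega) (by rw [e2]; omega)
      have c3 := cnd (n + 2) (d + 2 * τ') (by omega) (by rw [e1]; omega) (by rw [e2]; omega)
      refine ⟨Gf_shift hN c1 c2 (good τ le_rfl hlt.le) (fun α => ?_) t,
        Gf_shift hN c1 c3 (good τ' hlt.le le_rfl) (fun α => ?_) t⟩
      · rw [ez _ _ h2, ez _ _ (by rw [e2]; omega)]
      · rw [ez _ _ h2, ez _ _ (by rw [e2]; omega)]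
    have htop : (∃ r : ℤ, (r, 2) ∈ S ∧ ∀ n d (t : Test k), 1 ≤ n → n * μ ≤ d →
          Gf D x0 (n + 2) (d + 2 * μ) t = ↑(Lu k ^ (-(aT Δ.U μ : ℤ))) * Gf D x0 n d t ∧
          Gf D x0 n (d + 2) t = ↑(Lu k ^ r) * Gf D x0 n d t) ∨
        ((∀ n d (t : Test k), 1 ≤ n → n * μ < d → Gf D x0 n d t = 0) ∧
          ∀ n (t : Test k), 1 ≤ n → Gf D x0 (n + 2) ((n + 2) * μ) t =
            ↑(Lu k ^ (-(aT Δ.U μ : ℤ))) * Gf D x0 n (n * μ) t) := by
      by_cases hP : Pure Δ
      · left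
        have hodp : ∀ i, Δ.U i ≠ 0 → od (Δ.U i) ≤ μ := by
          intro i hU
          rcases Nat.eq_zero_or_pos (od (Δ.U i)) with h | h
          · omega
          · exact hmax _ ((hΛ _).2 ⟨h, pure_deep hP _, Or.inl ⟨i, hU, rfl⟩⟩)
        have cnd : ∀ n' d', 1 ≤ n' → n' * μ ≤ d' → Cnd Δ n' d' := by
          intro n' d' hn' h1'
          have h2' : d' < n' * (d' + 1) := by
            have : 1 * (d' + 1) ≤ n' * (d' + 1) := Nat.mul_le_mul_right _ hn'
            omega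
          refine ⟨hn', ?_, fun i => ⟨d' + 1, (pure_deep hP _).1 i, h2'⟩, d' + 1,
            (pure_deep hP _).2, h2'.le⟩
          exact le_trans (Nat.le_mul_of_pos_right _ hμ1) h1'
        refine ⟨-(rk Δ.U : ℤ), hSpure hP, fun n d t hn h1 => ?_⟩
        have e1 : (n + 2) * μ = n * μ + 2 * μ := by ring
        have hg : ∀ i, Δ.U i ≠ 0 → n * od (Δ.U i) ≤ d := fun i hU =>
          le_trans (Nat.mul_le_mul_left _ (hodp i hU)) h1
        refine ⟨Gf_shift hN (cnd _ _ hn h1) (cnd _ _ (by omega) (by rw [e1]; omega))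
          (fun i hU => Or.inl ⟨hg i hU, hodp i hU⟩) (fun α => ?_) t,
          Gf_shift0 hN (cnd _ _ hn h1) (cnd _ _ hn (by omega)) hg hP.2 t⟩
        rw [hP.2]
        unfold ct
        simp
      · right
        obtain ⟨μ', hd1, hd2⟩ := exists_max hP
        have hμμ : μ = μ' := by
          have h1 : μ ≤ μ' := deep_le hd2 (levD _ hμ)
          have h2 : μ' ∈ Λ := (hΛ _).2 ⟨by omega, hd1, Or.inr hd2⟩
          have := hmax _ h2
          omega
        rw [← hμμ] at hd1 hd2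
        have hnd : ∀ n d, 1 ≤ n → n * μ ≤ d → n ≤ d := fun n d _ h =>
          le_trans (Nat.le_mul_of_pos_right _ hμ1) h
        by_cases hB : ∃ i, ¬ (PowerSeries.X : PowerSeries k) ^ (μ + 1) ∣ Δ.B i
        · obtain ⟨i₀, hi₀⟩ := hB
          have hz : ∀ n d (t : Test k), 1 ≤ n → n * μ ≤ d → Gf D x0 n d t = 0 := by
            intro n d t hn h1
            have hnd' := hnd n d hn h1
            unfold Gf
            rw [(hZ k J D x0 Δ d t (by omega)).2.1 n μ i₀ hn hnd' h1 (hd1.1 i₀)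
              (coeff_ne (hd1.1 i₀) hi₀) (red_dvd hR (hd1.1 i₀) hi₀), mul_zero]
          refine ⟨fun n d t hn h1 => hz n d t hn h1.le, fun n t hn => ?_⟩
          rw [hz _ _ t hn le_rfl, hz _ _ t (by omega) le_rfl, mul_zero]
        · push Not at hB
          have hc : ¬ (PowerSeries.X : PowerSeries k) ^ (μ + 1) ∣ Δ.c := fun h => hd2 ⟨hB, h⟩
          refine ⟨fun n d t hn h1 => ?_, fun n t hn => ?_⟩
          · have hnd' := hnd n d hn h1.le
            unfold Gf
            rw [(hZ k J D x0 Δ d t (by omega)).1 n μ hn hnd' h1 hd1.2 (coeff_ne hd1.2 hc) hB,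
              mul_zero]
          · have cnd : ∀ n', 1 ≤ n' → Cnd Δ n' (n' * μ) := by
              intro n' hn'
              refine ⟨hn', hnd _ _ hn' le_rfl, fun i => ⟨μ + 1, hB i, ?_⟩, μ, hd1.2, le_rfl⟩
              exact Nat.mul_lt_mul_of_pos_left (Nat.lt_succ_self μ) hn'
            have e1 : (n + 2) * μ = n * μ + 2 * μ := by ring
            have c2 := cnd (n + 2) (by omega)
            rw [e1] at c2 ⊢
            refine Gf_shift hN (cnd n hn) c2 (fun i hU => ?_) (fun α => ?_) t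
            · by_cases h : od (Δ.U i) ≤ μ
              · exact Or.inl ⟨Nat.mul_le_mul_left _ h, h⟩
              · right
                have h1 : μ + 1 ≤ od (Δ.U i) := by omega
                have h2 : n * (μ + 1) ≤ n * od (Δ.U i) := Nat.mul_le_mul_left _ h1
                have e2 : n * (μ + 1) = n * μ + n := by ring
                have e3 : (n + 2) * od (Δ.U i) = n * od (Δ.U i) + 2 * od (Δ.U i) := by ring
                rw [e3]
                omega
            · have e4 : ∀ n', 1 ≤ n' → ∀ α, ct Δ.c n' (n' * μ) α =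
                  algebraMap k ℂ (PowerSeries.coeff μ Δ.c) * α ^ μ := by
                intro n' hn' α
                unfold ct
                rw [if_pos (Dvd.intro _ rfl), Nat.mul_div_cancel_left _ (by omega)]
              have h5 := e4 (n + 2) (by omega) α
              rw [e1] at h5
              rw [h5, e4 n hn]
    have hfirst := hSum (M k) (Lu k) (Test k) (fun n d t => Gf D x0 n d t) Λ
      (fun τ => -(aT Δ.U τ : ℤ)) S μ τ₁ (fun τ hτ => ⟨lev1 _ hτ, hSlev _ ((hΛ _).1 hτ)⟩) hτ₁ hmin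
      hμ hmax hcone htop
    have htot := (hfirst.add hlast)
    rw [Set.union_self] at htot
    refine htot.congr fun t => ?_
    ext d
    rw [map_add, PowerSeries.coeff_mk, PowerSeries.coeff_mk, PowerSeries.coeff_mk]
    by_cases hd : d = 0
    · rw [if_pos hd, if_pos hd, add_zero]
      refine Finset.sum_eq_zero fun n hn => ?_
      obtain ⟨-, h1, h2⟩ := Finset.mem_filter.1 hn
      exfalso
      have h3 : 1 * 1 ≤ n * τ₁ := Nat.mul_le_mul h1 hτ₁1
      omega
    · rw [if_neg hd, if_neg hd]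
      have e1 := (hSpl k J (pol D) d).2.1 x0 (d / τ₁) t (Nat.div_le_self _ _)
      have e2 : (Finset.range (d + 1)).filter (fun n => 1 ≤ n ∧ n * τ₁ ≤ d) =
          Finset.Icc 1 (d / τ₁) := by
        ext n
        rw [Finset.mem_filter, Finset.mem_range, Finset.mem_Icc,
          Nat.le_div_iff_mul_le (by omega)]
        constructor
        · rintro ⟨_, h1, h2⟩
          exact ⟨h1, h2⟩
        · rintro ⟨h1, h2⟩
          have h3 : n ≤ n * τ₁ := Nat.le_mul_of_pos_right _ hτ₁1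
          exact ⟨by omega, h1, h2⟩
      rw [e1, e2, mul_add]
      refine congrArg₂ (fun a b => a + b) ?_ rfl
      exact (Finset.mul_sum _ _ _).symm
  · -- no levels
    have hno : ∀ τ, ¬ Lev Δ τ := fun τ h => hne ⟨τ, (hΛ τ).2 h⟩
    by_cases hP : Pure Δ
    · have hod0 : ∀ i, Δ.U i ≠ 0 → od (Δ.U i) = 0 := by
        intro i hU
        by_contra h
        exact hno _ ⟨by omega, pure_deep hP _, Or.inl ⟨i, hU, rfl⟩⟩
      have hk : k0 Δ.U = rk Δ.U := by
        unfold k0 rk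
        congr 1
        refine Finset.filter_congr fun i _ => ?_
        exact ⟨fun h => h.1, fun h => ⟨h, hod0 i h⟩⟩
      have hLf : ∀ (d : ℕ) (t : Test k), 1 ≤ d → Lf D x0 0 d t =
          ↑(Lu k ^ (-((0 : ℕ) : ℤ) - (k0 Δ.U * ((d + 1) / 2) : ℕ))) * dl0 Δ.U d t := by
        intro d t hd
        exact Lf_eq hL (by omega) (Nat.zero_le _) (fun i hU => Or.inl (hod0 i hU))
          ⟨d + 1, pure_deep hP _, by omega⟩ t
      have h4 := hC4 (fun d t => Lf D x0 0 d t) 1 (-(rk Δ.U : ℤ)) le_rfl (fun d t hd => by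
        rw [hLf d t hd, hLf (d + 2 * 1) t (by omega), dl0_shift, ← mul_assoc, ← Units.val_mul,
          ← zpow_add]
        congr 3
        have e2 : (d + 2 * 1 + 1) / 2 = (d + 1) / 2 + 1 := by omega
        rw [e2, hk]
        push_cast
        ring)
      exact h4.mono (Set.singleton_subset_iff.2 (hSpure hP))
    · obtain ⟨μ, hd1, hd2⟩ := exists_max hP
      have hμ0 : μ = 0 := by
        by_contra h
        exact hno μ ⟨by omega, hd1, Or.inr hd2⟩
      subst hμ0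
      have hz : ∀ d (t : Test k), 0 < d → zd (pol D) d (ordGt x0 d 0) t = 0 := by
        intro d t hd
        by_cases hB : ∃ i, ¬ (PowerSeries.X : PowerSeries k) ^ (0 + 1) ∣ Δ.B i
        · obtain ⟨i₀, hi₀⟩ := hB
          have h1 := red_dvd hR (hd1.1 i₀) hi₀
          exact (hZ k J D x0 Δ d t hd).2.2.2 i₀ (coeff_ne (hd1.1 i₀) hi₀)
            (PowerSeries.X_pow_dvd_iff.1 h1 0 (by omega))
        · push Not at hB
          have hc : ¬ (PowerSeries.X : PowerSeries k) ^ (0 + 1) ∣ Δ.c := fun h => hd2 ⟨hB, h⟩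
          exact (hZ k J D x0 Δ d t hd).2.2.1 (coeff_ne hd1.2 hc)
            fun i => PowerSeries.X_pow_dvd_iff.1 (hB i) 0 (by omega)
      refine RatF.of_fin 0 fun t d _ => ?_
      rw [PowerSeries.coeff_mk]
      by_cases hd : d = 0
      · rw [if_pos hd]
      · rw [if_neg hd, hz d t (by omega), mul_zero]

end Pool.Agent.H87.QF
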