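import Pool.Agent.H87.QF.Stmts
import Pool.Agent.H87.QF.Base

/-! # QFM, row LRT: the local roots `aT U τ / (2τ)` -/

set_option autoImplicit false

namespace Pool.Agent.H87.QF

open MvPolynomial Pool.Agent.H39.MonoR Pool.Agent.H75.Mono

namespace LRTx

section Ser

variable {k : Type} [Field k]

theorem lc_ne {u : PowerSeries k} (hu : u ≠ 0) : lc u ≠ 0 := by
  have h := PowerSeries.coeff_order hu
  exact h

theorem coeff_lt {u : PowerSeries k} {m : ℕ} (hm : m < od u) : PowerSeries.coeff m u = 0 := by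
  by_cases hu : u = 0
  · rw [hu, map_zero]
  · exact PowerSeries.coeff_of_lt_order_toNat m hm

theorem dvd_of_od {u : PowerSeries k} (hu : u ≠ 0) {n : ℕ} (hn : od u ≤ n) :
    u ∣ PowerSeries.X ^ n := by
  have h1 : (PowerSeries.X : PowerSeries k) ^ od u * PowerSeries.divXPowOrder u = u :=
    PowerSeries.X_pow_order_mul_divXPowOrder
  obtain ⟨w, hw⟩ := PowerSeries.isUnit_divided_by_X_pow_order hu
  refine ⟨(↑w⁻¹ : PowerSeries k) * PowerSeries.X ^ (n - od u), ?_⟩
  calc (PowerSeries.X : PowerSeries k) ^ n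
      = PowerSeries.X ^ od u * ((w : PowerSeries k) * ↑w⁻¹) * PowerSeries.X ^ (n - od u) := by
        rw [Units.mul_inv, mul_one, ← pow_add, Nat.add_sub_cancel' hn]
    _ = PowerSeries.X ^ od u * (w : PowerSeries k) * (↑w⁻¹ * PowerSeries.X ^ (n - od u)) := by ring
    _ = _ := by rw [hw, h1]

/-- subtracting the lowest term -/
theorem dvd_sub {u : PowerSeries k} {n : ℕ} (h : ∀ m, m < n → PowerSeries.coeff m u = 0) :
    (PowerSeries.X : PowerSeries k) ^ (n + 1) ∣
      u - PowerSeries.C (PowerSeries.coeff n u) * PowerSeries.X ^ n := by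
  rw [PowerSeries.X_pow_dvd_iff]
  intro m hm
  rw [map_sub, PowerSeries.coeff_C_mul, PowerSeries.coeff_X_pow]
  split_ifs with h1
  · rw [h1, mul_one, sub_self]
  · rw [h m (by omega), mul_zero, sub_zero]

theorem dvd_succ {u : PowerSeries k} {n : ℕ} (h : (PowerSeries.X : PowerSeries k) ^ n ∣ u)
    (h0 : PowerSeries.coeff n u = 0) : (PowerSeries.X : PowerSeries k) ^ (n + 1) ∣ u := by
  have h1 := dvd_sub (PowerSeries.X_pow_dvd_iff.1 h)
  rwa [h0, map_zero, zero_mul, sub_zero] at h1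

end Ser

section Wt

variable {k : Type} [Field k] {J : Type} {I : Finset J} {e : J → ℕ} {τ : ℕ}

theorem wg_zero (w : ℕ) : WG (k := k) I e τ w 0 := by
  intro m a h
  simp at h

theorem wg_all (q : MvPolynomial J (PowerSeries k)) : WG I e τ 0 q := fun _ _ _ => Nat.zero_le _

theorem wg_C {P : PowerSeries k} {a : ℕ} (h : (PowerSeries.X : PowerSeries k) ^ a ∣ P) :
    WG I e τ (2 * a) (C P : MvPolynomial J (PowerSeries k)) := by
  classical
  intro m b hb
  rw [coeff_C] at hb
  split_ifs at hb with h1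
  · have h2 : a ≤ b := by
      by_contra h3
      exact hb (PowerSeries.X_pow_dvd_iff.1 h b (by omega))
    omega
  · simp at hb

theorem wg_X {i : J} (hi : i ∈ I) : WG (k := k) I e τ (τ - e i) (X i) := by
  classical
  intro m b hb
  rw [coeff_X] at hb
  split_ifs at hb with h1
  · subst h1
    have h2 : (τ - e i) ≤ ∑ j ∈ I, (τ - e j) * (Finsupp.single i 1) j := by
      have := Finset.single_le_sum (f := fun j => (τ - e j) * (Finsupp.single i 1) j)
        (fun j _ => Nat.zero_le _) hi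
      simpa using this
    omega
  · simp at hb

end Wt

section Gg

variable {k : Type} [Field k] {J : Type} [Fintype J] [DecidableEq J]

/-- a quadratic polynomial in diagonal form -/
noncomputable def quad (a b : J → k) (c : k) : MvPolynomial J k :=
  ∑ i, C (a i) * X i ^ 2 + ∑ i, C (b i) * X i + C c

theorem coeff_quad (a b : J → k) (c : k) (m : J →₀ ℕ) : coeff m (quad a b c) =
    ∑ i, (if Finsupp.single i 2 = m then a i else 0) +
      ∑ i, (if Finsupp.single i 1 = m then b i else 0) + if 0 = m then c else 0 := by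
  simp only [quad, coeff_add, coeff_sum, coeff_C_mul, coeff_X_pow, MvPolynomial.coeff_X, coeff_C, mul_ite,
    mul_one, mul_zero]

theorem coeff_two (a b : J → k) (c : k) (i : J) :
    coeff (Finsupp.single i 2) (quad a b c) = a i := by
  rw [coeff_quad]
  have h1 : ∀ j : J, (Finsupp.single j 2 = (Finsupp.single i 2 : J →₀ ℕ)) ↔ j = i := fun j =>
    ⟨fun h => by
      have := (Finsupp.single_eq_single_iff _ _ _ _).1 h
      rcases this with h | h
      · exact h.1
      · exact absurd h.1 (by norm_num), fun h => by rw [h]⟩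
  have h2 : ∀ j : J, ¬ (Finsupp.single j 1 = (Finsupp.single i 2 : J →₀ ℕ)) := fun j h => by
    have := congrArg Finsupp.degree h
    simp at this
  have h3 : ¬ ((0 : J →₀ ℕ) = Finsupp.single i 2) := fun h => by
    have := congrArg Finsupp.degree h
    simp at this
  simp [h1, h2, h3]

theorem coeff_one' (a b : J → k) (c : k) (i : J) :
    coeff (Finsupp.single i 1) (quad a b c) = b i := by
  rw [coeff_quad]
  have h1 : ∀ j : J, (Finsupp.single j 1 = (Finsupp.single i 1 : J →₀ ℕ)) ↔ j = i := fun j =>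
    ⟨fun h => by
      have := (Finsupp.single_eq_single_iff _ _ _ _).1 h
      rcases this with h | h
      · exact h.1
      · exact absurd h.1 (by norm_num), fun h => by rw [h]⟩
  have h2 : ∀ j : J, ¬ (Finsupp.single j 2 = (Finsupp.single i 1 : J →₀ ℕ)) := fun j h => by
    have := congrArg Finsupp.degree h
    simp at this
  have h3 : ¬ ((0 : J →₀ ℕ) = Finsupp.single i 1) := fun h => by
    have := congrArg Finsupp.degree h
    simp at this
  simp [h1, h2, h3]

theorem coeff_zero' (a b : J → k) (c : k) : coeff 0 (quad a b c) = c := by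
  rw [coeff_quad]
  have h1 : ∀ j : J, ¬ (Finsupp.single j 1 = (0 : J →₀ ℕ)) := fun j h => by
    have := congrArg Finsupp.degree h
    simp at this
  have h2 : ∀ j : J, ¬ (Finsupp.single j 2 = (0 : J →₀ ℕ)) := fun j h => by
    have := congrArg Finsupp.degree h
    simp at this
  simp [h1, h2]

theorem quad_no {a b : J → k} {c : k} {I : Finset J} (ha : ∀ i ∈ I, a i = 0)
    (hb : ∀ i ∈ I, b i = 0) : ∀ m, coeff m (quad a b c) ≠ 0 → ∀ i ∈ I, m i = 0 := by
  intro m hm i hi
  by_contra hmi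
  apply hm
  rw [coeff_quad]
  have h1 : ∀ j : J, (if Finsupp.single j 2 = m then a j else 0) = 0 := fun j => by
    split_ifs with h
    · by_cases hj : j = i
      · rw [hj, ha i hi]
      · exfalso
        apply hmi
        rw [← h, Finsupp.single_eq_of_ne (fun h' => hj h'.symm)]
    · rfl
  have h2 : ∀ j : J, (if Finsupp.single j 1 = m then b j else 0) = 0 := fun j => by
    split_ifs with h
    · by_cases hj : j = i
      · rw [hj, hb i hi]
      · exfalso
        apply hmi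
        rw [← h, Finsupp.single_eq_of_ne (fun h' => hj h'.symm)]
    · rfl
  have h3 : ¬ (0 = m) := fun h => hmi (by rw [← h]; rfl)
  rw [Finset.sum_eq_zero fun j _ => h1 j, Finset.sum_eq_zero fun j _ => h2 j, if_neg h3]
  simp

end Gg

section Main

variable {k : Type} [Field k] {J : Type} [Fintype J] [DecidableEq J]

/-- the square coefficients of `g` -/
noncomputable def aa (I : Finset J) (U : J → PowerSeries k) (τ : ℕ) (i : J) : k :=
  if i ∈ I then 0 else PowerSeries.coeff τ (U i)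

/-- the polynomial `g` -/
noncomputable def gg (I : Finset J) (U B : J → PowerSeries k) (c : PowerSeries k) (τ : ℕ) :
    MvPolynomial J k :=
  quad (aa I U τ) (fun i => PowerSeries.coeff τ (B i)) (PowerSeries.coeff τ c)

/-- the principal part of `U_i` -/
noncomputable def pp (I : Finset J) (e : J → ℕ) (u : J → k) (U : J → PowerSeries k) (τ : ℕ)
    (i : J) : PowerSeries k :=
  if i ∈ I then PowerSeries.C (u i) * PowerSeries.X ^ e i
    else PowerSeries.C (PowerSeries.coeff τ (U i)) * PowerSeries.X ^ τ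

/-- the rest -/
noncomputable def rest (I : Finset J) (e : J → ℕ) (u : J → k) (U B : J → PowerSeries k)
    (c : PowerSeries k) (τ : ℕ) : MvPolynomial J (PowerSeries k) :=
  ∑ i, C (U i - pp I e u U τ i) * X i ^ 2 +
    ∑ i, C (B i - PowerSeries.C (PowerSeries.coeff τ (B i)) * PowerSeries.X ^ τ) * X i +
    C (c - PowerSeries.C (PowerSeries.coeff τ c) * PowerSeries.X ^ τ)

theorem prin_eq (I : Finset J) (e : J → ℕ) (u : J → k) (U B : J → PowerSeries k)
    (c : PowerSeries k) (τ : ℕ) : prin I e u τ (gg I U B c τ) =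
      ∑ i, C (pp I e u U τ i) * X i ^ 2 +
        ∑ i, C (PowerSeries.C (PowerSeries.coeff τ (B i)) * PowerSeries.X ^ τ) * X i +
        C (PowerSeries.C (PowerSeries.coeff τ c) * PowerSeries.X ^ τ) := by
  have h1 : ∑ i ∈ I, C (PowerSeries.C (u i) * PowerSeries.X ^ e i) *
      (X i : MvPolynomial J (PowerSeries k)) ^ 2 =
      ∑ i, if i ∈ I then C (PowerSeries.C (u i) * PowerSeries.X ^ e i) *
        (X i : MvPolynomial J (PowerSeries k)) ^ 2 else 0 := by
    rw [Finset.sum_ite_mem, Finset.univ_inter]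
  rw [prin, gg, quad, h1]
  simp only [map_add, map_sum, map_mul, map_pow, map_C, map_X, mul_add, Finset.mul_sum]
  rw [← add_assoc, ← add_assoc, ← Finset.sum_add_distrib]
  congr 1
  · congr 1
    · refine Finset.sum_congr rfl fun i _ => ?_
      rw [pp, aa]
      split_ifs with h
      · simp
      · simp only [map_mul, map_pow]
        ring
    · refine Finset.sum_congr rfl fun i _ => ?_
      ring
  · ring

theorem gen_eq (I : Finset J) (e : J → ℕ) (u : J → k) (U B : J → PowerSeries k)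
    (c : PowerSeries k) (τ : ℕ) : prin I e u τ (gg I U B c τ) + rest I e u U B c τ = gen U B c := by
  rw [prin_eq, rest, gen]
  simp only [map_sub, sub_mul, Finset.sum_sub_distrib]
  ring

theorem wg_sum {I : Finset J} {e : J → ℕ} {τ : ℕ} (hW : WGTStmt) {w : ℕ} (s : Finset J)
    (f : J → MvPolynomial J (PowerSeries k)) (h : ∀ i ∈ s, WG I e τ w (f i)) :
    WG I e τ w (∑ i ∈ s, f i) :=
  Finset.sum_induction f (fun q => WG I e τ w q)
    (fun p q hp hq => (hW k J I e τ).2.2.2.2.1 w p q hp hq) (wg_zero w) h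

theorem wg_sq {I : Finset J} {e : J → ℕ} {τ : ℕ} (hW : WGTStmt) {P : PowerSeries k} {i : J} {a : ℕ}
    (hi : i ∈ I) (hP : (PowerSeries.X : PowerSeries k) ^ a ∣ P) :
    WG I e τ (2 * a + (τ - e i) * 2) (C P * (X i : MvPolynomial J (PowerSeries k)) ^ 2) :=
  (hW k J I e τ).1 _ _ _ _ (wg_C hP) ((hW k J I e τ).2.1 _ 2 _ (wg_X hi))

theorem wg_mul {I : Finset J} {e : J → ℕ} {τ : ℕ} (hW : WGTStmt) {P : PowerSeries k} {a : ℕ}
    (hP : (PowerSeries.X : PowerSeries k) ^ a ∣ P) (q : MvPolynomial J (PowerSeries k)) :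
    WG I e τ (2 * a) (C P * q) := by
  have h := (hW k J I e τ).1 _ _ _ _ (wg_C (I := I) (e := e) (τ := τ) hP) (wg_all q)
  rwa [add_zero] at h

theorem wg_mono {I : Finset J} {e : J → ℕ} {τ : ℕ} (hW : WGTStmt) {w w' : ℕ}
    {p : MvPolynomial J (PowerSeries k)} (h : WG I e τ w p) (hw : w' ≤ w) : WG I e τ w' p :=
  (hW k J I e τ).2.2.2.2.2 w w' p hw h

theorem wg_add {I : Finset J} {e : J → ℕ} {τ : ℕ} (hW : WGTStmt) {w : ℕ}
    {p q : MvPolynomial J (PowerSeries k)} (hp : WG I e τ w p) (hq : WG I e τ w q) :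
    WG I e τ w (p + q) :=
  (hW k J I e τ).2.2.2.2.1 w p q hp hq

theorem wg_rest (hW : WGTStmt) {I : Finset J} {U B : J → PowerSeries k} {c : PowerSeries k} {τ : ℕ}
    (h1 : ∀ i ∈ I, U i ≠ 0 ∧ od (U i) < τ) (h2 : ∀ i, i ∉ I → U i = 0 ∨ τ ≤ od (U i))
    (h3 : ∀ i, (PowerSeries.X : PowerSeries k) ^ τ ∣ B i)
    (h4 : (PowerSeries.X : PowerSeries k) ^ τ ∣ c) :
    WG I (fun i => od (U i)) τ (2 * τ + 1)
      (rest I (fun i => od (U i)) (fun i => lc (U i)) U B c τ) := by
  rw [rest]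
  refine wg_add hW (wg_add hW (wg_sum hW _ _ fun i _ => ?_) (wg_sum hW _ _ fun i _ => ?_)) ?_
  · by_cases hi : i ∈ I
    · have h5 : (PowerSeries.X : PowerSeries k) ^ (od (U i) + 1) ∣
          U i - pp I (fun i => od (U i)) (fun i => lc (U i)) U τ i := by
        rw [pp, if_pos hi]
        exact dvd_sub fun m hm => coeff_lt hm
      have h6 := wg_sq (e := fun i => od (U i)) (τ := τ) hW hi h5
      have h7 := (h1 i hi).2
      refine wg_mono hW h6 ?_
      omega
    · have h5 : (PowerSeries.X : PowerSeries k) ^ (τ + 1) ∣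
          U i - pp I (fun i => od (U i)) (fun i => lc (U i)) U τ i := by
        rw [pp, if_neg hi]
        refine dvd_sub fun m hm => ?_
        rcases h2 i hi with h | h
        · rw [h, map_zero]
        · exact coeff_lt (lt_of_lt_of_le hm h)
      exact wg_mono hW (wg_mul hW h5 _) (by omega)
  · exact wg_mono hW (wg_mul hW (dvd_sub (PowerSeries.X_pow_dvd_iff.1 (h3 i))) _) (by omega)
  · have h8 := wg_C (I := I) (e := fun i => od (U i)) (τ := τ)
      (dvd_sub (PowerSeries.X_pow_dvd_iff.1 h4))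
    exact wg_mono hW h8 (by omega)

theorem wg_prin (hW : WGTStmt) {I : Finset J} {U B : J → PowerSeries k} {c : PowerSeries k} {τ : ℕ}
    (h1 : ∀ i ∈ I, U i ≠ 0 ∧ od (U i) < τ) :
    WG I (fun i => od (U i)) τ (2 * τ)
      (prin I (fun i => od (U i)) (fun i => lc (U i)) τ (gg I U B c τ)) := by
  rw [prin]
  refine wg_add hW (wg_sum hW _ _ fun i hi => ?_) (wg_mul hW dvd_rfl _)
  have h6 := wg_sq (e := fun i => od (U i)) (τ := τ) hW hi
    (P := PowerSeries.C (lc (U i)) * PowerSeries.X ^ od (U i)) (a := od (U i)) (dvd_mul_left _ _)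
  have h7 := (h1 i hi).2
  refine wg_mono hW h6 ?_
  omega

theorem dX_prin_one {I : Finset J} {U B : J → PowerSeries k} {c : PowerSeries k}
    (h1 : ∀ i ∈ I, U i ≠ 0 ∧ od (U i) < 1) :
    dX (prin I (fun i => od (U i)) (fun i => lc (U i)) 1 (gg I U B c 1)) =
      MvPolynomial.map PowerSeries.C (gg I U B c 1) := by
  have h2 : ∀ (q : MvPolynomial J k), dX (MvPolynomial.map PowerSeries.C q) = 0 := by
    intro q
    induction q using MvPolynomial.induction_on with
    | C a => rw [map_C, dX_C, PowerSeries.derivative_C, C_0]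
    | add p q hp hq => rw [map_add, dX_add, hp, hq, add_zero]
    | mul_X p i hp => rw [map_mul, map_X, dX_mul, hp, dX_X, zero_mul, mul_zero, add_zero]
  rw [prin, dX_add, dX_sum, dX_C_mul, h2, mul_zero, add_zero, pow_one,
    Finset.sum_eq_zero fun i hi => ?_]
  · simp
  · have h3 : od (U i) = 0 := by
      have := (h1 i hi).2
      omega
    rw [h3, pow_zero, mul_one, dX_C_mul, PowerSeries.derivative_C, C_0, zero_mul, dX_X_pow,
      mul_zero, add_zero]

theorem prt' [CharZero k] (hPRT : PRTStmt) {f₀ h f : MvPolynomial J (PowerSeries k)} {s : ℚ}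
    (hf : f₀ + h = f) (p : PC f₀ s)
    (h1 : ∀ n, ∃ K, ∀ m, K ≤ m → p.ρ (h ^ m) (p.E (n + m)) = 0)
    (h2 : ∀ m, 1 ≤ m → p.ρ (h ^ m) (p.E m) = 0) :
    ∃ p' : PC f s, ∀ q, p.ρ q (p.E 0) = 0 → p'.ρ q (p'.E 0) = 0 := by
  subst hf
  exact hPRT k J f₀ h s p h1 h2

end Main

end LRTx

open LRTx in
theorem LRT (hPRT : PRTStmt) (hGCH : GCHStmt) (hWGT : WGTStmt) (hPRI : PRIStmt)
    (hECH : ECHStmt) : LRTStmt := by
  classical
  intro k _ _ J _ _ D x0 Δ τ hred hlev hsmo
  have : CharZero k := (algebraMap k ℂ).charZero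
  obtain ⟨hτ, hdeep, hthird⟩ := hlev
  let I : Finset J := Finset.univ.filter fun i => Δ.U i ≠ 0 ∧ od (Δ.U i) < τ
  have hI : ∀ i ∈ I, Δ.U i ≠ 0 ∧ od (Δ.U i) < τ := fun i hi => (Finset.mem_filter.1 hi).2
  have hI' : ∀ i, i ∉ I → Δ.U i = 0 ∨ τ ≤ od (Δ.U i) := by
    intro i hi
    by_contra h
    push Not at h
    exact hi (Finset.mem_filter.2 ⟨Finset.mem_univ _, h⟩)
  have hB : ∀ i ∈ I, Δ.B i = 0 := by
    intro i hi
    rcases hred i with h | h
    · exact h
    · exact absurd ((dvd_of_od (hI i hi).1 (hI i hi).2.le).trans (hdeep.1 i)) h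
  let g : MvPolynomial J k := gg I Δ.U Δ.B Δ.c τ
  have hno : ∀ m, coeff m g ≠ 0 → ∀ i ∈ I, m i = 0 :=
    quad_no (fun i hi => if_pos hi) fun i hi => by rw [hB i hi, map_zero]
  have hc2 : ∀ i, i ∉ I → coeff (Finsupp.single i 2) g = PowerSeries.coeff τ (Δ.U i) := by
    intro i hi
    rw [show coeff (Finsupp.single i 2) g = aa I Δ.U τ i from coeff_two _ _ _ i, aa, if_neg hi]
  have hc1 : ∀ i, coeff (Finsupp.single i 1) g = PowerSeries.coeff τ (Δ.B i) :=
    fun i => coeff_one' _ _ _ i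
  have hc0 : coeff 0 g = PowerSeries.coeff τ Δ.c := coeff_zero' _ _ _
  have htop : ∀ i, Δ.U i ≠ 0 → od (Δ.U i) = τ → coeff (Finsupp.single i 2) g ≠ 0 := by
    intro i hU ho
    rw [hc2 i fun h => absurd (hI i h).2 (by omega), ← ho]
    exact lc_ne hU
  have hg0 : g ≠ 0 := by
    intro h0
    rcases hthird with ⟨i, hU, ho⟩ | hnd
    · exact htop i hU ho (by rw [h0, coeff_zero])
    · refine hnd ⟨fun i => dvd_succ (hdeep.1 i) ?_, dvd_succ hdeep.2 ?_⟩
      · rw [← hc1, h0, coeff_zero]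
      · rw [← hc0, h0, coeff_zero]
  have hτ0 : (0 : ℚ) < τ := by exact_mod_cast hτ
  let t : ℚ := (1 - (∑ i ∈ I, (od (Δ.U i) : ℚ)) / 2) / τ
  have ht : (τ : ℚ) * t = 1 - (∑ i ∈ I, (od (Δ.U i) : ℚ)) / 2 := mul_div_cancel₀ _ hτ0.ne'
  have hsum : (0 : ℚ) ≤ ∑ i ∈ I, (od (Δ.U i) : ℚ) :=
    Finset.sum_nonneg fun i _ => Nat.cast_nonneg _
  have hG : Nonempty (GC g t τ) := by
    refine hGCH k J g t τ hg0 ?_
    rcases Nat.lt_or_ge 1 τ with h2 | h2
    · left
      refine ⟨h2, ?_⟩
      have h3 : (2 : ℚ) ≤ τ := by exact_mod_cast h2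
      rw [show t = (1 - (∑ i ∈ I, (od (Δ.U i) : ℚ)) / 2) / τ from rfl, div_lt_one hτ0]
      linarith
    · right
      have h3 : τ = 1 := by omega
      subst h3
      refine ⟨rfl, ?_, ?_⟩
      · have h4 : ∑ i ∈ I, (od (Δ.U i) : ℚ) = 0 := Finset.sum_eq_zero fun i hi => by
          have := (hI i hi).2
          have h5 : od (Δ.U i) = 0 := by omega
          rw [h5, Nat.cast_zero]
        rw [show t = (1 - (∑ i ∈ I, (od (Δ.U i) : ℚ)) / 2) / ((1 : ℕ) : ℚ) from rfl, h4]
        norm_num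
      · intro hu
        obtain ⟨hu0, hu1⟩ := MvPolynomial.isUnit_iff.1 hu
        apply hsmo
        refine ⟨?_, ?_, fun i => dvd_succ (hdeep.1 i) ?_, fun i ⟨hU, ho⟩ => ?_⟩
        · exact PowerSeries.X_pow_dvd_iff.1 hdeep.2 0 (by norm_num)
        · rw [hc0] at hu0
          exact hu0.ne_zero
        · rw [← hc1]
          exact (hu1 _ (by simp)).eq_zero
        · exact htop i hU ho (hu1 _ (by simp)).eq_zero
  obtain ⟨G⟩ := hG
  obtain ⟨p, hp1, hp2⟩ := hPRI k J I (fun i => od (Δ.U i)) (fun i => lc (Δ.U i)) g t τ hτ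
    (fun i hi => ⟨(hI i hi).2, lc_ne (hI i hi).1⟩) hno ht G
  have hrest := wg_rest hWGT hI hI' hdeep.1 hdeep.2
  have hpow : ∀ m, WG I (fun i => od (Δ.U i)) τ ((2 * τ + 1) * m)
      (rest I (fun i => od (Δ.U i)) (fun i => lc (Δ.U i)) Δ.U Δ.B Δ.c τ ^ m) :=
    fun m => (hWGT k J I _ τ).2.1 _ m _ hrest
  obtain ⟨p', hp'⟩ := prt' hPRT
    (gen_eq I (fun i => od (Δ.U i)) (fun i => lc (Δ.U i)) Δ.U Δ.B Δ.c τ) p
    (fun n => ⟨2 * τ * n + 1, fun m hm => hp1 _ _ (wg_mono hWGT (hpow m) (by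
      have h1 : 2 * τ * (n + m) + 1 = 2 * τ * m + (2 * τ * n + 1) := by ring
      have h2 : (2 * τ + 1) * m = 2 * τ * m + m := by ring
      rw [h1, h2]
      omega))⟩)
    fun m hm => hp1 _ _ (wg_mono hWGT (hpow m) (by
      have h2 : (2 * τ + 1) * m = 2 * τ * m + m := by ring
      rw [h2]
      omega))
  have hgen : WG I (fun i => od (Δ.U i)) τ (2 * τ) (gen Δ.U Δ.B Δ.c) := by
    rw [← gen_eq I (fun i => od (Δ.U i)) (fun i => lc (Δ.U i)) Δ.U Δ.B Δ.c τ]
    exact wg_add hWGT (wg_prin hWGT hI) (wg_mono hWGT hrest (by omega))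
  have hkill : ∀ q, WG I (fun i => od (Δ.U i)) τ 1 q → p.ρ q (p.E 0) = 0 := fun q hq =>
    hp1 0 q (by simpa using hq)
  have hZ : p'.Z := by
    refine ⟨hp' _ (hkill _ (wg_mono hWGT hgen (by omega))), hp' _ ?_, fun i => hp' _ ?_⟩
    · rcases Nat.lt_or_ge 1 τ with h2 | h2
      · exact hkill _ (wg_mono hWGT ((hWGT k J I _ τ).2.2.1 _ _ hgen) (by omega))
      · have h3 : τ = 1 := by omega
        subst h3
        rw [← gen_eq I (fun i => od (Δ.U i)) (fun i => lc (Δ.U i)) Δ.U Δ.B Δ.c 1, dX_add,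
          dX_prin_one hI, map_add, LinearMap.add_apply, hp2 rfl, zero_add]
        exact hkill _ ((hWGT k J I _ 1).2.2.1 _ _ hrest)
    · refine hkill _ (wg_mono hWGT ((hWGT k J I _ τ).2.2.2.1 _ i _ hgen) ?_)
      split_ifs <;> omega
  have hs : (aT Δ.U τ : ℚ) = 2 + ∑ i ∈ I, ((τ : ℚ) - od (Δ.U i)) := by
    rw [aT]
    push_cast
    rw [Finset.sum_filter, Finset.sum_filter]
    refine congrArg (fun x : ℚ => 2 + x) (Finset.sum_congr rfl fun i _ => ?_)
    by_cases hU : Δ.U i = 0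
    · simp [hU]
    · by_cases ho : od (Δ.U i) < τ
      · rw [if_pos hU, if_pos ⟨hU, ho⟩, Nat.cast_sub ho.le]
      · rw [if_pos hU, if_neg fun h => ho h.2, Nat.sub_eq_zero_of_le (by omega), Nat.cast_zero]
  rw [hs]
  refine hECH k J D x0 Δ _ ?_ p' hZ
  rw [← hs]
  have h1 : 0 < aT Δ.U τ := by
    rw [aT]
    omega
  have h2 : (0 : ℚ) < aT Δ.U τ := by exact_mod_cast h1
  positivity

end Pool.Agent.H87.QF
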