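import Pool.Agent.H87.QF.NST

/-! # Project QFM: row LST -/

set_option autoImplicit false

namespace Pool.Agent.H87.QF

open MvPolynomial Pool.Agent.H39.MonoR Pool.Agent.H75.Mono

section Top

variable {k : Type} [Field k] [Algebra k ℂ] {J : Type} [Fintype J] {E : Type} [Aff E]

theorem lst_pf_ld0 (U : J → PowerSeries k) (d : ℕ) :
    PFun k fun x : (J → ℂ) × E => ld0 U d x.1 := by
  have hz : ∀ i : J, PFun k (fun x : (J → ℂ) × E => x.1 i) := fun i =>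
    Pool.Agent.H75.Mono.PFun.comp (f := fun z : J → ℂ => z i) (PFun.apply i) PMap.fst
  unfold ld0
  by_cases h : 2 ∣ d
  · simp only [if_pos h]
    exact PFun.sum _ fun i _ => PFun.mul (PFun.const _) ((hz i).pow 2)
  · simp only [if_neg h]
    exact PFun.zero

theorem lst_cons_A (U : J → PowerSeries k) (d : ℕ) (W : Set E)
    (hW : ICons k W) (c : E → ℂ) (hc : PFun k c) :
    ICons k {x : (J → ℂ) × E | x.2 ∈ W ∧ ld0 U d x.1 = c x.2} :=
  ICons.and (hW.mem PMap.snd) (ICons.eq (lst_pf_ld0 U d) (hc.comp PMap.snd))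

theorem lst_cons_ordGt (x0 : k) (d m : ℕ) : ICons k (ordGt x0 d m) := by
  unfold ordGt
  have hv : ∀ l : Fin (d + 1), PFun k (fun v : Fin (d + 1) → ℂ => v l) := fun l => PFun.apply l
  refine ICons.forall_fin fun l => ?_
  by_cases h : (l : ℕ) ≤ m
  · have e : {v : Fin (d + 1) → ℂ | (l : ℕ) ≤ m → v l = if (l : ℕ) = 0 then algebraMap k ℂ x0
        else 0} = {v : Fin (d + 1) → ℂ | v l = if (l : ℕ) = 0 then algebraMap k ℂ x0 else 0} := by
      ext v; simp [h]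
    rw [e]
    by_cases h0 : (l : ℕ) = 0
    · simp only [if_pos h0]
      exact ICons.eq (hv l) (PFun.const x0)
    · simp only [if_neg h0]
      exact ICons.eq (hv l) PFun.zero
  · have e : {v : Fin (d + 1) → ℂ | (l : ℕ) ≤ m → v l = if (l : ℕ) = 0 then algebraMap k ℂ x0
        else 0} = Set.univ := by
      ext v; simp [h]
    rw [e]
    exact ICons.univ

/-- the class of `top` -/
theorem lst_top (x0 : k) (U : J → PowerSeries k) (m d : ℕ) (hmd : m ≤ d)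
    (V : J → (Fin (d + 1) → ℂ) × E → PowerSeries ℂ)
    (F : (Fin (d + 1) → ℂ) × E → PowerSeries ℂ) (κ : J → ℕ) (hV : ∀ i, PS k (V i)) (hF : PS k F)
    (hcond : ∀ e : (Fin (d + 1) → ℂ) × E, e.1 ∈ ordGt x0 d m → ∀ z : J → ℂ,
      ∑ i ∈ Finset.univ.filter (fun i => κ i ≤ d ∧ 2 ∣ d - κ i),
        PowerSeries.coeff (κ i) (V i e) * z i ^ 2 + PowerSeries.coeff d (F e) = ld0 U d z)
    (W : Set E) (hW : ICons k W) (c : E → ℂ) (hc : PFun k c) :
    mo k (top V F d κ {e | e.1 ∈ ordGt x0 d m ∧ e.2 ∈ W} fun e => c e.2) =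
      ↑(Lu k ^ ((d - m : ℕ) : ℤ)) *
        mo k {x : (J → ℂ) × E | x.2 ∈ W ∧ ld0 U d x.1 = c x.2} := by
  classical
  have hA := lst_cons_A U d W hW c hc
  have hu : mo k (Set.univ : Set (Fin (d - m) → ℂ)) = ↑(Lu k ^ ((d - m : ℕ) : ℤ)) := by
    rw [mo_univ_pi, Nat.card_eq_fintype_card, Fintype.card_fin]
  rw [mul_comm, ← hu, ← mo_prod hA ICons.univ]
  have hT : ICons k (top V F d κ {e | e.1 ∈ ordGt x0 d m ∧ e.2 ∈ W} fun e => c e.2) :=
    nst_cons_top V F d κ _ _ hV hF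
      (ICons.and ((lst_cons_ordGt x0 d m).mem PMap.fst) (hW.mem PMap.snd)) (hc.comp PMap.snd)
  have hlt2 : ∀ l : Fin (d - m), m + 1 + (l : ℕ) < d + 1 := fun l => by have := l.2; omega
  refine mo_bij hT (hA.prod ICons.univ)
    (f := fun x : ((Fin (d + 1) → ℂ) × E) × (J → ℂ) =>
      ((x.2, x.1.2), fun l : Fin (d - m) => x.1.1 ⟨m + 1 + l, hlt2 l⟩)) ?_
    ⟨?_, ?_, ?_⟩
  · have hv : ∀ l : Fin (d + 1), PFun k
        (fun x : ((Fin (d + 1) → ℂ) × E) × (J → ℂ) => x.1.1 l) := fun l =>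
      Pool.Agent.H75.Mono.PFun.comp (f := fun v : Fin (d + 1) → ℂ => v l) (PFun.apply l)
        (PMap.fst.comp PMap.fst)
    exact PMap.prodMk (PMap.prodMk PMap.snd (PMap.snd.comp PMap.fst)) (PMap.pi fun l => hv _)
  · rintro ⟨⟨v, w⟩, z⟩ ⟨⟨hv, hw⟩, hz⟩
    refine ⟨⟨hw, ?_⟩, Set.mem_univ _⟩
    have h1 := hcond (v, w) hv z
    exact h1.symm.trans hz
  · rintro ⟨⟨v, w⟩, z⟩ ⟨⟨hv, hw⟩, hz⟩ ⟨⟨v', w'⟩, z'⟩ ⟨⟨hv', hw'⟩, hz'⟩ he
    simp only [Prod.mk.injEq] at he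
    obtain ⟨⟨h2, h3⟩, h4⟩ := he
    subst h2 h3
    have : v = v' := by
      funext l
      rcases Nat.lt_or_ge m (l : ℕ) with h | h
      · have h5 := congrFun h4 ⟨(l : ℕ) - (m + 1), by have := l.2; omega⟩
        have h6 : (⟨m + 1 + ((l : ℕ) - (m + 1)), by have := l.2; omega⟩ : Fin (d + 1)) = l :=
          Fin.ext (by show m + 1 + ((l : ℕ) - (m + 1)) = l; omega)
        simp only [h6] at h5
        exact h5
      · exact (hv l h).trans (hv' l h).symm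
    rw [this]
  · rintro ⟨⟨z, w⟩, u⟩ ⟨⟨hw, hz⟩, -⟩
    let v : Fin (d + 1) → ℂ := fun l =>
      if h : (l : ℕ) ≤ m then (if (l : ℕ) = 0 then algebraMap k ℂ x0 else 0)
      else u ⟨(l : ℕ) - (m + 1), by have := l.2; omega⟩
    have hv : v ∈ ordGt x0 d m := by
      intro l hl
      simp only [v]
      rw [dif_pos hl]
    refine ⟨((v, w), z), ⟨⟨hv, hw⟩, ?_⟩, ?_⟩
    · have h1 := hcond (v, w) hv z
      exact h1.trans hz
    · refine Prod.ext rfl ?_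
      funext l
      simp only [v]
      rw [dif_neg (by omega)]
      congr 1
      apply Fin.ext
      show m + 1 + (l : ℕ) - (m + 1) = l
      omega

end Top

theorem LST (hBAS : BASStmt) (hRLA : RLAStmt) (hSBS : SBSStmt) : LSTStmt := by
  classical
  intro k _ _ J _ _ D x0 Δ m d t hd hmd hU hB hc
  obtain ⟨-, hs2, hs3⟩ := hSBS k
  have hQ : ICons k (ordGt x0 d m) := lst_cons_ordGt x0 d m
  have hQ0 : ∀ v ∈ ordGt x0 d m, v 0 = algebraMap k ℂ x0 := by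
    intro v hv
    have h1 := hv 0 (Nat.zero_le m)
    simpa using h1
  -- the series
  let κ : J → ℕ := fun i => if Δ.U i ≠ 0 ∧ od (Δ.U i) = 0 then 0 else d + 1
  let V : J → (Fin (d + 1) → ℂ) × t.E → PowerSeries ℂ := fun i e => sb (xs x0 e.1) (Δ.U i)
  let B : J → (Fin (d + 1) → ℂ) × t.E → PowerSeries ℂ := fun i e => sb (xs x0 e.1) (Δ.B i)
  let F : (Fin (d + 1) → ℂ) × t.E → PowerSeries ℂ := fun e => sb (xs x0 e.1) Δ.c
  have hxs := nst_PS_xs (k := k) x0 d t.E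
  have hV : ∀ i, PS k (V i) := fun i => hs3 _ _ (Δ.U i) hxs
  have hBP : ∀ i, PS k (B i) := fun i => hs3 _ _ (Δ.B i) hxs
  have hF : PS k F := hs3 _ _ Δ.c hxs
  have hx1 : ∀ v ∈ ordGt x0 d m, ∀ l, l < m + 1 → PowerSeries.coeff l (xs x0 v) = 0 := by
    intro v hv l hl
    rw [nst_coeff_xs, dif_pos (show l < d + 1 by omega)]
    have h1 := hv ⟨l, by omega⟩ (show l ≤ m by omega)
    rw [h1]
    simp
  have hQW : ICons k {e : (Fin (d + 1) → ℂ) × t.E | e.1 ∈ ordGt x0 d m ∧ e.2 ∈ t.W} :=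
    ICons.and (hQ.mem PMap.fst) (t.cW.mem PMap.snd)
  have hUz : ∀ i, ¬ (Δ.U i ≠ 0 ∧ od (Δ.U i) = 0) → ∀ e : (Fin (d + 1) → ℂ) × t.E,
      e.1 ∈ ordGt x0 d m → ∀ l, l ≤ d → PowerSeries.coeff l (V i e) = 0 := by
    intro i hi e he l hl
    show PowerSeries.coeff l (sb (xs x0 e.1) (Δ.U i)) = 0
    by_cases h0 : Δ.U i = 0
    · rw [h0]
      exact nst_sb_zero _ _
    · have h1 : d < (m + 1) * od (Δ.U i) := by
        rcases hU i h0 with h | h
        · exact absurd ⟨h0, h⟩ hi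
        · exact h
      exact (hs2 (m + 1) (od (Δ.U i)) (xs x0 e.1) (Δ.U i) (by omega) (hx1 e.1 he)
        (fun l hl => nst_od_lt _ l hl)).1 l (lt_of_le_of_lt hl h1)
  have hUn : ∀ i, Δ.U i ≠ 0 ∧ od (Δ.U i) = 0 → ∀ e : (Fin (d + 1) → ℂ) × t.E,
      e.1 ∈ ordGt x0 d m →
      PowerSeries.coeff 0 (V i e) = algebraMap k ℂ (lc (Δ.U i)) := by
    intro i hi e he
    have h1 := (hs2 (m + 1) 0 (xs x0 e.1) (Δ.U i) (by omega) (hx1 e.1 he)
      (fun l hl => absurd hl (Nat.not_lt_zero l))).2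
    rw [pow_zero, mul_one, Nat.mul_zero] at h1
    show PowerSeries.coeff 0 (sb (xs x0 e.1) (Δ.U i)) = _
    rw [h1]
    unfold lc
    rw [hi.2]
  have hEx : ∀ i, Exact (V i) {e | e.1 ∈ ordGt x0 d m ∧ e.2 ∈ t.W} d (κ i) := by
    intro i e he
    by_cases hi : Δ.U i ≠ 0 ∧ od (Δ.U i) = 0
    · have hk : κ i = 0 := if_pos hi
      rw [hk]
      refine ⟨fun l hl _ => absurd hl (Nat.not_lt_zero l), fun _ => ?_⟩
      rw [hUn i hi e he.1]
      exact (map_ne_zero_iff _ (algebraMap k ℂ).injective).2 (nst_lc_ne hi.1)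
    · have hk : κ i = d + 1 := if_neg hi
      rw [hk]
      exact ⟨fun l _ hl => hUz i hi e he.1 l hl, fun h => by omega⟩
  have hBz : ∀ i, ∀ e ∈ {e : (Fin (d + 1) → ℂ) × t.E | e.1 ∈ ordGt x0 d m ∧ e.2 ∈ t.W},
      ∀ l, l ≤ d → PowerSeries.coeff l (B i e) = 0 := by
    intro i e he l hl
    obtain ⟨m', hm1, hm2⟩ := hB i
    exact (hs2 (m + 1) m' (xs x0 e.1) (Δ.B i) (by omega) (hx1 e.1 he.1)
      (PowerSeries.X_pow_dvd_iff.1 hm1)).1 l (lt_of_le_of_lt hl hm2)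
  obtain ⟨m', hm1, hm2⟩ := hc
  have hFz : ∀ e : (Fin (d + 1) → ℂ) × t.E, e.1 ∈ ordGt x0 d m →
      ∀ l, l ≤ d → PowerSeries.coeff l (F e) = 0 := by
    intro e he l hl
    exact (hs2 (m + 1) m' (xs x0 e.1) Δ.c (by omega) (hx1 e.1 he)
      (PowerSeries.X_pow_dvd_iff.1 hm1)).1 l (lt_of_le_of_lt hl hm2)
  -- the reduction
  have hR := hRLA k ((Fin (d + 1) → ℂ) × t.E) J V B F d κ
    {e | e.1 ∈ ordGt x0 d m ∧ e.2 ∈ t.W} (fun e => t.c e.2) hV hBP hF hQW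
    (t.pf.comp PMap.snd) hd hEx hBz (fun e he l hl => hFz e he.1 l hl.le)
  have hb1 := hBAS k J D x0 Δ d (ordGt x0 d m) t hQ hQ0
  have hb2 := hBAS k J D x0 Δ d (ordGt x0 d m) t.zr hQ hQ0
  have hcond : ∀ e : (Fin (d + 1) → ℂ) × t.E, e.1 ∈ ordGt x0 d m → ∀ z : J → ℂ,
      ∑ i ∈ Finset.univ.filter (fun i => κ i ≤ d ∧ 2 ∣ d - κ i),
        PowerSeries.coeff (κ i) (V i e) * z i ^ 2 + PowerSeries.coeff d (F e) = ld0 Δ.U d z := by
    intro e he z
    rw [hFz e he d le_rfl, add_zero]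
    unfold ld0
    rw [Finset.sum_filter]
    by_cases h2 : 2 ∣ d
    · rw [if_pos h2, Finset.sum_filter]
      refine Finset.sum_congr rfl fun i _ => ?_
      by_cases hi : Δ.U i ≠ 0 ∧ od (Δ.U i) = 0
      · have hk : κ i = 0 := if_pos hi
        rw [if_pos hi, hk, if_pos ⟨Nat.zero_le d, by simpa using h2⟩, hUn i hi e he]
      · have hk : κ i = d + 1 := if_neg hi
        rw [if_neg hi, hk, if_neg (fun h => by omega)]
    · rw [if_neg h2]
      refine Finset.sum_eq_zero fun i _ => ?_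
      by_cases hi : Δ.U i ≠ 0 ∧ od (Δ.U i) = 0
      · have hk : κ i = 0 := if_pos hi
        rw [hk, if_neg (fun h => h2 (by simpa using h.2))]
      · have hk : κ i = d + 1 := if_neg hi
        rw [hk, if_neg (fun h => by omega)]
  have ht1 := lst_top x0 Δ.U m d hmd V F κ hV hF hcond t.W t.cW t.c t.pf
  have ht2 := lst_top x0 Δ.U m d hmd V F κ hV hF hcond t.W t.cW (fun _ => 0) PFun.zero
  -- the exponent
  have hexp : ((∑ i, (d - (d - κ i + 1) / 2) : ℕ) : ℤ) + ((d - m : ℕ) : ℤ) =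
      (((Fintype.card J + 1) * d : ℕ) : ℤ) - m - (k0 Δ.U * ((d + 1) / 2) : ℕ) := by
    rw [nst_sum d (fun i => (d - κ i + 1) / 2) (fun i => by
      show (d - κ i + 1) / 2 ≤ d
      omega)]
    have h1 : k0 Δ.U * ((d + 1) / 2) = ∑ i, (d - κ i + 1) / 2 := by
      unfold k0
      rw [← smul_eq_mul, ← Finset.sum_const, Finset.sum_filter]
      refine Finset.sum_congr rfl fun i _ => ?_
      by_cases hi : Δ.U i ≠ 0 ∧ od (Δ.U i) = 0
      · have hk : κ i = 0 := if_pos hi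
        rw [if_pos hi, hk, Nat.sub_zero]
      · have hk : κ i = d + 1 := if_neg hi
        rw [if_neg hi, hk]
        omega
    rw [h1, Nat.cast_sub hmd]
    push_cast
    ring
  have hz1 : zd (pol D) d (ordGt x0 d m) t =
      mo k (rel V B F d {e | e.1 ∈ ordGt x0 d m ∧ e.2 ∈ t.W} fun e => t.c e.2) -
      mo k (rel V B F d {e | e.1 ∈ ordGt x0 d m ∧ e.2 ∈ t.W} fun _ => 0) := by
    unfold zd
    rw [hb1, hb2]
    rfl
  rw [hz1, hR, ht1, ht2, ← mul_sub, ← mul_assoc, ← hexp, zpow_add, Units.val_mul]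
  rfl

end Pool.Agent.H87.QF
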