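import Pool.Agent.H87.QF.Stmts
import Pool.Agent.H75.Fib.NCR
import Pool.Agent.H75.Fib.DIF

/-! # QFM, row NCQ: no critical zeros over a set of values of `x` -/

set_option autoImplicit false

namespace Pool.Agent.H87.QF

open MvPolynomial Pool.Agent.H39.MonoR Pool.Agent.H75.Mono

theorem NCQ : NCQStmt := by
  intro k _ _ J _ f P hP hf d t hd
  have hQ : ICons k {q : Option J → ℂ | q none ∈ P} :=
    ICons.mem hP (PMap.of_pFun (PFun.apply (none : Option J)))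
  have h1 := mo_nc f hd hQ t
  have h2 : ∀ (φ : Option J × Fin (d + 1) → ℂ) (c : ℂ), org φ none ∈ P → Hit f d φ c →
      ∃ i, aeval (org φ) (pderiv i f) ≠ 0 := by
    intro φ c hp hh
    have h3 := hh 0 (Nat.zero_le _)
    rw [if_neg (by omega), coeff_zero_arcEval] at h3
    exact hf _ hp h3
  have e1 : ∀ c : t.E → ℂ, {x : (Option J × Fin (d + 1) → ℂ) × t.E | x.2 ∈ t.W ∧
      (fun l => x.1 (none, l)) ∈ {v : Fin (d + 1) → ℂ | v 0 ∈ P} ∧ Hit f d x.1 (c x.2)} =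
      {x : (Option J × Fin (d + 1) → ℂ) × t.E | x.2 ∈ t.W ∧
        org x.1 ∈ {q : Option J → ℂ | q none ∈ P} ∧
        (∃ i, aeval (org x.1) (pderiv i f) ≠ 0) ∧ Hit f d x.1 (c x.2)} := by
    intro c
    ext x
    constructor
    · rintro ⟨h4, h5, h6⟩
      exact ⟨h4, h5, h2 _ _ h5 h6, h6⟩
    · rintro ⟨h4, h5, -, h6⟩
      exact ⟨h4, h5, h6⟩
  rw [zd, sub_eq_zero]
  unfold zq
  exact (congrArg (mo k) (e1 t.c)).trans (h1.trans (congrArg (mo k) (e1 fun _ => 0)).symm)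

end Pool.Agent.H87.QF
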