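import Pool.Agent.H87.QF.Stmts

/-! # Project QFM: row NST -/

set_option autoImplicit false

namespace Pool.Agent.H87.QF

open MvPolynomial Pool.Agent.H39.MonoR Pool.Agent.H75.Mono

/-! ### helpers (also used by LST) -/

theorem nst_coeff_xs {k : Type} [Field k] [Algebra k ℂ] (x0 : k) {d : ℕ} (v : Fin (d + 1) → ℂ)
    (l : ℕ) : PowerSeries.coeff l (xs x0 v) =
      (if h : l < d + 1 then v ⟨l, h⟩ else 0) - if l = 0 then algebraMap k ℂ x0 else 0 := by
  unfold xs ser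
  rw [map_sub, PowerSeries.coeff_mk, PowerSeries.coeff_C]

theorem nst_PS_xs {k : Type} [Field k] [Algebra k ℂ] (x0 : k) (d : ℕ) (E : Type) [Aff E] :
    PS k fun e : (Fin (d + 1) → ℂ) × E => xs x0 e.1 := by
  intro l
  have h1 : (fun e : (Fin (d + 1) → ℂ) × E => PowerSeries.coeff l (xs x0 e.1)) = fun e =>
      (if h : l < d + 1 then e.1 ⟨l, h⟩ else 0) - if l = 0 then algebraMap k ℂ x0 else 0 := by
    funext e
    exact nst_coeff_xs x0 e.1 l
  show PFun k (fun e : (Fin (d + 1) → ℂ) × E => PowerSeries.coeff l (xs x0 e.1))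
  rw [h1]
  refine PFun.sub ?_ ?_
  · by_cases h : l < d + 1
    · simp only [dif_pos h]
      exact Pool.Agent.H75.Mono.PFun.comp (f := fun φ : Fin (d + 1) → ℂ => φ ⟨l, h⟩) (PFun.apply _) PMap.fst
    · simp only [dif_neg h]
      exact PFun.zero
  · by_cases h : l = 0
    · simp only [if_pos h]
      exact PFun.const x0
    · simp only [if_neg h]
      exact PFun.zero

theorem nst_sb_zero {k : Type} [Field k] [Algebra k ℂ] (a : PowerSeries ℂ) (l : ℕ) :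
    PowerSeries.coeff l (sb (k := k) a 0) = 0 := by
  unfold sb
  rw [PowerSeries.coeff_mk]
  refine Finset.sum_eq_zero fun j _ => ?_
  rw [map_zero, map_zero, zero_mul]

theorem nst_od_lt {k : Type} [Field k] (u : PowerSeries k) (l : ℕ) (h : l < od u) :
    PowerSeries.coeff l u = 0 := PowerSeries.coeff_of_lt_order_toNat l h

theorem nst_lc_ne {k : Type} [Field k] {u : PowerSeries k} (h : u ≠ 0) : lc u ≠ 0 :=
  PowerSeries.coeff_order h

/-- the exponent of `RLA` -/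
theorem nst_sum {J : Type} [Fintype J] (d : ℕ) (f : J → ℕ) (hf : ∀ i, f i ≤ d) :
    ((∑ i, (d - f i) : ℕ) : ℤ) = ((Fintype.card J * d : ℕ) : ℤ) - ((∑ i, f i : ℕ) : ℤ) := by
  have h : (∑ i, (d - f i)) + ∑ i, f i = Fintype.card J * d := by
    rw [← Finset.sum_add_distrib, Finset.sum_congr rfl (fun i _ => Nat.sub_add_cancel (hf i)),
      Finset.sum_const, Finset.card_univ, smul_eq_mul]
  have h2 := congrArg (fun z : ℕ => (z : ℤ)) h
  push_cast at h2 ⊢
  linarith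

section Top

variable {k : Type} [Field k] [Algebra k ℂ] {J : Type} [Fintype J] {E : Type} [Aff E]

/-- `top` is constructible -/
theorem nst_cons_top {G : Type} [Aff G] (V : J → G → PowerSeries ℂ) (F : G → PowerSeries ℂ) (d : ℕ)
    (κ : J → ℕ) (Q : Set G) (c : G → ℂ) (hV : ∀ i, PS k (V i)) (hF : PS k F) (hQ : ICons k Q)
    (hc : PFun k c) : ICons k (top V F d κ Q c) := by
  unfold top
  refine ICons.and (hQ.mem PMap.fst) (ICons.eq (PFun.add (PFun.sum _ fun i _ => ?_) ?_)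
    (hc.comp PMap.fst))
  · refine PFun.mul (Pool.Agent.H75.Mono.PFun.comp (f := fun e : G => PowerSeries.coeff (κ i) (V i e)) (hV i (κ i))
      PMap.fst) (PFun.pow ?_ 2)
    exact Pool.Agent.H75.Mono.PFun.comp (f := fun z : J → ℂ => z i) (PFun.apply i) PMap.snd
  · exact Pool.Agent.H75.Mono.PFun.comp (f := fun e : G => PowerSeries.coeff d (F e)) (hF d) PMap.fst

theorem nst_pf_ld (U : J → PowerSeries k) (cc : PowerSeries k) (n d : ℕ) :
    PFun k fun x : (ℂ × (J → ℂ)) × E => ld U cc n d x.1.1 x.1.2 := by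
  have hα : PFun k (fun x : (ℂ × (J → ℂ)) × E => x.1.1) :=
    PFun.of_pMap (PMap.fst.comp PMap.fst)
  have hz : ∀ i : J, PFun k (fun x : (ℂ × (J → ℂ)) × E => x.1.2 i) := fun i =>
    Pool.Agent.H75.Mono.PFun.comp (f := fun z : J → ℂ => z i) (PFun.apply i) (PMap.snd.comp PMap.fst)
  unfold ld
  refine PFun.add (PFun.sum _ fun i _ => ?_) ?_
  · exact PFun.mul (PFun.mul (PFun.const _) (hα.pow _)) ((hz i).pow 2)
  · by_cases h : n ∣ d
    · simp only [if_pos h]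
      exact PFun.mul (PFun.const _) (hα.pow _)
    · simp only [if_neg h]
      exact PFun.zero

theorem nst_cons_A (U : J → PowerSeries k) (cc : PowerSeries k) (n d : ℕ) (W : Set E)
    (hW : ICons k W) (c : E → ℂ) (hc : PFun k c) :
    ICons k {x : (ℂ × (J → ℂ)) × E | x.2 ∈ W ∧ x.1.1 ≠ 0 ∧ ld U cc n d x.1.1 x.1.2 = c x.2} := by
  refine ICons.and (hW.mem PMap.snd) (ICons.and (ICons.ne ?_ PFun.zero)
    (ICons.eq (nst_pf_ld U cc n d) (hc.comp PMap.snd)))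
  exact PFun.of_pMap (PMap.fst.comp PMap.fst)

theorem nst_cons_ordEq (x0 : k) (d n : ℕ) : ICons k (ordEq x0 d n) := by
  unfold ordEq
  have hv : ∀ l : Fin (d + 1), PFun k (fun v : Fin (d + 1) → ℂ => v l) := fun l => PFun.apply l
  refine ICons.and ?_ ?_
  · refine ICons.forall_fin fun l => ?_
    by_cases h : (l : ℕ) < n
    · have e : {v : Fin (d + 1) → ℂ | (l : ℕ) < n → v l = if (l : ℕ) = 0 then algebraMap k ℂ x0
          else 0} = {v : Fin (d + 1) → ℂ | v l = if (l : ℕ) = 0 then algebraMap k ℂ x0 else 0} := by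
        ext v; simp [h]
      rw [e]
      by_cases h0 : (l : ℕ) = 0
      · simp only [if_pos h0]
        exact ICons.eq (hv l) (PFun.const x0)
      · simp only [if_neg h0]
        exact ICons.eq (hv l) PFun.zero
    · have e : {v : Fin (d + 1) → ℂ | (l : ℕ) < n → v l = if (l : ℕ) = 0 then algebraMap k ℂ x0
          else 0} = Set.univ := by
        ext v; simp [h]
      rw [e]
      exact ICons.univ
  · refine ICons.forall_fin fun l => ?_
    by_cases h : (l : ℕ) = n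
    · have e : {v : Fin (d + 1) → ℂ | (l : ℕ) = n → v l ≠ 0} =
          {v : Fin (d + 1) → ℂ | v l ≠ 0} := by
        ext v; simp [h]
      rw [e]
      exact ICons.ne (hv l) PFun.zero
    · have e : {v : Fin (d + 1) → ℂ | (l : ℕ) = n → v l ≠ 0} = Set.univ := by
        ext v; simp [h]
      rw [e]
      exact ICons.univ

/-- the class of `top` -/
theorem nst_top (x0 : k) (U : J → PowerSeries k) (cc : PowerSeries k) (n d : ℕ) (hnd : n ≤ d) (V : J → (Fin (d + 1) → ℂ) × E → PowerSeries ℂ)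
    (F : (Fin (d + 1) → ℂ) × E → PowerSeries ℂ) (κ : J → ℕ) (hV : ∀ i, PS k (V i)) (hF : PS k F)
    (hcond : ∀ e : (Fin (d + 1) → ℂ) × E, e.1 ∈ ordEq x0 d n → ∀ z : J → ℂ,
      ∑ i ∈ Finset.univ.filter (fun i => κ i ≤ d ∧ 2 ∣ d - κ i),
        PowerSeries.coeff (κ i) (V i e) * z i ^ 2 + PowerSeries.coeff d (F e) =
      ld U cc n d (e.1 ⟨n, Nat.lt_succ_of_le hnd⟩) z)
    (W : Set E) (hW : ICons k W) (c : E → ℂ) (hc : PFun k c) :
    mo k (top V F d κ {e | e.1 ∈ ordEq x0 d n ∧ e.2 ∈ W} fun e => c e.2) =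
      ↑(Lu k ^ ((d - n : ℕ) : ℤ)) *
        mo k {x : (ℂ × (J → ℂ)) × E | x.2 ∈ W ∧ x.1.1 ≠ 0 ∧ ld U cc n d x.1.1 x.1.2 = c x.2} := by
  classical
  have hA := nst_cons_A U cc n d W hW c hc
  have hu : mo k (Set.univ : Set (Fin (d - n) → ℂ)) = ↑(Lu k ^ ((d - n : ℕ) : ℤ)) := by
    rw [mo_univ_pi, Nat.card_eq_fintype_card, Fintype.card_fin]
  rw [mul_comm, ← hu, ← mo_prod hA ICons.univ]
  have hT : ICons k (top V F d κ {e | e.1 ∈ ordEq x0 d n ∧ e.2 ∈ W} fun e => c e.2) :=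
    nst_cons_top V F d κ _ _ hV hF
      (ICons.and ((nst_cons_ordEq x0 d n).mem PMap.fst) (hW.mem PMap.snd)) (hc.comp PMap.snd)
  have hlt : n < d + 1 := Nat.lt_succ_of_le hnd
  have hlt2 : ∀ l : Fin (d - n), n + 1 + (l : ℕ) < d + 1 := fun l => by have := l.2; omega
  refine mo_bij hT (hA.prod ICons.univ)
    (f := fun x : ((Fin (d + 1) → ℂ) × E) × (J → ℂ) =>
      (((x.1.1 ⟨n, hlt⟩, x.2), x.1.2), fun l : Fin (d - n) => x.1.1 ⟨n + 1 + l, hlt2 l⟩)) ?_
    ⟨?_, ?_, ?_⟩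
  · have hv : ∀ l : Fin (d + 1), PFun k
        (fun x : ((Fin (d + 1) → ℂ) × E) × (J → ℂ) => x.1.1 l) := fun l =>
      Pool.Agent.H75.Mono.PFun.comp (f := fun v : Fin (d + 1) → ℂ => v l) (PFun.apply l) (PMap.fst.comp PMap.fst)
    refine PMap.prodMk (PMap.prodMk (PMap.prodMk (PMap.of_pFun (hv _)) PMap.snd)
      (PMap.snd.comp PMap.fst)) (PMap.pi fun l => hv _)
  · rintro ⟨⟨v, w⟩, z⟩ ⟨⟨hv, hw⟩, hz⟩
    refine ⟨⟨hw, hv.2 ⟨n, hlt⟩ rfl, ?_⟩, Set.mem_univ _⟩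
    have h1 := hcond (v, w) hv z
    exact h1.symm.trans hz
  · rintro ⟨⟨v, w⟩, z⟩ ⟨⟨hv, hw⟩, hz⟩ ⟨⟨v', w'⟩, z'⟩ ⟨⟨hv', hw'⟩, hz'⟩ he
    simp only [Prod.mk.injEq] at he
    obtain ⟨⟨⟨h1, h2⟩, h3⟩, h4⟩ := he
    subst h2 h3
    have : v = v' := by
      funext l
      rcases lt_trichotomy (l : ℕ) n with h | h | h
      · exact (hv.1 l h).trans (hv'.1 l h).symm
      · have : l = ⟨n, hlt⟩ := Fin.ext h
        rw [this]
        exact h1
      · have h5 := congrFun h4 ⟨(l : ℕ) - (n + 1), by have := l.2; omega⟩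
        have h6 : (⟨n + 1 + ((l : ℕ) - (n + 1)), by have := l.2; omega⟩ : Fin (d + 1)) = l :=
          Fin.ext (by show n + 1 + ((l : ℕ) - (n + 1)) = l; omega)
        simp only [h6] at h5
        exact h5
    rw [this]
  · rintro ⟨⟨⟨α, z⟩, w⟩, u⟩ ⟨⟨hw, hα, hz⟩, -⟩
    let v : Fin (d + 1) → ℂ := fun l =>
      if h : (l : ℕ) < n then (if (l : ℕ) = 0 then algebraMap k ℂ x0 else 0)
      else if h2 : (l : ℕ) = n then α
      else u ⟨(l : ℕ) - (n + 1), by have := l.2; omega⟩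
    have hvn : v ⟨n, hlt⟩ = α := by
      simp only [v]
      rw [dif_neg (lt_irrefl _), dif_pos trivial]
    have hv : v ∈ ordEq x0 d n := by
      refine ⟨fun l hl => ?_, fun l hl => ?_⟩
      · simp only [v]
        rw [dif_pos hl]
      · simp only [v]
        rw [dif_neg (by omega), dif_pos hl]
        exact hα
    refine ⟨((v, w), z), ⟨⟨hv, hw⟩, ?_⟩, ?_⟩
    · have h1 := hcond (v, w) hv z
      refine h1.trans ?_
      show ld U cc n d (v ⟨n, hlt⟩) z = c w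
      rw [hvn]
      exact hz
    · simp only [Prod.mk.injEq]
      refine ⟨⟨⟨hvn, trivial⟩, trivial⟩, ?_⟩
      funext l
      simp only [v]
      rw [dif_neg (by omega), dif_neg (by omega)]
      congr 1
      apply Fin.ext
      show n + 1 + (l : ℕ) - (n + 1) = l
      omega

end Top

theorem NST (hBAS : BASStmt) (hRLA : RLAStmt) (hSBS : SBSStmt) : NSTStmt := by
  classical
  intro k _ _ J _ _ D x0 Δ n d t hn hnd hB hc
  have hd : 0 < d := lt_of_lt_of_le hn hnd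
  obtain ⟨-, hs2, hs3⟩ := hSBS k
  have hlt : n < d + 1 := Nat.lt_succ_of_le hnd
  have hQ : ICons k (ordEq x0 d n) := nst_cons_ordEq x0 d n
  have hQ0 : ∀ v ∈ ordEq x0 d n, v 0 = algebraMap k ℂ x0 := by
    intro v hv
    have h1 := hv.1 0 (show 0 < n by omega)
    simpa using h1
  -- the series
  let κ : J → ℕ := fun i => if Δ.U i = 0 then d + 1 else n * od (Δ.U i)
  let V : J → (Fin (d + 1) → ℂ) × t.E → PowerSeries ℂ := fun i e => sb (xs x0 e.1) (Δ.U i)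
  let B : J → (Fin (d + 1) → ℂ) × t.E → PowerSeries ℂ := fun i e => sb (xs x0 e.1) (Δ.B i)
  let F : (Fin (d + 1) → ℂ) × t.E → PowerSeries ℂ := fun e => sb (xs x0 e.1) Δ.c
  have hxs := nst_PS_xs (k := k) x0 d t.E
  have hV : ∀ i, PS k (V i) := fun i => hs3 _ _ (Δ.U i) hxs
  have hBP : ∀ i, PS k (B i) := fun i => hs3 _ _ (Δ.B i) hxs
  have hF : PS k F := hs3 _ _ Δ.c hxs
  have hx1 : ∀ v ∈ ordEq x0 d n, ∀ l, l < n → PowerSeries.coeff l (xs x0 v) = 0 := by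
    intro v hv l hl
    rw [nst_coeff_xs, dif_pos (show l < d + 1 by omega)]
    have h1 := hv.1 ⟨l, by omega⟩ hl
    rw [h1]
    simp
  have hx2 : ∀ v ∈ ordEq x0 d n, PowerSeries.coeff n (xs x0 v) = v ⟨n, hlt⟩ := by
    intro v hv
    rw [nst_coeff_xs, dif_pos hlt, if_neg (by omega), sub_zero]
  have hQW : ICons k {e : (Fin (d + 1) → ℂ) × t.E | e.1 ∈ ordEq x0 d n ∧ e.2 ∈ t.W} :=
    ICons.and (hQ.mem PMap.fst) (t.cW.mem PMap.snd)
  have hUz : ∀ i, Δ.U i = 0 → ∀ e : (Fin (d + 1) → ℂ) × t.E, ∀ l,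
      PowerSeries.coeff l (V i e) = 0 := by
    intro i hi e l
    show PowerSeries.coeff l (sb (xs x0 e.1) (Δ.U i)) = 0
    rw [hi]
    exact nst_sb_zero _ _
  have hUn : ∀ i, Δ.U i ≠ 0 → ∀ e : (Fin (d + 1) → ℂ) × t.E, e.1 ∈ ordEq x0 d n →
      (∀ l, l < n * od (Δ.U i) → PowerSeries.coeff l (V i e) = 0) ∧
      PowerSeries.coeff (n * od (Δ.U i)) (V i e) =
        algebraMap k ℂ (lc (Δ.U i)) * e.1 ⟨n, hlt⟩ ^ od (Δ.U i) := by
    intro i hi e he
    have h1 := hs2 n (od (Δ.U i)) (xs x0 e.1) (Δ.U i) hn (hx1 e.1 he)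
      (fun l hl => nst_od_lt _ l hl)
    refine ⟨h1.1, ?_⟩
    have h2 := h1.2
    rw [hx2 e.1 he] at h2
    exact h2
  have hEx : ∀ i, Exact (V i) {e | e.1 ∈ ordEq x0 d n ∧ e.2 ∈ t.W} d (κ i) := by
    intro i e he
    by_cases hi : Δ.U i = 0
    · refine ⟨fun l _ _ => hUz i hi e l, fun h => ?_⟩
      simp only [κ, if_pos hi] at h
      omega
    · have hk : κ i = n * od (Δ.U i) := if_neg hi
      rw [hk]
      obtain ⟨h1, h2⟩ := hUn i hi e he.1
      refine ⟨fun l hl _ => h1 l hl, fun _ => ?_⟩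
      rw [h2]
      refine mul_ne_zero ?_ (pow_ne_zero _ (he.1.2 ⟨n, hlt⟩ rfl))
      exact (map_ne_zero_iff _ (algebraMap k ℂ).injective).2 (nst_lc_ne hi)
  have hBz : ∀ i, ∀ e ∈ {e : (Fin (d + 1) → ℂ) × t.E | e.1 ∈ ordEq x0 d n ∧ e.2 ∈ t.W},
      ∀ l, l ≤ d → PowerSeries.coeff l (B i e) = 0 := by
    intro i e he l hl
    obtain ⟨m, hm1, hm2⟩ := hB i
    exact (hs2 n m (xs x0 e.1) (Δ.B i) hn (hx1 e.1 he.1) (PowerSeries.X_pow_dvd_iff.1 hm1)).1 l
      (lt_of_le_of_lt hl hm2)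
  obtain ⟨m, hm1, hm2⟩ := hc
  have hFz : ∀ e ∈ {e : (Fin (d + 1) → ℂ) × t.E | e.1 ∈ ordEq x0 d n ∧ e.2 ∈ t.W},
      ∀ l, l < d → PowerSeries.coeff l (F e) = 0 := by
    intro e he l hl
    exact (hs2 n m (xs x0 e.1) Δ.c hn (hx1 e.1 he.1) (PowerSeries.X_pow_dvd_iff.1 hm1)).1 l
      (lt_of_lt_of_le hl hm2)
  have hFd : ∀ e : (Fin (d + 1) → ℂ) × t.E, e.1 ∈ ordEq x0 d n →
      PowerSeries.coeff d (F e) = if n ∣ d then
        algebraMap k ℂ (PowerSeries.coeff (d / n) Δ.c) * e.1 ⟨n, hlt⟩ ^ (d / n) else 0 := by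
    intro e he
    have h1 := hs2 n m (xs x0 e.1) Δ.c hn (hx1 e.1 he) (PowerSeries.X_pow_dvd_iff.1 hm1)
    rcases Nat.lt_or_ge d (n * m) with h | h
    · have h2 : PowerSeries.coeff d (F e) = 0 := h1.1 d h
      rw [h2]
      by_cases hnd' : n ∣ d
      · rw [if_pos hnd']
        have h3 : d / n < m := Nat.div_lt_of_lt_mul h
        rw [PowerSeries.X_pow_dvd_iff.1 hm1 _ h3, map_zero, zero_mul]
      · rw [if_neg hnd']
    · have h2 : d = n * m := le_antisymm hm2 h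
      have h3 := h1.2
      rw [hx2 e.1 he] at h3
      have h4 : d / n = m := by
        rw [h2]
        exact Nat.mul_div_cancel_left m hn
      rw [if_pos ⟨m, h2⟩, h4]
      rw [← h3, ← h2]
  -- the reduction
  have hR := hRLA k ((Fin (d + 1) → ℂ) × t.E) J V B F d κ
    {e | e.1 ∈ ordEq x0 d n ∧ e.2 ∈ t.W} (fun e => t.c e.2) hV hBP hF hQW
    (t.pf.comp PMap.snd) hd hEx hBz hFz
  have hb1 := hBAS k J D x0 Δ d (ordEq x0 d n) t hQ hQ0
  have hb2 := hBAS k J D x0 Δ d (ordEq x0 d n) t.zr hQ hQ0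
  have hcond : ∀ e : (Fin (d + 1) → ℂ) × t.E, e.1 ∈ ordEq x0 d n → ∀ z : J → ℂ,
      ∑ i ∈ Finset.univ.filter (fun i => κ i ≤ d ∧ 2 ∣ d - κ i),
        PowerSeries.coeff (κ i) (V i e) * z i ^ 2 + PowerSeries.coeff d (F e) =
      ld Δ.U Δ.c n d (e.1 ⟨n, Nat.lt_succ_of_le hnd⟩) z := by
    intro e he z
    unfold ld
    rw [hFd e he]
    refine congrArg₂ (fun a b : ℂ => a + b) ?_ rfl
    rw [Finset.sum_filter, Finset.sum_filter]
    refine Finset.sum_congr rfl fun i _ => ?_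
    by_cases hi : Δ.U i = 0
    · have hk : κ i = d + 1 := if_pos hi
      rw [if_neg (fun h => by rw [hk] at h; omega), if_neg (fun h => h.1 hi)]
    · have hk : κ i = n * od (Δ.U i) := if_neg hi
      rw [hk]
      by_cases h : n * od (Δ.U i) ≤ d ∧ 2 ∣ d - n * od (Δ.U i)
      · rw [if_pos h, if_pos ⟨hi, h⟩, (hUn i hi e he).2]
      · rw [if_neg h, if_neg (fun h' => h h'.2)]
  have ht1 := nst_top x0 Δ.U Δ.c n d hnd V F κ hV hF hcond t.W t.cW t.c t.pf
  have ht2 := nst_top x0 Δ.U Δ.c n d hnd V F κ hV hF hcond t.W t.cW (fun _ => 0) PFun.zero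
  -- the exponent
  have hexp : ((∑ i, (d - (d - κ i + 1) / 2) : ℕ) : ℤ) + ((d - n : ℕ) : ℤ) =
      (((Fintype.card J + 1) * d : ℕ) : ℤ) - n - kk Δ.U n d := by
    rw [nst_sum d (fun i => (d - κ i + 1) / 2) (fun i => by
      show (d - κ i + 1) / 2 ≤ d
      omega)]
    have h1 : kk Δ.U n d = ∑ i, (d - κ i + 1) / 2 := by
      unfold kk
      rw [Finset.sum_filter]
      refine Finset.sum_congr rfl fun i _ => ?_
      by_cases hi : Δ.U i = 0
      · have hk : κ i = d + 1 := if_pos hi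
        rw [if_neg (fun h => h hi), hk]
        omega
      · have hk : κ i = n * od (Δ.U i) := if_neg hi
        rw [if_pos hi, hk]
    rw [h1]
    push_cast [Nat.cast_sub hnd]
    ring
  have hz1 : zd (pol D) d (ordEq x0 d n) t =
      mo k (rel V B F d {e | e.1 ∈ ordEq x0 d n ∧ e.2 ∈ t.W} fun e => t.c e.2) -
      mo k (rel V B F d {e | e.1 ∈ ordEq x0 d n ∧ e.2 ∈ t.W} fun _ => 0) := by
    unfold zd
    rw [hb1, hb2]
    rfl
  rw [hz1, hR, ht1, ht2, ← mul_sub, ← mul_assoc, ← hexp, zpow_add, Units.val_mul]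
  rfl

end Pool.Agent.H87.QF
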