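import Pool.Agent.H87.QF.Stmts

/-! # Board `qfm` (MP_432c1b_ag): row POL (helper45) -/

set_option autoImplicit false

namespace Pool.Agent.H87.QF

open MvPolynomial

namespace POLaux

lemma prod_zero {J S : Type} [Fintype J] [CommRing S] (x : J → S) (e : J → ℕ)
    (h : ∑ j, e j = 0) : ∏ j, x j ^ e j = 1 := by
  have h1 : ∀ j, e j = 0 := by
    intro j
    have := (Finset.sum_eq_zero_iff.mp h) j (Finset.mem_univ j)
    exact this
  simp [h1]

lemma prod_succ {J S : Type} [Fintype J] [DecidableEq J] [CommRing S] (x : J → S) (e : J → ℕ)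
    (n : ℕ) (h : ∑ j, e j = n + 1) :
    ∃ (i : J) (e' : J → ℕ), ∑ j, e' j = n ∧ ∏ j, x j ^ e j = x i * ∏ j, x j ^ e' j := by
  have h1 : ∃ i, e i ≠ 0 := by
    by_contra hcon
    push Not at hcon
    simp [hcon] at h
  obtain ⟨i, hi⟩ := h1
  refine ⟨i, Function.update e i (e i - 1), ?_, ?_⟩
  · rw [← Finset.add_sum_erase _ _ (Finset.mem_univ i)] at h ⊢
    rw [Function.update_self]
    have h2 : ∑ j ∈ Finset.univ.erase i, Function.update e i (e i - 1) j =
        ∑ j ∈ Finset.univ.erase i, e j := by
      apply Finset.sum_congr rfl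
      intro j hj
      rw [Function.update_of_ne (Finset.ne_of_mem_erase hj)]
    rw [h2]
    omega
  · rw [← Finset.mul_prod_erase _ _ (Finset.mem_univ i),
      ← Finset.mul_prod_erase (Finset.univ : Finset J)
        (fun j => x j ^ Function.update e i (e i - 1) j) (Finset.mem_univ i)]
    have h2 : ∏ j ∈ Finset.univ.erase i, x j ^ Function.update e i (e i - 1) j =
        ∏ j ∈ Finset.univ.erase i, x j ^ e j := by
      apply Finset.prod_congr rfl
      intro j hj
      rw [Function.update_of_ne (Finset.ne_of_mem_erase hj)]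
    rw [h2, Function.update_self, ← mul_assoc, ← pow_succ']
    congr 2
    omega

variable {k : Type} [Field k] {J : Type} [Fintype J] [DecidableEq J]

omit [DecidableEq J] in
lemma pol_eq (D : QD (Polynomial k) J) : pol D =
    ∑ i, ∑ j, emb k J (D.a i j) * (X (some i) * X (some j)) +
      ∑ i, emb k J (D.b i) * X (some i) + emb k J D.c := rfl

omit [DecidableEq J] in
lemma pol_add (D D' : QD (Polynomial k) J) :
    pol (⟨D.a + D'.a, D.b + D'.b, D.c + D'.c⟩ : QD (Polynomial k) J) = pol D + pol D' := by
  simp only [pol_eq, Pi.add_apply, map_add, add_mul, Finset.sum_add_distrib]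
  ring

omit [Fintype J] [DecidableEq J] in
lemma emb_monomial (n : ℕ) (c : k) :
    emb k J (Polynomial.monomial n c) = C c * X none ^ n := by
  change (Polynomial.aeval (X none : MvPolynomial (Option J) k)) (Polynomial.monomial n c) = _
  rw [Polynomial.aeval_monomial]
  rfl

lemma monomial_pol (m : Option J →₀ ℕ) (c : k) (h : ∑ j, m (some j) ≤ 2) :
    ∃ D : QD (Polynomial k) J, monomial m c = pol D := by
  have h1 : (monomial m c : MvPolynomial (Option J) k) =
      C c * X none ^ m none * ∏ j, (X (some j) : MvPolynomial (Option J) k) ^ m (some j) := by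
    rw [MvPolynomial.monomial_eq, Finsupp.prod_fintype _ _ (fun i => pow_zero _),
      Fintype.prod_option, mul_assoc]
  rw [h1, ← emb_monomial]
  set q : Polynomial k := Polynomial.monomial (m none) c
  rcases Nat.lt_or_ge (∑ j, m (some j)) 1 with h2 | h2
  · rw [prod_zero _ _ (by omega)]
    exact ⟨⟨0, 0, q⟩, by simp [pol_eq]⟩
  · obtain ⟨n, hn⟩ : ∃ n, ∑ j, m (some j) = n + 1 := ⟨∑ j, m (some j) - 1, by omega⟩
    obtain ⟨i, e', he', h3⟩ := prod_succ (fun j => (X (some j) : MvPolynomial (Option J) k))
      (fun j => m (some j)) n hn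
    rw [h3]
    rcases Nat.lt_or_ge n 1 with h4 | h4
    · rw [prod_zero _ _ (by omega)]
      refine ⟨⟨0, Pi.single i q, 0⟩, ?_⟩
      rw [pol_eq]
      simp only [Pi.zero_apply, map_zero, zero_mul, Finset.sum_const_zero, zero_add, add_zero,
        mul_one]
      rw [Finset.sum_eq_single i]
      · rw [Pi.single_eq_same]
      · intro j _ hj
        rw [Pi.single_eq_of_ne hj, map_zero, zero_mul]
      · intro hi
        exact absurd (Finset.mem_univ i) hi
    · obtain ⟨l, e'', he'', h5⟩ := prod_succ (fun j => (X (some j) : MvPolynomial (Option J) k))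
        e' 0 (by omega)
      rw [h5, prod_zero _ _ he'', mul_one]
      refine ⟨⟨Pi.single i (Pi.single l q), 0, 0⟩, ?_⟩
      rw [pol_eq]
      simp only [Pi.zero_apply, map_zero, zero_mul, Finset.sum_const_zero, add_zero]
      rw [Finset.sum_eq_single i]
      · rw [Pi.single_eq_same, Finset.sum_eq_single l]
        · rw [Pi.single_eq_same]
        · intro j _ hj
          rw [Pi.single_eq_of_ne hj, map_zero, zero_mul]
        · intro hi
          exact absurd (Finset.mem_univ l) hi
      · intro j _ hj
        rw [Pi.single_eq_of_ne hj]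
        simp
      · intro hi
        exact absurd (Finset.mem_univ i) hi

end POLaux

open POLaux

theorem POL : POLStmt := by
  intro k _ J _ _ f hf
  have h1 : ∀ s : Finset (Option J →₀ ℕ), s ⊆ f.support →
      ∃ D : QD (Polynomial k) J, ∑ m ∈ s, monomial m (coeff m f) = pol D := by
    intro s
    induction s using Finset.induction_on with
    | empty =>
      intro _
      exact ⟨⟨0, 0, 0⟩, by simp [pol_eq]⟩
    | insert m s hm ih =>
      intro hs
      obtain ⟨D, hD⟩ := ih (fun x hx => hs (Finset.mem_insert_of_mem hx))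
      have h2 : coeff m f ≠ 0 := by
        have := hs (Finset.mem_insert_self m s)
        rwa [mem_support_iff] at this
      obtain ⟨D', hD'⟩ := monomial_pol m (coeff m f) (hf m h2)
      refine ⟨⟨D'.a + D.a, D'.b + D.b, D'.c + D.c⟩, ?_⟩
      rw [Finset.sum_insert hm, hD, hD', pol_add]
  obtain ⟨D, hD⟩ := h1 f.support (Finset.Subset.refl _)
  exact ⟨D, by rw [← hD]; exact f.as_sum⟩

end Pool.Agent.H87.QF
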