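import Pool.Agent.H87.QF.Stmts

/-! # Row PRE of the board `qfm`: arcs with a low term do not contribute to the difference -/

set_option autoImplicit false

namespace Pool.Agent.H87.QF

open MvPolynomial Pool.Agent.H39.MonoR Pool.Agent.H75.Mono

section PSlemmas

variable {k : Type} [Field k] [Algebra k ℂ] {E F : Type} [Aff E] [Aff F]

private theorem pre_ps_add {f g : E → PowerSeries ℂ} (hf : PS k f) (hg : PS k g) :
    PS k (fun x => f x + g x) := by
  intro l
  simp only [map_add]
  exact (hf l).add (hg l)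

private theorem pre_ps_mul {f g : E → PowerSeries ℂ} (hf : PS k f) (hg : PS k g) :
    PS k (fun x => f x * g x) := by
  intro l
  simp only [PowerSeries.coeff_mul]
  exact PFun.sum _ fun p _ => (hf p.1).mul (hg p.2)

private theorem pre_ps_sum {J : Type*} (s : Finset J) {f : J → E → PowerSeries ℂ}
    (hf : ∀ j ∈ s, PS k (f j)) : PS k (fun x => ∑ j ∈ s, f j x) := by
  intro l
  simp only [map_sum]
  exact PFun.sum _ fun j hj => hf j hj l

private theorem pre_ps_comp {f : F → PowerSeries ℂ} (hf : PS k f) {g : E → F} (hg : PMap k g) :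
    PS k (fun x => f (g x)) := fun l =>
  H75.Mono.PFun.comp (f := fun y => PowerSeries.coeff l (f y)) (hf l) hg

private theorem pre_ps_arc {J : Type} [Finite J] {d : ℕ} (i : J) :
    PS k (fun x : E × (J × Fin (d + 1) → ℂ) => arc x.2 i) := by
  intro l
  simp only [coeff_arc]
  by_cases hl : l < d + 1
  · simp only [dif_pos hl]
    exact H75.Mono.PFun.comp (f := fun y : J × Fin (d + 1) → ℂ => y (i, ⟨l, hl⟩)) (PFun.apply _) PMap.snd
  · simp only [dif_neg hl]
    exact PFun.zero

theorem pre_ps_qf {J : Type} [Fintype J] {V B : J → E → PowerSeries ℂ} {F : E → PowerSeries ℂ}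
    {d : ℕ} (hV : ∀ i, PS k (V i)) (hB : ∀ i, PS k (B i)) (hF : PS k F) :
    PS k (fun x : E × (J × Fin (d + 1) → ℂ) => qf V B F x) := by
  unfold qf
  refine pre_ps_add (pre_ps_add (pre_ps_sum _ fun i _ => ?_) (pre_ps_sum _ fun i _ => ?_))
    (pre_ps_comp hF PMap.fst)
  · simp only [pow_two]
    exact pre_ps_mul (pre_ps_comp (hV i) PMap.fst) (pre_ps_mul (pre_ps_arc i) (pre_ps_arc i))
  · exact pre_ps_mul (pre_ps_comp (hB i) PMap.fst) (pre_ps_arc i)

end PSlemmas

/-- strata of a finite union -/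
private theorem pre_strata {k : Type} [Field k] [Algebra k ℂ] {G : Type} [Aff G] {n : ℕ}
    (S : Fin n → Set G) (hS : ∀ j, ICons k (S j)) (A : Set G) (hA : ICons k A) :
    mo k {x | x ∈ A ∧ ∃ j, x ∈ S j} =
      ∑ j ∈ (Finset.univ : Finset (Fin n)),
        mo k {x | x ∈ A ∧ x ∈ S j ∧ ∀ j', j' < j → x ∉ S j'} := by
  classical
  rw [← mo_biUnion]
  · congr 1
    ext x
    simp only [Set.mem_ofPred_eq]
    constructor
    · rintro ⟨h1, j0, hj0⟩
      let s : Finset (Fin n) := Finset.univ.filter fun j => x ∈ S j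
      have hs : s.Nonempty := ⟨j0, Finset.mem_filter.2 ⟨Finset.mem_univ _, hj0⟩⟩
      refine ⟨s.min' hs, Finset.mem_univ _, h1, (Finset.mem_filter.1 (s.min'_mem hs)).2,
        fun j hj hne => ?_⟩
      have : s.min' hs ≤ j := s.min'_le j (Finset.mem_filter.2 ⟨Finset.mem_univ _, hne⟩)
      exact absurd hj (not_lt.2 this)
    · rintro ⟨j, -, h1, h2, -⟩
      exact ⟨h1, j, h2⟩
  · intro j _
    refine hA.and ((hS j).and (ICons.forall_fin fun j' => ?_))
    by_cases h : j' < j
    · have e1 : {x : G | j' < j → x ∉ S j'} = {x : G | ¬ x ∈ S j'} := by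
        ext x; simp [h]
      rw [e1]
      exact (hS j').not
    · have e1 : {x : G | j' < j → x ∉ S j'} = Set.univ := by
        ext x; simp [h]
      rw [e1]
      exact ICons.univ
  · intro i _ j _ hij
    rw [Set.disjoint_left]
    rintro x ⟨-, h1, h1'⟩ ⟨-, h2, h2'⟩
    rcases lt_trichotomy i j with h | h | h
    · exact h2' i h h1
    · exact hij h
    · exact h1' j h h2

private theorem pre_arc_update {J : Type} [DecidableEq J] {N : ℕ}
    (φ : J × Fin N → ℂ) (i : J) (j₀ : Fin N) (ε : ℂ) :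
    arc (Function.update φ (i, j₀) (φ (i, j₀) + ε)) =
      Function.update (arc φ) i (arc φ i + PowerSeries.X ^ (j₀ : ℕ) * PowerSeries.C ε) := by
  funext j
  ext l
  rw [coeff_arc]
  by_cases hj : j = i
  · subst hj
    rw [Function.update_self, map_add, coeff_arc, PowerSeries.coeff_X_pow_mul']
    by_cases hl : l < N
    · rw [dif_pos hl, dif_pos hl]
      by_cases hld : l = (j₀ : ℕ)
      · subst hld
        rw [if_pos le_rfl, Nat.sub_self, PowerSeries.coeff_zero_C]
        have : ((j, ⟨(j₀ : ℕ), hl⟩) : J × Fin N) = (j, j₀) := rfl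
        rw [this, Function.update_self]
      · rw [Function.update_of_ne]
        · by_cases h1 : (j₀ : ℕ) ≤ l
          · rw [if_pos h1, PowerSeries.coeff_C, if_neg (by omega), add_zero]
          · rw [if_neg h1, add_zero]
        · intro h
          apply hld
          have := congrArg (fun p => (p.2 : ℕ)) h
          exact this
    · rw [dif_neg hl, dif_neg hl]
      have := j₀.2
      by_cases h1 : (j₀ : ℕ) ≤ l
      · rw [if_pos h1, PowerSeries.coeff_C, if_neg (by omega), add_zero]
      · rw [if_neg h1, add_zero]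
  · rw [Function.update_of_ne hj, coeff_arc]
    by_cases hl : l < N
    · rw [dif_pos hl, dif_pos hl, Function.update_of_ne]
      intro h
      exact hj (congrArg Prod.fst h)
    · rw [dif_neg hl, dif_neg hl]

/-- the change of the quadric -/
private theorem pre_qf_update {E : Type} {J : Type} [Fintype J] [DecidableEq J]
    (V B : J → E → PowerSeries ℂ) (F : E → PowerSeries ℂ) {d : ℕ} (e : E)
    (y : J × Fin (d + 1) → ℂ) (i : J) (j₀ : Fin (d + 1)) (s : ℂ) :
    qf V B F ((e, Function.update y (i, j₀) (y (i, j₀) + s)) : E × (J × Fin (d + 1) → ℂ)) =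
      qf V B F ((e, y) : E × (J × Fin (d + 1) → ℂ)) +
        (V i e * (2 * arc y i * (PowerSeries.X ^ (j₀ : ℕ) * PowerSeries.C s) +
          (PowerSeries.X ^ (j₀ : ℕ) * PowerSeries.C s) ^ 2) +
        B i e * (PowerSeries.X ^ (j₀ : ℕ) * PowerSeries.C s)) := by
  set δ : PowerSeries ℂ := PowerSeries.X ^ (j₀ : ℕ) * PowerSeries.C s with hδ
  have hupd : ∀ j, arc (Function.update y (i, j₀) (y (i, j₀) + s)) j =
      arc y j + if j = i then δ else 0 := by
    intro j
    rw [pre_arc_update]
    by_cases hj : j = i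
    · subst hj
      rw [Function.update_self, if_pos rfl]
    · rw [Function.update_of_ne hj, if_neg hj, add_zero]
  unfold qf
  simp only [hupd]
  have h1 : ∑ j, V j e * (arc y j + if j = i then δ else 0) ^ 2 =
      ∑ j, V j e * arc y j ^ 2 + V i e * (2 * arc y i * δ + δ ^ 2) := by
    have : ∀ j, V j e * (arc y j + if j = i then δ else 0) ^ 2 =
        V j e * arc y j ^ 2 + if j = i then V i e * (2 * arc y i * δ + δ ^ 2) else 0 := by
      intro j
      by_cases hj : j = i
      · subst hj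
        simp only [if_true]
        ring
      · simp only [if_neg hj, add_zero]
    simp only [this, Finset.sum_add_distrib, Finset.sum_ite_eq', Finset.mem_univ, if_true]
  have h2 : ∑ j, B j e * (arc y j + if j = i then δ else 0) =
      ∑ j, B j e * arc y j + B i e * δ := by
    have : ∀ j, B j e * (arc y j + if j = i then δ else 0) =
        B j e * arc y j + if j = i then B i e * δ else 0 := by
      intro j
      by_cases hj : j = i
      · subst hj
        simp only [if_true]
        ring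
      · simp only [if_neg hj, add_zero]
    simp only [this, Finset.sum_add_distrib, Finset.sum_ite_eq', Finset.mem_univ, if_true]
  rw [h1, h2]
  ring

/-- the coefficients of the change -/
private theorem pre_coeff (u v w : PowerSeries ℂ) (κ a m d j₀ : ℕ) (s : ℂ)
    (hu : ∀ l, l < κ → PowerSeries.coeff l u = 0) (hv : ∀ l, l < a → PowerSeries.coeff l v = 0)
    (hw : ∀ l, l < m → PowerSeries.coeff l w = 0) (h1 : κ + a + j₀ = d) (h2 : a < j₀)
    (h3 : κ + a < m) :
    (∀ l, l < d → PowerSeries.coeff l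
      (u * (2 * v * (PowerSeries.X ^ j₀ * PowerSeries.C s) +
        (PowerSeries.X ^ j₀ * PowerSeries.C s) ^ 2) +
        w * (PowerSeries.X ^ j₀ * PowerSeries.C s)) = 0) ∧
    PowerSeries.coeff d
      (u * (2 * v * (PowerSeries.X ^ j₀ * PowerSeries.C s) +
        (PowerSeries.X ^ j₀ * PowerSeries.C s) ^ 2) +
        w * (PowerSeries.X ^ j₀ * PowerSeries.C s)) =
      2 * PowerSeries.coeff κ u * PowerSeries.coeff a v * s := by
  obtain ⟨u', rfl⟩ := PowerSeries.X_pow_dvd_iff.2 hu
  obtain ⟨v', rfl⟩ := PowerSeries.X_pow_dvd_iff.2 hv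
  obtain ⟨w', rfl⟩ := PowerSeries.X_pow_dvd_iff.2 hw
  have e1 : PowerSeries.coeff κ (PowerSeries.X ^ κ * u') = PowerSeries.coeff 0 u' := by
    rw [PowerSeries.coeff_X_pow_mul', if_pos le_rfl, Nat.sub_self]
  have e2 : PowerSeries.coeff a (PowerSeries.X ^ a * v') = PowerSeries.coeff 0 v' := by
    rw [PowerSeries.coeff_X_pow_mul', if_pos le_rfl, Nat.sub_self]
  obtain ⟨p, hp⟩ : ∃ p, κ + 2 * j₀ = d + 1 + p := ⟨κ + 2 * j₀ - (d + 1), by omega⟩
  obtain ⟨q, hq⟩ : ∃ q, m + j₀ = d + 1 + q := ⟨m + j₀ - (d + 1), by omega⟩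
  have e3 : PowerSeries.X ^ κ * u' * (2 * (PowerSeries.X ^ a * v') *
        (PowerSeries.X ^ j₀ * PowerSeries.C s) + (PowerSeries.X ^ j₀ * PowerSeries.C s) ^ 2) +
        PowerSeries.X ^ m * w' * (PowerSeries.X ^ j₀ * PowerSeries.C s) =
      PowerSeries.X ^ d * (u' * v' * (2 * PowerSeries.C s) +
        PowerSeries.X * (PowerSeries.X ^ p * (u' * PowerSeries.C s ^ 2) +
          PowerSeries.X ^ q * (w' * PowerSeries.C s))) := by
    have e4 : (PowerSeries.X : PowerSeries ℂ) ^ κ * PowerSeries.X ^ (2 * j₀) =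
        PowerSeries.X ^ d * (PowerSeries.X * PowerSeries.X ^ p) := by
      rw [← pow_add, hp, pow_add, pow_succ]
      ring
    have e5 : (PowerSeries.X : PowerSeries ℂ) ^ m * PowerSeries.X ^ j₀ =
        PowerSeries.X ^ d * (PowerSeries.X * PowerSeries.X ^ q) := by
      rw [← pow_add, hq, pow_add, pow_succ]
      ring
    have e6 : (PowerSeries.X : PowerSeries ℂ) ^ κ * (PowerSeries.X ^ a * PowerSeries.X ^ j₀) =
        PowerSeries.X ^ d := by
      rw [← pow_add, ← pow_add, ← add_assoc, h1]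
    have e7 : (PowerSeries.X : PowerSeries ℂ) ^ (2 * j₀) =
        PowerSeries.X ^ j₀ * PowerSeries.X ^ j₀ := by
      rw [two_mul, pow_add]
    rw [e7] at e4
    linear_combination (u' * v' * (2 * PowerSeries.C s)) * e6 +
      (u' * PowerSeries.C s ^ 2) * e4 + (w' * PowerSeries.C s) * e5
  rw [e3, e1, e2]
  refine ⟨fun l hl => ?_, ?_⟩
  · rw [PowerSeries.coeff_X_pow_mul', if_neg (by omega)]
  · rw [PowerSeries.coeff_X_pow_mul', if_pos le_rfl, Nat.sub_self]
    simp only [PowerSeries.coeff_zero_eq_constantCoeff_apply, map_add, map_mul, map_pow,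
      PowerSeries.constantCoeff_X, PowerSeries.constantCoeff_C, map_ofNat]
    ring

/-- the set of the `y` with `κ_i + 2 ord y_i < m`, `ord y_i = a` -/
private def pre_S {E : Type} {J : Type} (κ : J → ℕ) (m : ℕ) {d : ℕ} (q : J × Fin (d + 1)) :
    Set (E × (J × Fin (d + 1) → ℂ)) :=
  {x | κ q.1 + 2 * (q.2 : ℕ) < m ∧ (∀ l : Fin (d + 1), l < q.2 → x.2 (q.1, l) = 0) ∧
    x.2 (q.1, q.2) ≠ 0}

private theorem pre_S_cons {k : Type} [Field k] [Algebra k ℂ] {E : Type} [Aff E] {J : Type}
    [Finite J] (κ : J → ℕ) (m : ℕ) {d : ℕ} (q : J × Fin (d + 1)) :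
    ICons k (pre_S (E := E) κ m q) := by
  have h1 : ∀ l : Fin (d + 1), PFun k (fun x : E × (J × Fin (d + 1) → ℂ) => x.2 (q.1, l)) :=
    fun l => H75.Mono.PFun.comp (f := fun y : J × Fin (d + 1) → ℂ => y (q.1, l)) (PFun.apply _) PMap.snd
  refine (ICons.const _).and (ICons.and (ICons.forall_fin fun l => ?_)
    (ICons.ne (h1 q.2) PFun.zero))
  by_cases h : l < q.2
  · have e1 : {x : E × (J × Fin (d + 1) → ℂ) | l < q.2 → x.2 (q.1, l) = 0} =
        {x | x.2 (q.1, l) = 0} := by
      ext x; simp [h]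
    rw [e1]
    exact ICons.eq (h1 l) PFun.zero
  · have e1 : {x : E × (J × Fin (d + 1) → ℂ) | l < q.2 → x.2 (q.1, l) = 0} = Set.univ := by
      ext x; simp [h]
    rw [e1]
    exact ICons.univ

theorem PRE (h : TRLStmt) : PREStmt := by
  intro k _ _ E _ J _ _ V B F d m κ Q c hV hB hF hQ hc hd hmd hEx hBz
  classical
  set G : Type := E × (J × Fin (d + 1) → ℂ) with hG
  obtain ⟨n, ⟨e⟩⟩ := Finite.exists_equiv_fin (J × Fin (d + 1))
  let S : Fin n → Set G := fun j => pre_S κ m (e.symm j)
  have hS : ∀ j, ICons k (S j) := fun j => pre_S_cons κ m _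
  have hqf : ∀ l, PFun k (fun x : G => PowerSeries.coeff l (qf V B F x)) := fun l =>
    pre_ps_qf hV hB hF l
  have hlow : ∀ x : G, low κ m x.2 ↔ ∃ j, x ∈ S j := by
    intro x
    constructor
    · rintro ⟨i, a, h1, h2, h3⟩
      refine ⟨e (i, a), ?_⟩
      show x ∈ pre_S κ m (e.symm (e (i, a)))
      rw [Equiv.symm_apply_apply]
      exact ⟨h1, h2, h3⟩
    · rintro ⟨j, h1, h2, h3⟩
      exact ⟨(e.symm j).1, (e.symm j).2, h1, h2, h3⟩
  -- the sets `A_c`
  have hrel : ∀ c' : E → ℂ, rel V B F d Q c' = {x : G | (x.1 ∈ Q ∧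
      ∀ l, l < d → PowerSeries.coeff l (qf V B F x) = 0) ∧
      PowerSeries.coeff d (qf V B F x) = c' x.1} := by
    intro c'
    ext x
    constructor
    · rintro ⟨h1, h2⟩
      refine ⟨⟨h1, fun l hl => ?_⟩, ?_⟩
      · rw [h2 l hl.le, if_neg hl.ne]
      · rw [h2 d le_rfl, if_pos rfl]
    · rintro ⟨⟨h1, h2⟩, h3⟩
      refine ⟨h1, fun l hl => ?_⟩
      rcases hl.lt_or_eq with h4 | h4
      · rw [h2 l h4, if_neg h4.ne]
      · subst h4
        rw [h3, if_pos rfl]
  have hP0 : ICons k {x : G | x.1 ∈ Q ∧ ∀ l, l < d → PowerSeries.coeff l (qf V B F x) = 0} :=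
    (hQ.mem PMap.fst).and (ICons.forall_lt d fun l => ICons.eq (hqf l) PFun.zero)
  have hrc : ∀ c' : E → ℂ, PFun k c' → ICons k (rel V B F d Q c') := by
    intro c' hc'
    rw [hrel]
    exact hP0.and (ICons.eq (hqf d) (H75.Mono.PFun.comp (f := c') hc' PMap.fst))
  have key : ∀ c' : E → ℂ, PFun k c' → mo k {x | x ∈ rel V B F d Q c' ∧ low κ m x.2} =
      ∑ j ∈ (Finset.univ : Finset (Fin n)),
        mo k {x : G | x ∈ rel V B F d Q c' ∧ x ∈ S j ∧ ∀ j', j' < j → x ∉ S j'} := by
    intro c' hc'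
    rw [← pre_strata S hS _ (hrc c' hc')]
    congr 1
    ext x
    simp only [Set.mem_ofPred_eq, hlow]
    exact Iff.rfl
  rw [key c hc, key (fun _ => 0) PFun.zero]
  refine Finset.sum_congr rfl fun j _ => ?_
  obtain ⟨⟨i, a⟩, hia⟩ : ∃ q, e.symm j = q := ⟨_, rfl⟩
  by_cases hm : κ i + 2 * (a : ℕ) < m
  swap
  · -- empty strata
    have hemp : ∀ c' : E → ℂ,
        {x : G | x ∈ rel V B F d Q c' ∧ x ∈ S j ∧ ∀ j', j' < j → x ∉ S j'} = ∅ := by
      intro c'
      ext x
      simp only [Set.mem_ofPred_eq, Set.mem_empty_iff_false, iff_false]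
      rintro ⟨-, h2, -⟩
      have h3 : x ∈ pre_S κ m (e.symm j) := h2
      rw [hia] at h3
      exact hm h3.1
    rw [hemp, hemp]
  -- the translation
  have hj0 : d - κ i - a < d + 1 := by omega
  set j₀ : Fin (d + 1) := ⟨d - κ i - a, hj0⟩ with hj0def
  have hj0v : (j₀ : ℕ) = d - κ i - a := rfl
  have haj : a < j₀ := by
    rw [Fin.lt_def, hj0v]
    omega
  set P : Set G := {x : G | (x.1 ∈ Q ∧ ∀ l, l < d → PowerSeries.coeff l (qf V B F x) = 0) ∧
    x ∈ S j ∧ ∀ j', j' < j → x ∉ S j'} with hPdef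
  have hP : ICons k P := by
    refine hP0.and ((hS j).and (ICons.forall_fin fun j' => ?_))
    by_cases h : j' < j
    · have e1 : {x : G | j' < j → x ∉ S j'} = {x : G | ¬ x ∈ S j'} := by
        ext x; simp [h]
      rw [e1]
      exact (hS j').not
    · have e1 : {x : G | j' < j → x ∉ S j'} = Set.univ := by
        ext x; simp [h]
      rw [e1]
      exact ICons.univ
  have heq : ∀ c' : E → ℂ,
      {x : G | x ∈ rel V B F d Q c' ∧ x ∈ S j ∧ ∀ j', j' < j → x ∉ S j'} =
        {x : G | x ∈ P ∧ PowerSeries.coeff d (qf V B F x) = c' x.1} := by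
    intro c'
    rw [hrel]
    ext x
    simp only [hPdef, Set.mem_ofPred_eq]
    tauto
  rw [heq, heq]
  have hmem : ∀ x : G, x ∈ P → (∀ l : Fin (d + 1), l < a → x.2 (i, l) = 0) ∧ x.2 (i, a) ≠ 0 := by
    rintro x ⟨-, h2, -⟩
    have h3 : x ∈ pre_S κ m (e.symm j) := h2
    rw [hia] at h3
    exact ⟨h3.2.1, h3.2.2⟩
  have hκ : κ i ≤ d := by omega
  refine h k G P (fun x => PowerSeries.coeff d (qf V B F x))
    (fun x => 2 * PowerSeries.coeff (κ i) (V i x.1) * x.2 (i, a)) (fun x => c x.1)
    (fun z => (z.1.1, Function.update z.1.2 (i, j₀) (z.1.2 (i, j₀) + z.2))) hP (hqf d) ?_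
    (H75.Mono.PFun.comp (f := c) hc PMap.fst) ?_ ?_ ?_ ?_ ?_
  · have h2 : PFun k (fun _ : G => (2 : ℂ)) := by
      have := PFun.const (k := k) (E := G) 2
      simpa only [map_ofNat] using this
    exact (h2.mul (H75.Mono.PFun.comp (f := fun e => PowerSeries.coeff (κ i) (V i e)) (hV i _)
      PMap.fst)).mul (H75.Mono.PFun.comp (f := fun y : J × Fin (d + 1) → ℂ => y (i, a)) (PFun.apply _)
        PMap.snd)
  · refine PMap.prodMk (PMap.fst.comp PMap.fst) (PMap.pi fun q => ?_)
    have h3 : ∀ q : J × Fin (d + 1), PFun k (fun z : G × ℂ => z.1.2 q) := fun q =>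
      H75.Mono.PFun.comp (f := fun y : J × Fin (d + 1) → ℂ => y q) (PFun.apply q) (PMap.snd.comp PMap.fst)
    by_cases hq : q = (i, j₀)
    · subst hq
      simp only [Function.update_self]
      exact (h3 _).add (H75.Mono.PFun.comp (f := fun x : ℂ => x) PFun.id' PMap.snd)
    · simp only [Function.update_of_ne hq]
      exact h3 q
  · intro x hx
    have h1 := (hEx i x.1 hx.1.1).2 hκ
    exact mul_ne_zero (mul_ne_zero two_ne_zero h1) (hmem x hx).2
  · intro x hx s
    have hme := hmem x hx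
    have hva : PowerSeries.coeff (a : ℕ) (arc x.2 i) = x.2 (i, a) := by
      rw [coeff_arc, dif_pos a.2]
    have hco := pre_coeff (V i x.1) (arc x.2 i) (B i x.1) (κ i) a m d j₀ s
      (fun l hl => (hEx i x.1 hx.1.1).1 l hl (by omega))
      (fun l hl => by
        rw [coeff_arc, dif_pos (by have := a.2; omega)]
        exact hme.1 _ (by rw [Fin.lt_def]; exact hl))
      (hBz i x.1 hx.1.1) (by rw [hj0v]; omega) haj (by omega)
    have hq1 := pre_qf_update V B F x.1 x.2 i j₀ s
    have hxx : (x.1, x.2) = x := rfl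
    rw [hxx] at hq1
    have hne : ∀ l : Fin (d + 1), l ≤ a → (i, l) ≠ (i, j₀) := by
      intro l hl h5
      have : l = j₀ := (Prod.mk.inj h5).2
      subst this
      exact absurd haj (not_lt.2 hl)
    have hSq : ∀ j' : Fin n, j' < j →
        ((x.1, Function.update x.2 (i, j₀) (x.2 (i, j₀) + s)) : G) ∉ S j' := by
      intro j' hj' hin
      obtain ⟨⟨i', a'⟩, hia'⟩ : ∃ q, e.symm j' = q := ⟨_, rfl⟩
      have h3 : ((x.1, Function.update x.2 (i, j₀) (x.2 (i, j₀) + s)) : G) ∈
        pre_S κ m (e.symm j') := hin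
      rw [hia'] at h3
      obtain ⟨h4, h5, h6⟩ := h3
      simp only at h4 h5 h6
      by_cases hi : i' = i
      · subst hi
        have ha : a' = a := by
          rcases lt_trichotomy a' a with h7 | h7 | h7
          · exfalso
            apply h6
            rw [Function.update_of_ne (hne a' h7.le)]
            exact hme.1 a' h7
          · exact h7
          · exfalso
            have h8 := h5 a h7
            rw [Function.update_of_ne (hne a le_rfl)] at h8
            exact hme.2 h8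
        subst ha
        have : j' = j := by
          apply e.symm.injective
          rw [hia', hia]
        exact absurd hj' (this ▸ lt_irrefl _)
      · apply hx.2.2 j' hj'
        show x ∈ pre_S κ m (e.symm j')
        rw [hia']
        have hne' : ∀ l : Fin (d + 1), (i', l) ≠ (i, j₀) := fun l h5 => hi (Prod.mk.inj h5).1
        refine ⟨h4, fun l hl => ?_, ?_⟩
        · have := h5 l hl
          rwa [Function.update_of_ne (hne' l)] at this
        · rwa [Function.update_of_ne (hne' a')] at h6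
    refine ⟨⟨⟨hx.1.1, fun l hl => ?_⟩, ?_, hSq⟩, ?_, ?_, rfl⟩
    · rw [hq1, map_add, hx.1.2 l hl, hco.1 l hl, add_zero]
    · show _ ∈ pre_S κ m (e.symm j)
      rw [hia]
      refine ⟨hm, fun l hl => ?_, ?_⟩
      · show Function.update x.2 (i, j₀) (x.2 (i, j₀) + s) (i, l) = 0
        rw [Function.update_of_ne (hne l (le_of_lt hl))]
        exact hme.1 l hl
      · show Function.update x.2 (i, j₀) (x.2 (i, j₀) + s) (i, a) ≠ 0
        rw [Function.update_of_ne (hne a le_rfl)]
        exact hme.2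
    · show PowerSeries.coeff d (qf V B F _) = _
      rw [hq1, map_add, hco.2, hva]
    · show 2 * PowerSeries.coeff (κ i) (V i x.1) *
        Function.update x.2 (i, j₀) (x.2 (i, j₀) + s) (i, a) = _
      rw [Function.update_of_ne (hne a le_rfl)]
  · intro x _
    show (x.1, Function.update x.2 (i, j₀) (x.2 (i, j₀) + 0)) = x
    rw [add_zero, Function.update_eq_self]
  · intro x _ s s'
    show (x.1, Function.update (Function.update x.2 (i, j₀) (x.2 (i, j₀) + s)) (i, j₀)
      (Function.update x.2 (i, j₀) (x.2 (i, j₀) + s) (i, j₀) + s')) =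
      (x.1, Function.update x.2 (i, j₀) (x.2 (i, j₀) + (s + s')))
    rw [Function.update_idem, Function.update_self, add_assoc]

end Pool.Agent.H87.QF
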