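import Pool.Agent.H87.QF.Stmts
import Pool.Agent.H87.QF.Base

/-! # QFM, row PRI: the pre-chain of the principal part -/

set_option autoImplicit false

namespace Pool.Agent.H87.QF

open MvPolynomial

namespace PRIaux

section coef

variable {k : Type} [Field k]

/-- the coefficient of `X^a`, `a ∈ ℤ` -/
noncomputable def cfz (a : ℤ) : PowerSeries k →ₗ[k] k :=
  if 0 ≤ a then PowerSeries.coeff a.toNat else 0

theorem cfz_neg {a : ℤ} (h : a < 0) (x : PowerSeries k) : cfz a x = 0 := by
  unfold cfz
  rw [if_neg (not_le.2 h)]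
  rfl

theorem cfz_nat (a : ℕ) (x : PowerSeries k) : cfz (a : ℤ) x = PowerSeries.coeff a x := by
  unfold cfz
  rw [if_pos (Int.natCast_nonneg a), Int.toNat_natCast]

theorem cfz_shift (a : ℤ) (n : ℕ) (x : PowerSeries k) :
    cfz (a + n) (PowerSeries.X ^ n * x) = cfz a x := by
  by_cases h : 0 ≤ a
  · obtain ⟨b, rfl⟩ := Int.eq_ofNat_of_zero_le h
    have e : ((b : ℤ) + n) = ((b + n : ℕ) : ℤ) := by push_cast; rfl
    rw [e, cfz_nat, cfz_nat, PowerSeries.coeff_X_pow_mul]
  · rw [cfz_neg (a := a) (not_le.1 h)]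
    by_cases h2 : 0 ≤ a + n
    · obtain ⟨b, hb⟩ := Int.eq_ofNat_of_zero_le h2
      rw [hb, cfz_nat, PowerSeries.coeff_X_pow_mul', if_neg (by omega)]
    · rw [cfz_neg (not_le.1 h2)]

theorem cfz_C (a : ℤ) (c : k) (x : PowerSeries k) :
    cfz a (PowerSeries.C c * x) = c * cfz a x := by
  rw [← PowerSeries.smul_eq_C_mul, map_smul, smul_eq_mul]

theorem cfz_deriv (a : ℤ) (x : PowerSeries k) :
    cfz a (PowerSeries.derivative k x) = ((a : k) + 1) * cfz (a + 1) x := by
  by_cases h : 0 ≤ a
  · obtain ⟨b, rfl⟩ := Int.eq_ofNat_of_zero_le h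
    have e : ((b : ℤ) + 1) = ((b + 1 : ℕ) : ℤ) := by push_cast; rfl
    rw [e, cfz_nat, cfz_nat, PowerSeries.coeff_derivative, mul_comm, Int.cast_natCast]
  · rw [cfz_neg (a := a) (not_le.1 h)]
    by_cases h2 : a + 1 < 0
    · rw [cfz_neg h2, mul_zero]
    · have : a = -1 := by omega
      rw [this]
      simp

theorem cfz_dpow (a : ℤ) (n : ℕ) (x : PowerSeries k) :
    cfz (a + n) (PowerSeries.derivative k (PowerSeries.X ^ n) * x) = (n : k) * cfz (a + 1) x := by
  cases n with
  | zero =>
    rw [pow_zero, ← map_one (PowerSeries.C (R := k)), PowerSeries.derivative_C, zero_mul, map_zero]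
    simp
  | succ n =>
    have e1 : PowerSeries.derivative k (PowerSeries.X ^ (n + 1) : PowerSeries k) =
        PowerSeries.C ((n : k) + 1) * PowerSeries.X ^ n := by
      rw [Derivation.leibniz_pow, PowerSeries.derivative_X, Nat.add_sub_cancel, smul_eq_mul, mul_one,
        nsmul_eq_mul]
      congr 1
      push_cast
      simp
    have e2 : a + ((n + 1 : ℕ) : ℤ) = (a + 1) + (n : ℕ) := by push_cast; ring
    rw [e1, e2, mul_assoc, cfz_C, cfz_shift]
    push_cast
    rfl

end coef

section comb

variable {k : Type} [Field k] {J : Type} [DecidableEq J] (I : Finset J) (e : J → ℕ) (u : J → k)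
  (τ : ℕ)

/-- all exponents in `I` are even -/
def evn (m : J →₀ ℕ) : Prop := ∀ i ∈ I, Even (m i)

/-- `|b|` -/
def nb (m : J →₀ ℕ) : ℕ := ∑ i ∈ I, m i / 2

/-- `a_b(n)` -/
def na (n : ℕ) (m : J →₀ ℕ) : ℤ :=
  ((∑ i ∈ I, e i * (m i / 2) : ℕ) : ℤ) + τ * ((n : ℤ) - nb I m)

/-- one factor of `c_b` -/
noncomputable def hf (u : k) (b : ℕ) : k := (∏ j ∈ Finset.range b, ((j : k) + 1 / 2)) * u⁻¹ ^ b

/-- `c_b` -/
noncomputable def cc (m : J →₀ ℕ) : k := ∏ i ∈ I, hf (u i) (m i / 2)

open Classical in
/-- the coefficient `c_b [x]_a` -/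
noncomputable def wt (a : ℤ) (m : J →₀ ℕ) (x : PowerSeries k) : k :=
  if evn I m then cc I u m * cfz a x else 0

variable {I}

omit [DecidableEq J] in
theorem evn_congr {m m' : J →₀ ℕ} (h : ∀ i ∈ I, m' i = m i) : evn I m' ↔ evn I m := by
  unfold evn
  exact forall₂_congr fun i hi => by rw [h i hi]

omit [DecidableEq J] in
theorem nb_congr {m m' : J →₀ ℕ} (h : ∀ i ∈ I, m' i = m i) : nb I m' = nb I m := by
  unfold nb
  exact Finset.sum_congr rfl fun i hi => by rw [h i hi]

omit [DecidableEq J] in
theorem na_congr (n : ℕ) {m m' : J →₀ ℕ} (h : ∀ i ∈ I, m' i = m i) :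
    na I e τ n m' = na I e τ n m := by
  unfold na
  rw [nb_congr h]
  congr 2
  exact Finset.sum_congr rfl fun i hi => by rw [h i hi]

omit [DecidableEq J] in
theorem wt_congr (a : ℤ) {m m' : J →₀ ℕ} (h : ∀ i ∈ I, m' i = m i) (x : PowerSeries k) :
    wt I u a m' x = wt I u a m x := by
  classical
  unfold wt cc
  rw [if_congr (evn_congr h) rfl rfl]
  congr 2
  exact Finset.prod_congr rfl fun i hi => by rw [h i hi]

theorem half_add (i j : J) (m : J →₀ ℕ) :
    (m + Finsupp.single i 2 : J →₀ ℕ) j / 2 = m j / 2 + if j = i then 1 else 0 := by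
  rw [Finsupp.add_apply, Finsupp.single_apply]
  by_cases h : i = j
  · subst h
    rw [if_pos rfl, if_pos rfl]
    omega
  · rw [if_neg h, if_neg (fun h' => h h'.symm)]
    rfl

theorem evn_add (i : J) (m : J →₀ ℕ) : evn I (m + Finsupp.single i 2) ↔ evn I m := by
  unfold evn
  refine forall₂_congr fun j _ => ?_
  rw [Finsupp.add_apply, Finsupp.single_apply]
  split_ifs
  · rw [Nat.even_add]
    simp
  · rw [add_zero]

theorem nb_add {i : J} (hi : i ∈ I) (m : J →₀ ℕ) :
    nb I (m + Finsupp.single i 2) = nb I m + 1 := by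
  unfold nb
  simp only [half_add]
  rw [Finset.sum_add_distrib, Finset.sum_ite_eq', if_pos hi]

theorem na_add {i : J} (hi : i ∈ I) (n : ℕ) (m : J →₀ ℕ) :
    na I e τ (n + 1) (m + Finsupp.single i 2) = na I e τ n m + e i := by
  unfold na
  rw [nb_add hi]
  have h : ∑ j ∈ I, e j * ((m + Finsupp.single i 2 : J →₀ ℕ) j / 2) = ∑ j ∈ I, e j * (m j / 2) + e i := by
    simp only [half_add, mul_add, mul_ite, mul_one, mul_zero]
    rw [Finset.sum_add_distrib, Finset.sum_ite_eq', if_pos hi]
  rw [h]
  push_cast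
  ring

omit [DecidableEq J] in
theorem na_succ (n : ℕ) (m : J →₀ ℕ) : na I e τ (n + 1) m = na I e τ n m + τ := by
  unfold na
  push_cast
  ring

theorem hf_succ {u : k} (hu : u ≠ 0) (b : ℕ) : hf u (b + 1) * u = ((b : k) + 1 / 2) * hf u b := by
  unfold hf
  rw [Finset.prod_range_succ, pow_succ]
  have : u⁻¹ * u = 1 := inv_mul_cancel₀ hu
  linear_combination ((∏ j ∈ Finset.range b, ((j : k) + 1 / 2)) * ((b : k) + 1 / 2) * u⁻¹ ^ b) * this

theorem cc_add {i : J} (hi : i ∈ I) (hu : u i ≠ 0) (m : J →₀ ℕ) :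
    cc I u (m + Finsupp.single i 2) * u i = (((m i / 2 : ℕ) : k) + 1 / 2) * cc I u m := by
  unfold cc
  rw [← Finset.mul_prod_erase I _ hi, ← Finset.mul_prod_erase I _ hi]
  have h1 : ∏ j ∈ I.erase i, hf (u j) ((m + Finsupp.single i 2 : J →₀ ℕ) j / 2) =
      ∏ j ∈ I.erase i, hf (u j) (m j / 2) := by
    refine Finset.prod_congr rfl fun j hj => ?_
    rw [half_add, if_neg (Finset.ne_of_mem_erase hj), add_zero]
  rw [h1, half_add, if_pos rfl]
  have h2 := hf_succ hu (m i / 2)
  linear_combination (∏ j ∈ I.erase i, hf (u j) (m j / 2)) * h2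

theorem wt_add {i : J} (hi : i ∈ I) (hu : u i ≠ 0) (a : ℤ) (m : J →₀ ℕ) (x : PowerSeries k) :
    wt I u a (m + Finsupp.single i 2) (PowerSeries.C (u i) * x) =
      (((m i / 2 : ℕ) : k) + 1 / 2) * wt I u a m x := by
  classical
  unfold wt
  rw [if_congr (evn_add i m) rfl rfl]
  split_ifs
  · rw [cfz_C]
    have h := cc_add u hi hu m
    linear_combination (cfz a x) * h
  · rw [mul_zero]

omit [DecidableEq J] in
theorem wt_shift (a : ℤ) (n : ℕ) (m : J →₀ ℕ) (x : PowerSeries k) :
    wt I u (a + n) m (PowerSeries.X ^ n * x) = wt I u a m x := by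
  unfold wt
  rw [cfz_shift]

omit [DecidableEq J] in
theorem wt_C (a : ℤ) (m : J →₀ ℕ) (c : k) (x : PowerSeries k) :
    wt I u a m (PowerSeries.C c * x) = c * wt I u a m x := by
  classical
  unfold wt
  rw [cfz_C]
  split_ifs
  · ring
  · rw [mul_zero]

omit [DecidableEq J] in
theorem wt_deriv (a : ℤ) (m : J →₀ ℕ) (x : PowerSeries k) :
    wt I u a m (PowerSeries.derivative k x) = ((a : k) + 1) * wt I u (a + 1) m x := by
  classical
  unfold wt
  rw [cfz_deriv]
  split_ifs
  · ring
  · rw [mul_zero]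

omit [DecidableEq J] in
theorem wt_dpow (a : ℤ) (n : ℕ) (m : J →₀ ℕ) (x : PowerSeries k) :
    wt I u (a + n) m (PowerSeries.derivative k (PowerSeries.X ^ n) * x) =
      (n : k) * wt I u (a + 1) m x := by
  classical
  unfold wt
  rw [cfz_dpow]
  split_ifs
  · ring
  · rw [mul_zero]

end comb

section lin

variable {k : Type} [Field k] {J : Type} {W : Type} [AddCommGroup W] [Module k W]

/-- the linear map with given values on the monomials -/
noncomputable def lin (T : (J →₀ ℕ) → PowerSeries k →ₗ[k] W) :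
    MvPolynomial J (PowerSeries k) →ₗ[k] W where
  toFun q := ∑ m ∈ q.support, T m (coeff m q)
  map_add' p q := by
    classical
    have h : ∀ r : MvPolynomial J (PowerSeries k), r.support ⊆ p.support ∪ q.support →
        ∑ m ∈ r.support, T m (coeff m r) = ∑ m ∈ p.support ∪ q.support, T m (coeff m r) :=
      fun r hr => Finset.sum_subset hr fun m _ hm => by rw [notMem_support_iff.1 hm, map_zero]
    rw [h _ support_add, h p Finset.subset_union_left, h q Finset.subset_union_right,
      ← Finset.sum_add_distrib]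
    exact Finset.sum_congr rfl fun m _ => by rw [coeff_add, map_add]
  map_smul' c q := by
    classical
    have h : ∑ m ∈ (c • q).support, T m (coeff m (c • q)) =
        ∑ m ∈ q.support, T m (coeff m (c • q)) := by
      refine Finset.sum_subset ?_ fun m _ hm => by rw [notMem_support_iff.1 hm, map_zero]
      intro m hm
      rw [mem_support_iff] at hm ⊢
      intro h0
      rw [coeff_smul, h0, smul_zero] at hm
      exact hm rfl
    rw [h, RingHom.id_apply, Finset.smul_sum]
    exact Finset.sum_congr rfl fun m _ => by rw [coeff_smul, map_smul]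

theorem lin_apply (T : (J →₀ ℕ) → PowerSeries k →ₗ[k] W) (q : MvPolynomial J (PowerSeries k)) :
    lin T q = ∑ m ∈ q.support, T m (coeff m q) := rfl

theorem lin_monomial (T : (J →₀ ℕ) → PowerSeries k →ₗ[k] W) (m : J →₀ ℕ) (x : PowerSeries k) :
    lin T (monomial m x) = T m x := by
  classical
  rw [lin_apply]
  have h : ∑ m' ∈ (monomial m x).support, T m' (coeff m' (monomial m x)) =
      ∑ m' ∈ {m}, T m' (coeff m' (monomial m x)) :=
    Finset.sum_subset support_monomial_subset fun m' _ hm => by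
      rw [notMem_support_iff.1 hm, map_zero]
  rw [h, Finset.sum_singleton, coeff_monomial, if_pos rfl]

theorem lin_ext {f f' : MvPolynomial J (PowerSeries k) →ₗ[k] W}
    (h : ∀ m x, f (monomial m x) = f' (monomial m x)) : f = f' := by
  apply LinearMap.ext
  intro q
  induction q using MvPolynomial.induction_on' with
  | monomial m x => exact h m x
  | add p q hp hq => rw [map_add, map_add, hp, hq]

/-- precomposition with multiplication -/
noncomputable def rho : MvPolynomial J (PowerSeries k) →ₐ[k]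
    Module.End k (MvPolynomial J (PowerSeries k) →ₗ[k] W) where
  toFun r :=
    { toFun := fun l => l ∘ₗ LinearMap.mulLeft k r
      map_add' := fun l l' => rfl
      map_smul' := fun c l => rfl }
  map_one' := by
    apply LinearMap.ext
    intro l
    apply LinearMap.ext
    intro q
    show l (1 * q) = l q
    rw [one_mul]
  map_mul' r r' := by
    apply LinearMap.ext
    intro l
    apply LinearMap.ext
    intro q
    show l (r * r' * q) = l (r' * (r * q))
    congr 1
    ring
  map_zero' := by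
    apply LinearMap.ext
    intro l
    apply LinearMap.ext
    intro q
    show l (0 * q) = 0
    rw [zero_mul, map_zero]
  map_add' r r' := by
    apply LinearMap.ext
    intro l
    apply LinearMap.ext
    intro q
    show l ((r + r') * q) = l (r * q) + l (r' * q)
    rw [add_mul, map_add]
  commutes' c := by
    apply LinearMap.ext
    intro l
    apply LinearMap.ext
    intro q
    show l (algebraMap k _ c * q) = c • l q
    rw [← Algebra.smul_def, map_smul]

theorem rho_apply (r : MvPolynomial J (PowerSeries k))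
    (l : MvPolynomial J (PowerSeries k) →ₗ[k] W) (q : MvPolynomial J (PowerSeries k)) :
    rho r l q = l (r * q) := rfl

end lin

section main

variable {k : Type} [Field k] {J : Type} [DecidableEq J] (I : Finset J) (e : J → ℕ) (u : J → k)
  {g : MvPolynomial J k} {t : ℚ} {τ : ℕ} (G : GC g t τ)

/-- the exponents outside `I` -/
noncomputable def rst (m : J →₀ ℕ) : J →₀ ℕ := m.filter fun j => j ∉ I

/-- `y^(rest) G_N` -/
noncomputable def vv (m : J →₀ ℕ) (N : ℤ) : G.V := G.ρ (monomial (rst I m) 1) (G.G N)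

open Classical in
/-- `wt` as a linear map -/
noncomputable def wtl (a : ℤ) (m : J →₀ ℕ) : PowerSeries k →ₗ[k] k :=
  if evn I m then cc I u m • cfz a else 0

omit [DecidableEq J] in
theorem wtl_apply (a : ℤ) (m : J →₀ ℕ) (x : PowerSeries k) : wtl I u a m x = wt I u a m x := by
  classical
  unfold wtl wt
  split_ifs
  · rfl
  · rfl

/-- the values of `E_n` on the monomials -/
noncomputable def TT (n : ℕ) (m : J →₀ ℕ) : PowerSeries k →ₗ[k] G.V :=
  (wtl I u (na I e τ n m) m).smulRight (vv I G m ((n : ℤ) - nb I m))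

/-- `E_n` -/
noncomputable def EE (n : ℕ) : MvPolynomial J (PowerSeries k) →ₗ[k] G.V := lin (TT I e u G n)

theorem EE_mon (n : ℕ) (m : J →₀ ℕ) (x : PowerSeries k) :
    EE I e u G n (monomial m x) =
      wt I u (na I e τ n m) m x • vv I G m ((n : ℤ) - nb I m) := by
  unfold EE
  rw [lin_monomial]
  unfold TT
  rw [LinearMap.smulRight_apply, wtl_apply]

theorem rst_add2 {i : J} (hi : i ∈ I) (m : J →₀ ℕ) :
    rst I (m + Finsupp.single i 2) = rst I m := by
  ext j
  unfold rst
  rw [Finsupp.filter_apply, Finsupp.filter_apply]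
  by_cases h : j ∈ I
  · rw [if_neg (not_not.2 h), if_neg (not_not.2 h)]
  · rw [if_pos h, if_pos h, Finsupp.add_apply, Finsupp.single_apply, if_neg, add_zero]
    rintro rfl
    exact h hi

theorem rst_add {μ : J →₀ ℕ} (hμ : ∀ i ∈ I, μ i = 0) (m : J →₀ ℕ) :
    rst I (μ + m) = μ + rst I m := by
  ext j
  unfold rst
  rw [Finsupp.filter_apply, Finsupp.add_apply, Finsupp.add_apply, Finsupp.filter_apply]
  by_cases h : j ∈ I
  · rw [if_neg (not_not.2 h), if_neg (not_not.2 h), hμ j h, add_zero]
  · rw [if_pos h, if_pos h]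

theorem rst_apply {j : J} (hj : j ∉ I) (m : J →₀ ℕ) : rst I m j = m j := by
  unfold rst
  rw [Finsupp.filter_apply, if_pos hj]

theorem rst_sub {j : J} (m : J →₀ ℕ) :
    rst I (m - Finsupp.single j 1) = rst I m - Finsupp.single j 1 := by
  ext l
  unfold rst
  rw [Finsupp.filter_apply, Finsupp.tsub_apply, Finsupp.tsub_apply, Finsupp.filter_apply]
  by_cases h : l ∈ I
  · rw [if_neg (not_not.2 h), if_neg (not_not.2 h), Nat.zero_sub]
  · rw [if_pos h, if_pos h]

/-- multiplication by polynomials without the variables in `I` -/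
theorem EE_h (h : MvPolynomial J k) (hh : ∀ μ, coeff μ h ≠ 0 → ∀ i ∈ I, μ i = 0) (n : ℕ)
    (y : PowerSeries k) (m : J →₀ ℕ) (x : PowerSeries k) :
    EE I e u G n (C y * MvPolynomial.map PowerSeries.C h * monomial m x) =
      wt I u (na I e τ n m) m (y * x) •
        G.ρ (monomial (rst I m) 1) (G.ρ h (G.G ((n : ℤ) - nb I m))) := by
  have h2 : MvPolynomial.map PowerSeries.C h =
      ∑ μ ∈ h.support, monomial μ (PowerSeries.C (coeff μ h)) := by
    conv_lhs => rw [h.as_sum]
    rw [map_sum]
    exact Finset.sum_congr rfl fun μ _ => map_monomial _ _ _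
  have h3 : C y * MvPolynomial.map PowerSeries.C h * monomial m x =
      ∑ μ ∈ h.support, monomial (μ + m) (PowerSeries.C (coeff μ h) * (y * x)) := by
    rw [h2, Finset.mul_sum, Finset.sum_mul]
    refine Finset.sum_congr rfl fun μ _ => ?_
    rw [C_mul_monomial, monomial_mul]
    congr 1
    ring
  have h4 : ∀ N : ℤ, G.ρ (monomial (rst I m) 1) (G.ρ h (G.G N)) =
      ∑ μ ∈ h.support, coeff μ h • G.ρ (monomial (μ + rst I m) 1) (G.G N) := by
    intro N
    have h5 : monomial (rst I m) 1 * h =
        ∑ μ ∈ h.support, coeff μ h • monomial (μ + rst I m) (1 : k) := by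
      conv_lhs => rw [h.as_sum]
      rw [Finset.mul_sum]
      refine Finset.sum_congr rfl fun μ _ => ?_
      rw [monomial_mul, smul_monomial, add_comm, one_mul, smul_eq_mul, mul_one]
    rw [← Module.End.mul_apply, ← map_mul, h5, map_sum, LinearMap.sum_apply]
    refine Finset.sum_congr rfl fun μ _ => ?_
    rw [map_smul, LinearMap.smul_apply]
  rw [h3, map_sum, h4, Finset.smul_sum]
  refine Finset.sum_congr rfl fun μ hμ => ?_
  have hz := hh μ (mem_support_iff.1 hμ)
  have hc : ∀ i ∈ I, (μ + m) i = m i := by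
    intro i hi
    rw [Finsupp.add_apply, hz i hi, zero_add]
  rw [EE_mon, nb_congr hc, na_congr _ _ _ hc, wt_congr _ _ hc, vv, rst_add I hz, wt_C, smul_smul,
    mul_comm]

/-- multiplication by `u_i y y_i²` -/
theorem EE_i {i : J} (hi : i ∈ I) (hu : u i ≠ 0) (n : ℕ) (y : PowerSeries k) (m : J →₀ ℕ)
    (x : PowerSeries k) :
    EE I e u G (n + 1) (C (PowerSeries.C (u i) * y) * X i ^ 2 * monomial m x) =
      ((((m i / 2 : ℕ) : k) + 1 / 2) * wt I u (na I e τ n m + e i) m (y * x)) •
        vv I G m ((n : ℤ) - nb I m) := by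
  have h1 : C (PowerSeries.C (u i) * y) * X i ^ 2 * monomial m x =
      monomial (m + Finsupp.single i 2) (PowerSeries.C (u i) * (y * x)) := by
    rw [C_mul_X_pow_eq_monomial, monomial_mul, add_comm, mul_assoc]
  have h2 : ((n + 1 : ℕ) : ℤ) - ((nb I m + 1 : ℕ) : ℤ) = (n : ℤ) - nb I m := by
    push_cast
    ring
  rw [h1, EE_mon, na_add e τ hi, wt_add u hi hu, vv, rst_add2 I hi, nb_add hi, h2]
  rfl

omit [DecidableEq J] in
theorem sum_half (m : J →₀ ℕ) : ∑ i ∈ I, ((m i / 2 : ℕ) : k) = (nb I m : k) := by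
  unfold nb
  push_cast
  rfl

theorem G_mul (n m : ℕ) : G.ρ g (G.G (((n + 1 : ℕ) : ℤ) - m)) =
    ((t : k) + ((n : k) - m)) • G.G ((n : ℤ) - m) := by
  have h := G.mul ((n : ℤ) - m)
  have e : (((n + 1 : ℕ) : ℤ) - m) = ((n : ℤ) - m) + 1 := by push_cast; ring
  rw [e, h]
  push_cast
  rfl

theorem EE_mul [CharZero k] (hI : ∀ i ∈ I, e i < τ ∧ u i ≠ 0)
    (hg : ∀ m, coeff m g ≠ 0 → ∀ i ∈ I, m i = 0) {s : ℚ} (hs : s = t + (I.card : ℚ) / 2)
    (n : ℕ) (m : J →₀ ℕ) (x : PowerSeries k) :
    EE I e u G (n + 1) (prin I e u τ g * monomial m x) =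
      ((s : k) + n) • EE I e u G n (monomial m x) := by
  have e1 : prin I e u τ g * monomial m x =
      ∑ i ∈ I, C (PowerSeries.C (u i) * PowerSeries.X ^ e i) * X i ^ 2 * monomial m x +
        C (PowerSeries.X ^ τ) * MvPolynomial.map PowerSeries.C g * monomial m x := by
    unfold prin
    rw [add_mul, Finset.sum_mul]
  rw [e1, map_add, map_sum, EE_h I e u G g hg, na_succ, wt_shift, G_mul, EE_mon]
  have e2 : ∀ i ∈ I, EE I e u G (n + 1)
      (C (PowerSeries.C (u i) * PowerSeries.X ^ e i) * X i ^ 2 * monomial m x) =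
      ((((m i / 2 : ℕ) : k) + 1 / 2) * wt I u (na I e τ n m) m x) •
        vv I G m ((n : ℤ) - nb I m) := by
    intro i hi
    rw [EE_i I e u G hi (hI i hi).2, wt_shift]
  rw [Finset.sum_congr rfl e2, ← Finset.sum_smul, ← Finset.sum_mul, Finset.sum_add_distrib,
    sum_half, map_smul]
  change _ + _ • _ • vv I G m _ = _
  rw [smul_smul, smul_smul, ← add_smul, hs]
  congr 1
  rw [Finset.sum_const, nsmul_eq_mul]
  push_cast
  ring

/-! the derivatives of the principal part -/

theorem pderiv_without (h : MvPolynomial J k) {i : J} (hh : ∀ μ, coeff μ h ≠ 0 → μ i = 0) :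
    pderiv i h = 0 := by
  conv_lhs => rw [h.as_sum]
  rw [map_sum]
  refine Finset.sum_eq_zero fun μ hμ => ?_
  rw [pderiv_monomial, hh μ (mem_support_iff.1 hμ)]
  simp

theorem coeff_pderiv_ne (h : MvPolynomial J k) (hh : ∀ μ, coeff μ h ≠ 0 → ∀ i ∈ I, μ i = 0)
    (j : J) (μ : J →₀ ℕ) (hμ : coeff μ (pderiv j h) ≠ 0) : ∀ i ∈ I, μ i = 0 := by
  classical
  intro i hi
  by_contra hne
  apply hμ
  have h1 : pderiv j h = ∑ ν ∈ h.support, monomial (ν - Finsupp.single j 1) (coeff ν h * ν j) := by
    conv_lhs => rw [h.as_sum]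
    rw [map_sum]
    exact Finset.sum_congr rfl fun ν _ => pderiv_monomial
  rw [h1, coeff_sum]
  refine Finset.sum_eq_zero fun ν hν => ?_
  rw [coeff_monomial, if_neg]
  intro h2
  have h3 := hh ν (mem_support_iff.1 hν) i hi
  rw [← h2, Finsupp.tsub_apply, h3, Nat.zero_sub] at hne
  exact hne rfl

theorem pderiv_prin (j : J) :
    pderiv j (prin I e u τ g) =
      (if j ∈ I then C (PowerSeries.C (u j) * PowerSeries.X ^ e j) * (2 * X j) else 0) +
        C (PowerSeries.X ^ τ) * MvPolynomial.map PowerSeries.C (pderiv j g) := by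
  unfold prin
  rw [map_add, map_sum, pderiv_C_mul, pderiv_map]
  congr 1
  have h1 : ∀ i ∈ I, pderiv j (C (PowerSeries.C (u i) * PowerSeries.X ^ e i) * X i ^ 2 :
      MvPolynomial J (PowerSeries k)) =
      if i = j then C (PowerSeries.C (u j) * PowerSeries.X ^ e j) * (2 * X j) else 0 := by
    intro i _
    rw [pderiv_C_mul, Derivation.leibniz_pow, pderiv_X]
    by_cases h : i = j
    · subst h
      rw [if_pos rfl, Pi.single_eq_same]
      simp
    · rw [if_neg h, Pi.single_eq_of_ne h]
      simp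
  rw [Finset.sum_congr rfl h1, Finset.sum_ite_eq']

theorem dX_map (h : MvPolynomial J k) : dX (MvPolynomial.map PowerSeries.C h) = 0 := by
  ext1 m
  rw [coeff_dX, coeff_map, PowerSeries.derivative_C, coeff_zero]

theorem dX_mon (m : J →₀ ℕ) (x : PowerSeries k) :
    dX (monomial m x) = monomial m (PowerSeries.derivative k x) := by
  classical
  ext1 m'
  rw [coeff_dX, coeff_monomial, coeff_monomial]
  split_ifs
  · rfl
  · rw [map_zero]

theorem dX_prin :
    dX (prin I e u τ g) =
      ∑ i ∈ I, C (PowerSeries.C (u i) * PowerSeries.derivative k (PowerSeries.X ^ e i)) * X i ^ 2 +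
        C (PowerSeries.derivative k (PowerSeries.X ^ τ)) * MvPolynomial.map PowerSeries.C g := by
  unfold prin
  rw [dX_add, dX_sum, dX_C_mul, dX_map, mul_zero, add_zero]
  congr 1
  refine Finset.sum_congr rfl fun i _ => ?_
  rw [dX_C_mul, dX_X_pow, mul_zero, add_zero, Derivation.leibniz, PowerSeries.derivative_C,
    smul_zero, add_zero, smul_eq_mul]

theorem EE_X [CharZero k] (hI : ∀ i ∈ I, e i < τ ∧ u i ≠ 0)
    (hg : ∀ m, coeff m g ≠ 0 → ∀ i ∈ I, m i = 0)
    (ht : (τ : ℚ) * t = 1 - (∑ i ∈ I, (e i : ℚ)) / 2)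
    (n : ℕ) (m : J →₀ ℕ) (x : PowerSeries k) :
    EE I e u G (n + 1) (dX (prin I e u τ g) * monomial m x) =
      EE I e u G n (dX (monomial m x)) := by
  have e1 : dX (prin I e u τ g) * monomial m x =
      ∑ i ∈ I, C (PowerSeries.C (u i) * PowerSeries.derivative k (PowerSeries.X ^ e i)) *
        X i ^ 2 * monomial m x +
        C (PowerSeries.derivative k (PowerSeries.X ^ τ)) * MvPolynomial.map PowerSeries.C g *
          monomial m x := by
    rw [dX_prin, add_mul, Finset.sum_mul]
  rw [e1, map_add, map_sum, EE_h I e u G g hg, na_succ, wt_dpow, G_mul, dX_mon, EE_mon, wt_deriv]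
  have e2 : ∀ i ∈ I, EE I e u G (n + 1)
      (C (PowerSeries.C (u i) * PowerSeries.derivative k (PowerSeries.X ^ e i)) * X i ^ 2 *
        monomial m x) =
      (((((m i / 2 : ℕ) : k) + 1 / 2) * (e i : k)) * wt I u (na I e τ n m + 1) m x) •
        vv I G m ((n : ℤ) - nb I m) := by
    intro i hi
    rw [EE_i I e u G hi (hI i hi).2, wt_dpow, mul_assoc]
  rw [Finset.sum_congr rfl e2, ← Finset.sum_smul, ← Finset.sum_mul, map_smul]
  change _ + _ • _ • vv I G m _ = _
  rw [smul_smul, ← add_smul]
  congr 1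
  have ht' : (τ : k) * (t : k) = 1 - (∑ i ∈ I, (e i : k)) / 2 := by
    have := congrArg (fun q : ℚ => (q : k)) ht
    push_cast at this
    exact this
  have e3 : ((na I e τ n m : ℤ) : k) = ∑ i ∈ I, (e i : k) * ((m i / 2 : ℕ) : k) +
      τ * ((n : k) - nb I m) := by
    unfold na
    rw [Int.cast_add, Int.cast_natCast, Nat.cast_sum]
    simp only [Nat.cast_mul, Int.cast_mul, Int.cast_sub, Int.cast_natCast]
  have e4 : ∑ i ∈ I, (((m i / 2 : ℕ) : k) + 1 / 2) * (e i : k) =
      ∑ i ∈ I, (e i : k) * ((m i / 2 : ℕ) : k) + (∑ i ∈ I, (e i : k)) / 2 := by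
    rw [Finset.sum_div, ← Finset.sum_add_distrib]
    exact Finset.sum_congr rfl fun i _ => by ring
  rw [e3, e4]
  linear_combination (wt I u (na I e τ n m + 1) m x) * ht'

theorem EE_in [CharZero k] (hI : ∀ i ∈ I, e i < τ ∧ u i ≠ 0)
    (hg : ∀ m, coeff m g ≠ 0 → ∀ i ∈ I, m i = 0) {i : J} (hi : i ∈ I)
    (n : ℕ) (m : J →₀ ℕ) (x : PowerSeries k) :
    EE I e u G (n + 1) (pderiv i (prin I e u τ g) * monomial m x) =
      EE I e u G n (pderiv i (monomial m x)) := by
  rw [pderiv_prin, if_pos hi, pderiv_without g (fun μ hμ => hg μ hμ i hi), map_zero, mul_zero,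
    add_zero, pderiv_monomial]
  have hodd : ∀ (n' : ℕ) (m' : J →₀ ℕ) (x' : PowerSeries k), ¬ Even (m' i) →
      EE I e u G n' (monomial m' x') = 0 := by
    intro n' m' x' h
    rw [EE_mon, wt, if_neg (fun h' : evn I m' => h (h' i hi)), zero_smul]
  rcases Nat.eq_zero_or_pos (m i) with h0 | h0
  · rw [h0, Nat.cast_zero, mul_zero, monomial_zero, map_zero]
    have e1 : C (PowerSeries.C (u i) * PowerSeries.X ^ e i) * (2 * X i) * monomial m x =
        monomial (m + Finsupp.single i 1) (2 * (PowerSeries.C (u i) * PowerSeries.X ^ e i) * x) := by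
      have e2 : C (PowerSeries.C (u i) * PowerSeries.X ^ e i) * (2 * X i) =
          (monomial (Finsupp.single i 1) (2 * (PowerSeries.C (u i) * PowerSeries.X ^ e i)) :
            MvPolynomial J (PowerSeries k)) := by
        rw [← C_mul_X_eq_monomial, map_mul (C : _ →+* _) 2, map_ofNat]
        ring
      rw [e2, monomial_mul, add_comm]
    rw [e1, hodd]
    rw [Finsupp.add_apply, Finsupp.single_eq_same, h0]
    decide
  · obtain ⟨m', rfl⟩ : ∃ m' : J →₀ ℕ, m = m' + Finsupp.single i 1 := by
      refine ⟨m - Finsupp.single i 1, ?_⟩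
      rw [tsub_add_cancel_of_le]
      rw [Finsupp.single_le_iff]
      exact h0
    rw [add_tsub_cancel_right]
    have e1 : C (PowerSeries.C (u i) * PowerSeries.X ^ e i) * (2 * X i) *
        monomial (m' + Finsupp.single i 1) x =
        C (PowerSeries.C (u i) * PowerSeries.X ^ e i) * X i ^ 2 * monomial m' (2 * x) := by
      have e2 : (monomial (m' + Finsupp.single i 1) x : MvPolynomial J (PowerSeries k)) =
          X i * monomial m' x := by
        rw [X, monomial_mul, one_mul, add_comm]
      have e3 : (monomial m' (2 * x) : MvPolynomial J (PowerSeries k)) = 2 * monomial m' x := by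
        rw [← C_mul_monomial, map_ofNat]
      rw [e2, e3]
      ring
    rw [e1, EE_i I e u G hi (hI i hi).2, wt_shift, EE_mon]
    congr 1
    by_cases hev : Even (m' i)
    · have e4 : ((m' i / 2 : ℕ) : k) + 1 / 2 = ((m' i : k) + 1) / 2 := by
        obtain ⟨r, hr⟩ := hev
        rw [hr]
        have : (r + r) / 2 = r := by omega
        rw [this]
        push_cast
        ring
      have e5 : (2 : PowerSeries k) * x = PowerSeries.C 2 * x := by rw [map_ofNat]
      have e6 : x * (((m' + Finsupp.single i 1 : J →₀ ℕ) i : ℕ) : PowerSeries k) =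
          PowerSeries.C ((m' i : k) + 1) * x := by
        rw [Finsupp.add_apply, Finsupp.single_eq_same, map_add, map_natCast, map_one]
        push_cast
        ring
      rw [e4, e5, e6, wt_C, wt_C]
      ring
    · have hn : ¬ evn I m' := fun h' => hev (h' i hi)
      rw [wt, if_neg hn, mul_zero, wt, if_neg hn]

theorem EE_out (hI : ∀ i ∈ I, e i < τ ∧ u i ≠ 0)
    (hg : ∀ m, coeff m g ≠ 0 → ∀ i ∈ I, m i = 0) {j : J} (hj : j ∉ I) (hτ : 1 ≤ τ)
    (n : ℕ) (m : J →₀ ℕ) (x : PowerSeries k) :
    G.D j (EE I e u G n (monomial m x)) - EE I e u G n (pderiv j (monomial m x)) =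
      -EE I e u G (n + 1) (pderiv j (prin I e u τ g) * monomial m x) := by
  rw [pderiv_prin, if_neg hj, zero_add, EE_h I e u G _ (coeff_pderiv_ne I g hg j), na_succ, wt_shift,
    pderiv_monomial, EE_mon, EE_mon]
  have hc : ∀ i ∈ I, (m - Finsupp.single j 1 : J →₀ ℕ) i = m i := by
    intro i hi
    rw [Finsupp.tsub_apply, Finsupp.single_apply, if_neg, Nat.sub_zero]
    rintro rfl
    exact hj hi
  have e1 : x * ((m j : ℕ) : PowerSeries k) = PowerSeries.C (m j : k) * x := by
    rw [map_natCast, mul_comm]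
  rw [nb_congr hc, na_congr _ _ _ hc, wt_congr _ _ hc, e1, wt_C, vv, vv, rst_sub, map_smul, G.leib,
    pderiv_monomial, rst_apply I hj, one_mul]
  have e2 : (monomial (rst I m - Finsupp.single j 1) (m j : k)) =
      (m j : k) • monomial (rst I m - Finsupp.single j 1) (1 : k) := by
    rw [smul_monomial, smul_eq_mul, mul_one]
  rw [e2, map_smul, LinearMap.smul_apply, smul_add, smul_smul]
  rw [mul_comm (m j : k), add_sub_cancel_left]
  by_cases hw : wt I u (na I e τ n m) m x = 0
  · rw [hw, zero_smul, zero_smul, neg_zero]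
  have hna : 0 ≤ na I e τ n m := by
    by_contra hlt
    apply hw
    classical
    unfold wt
    rw [cfz_neg (not_le.1 hlt), mul_zero, ite_self]
  have hN : 2 ≤ τ ∨ 0 ≤ (n : ℤ) - nb I m := by
    by_cases h2 : 2 ≤ τ
    · exact Or.inl h2
    right
    have hτ1 : τ = 1 := by omega
    have h3 : ∑ i ∈ I, e i * (m i / 2) = 0 := by
      refine Finset.sum_eq_zero fun i hi => ?_
      have := (hI i hi).1
      have : e i = 0 := by omega
      rw [this, zero_mul]
    unfold na at hna
    rw [h3, hτ1] at hna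
    simpa using hna
  rw [G.der j _ hN, map_neg, smul_neg]
  congr 4
  congr 1
  push_cast
  ring

/-- the weights -/
theorem EE_weight (hI : ∀ i ∈ I, e i < τ) (n : ℕ) (q : MvPolynomial J (PowerSeries k))
    (hq : WG I e τ (2 * τ * n + 1) q) : EE I e u G n q = 0 := by
  classical
  unfold EE
  rw [lin_apply]
  refine Finset.sum_eq_zero fun m _ => ?_
  unfold TT
  rw [LinearMap.smulRight_apply, wtl_apply]
  have h0 : wt I u (na I e τ n m) m (coeff m q) = 0 := by
    unfold wt
    split_ifs with hev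
    · by_cases hna : 0 ≤ na I e τ n m
      · obtain ⟨a, ha⟩ := Int.eq_ofNat_of_zero_le hna
        rw [ha, cfz_nat]
        by_contra hne
        have h1 := hq m a (right_ne_zero_of_mul hne)
        have h2 : (2 * a + ∑ i ∈ I, (τ - e i) * m i : ℕ) = 2 * τ * n := by
          have h3 : ((∑ i ∈ I, (τ - e i) * m i : ℕ) : ℤ) =
              2 * τ * nb I m - 2 * (∑ i ∈ I, e i * (m i / 2) : ℕ) := by
            unfold nb
            push_cast
            rw [Finset.mul_sum, Finset.mul_sum, ← Finset.sum_sub_distrib]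
            refine Finset.sum_congr rfl fun i hi => ?_
            obtain ⟨r, hr⟩ := hev i hi
            have h4 : m i / 2 = r := by omega
            have h5 := (hI i hi).le
            rw [Nat.cast_sub h5]
            have h6 : ((m i : ℕ) : ℤ) / 2 = r := by omega
            rw [h6, hr]
            push_cast
            ring
          have h7 : ((2 * a + ∑ i ∈ I, (τ - e i) * m i : ℕ) : ℤ) = ((2 * τ * n : ℕ) : ℤ) := by
            rw [Nat.cast_add, h3]
            unfold na at ha
            push_cast at ha ⊢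
            linarith
          exact_mod_cast h7
        omega
      · rw [cfz_neg (not_le.1 hna), mul_zero]
    · rfl
  rw [h0, zero_smul]

theorem WG_mul {w : ℕ} {q q' : MvPolynomial J (PowerSeries k)} (hq : WG I e τ w q) :
    WG I e τ w (q * q') := by
  classical
  intro m a hne
  rw [coeff_mul, map_sum] at hne
  obtain ⟨p, hp, hne⟩ := Finset.exists_ne_zero_of_sum_ne_zero hne
  rw [PowerSeries.coeff_mul] at hne
  obtain ⟨b, hb, hne⟩ := Finset.exists_ne_zero_of_sum_ne_zero hne
  have h1 := hq p.1 b.1 (left_ne_zero_of_mul hne)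
  rw [Finset.HasAntidiagonal.mem_antidiagonal] at hp hb
  have h2 : ∑ i ∈ I, (τ - e i) * p.1 i ≤ ∑ i ∈ I, (τ - e i) * m i := by
    refine Finset.sum_le_sum fun i _ => Nat.mul_le_mul_left _ ?_
    rw [← hp, Finsupp.add_apply]
    exact Nat.le_add_right _ _
  omega

/-- the operators `D_j` -/
noncomputable def Dop (j : J) : Module.End k (MvPolynomial J (PowerSeries k) →ₗ[k] G.V) where
  toFun l := (if j ∈ I then 0 else (G.D j) ∘ₗ l) - (l ∘ₗ ((pderiv j).toLinearMap.restrictScalars k))
  map_add' l l' := by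
    split_ifs
    · rw [LinearMap.add_comp]
      abel
    · rw [LinearMap.add_comp, LinearMap.comp_add]
      abel
  map_smul' c l := by
    split_ifs
    · rw [LinearMap.smul_comp, smul_sub, smul_zero]
      rfl
    · rw [LinearMap.smul_comp, LinearMap.comp_smul, smul_sub]
      rfl

theorem Dop_in {j : J} (hj : j ∈ I) (l : MvPolynomial J (PowerSeries k) →ₗ[k] G.V)
    (q : MvPolynomial J (PowerSeries k)) : Dop I G j l q = -l (pderiv j q) := by
  have h : Dop I G j l = (if j ∈ I then 0 else (G.D j) ∘ₗ l) -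
    (l ∘ₗ ((pderiv j).toLinearMap.restrictScalars k)) := rfl
  rw [h, if_pos hj]
  show 0 - l (pderiv j q) = _
  rw [zero_sub]

theorem Dop_out {j : J} (hj : j ∉ I) (l : MvPolynomial J (PowerSeries k) →ₗ[k] G.V)
    (q : MvPolynomial J (PowerSeries k)) : Dop I G j l q = G.D j (l q) - l (pderiv j q) := by
  have h : Dop I G j l = (if j ∈ I then 0 else (G.D j) ∘ₗ l) -
    (l ∘ₗ ((pderiv j).toLinearMap.restrictScalars k)) := rfl
  rw [h, if_neg hj]
  rfl

end main

end PRIaux

open PRIaux in
theorem PRI : PRIStmt := by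
  intro k _ _ J _ _ I e u g t τ hτ hI hg ht G
  have hτ0 : (τ : ℚ) ≠ 0 := by
    have : τ ≠ 0 := by omega
    exact_mod_cast this
  have hs : (2 + ∑ i ∈ I, ((τ : ℚ) - e i)) / (2 * τ) = t + (I.card : ℚ) / 2 := by
    rw [div_eq_iff (by positivity), Finset.sum_sub_distrib, Finset.sum_const, nsmul_eq_mul]
    linear_combination -2 * ht
  refine ⟨{
    V := MvPolynomial J (PowerSeries k) →ₗ[k] G.V
    ρ := rho
    DX :=
      { toFun := fun l => -(l ∘ₗ (dXD (k := k) (J := J)).toLinearMap)
        map_add' := fun l l' => by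
          rw [LinearMap.add_comp, neg_add]
        map_smul' := fun c l => by
          rw [LinearMap.smul_comp, smul_neg]
          rfl }
    D := Dop I G
    leibX := ?_
    leib := ?_
    E := EE I e u G
    mul := ?_
    derX := ?_
    der := ?_
    ne := ?_ }, ?_, ?_⟩
  · intro p l
    apply LinearMap.ext
    intro q
    show -(l (p * dX q)) = l (dX p * q) + -(l (dX (p * q)))
    rw [dX_mul, map_add]
    abel
  · intro j p l
    apply LinearMap.ext
    intro q
    show Dop I G j (rho p l) q = l (pderiv j p * q) + Dop I G j l (p * q)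
    by_cases hj : j ∈ I
    · rw [Dop_in I G hj, Dop_in I G hj, rho_apply, Derivation.leibniz, map_add, smul_eq_mul,
        smul_eq_mul, mul_comm q]
      abel
    · rw [Dop_out I G hj, Dop_out I G hj, rho_apply, rho_apply, Derivation.leibniz, map_add,
        smul_eq_mul, smul_eq_mul, mul_comm q]
      abel
  · intro n
    apply lin_ext
    intro m x
    rw [rho_apply, EE_mul I e u G hI hg hs]
    rfl
  · intro n
    apply lin_ext
    intro m x
    show -(EE I e u G n (dX (monomial m x))) =
      -(EE I e u G (n + 1) (dX (prin I e u τ g) * monomial m x))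
    rw [EE_X I e u G hI hg ht]
  · intro j n
    apply lin_ext
    intro m x
    show Dop I G j (EE I e u G n) (monomial m x) =
      -(EE I e u G (n + 1) (pderiv j (prin I e u τ g) * monomial m x))
    by_cases hj : j ∈ I
    · rw [Dop_in I G hj, EE_in I e u G hI hg hj]
    · rw [Dop_out I G hj]
      exact EE_out I e u G hI hg hj hτ n m x
  · intro h
    apply G.ne
    have h1 : EE I e u G 0 (monomial 0 1) = 0 := by
      rw [h]
      rfl
    rw [EE_mon] at h1
    have h2 : nb I (0 : J →₀ ℕ) = 0 := by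
      unfold nb
      exact Finset.sum_eq_zero fun i _ => by simp
    have h3 : na I e τ 0 (0 : J →₀ ℕ) = (0 : ℕ) := by
      unfold na
      rw [h2]
      simp
    have h4 : wt I u (na I e τ 0 (0 : J →₀ ℕ)) 0 (1 : PowerSeries k) = 1 := by
      have hev : evn I (0 : J →₀ ℕ) := fun i _ => by simp
      unfold wt
      rw [if_pos hev, h3, cfz_nat]
      unfold cc hf
      simp
    have h5 : rst I (0 : J →₀ ℕ) = 0 := by
      unfold rst
      exact Finsupp.filter_zero _
    rw [h4, one_smul, vv, h5, h2] at h1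
    have h6 : (monomial 0 1 : MvPolynomial J k) = 1 := rfl
    rw [h6, map_one] at h1
    simpa using h1
  · intro n q hq
    apply LinearMap.ext
    intro q'
    exact EE_weight I e u G (fun i hi => (hI i hi).1) n (q * q') (WG_mul I e hq)
  · intro hτ1
    apply lin_ext
    intro m x
    show EE I e u G 0 (MvPolynomial.map PowerSeries.C g * monomial m x) = 0
    have h1 := EE_h I e u G g hg 0 1 m x
    rw [map_one, one_mul, one_mul] at h1
    rw [h1]
    by_cases hb : nb I m = 0
    · have h2 := G.mul (-1)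
      have h3 : (t : k) = 1 := by
        have h4 : (∑ i ∈ I, (e i : ℚ)) = 0 := by
          refine Finset.sum_eq_zero fun i hi => ?_
          have := (hI i hi).1
          have : e i = 0 := by omega
          rw [this]
          rfl
        rw [h4, hτ1] at ht
        have h5 : t = 1 := by
          push_cast at ht
          linarith
        rw [h5]
        push_cast
        rfl
      rw [h3] at h2
      have h6 : (((0 : ℕ) : ℤ) - nb I m) = -1 + 1 := by
        rw [hb]
        norm_num
      rw [h6, h2]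
      simp
    · have h2 : na I e τ 0 m < 0 := by
        have h3 : ∑ i ∈ I, e i * (m i / 2) = 0 := by
          refine Finset.sum_eq_zero fun i hi => ?_
          have := (hI i hi).1
          have : e i = 0 := by omega
          rw [this, zero_mul]
        unfold na
        rw [h3, hτ1]
        push_cast
        omega
      have h3 : wt I u (na I e τ 0 m) m x = 0 := by
        classical
        unfold wt
        rw [cfz_neg h2, mul_zero, ite_self]
      rw [h3, zero_smul]

end Pool.Agent.H87.QF
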