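import Pool.Agent.H87.QF.Stmts

/-!
# Board `qfm`, row PRT: perturbation of a pre-chain
-/

set_option autoImplicit false

namespace Pool.Agent.H87.QF

open MvPolynomial Pool.Agent.H39.MonoR Pool.Agent.H75.Mono

section dX

variable {k : Type} [Field k] {J : Type}

theorem PRT.coeff_dX (q : MvPolynomial J (PowerSeries k)) (m : J →₀ ℕ) :
    coeff m (dX q) = PowerSeries.derivative k (coeff m q) := by
  classical
  rw [dX, coeff_sum]
  simp only [coeff_monomial]
  by_cases hm : m ∈ q.support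
  · rw [Finset.sum_eq_single m]
    · rw [if_pos rfl]
    · intro b _ hb
      rw [if_neg hb]
    · intro h
      exact absurd hm h
  · rw [Finset.sum_eq_zero]
    · rw [notMem_support_iff.1 hm, map_zero]
    · intro b hb
      rw [if_neg]
      rintro rfl
      exact hm hb

theorem PRT.dX_add (p q : MvPolynomial J (PowerSeries k)) : dX (p + q) = dX p + dX q := by
  ext1 m
  rw [coeff_add, PRT.coeff_dX, PRT.coeff_dX, PRT.coeff_dX, coeff_add, map_add]

theorem PRT.dX_mul (p q : MvPolynomial J (PowerSeries k)) :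
    dX (p * q) = dX p * q + p * dX q := by
  classical
  ext1 m
  rw [PRT.coeff_dX, coeff_mul, coeff_add, coeff_mul, coeff_mul, map_sum,
    ← Finset.sum_add_distrib]
  refine Finset.sum_congr rfl fun x _ => ?_
  rw [PRT.coeff_dX, PRT.coeff_dX, Derivation.leibniz, smul_eq_mul, smul_eq_mul]
  ring

end dX

section aux

variable {k R V : Type} [Field k] [CommRing R] [Algebra k R] [AddCommGroup V] [Module k V]

theorem PRT.der_pow (δ : R → R) (hδ : ∀ p q, δ (p * q) = δ p * q + p * δ q) (h : R) (m : ℕ) :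
    δ (h ^ (m + 1)) = ((m + 1 : ℕ) : R) * (h ^ m * δ h) := by
  induction m with
  | zero => simp
  | succ m ih =>
    rw [pow_succ h (m + 1), hδ, ih]
    push_cast
    ring

theorem PRT.der_one (δ : R → R) (hδ : ∀ p q, δ (p * q) = δ p * q + p * δ q) : δ 1 = 0 := by
  have h := hδ 1 1
  rw [mul_one, mul_one, one_mul] at h
  exact left_eq_add.1 h

theorem PRT.rho_comm (ρ : R →ₐ[k] Module.End k V) (a b : R) (v : V) :
    ρ a (ρ b v) = ρ b (ρ a v) := by
  rw [← Module.End.mul_apply, ← map_mul, mul_comm, map_mul, Module.End.mul_apply]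

theorem PRT.rho_mul (ρ : R →ₐ[k] Module.End k V) (a b : R) (v : V) :
    ρ (a * b) v = ρ a (ρ b v) := by
  rw [map_mul, Module.End.mul_apply]

theorem PRT.der_aux (ρ : R →ₐ[k] Module.End k V) (Δ : Module.End k V) (δ : R → R)
    (hδa : ∀ p q, δ (p + q) = δ p + δ q) (hδm : ∀ p q, δ (p * q) = δ p * q + p * δ q)
    (leib : ∀ p v, Δ (ρ p v) = ρ (δ p) v + ρ p (Δ v)) (f₀ h : R) (E : ℕ → V)
    (der : ∀ n, Δ (E n) = -ρ (δ f₀) (E (n + 1))) (c : ℕ → k)
    (hc : ∀ m : ℕ, ((m : k) + 1) * c (m + 1) = -c m) (n N : ℕ)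
    (hN : ρ (h ^ N) (E (n + 1 + N)) = 0) :
    Δ (∑ m ∈ Finset.range (N + 1), c m • ρ (h ^ m) (E (n + m))) =
      -ρ (δ (f₀ + h)) (∑ m ∈ Finset.range (N + 1), c m • ρ (h ^ m) (E (n + 1 + m))) := by
  have h1 : ∀ m, Δ (c m • ρ (h ^ m) (E (n + m))) =
      c m • ρ (δ (h ^ m)) (E (n + m)) - c m • ρ (δ f₀) (ρ (h ^ m) (E (n + 1 + m))) := by
    intro m
    rw [map_smul, leib, der, map_neg, smul_add, smul_neg, ← sub_eq_add_neg,
      PRT.rho_comm ρ (h ^ m) (δ f₀), show n + m + 1 = n + 1 + m by omega]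
  have h2 : ∀ m, c (m + 1) • ρ (δ (h ^ (m + 1))) (E (n + (m + 1))) =
      -(c m • ρ (δ h) (ρ (h ^ m) (E (n + 1 + m)))) := by
    intro m
    rw [PRT.der_pow δ hδm, ← nsmul_eq_mul, map_nsmul, mul_comm (h ^ m) (δ h), LinearMap.smul_apply,
      PRT.rho_mul, show n + (m + 1) = n + 1 + m by omega, ← Nat.cast_smul_eq_nsmul k, smul_smul,
      ← neg_smul, ← hc m]
    congr 1
    push_cast
    ring
  rw [map_sum, Finset.sum_congr rfl fun m _ => h1 m, Finset.sum_sub_distrib,
    Finset.sum_range_succ' (fun m => c m • ρ (δ (h ^ m)) (E (n + m))) N]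
  rw [Finset.sum_congr rfl fun m _ => h2 m, pow_zero, PRT.der_one δ hδm, map_zero,
    LinearMap.zero_apply, smul_zero, add_zero, Finset.sum_neg_distrib]
  rw [hδa, map_add, LinearMap.add_apply, map_sum, map_sum, neg_add,
    Finset.sum_range_succ (fun m => ρ (δ h) (c m • ρ (h ^ m) (E (n + 1 + m)))) N, hN, smul_zero,
    map_zero, add_zero]
  simp only [map_smul]
  abel

theorem PRT.mul_aux (ρ : R →ₐ[k] Module.End k V) (f₀ h : R) (E : ℕ → V) (s : k)
    (mul : ∀ n : ℕ, ρ f₀ (E (n + 1)) = (s + n) • E n) (c : ℕ → k)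
    (hc : ∀ m : ℕ, ((m : k) + 1) * c (m + 1) = -c m) (n N : ℕ)
    (hN : ρ (h ^ (N + 1)) (E (n + (N + 1))) = 0) :
    ρ (f₀ + h) (∑ m ∈ Finset.range (N + 1), c m • ρ (h ^ m) (E (n + 1 + m))) =
      (s + n) • ∑ m ∈ Finset.range (N + 1), c m • ρ (h ^ m) (E (n + m)) := by
  have h1 : ∀ m, ρ f₀ (c m • ρ (h ^ m) (E (n + 1 + m))) =
      (s + n) • c m • ρ (h ^ m) (E (n + m)) + ((m : k) * c m) • ρ (h ^ m) (E (n + m)) := by
    intro m
    rw [map_smul, PRT.rho_comm ρ f₀ (h ^ m), show n + 1 + m = n + m + 1 by omega, mul, map_smul,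
      smul_smul, smul_smul, ← add_smul]
    congr 1
    push_cast
    ring
  have h2 : ∀ m, ρ h (c m • ρ (h ^ m) (E (n + 1 + m))) =
      -(((m + 1 : ℕ) : k) * c (m + 1)) • ρ (h ^ (m + 1)) (E (n + (m + 1))) := by
    intro m
    rw [map_smul, pow_succ' h m, PRT.rho_mul, show n + (m + 1) = n + 1 + m by omega]
    congr 1
    push_cast
    rw [hc m, neg_neg]
  rw [map_add, LinearMap.add_apply, map_sum, map_sum, Finset.sum_congr rfl fun m _ => h1 m,
    Finset.sum_congr rfl fun m _ => h2 m, Finset.sum_add_distrib, ← Finset.smul_sum,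
    Finset.sum_range_succ' (fun m => ((m : k) * c m) • ρ (h ^ m) (E (n + m))) N,
    Finset.sum_range_succ (fun m => -(((m + 1 : ℕ) : k) * c (m + 1)) •
      ρ (h ^ (m + 1)) (E (n + (m + 1)))) N, hN, smul_zero, add_zero, Nat.cast_zero, zero_mul,
    zero_smul, add_zero, add_assoc, add_zero, ← Finset.sum_add_distrib]
  have h3 : ∑ m ∈ Finset.range N, ((((m + 1 : ℕ) : k) * c (m + 1)) •
      ρ (h ^ (m + 1)) (E (n + (m + 1))) + -(((m + 1 : ℕ) : k) * c (m + 1)) •
      ρ (h ^ (m + 1)) (E (n + (m + 1)))) = 0 :=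
    Finset.sum_eq_zero fun m _ => by rw [neg_smul, add_neg_cancel]
  rw [h3, add_zero]

theorem PRT.sum_ext (F : ℕ → V) (a b : ℕ) (hab : a ≤ b) (h : ∀ m, a ≤ m → F m = 0) :
    ∑ m ∈ Finset.range a, F m = ∑ m ∈ Finset.range b, F m := by
  refine Finset.sum_subset (fun x hx => ?_) (fun x _ hx => ?_)
  · rw [Finset.mem_range] at hx ⊢
    omega
  · rw [Finset.mem_range, not_lt] at hx
    exact h x hx

end aux

theorem PRT : PRTStmt := by
  intro k _ _ J _ _ f₀ h s p hfin hone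
  choose K hK using hfin
  set c : ℕ → k := fun m => (-1) ^ m * ((m.factorial : ℕ) : k)⁻¹ with hcdef
  have hc : ∀ m : ℕ, ((m : k) + 1) * c (m + 1) = -c m := by
    intro m
    have h1 : ((m : k) + 1) ≠ 0 := by
      exact_mod_cast Nat.succ_ne_zero m
    have h2 : ((m.factorial : ℕ) : k) ≠ 0 := by
      exact_mod_cast Nat.factorial_ne_zero m
    simp only [hcdef, Nat.factorial_succ]
    push_cast
    field_simp
    ring
  set E' : ℕ → p.V := fun n => ∑ m ∈ Finset.range (K n), c m • p.ρ (h ^ m) (p.E (n + m)) with hE'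
  have hE : ∀ n b, K n ≤ b → E' n = ∑ m ∈ Finset.range b, c m • p.ρ (h ^ m) (p.E (n + m)) := by
    intro n b hb
    refine PRT.sum_ext _ _ _ hb fun m hm => ?_
    rw [hK n m hm, smul_zero]
  have hE0 : E' 0 = p.E 0 := by
    rw [hE 0 (K 0 + 1) (Nat.le_succ _), Finset.sum_range_succ', Finset.sum_eq_zero]
    · rw [zero_add, hcdef]
      simp
    · intro m _
      rw [zero_add, hone (m + 1) (Nat.succ_pos m), smul_zero]
  refine ⟨{ V := p.V, acg := p.acg, mod := p.mod, ρ := p.ρ, DX := p.DX, D := p.D,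
            leibX := p.leibX, leib := p.leib, E := E', mul := fun n => ?_, derX := fun n => ?_,
            der := fun i n => ?_, ne := ?_ }, fun q hq => ?_⟩
  · rw [hE (n + 1) (K n + K (n + 1) + 1) (by omega), hE n (K n + K (n + 1) + 1) (by omega)]
    exact PRT.mul_aux p.ρ f₀ h p.E (s : k) p.mul c hc n _ (hK n _ (by omega))
  · rw [hE (n + 1) (K n + K (n + 1) + 1) (by omega), hE n (K n + K (n + 1) + 1) (by omega)]
    exact PRT.der_aux p.ρ p.DX dX PRT.dX_add PRT.dX_mul p.leibX f₀ h p.E p.derX c hc n _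
      (hK (n + 1) _ (by omega))
  · rw [hE (n + 1) (K n + K (n + 1) + 1) (by omega), hE n (K n + K (n + 1) + 1) (by omega)]
    exact PRT.der_aux p.ρ (p.D i) (fun q => pderiv i q) (fun a b => map_add _ a b)
      (fun a b => by
        rw [pderiv_mul]) (p.leib i) f₀ h p.E (p.der i) c hc n _
      (hK (n + 1) _ (by omega))
  · rw [hE0]
    exact p.ne
  · show p.ρ q (E' 0) = 0
    rw [hE0]
    exact hq

end Pool.Agent.H87.QF
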