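import Pool.Agent.H87.QF.Stmts

/-! # QFM, row PUD: a pure diagonal form from type H -/

set_option autoImplicit false

namespace Pool.Agent.H87.QF

open MvPolynomial Pool.Agent.H39.MonoR Pool.Agent.H75.Mono

section PUDlem

variable {k : Type} [Field k]

theorem pud_const (x0 : k) (p : Polynomial k) :
    PowerSeries.constantCoeff (tay x0 p) = p.eval x0 := by
  have h : (PowerSeries.constantCoeff (R := k)).comp (tay x0) = Polynomial.evalRingHom x0 := by
    apply Polynomial.ringHom_ext
    · intro a
      simp [tay]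
    · simp [tay]
  exact congrArg (fun f : Polynomial k →+* k => f p) h

theorem pud_taylor (x0 : k) (p : Polynomial k) :
    tay x0 p = ((Polynomial.taylor x0 p : Polynomial k) : PowerSeries k) := by
  have h : tay x0 = (Polynomial.coeToPowerSeries.ringHom (R := k)).comp
      (Polynomial.taylorAlgHom x0 : Polynomial k →ₐ[k] Polynomial k).toRingHom := by
    apply Polynomial.ringHom_ext
    · intro a
      simp [tay]
    · simp [tay, add_comm]
  have h2 := congrArg (fun f : Polynomial k →+* PowerSeries k => f p) h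
  simpa using h2

theorem pud_inj (x0 : k) (p : Polynomial k) (h : tay x0 p = 0) : p = 0 := by
  rw [pud_taylor] at h
  have h1 : Polynomial.taylor x0 p = 0 := by
    rw [← Polynomial.coe_zero] at h
    exact Polynomial.coe_injective k h
  exact (Polynomial.taylor_injective x0) (by rw [h1, map_zero])

end PUDlem

theorem PUD : PUDStmt := by
  intro k _ J _ _ D H x0 hx
  classical
  have hu : IsUnit (tay x0 H.h) := by
    rw [PowerSeries.isUnit_iff_constantCoeff, pud_const]
    exact isUnit_iff_ne_zero.2 hx
  obtain ⟨w, hw⟩ : ∃ w, w * tay x0 H.h = 1 := by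
    obtain ⟨v, hv⟩ := hu
    exact ⟨(v⁻¹ : (PowerSeries k)ˣ), by rw [← hv]; simp⟩
  obtain ⟨M, hM⟩ : ∃ M : Matrix J J (PowerSeries k), M = H.C.map (tay x0) := ⟨_, rfl⟩
  have hdet : IsUnit M.det := by
    have h1 : M.det = tay x0 H.C.det := by
      rw [hM, RingHom.map_det]
      rfl
    rw [h1]
    exact isUnit_of_dvd_unit (map_dvd (tay x0) H.det) hu
  obtain ⟨N, hN⟩ : ∃ N : Matrix J J (PowerSeries k), N = M⁻¹ := ⟨_, rfl⟩
  have h1 : N * M = 1 := by
    rw [hN]
    exact Matrix.nonsing_inv_mul M hdet
  have h2 : M * N = 1 := by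
    rw [hN]
    exact Matrix.mul_nonsing_inv M hdet
  have e2 : ∀ i m, ∑ j, M i j * N j m = if i = m then 1 else 0 := by
    intro i m
    have := congrFun (congrFun h2 i) m
    rw [Matrix.mul_apply, Matrix.one_apply] at this
    exact this
  refine ⟨⟨N, M, h1, h2, fun j => -∑ m, N j m * tay x0 (H.b m), fun i => w * tay x0 (H.u i),
    fun _ => 0, 0, ?_⟩, ⟨fun _ => rfl, rfl⟩, ?_⟩
  · intro S _ φ y
    have hval : ∀ y' : J → S, (D.map (tay x0)).val φ y' = D.val (φ.comp (tay x0)) y' := by
      intro y'
      rfl
    rw [hval]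
    obtain ⟨y', hy'⟩ : ∃ y' : J → S, y' = fun j => ∑ m, φ (N j m) * y m +
      φ (-∑ m, N j m * tay x0 (H.b m)) := ⟨_, rfl⟩
    rw [← hy']
    have key : ∀ i, ∑ j, φ (M i j) * y' j + φ (tay x0 (H.b i)) = y i := by
      intro i
      have e3 : ∑ j, φ (M i j) * y' j = ∑ m, φ (∑ j, M i j * N j m) * y m -
          φ (∑ m, (∑ j, M i j * N j m) * tay x0 (H.b m)) := by
        rw [hy']
        simp only [mul_add, Finset.sum_add_distrib, map_neg, mul_neg, Finset.sum_neg_distrib,
          sub_eq_add_neg, map_sum, map_mul, Finset.sum_mul, Finset.mul_sum]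
        congr 1
        · rw [Finset.sum_comm]
          refine Finset.sum_congr rfl fun m _ => Finset.sum_congr rfl fun j _ => ?_
          ring
        · rw [Finset.sum_comm]
          refine congrArg Neg.neg
            (Finset.sum_congr rfl fun m _ => Finset.sum_congr rfl fun j _ => ?_)
          ring
      rw [e3]
      simp only [e2, apply_ite φ, map_one, map_zero, ite_mul, one_mul, zero_mul,
        Finset.sum_ite_eq, Finset.mem_univ, if_true]
      ring
    have hE := H.eq S (φ.comp (tay x0)) y'
    have hE2 : φ (tay x0 H.h) * D.val (φ.comp (tay x0)) y' =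
        ∑ i, φ (tay x0 (H.u i)) * y i ^ 2 := by
      refine hE.trans (Finset.sum_congr rfl fun i _ => ?_)
      have := key i
      rw [hM] at this
      exact congrArg (fun z => φ (tay x0 (H.u i)) * z ^ 2) this
    have hE3 : D.val (φ.comp (tay x0)) y' =
        φ w * (φ (tay x0 H.h) * D.val (φ.comp (tay x0)) y') := by
      rw [← mul_assoc, ← map_mul, hw, map_one, one_mul]
    rw [hE3, hE2, Finset.mul_sum]
    simp [mul_assoc]
  · unfold rk HData.r
    refine congrArg Finset.card (Finset.ext fun i => ?_)
    simp only [Finset.mem_filter, Finset.mem_univ, true_and]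
    constructor
    · intro h h0
      exact h (by rw [h0, map_zero, mul_zero])
    · intro h h0
      apply h
      apply pud_inj x0
      calc tay x0 (H.u i) = (w * tay x0 H.h) * tay x0 (H.u i) := by rw [hw, one_mul]
        _ = tay x0 H.h * (w * tay x0 (H.u i)) := by ring
        _ = 0 := by rw [h0, mul_zero]

end Pool.Agent.H87.QF
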