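import Pool.Agent.H87.QF.Stmts

/-! # Project QFM, row PUR: the pre-chain of `Σ U_i y_i²` -/

set_option autoImplicit false

namespace Pool.Agent.H87.QF

open MvPolynomial Pool.Agent.H39.MonoR Pool.Agent.H75.Mono

namespace PurAux

/-- a derivation of a domain extends to the fraction field -/
theorem exists_der (k A : Type) [Field k] [CommRing A] [IsDomain A] [Algebra k A]
    (d : Derivation k A A) :
    ∃ δ : FractionRing A →ₗ[k] FractionRing A,
      (∀ a, δ (algebraMap A (FractionRing A) a) = algebraMap A (FractionRing A) (d a)) ∧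
        ∀ x y, δ (x * y) = δ x * y + x * δ y := by
  classical
  let K := FractionRing A
  let g : A →+* TrivSqZeroExt K K :=
    { toFun := fun a => TrivSqZeroExt.inl (algebraMap A K a) + TrivSqZeroExt.inr (algebraMap A K (d a))
      map_one' := by
        ext <;> simp
      map_zero' := by
        ext <;> simp
      map_add' := fun a b => by
        ext <;> simp <;> ring
      map_mul' := fun a b => by
        ext <;> simp <;> ring }
  have hg : ∀ y : nonZeroDivisors A, IsUnit (g y) := by
    intro y
    rw [TrivSqZeroExt.isUnit_iff_isUnit_fst]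
    have h1 : (g (y : A)).fst = algebraMap A K y := by simp [g]
    rw [h1]
    exact IsLocalization.map_units K y
  let G : K →+* TrivSqZeroExt K K := IsLocalization.lift hg
  have hG : ∀ a, G (algebraMap A K a) = g a := fun a => IsLocalization.lift_eq hg a
  have hfst : ∀ x, (G x).fst = x := by
    have h2 : ((TrivSqZeroExt.fstHom K K K).toRingHom.comp G) = RingHom.id K := by
      apply IsLocalization.ringHom_ext (nonZeroDivisors A)
      ext a
      simp only [RingHom.comp_apply, RingHom.id_apply]
      rw [hG]
      simp [g]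
    intro x
    have h3 := congrArg (fun φ : K →+* K => φ x) h2
    simpa using h3
  have hmul : ∀ x y, (G (x * y)).snd = (G x).snd * y + x * (G y).snd := by
    intro x y
    rw [map_mul, TrivSqZeroExt.snd_mul, hfst, hfst]
    simp
    ring
  have hA : ∀ a, (G (algebraMap A K a)).snd = algebraMap A K (d a) := by
    intro a
    rw [hG]
    simp [g]
  refine ⟨{ toFun := fun x => (G x).snd
            map_add' := fun x y => by simp
            map_smul' := fun c x => ?_ }, hA, hmul⟩
  have h4 : c • x = algebraMap A K (algebraMap k A c) * x := by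
    rw [← IsScalarTower.algebraMap_apply k A K, ← Algebra.smul_def]
  have h5 : c • (G x).snd = algebraMap A K (algebraMap k A c) * (G x).snd := by
    rw [← IsScalarTower.algebraMap_apply k A K, ← Algebra.smul_def]
  rw [h4, hmul, hA, RingHom.id_apply, h5]
  simp

/-- a linear map applied to the coefficients -/
noncomputable def cm {k A J : Type} [Field k] [CommRing A] [Algebra k A] (δ : A →ₗ[k] A)
    (q : MvPolynomial J A) : MvPolynomial J A :=
  ∑ m ∈ q.support, monomial m (δ (coeff m q))

section cm

variable {k A J : Type} [Field k] [CommRing A] [Algebra k A] (δ : A →ₗ[k] A)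

theorem coeff_cm (q : MvPolynomial J A) (m : J →₀ ℕ) : coeff m (cm δ q) = δ (coeff m q) := by
  classical
  unfold cm
  rw [coeff_sum]
  simp only [coeff_monomial]
  rw [Finset.sum_ite_eq' q.support m (fun x => δ (coeff x q))]
  split_ifs with h
  · rfl
  · rw [notMem_support_iff.1 h, map_zero]

theorem cm_add (p q : MvPolynomial J A) : cm δ (p + q) = cm δ p + cm δ q := by
  ext m
  simp [coeff_cm]

theorem cm_smul (c : k) (q : MvPolynomial J A) : cm δ (c • q) = c • cm δ q := by
  ext m
  simp [coeff_cm]

theorem cm_monomial (m : J →₀ ℕ) (a : A) : cm δ (monomial m a) = monomial m (δ a) := by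
  classical
  ext m'
  rw [coeff_cm, coeff_monomial, coeff_monomial]
  split_ifs
  · rfl
  · simp

/-- as a linear map -/
noncomputable def cmL : MvPolynomial J A →ₗ[k] MvPolynomial J A where
  toFun := cm δ
  map_add' := cm_add δ
  map_smul' := cm_smul δ

theorem cm_mul (hδ : ∀ x y, δ (x * y) = δ x * y + x * δ y) (p q : MvPolynomial J A) :
    cm δ (p * q) = cm δ p * q + p * cm δ q := by
  induction p using MvPolynomial.induction_on' with
  | monomial m a =>
    induction q using MvPolynomial.induction_on' with
    | monomial m' b =>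
      rw [monomial_mul, cm_monomial, cm_monomial, cm_monomial, hδ, monomial_mul, monomial_mul,
        map_add]
    | add q q' h h' => 
      rw [mul_add, cm_add, h, h', cm_add]
      ring
  | add p p' h h' =>
    rw [add_mul, cm_add, h, h', cm_add]
    ring

end cm

/-- the weights `(1/2)(3/2)…(e/2 - 1/2) u^(-e/2)`, zero for odd `e` -/
noncomputable def gi {K : Type} [Field K] (u : K) : ℕ → K
  | 0 => 1
  | 1 => 0
  | (e + 2) => ((e : K) + 1) / 2 * u⁻¹ * gi u e

section gi

variable {K : Type} [Field K]

theorem gi_two (u : K) (hu : u ≠ 0) (e : ℕ) : u * gi u (e + 2) = ((e : K) + 1) / 2 * gi u e := by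
  rw [gi]
  field_simp

theorem der_gi [CharZero K] {k : Type} [Field k] [Algebra k K] (δ : K →ₗ[k] K)
    (hδ : ∀ x y, δ (x * y) = δ x * y + x * δ y) (u : K) (hu : u ≠ 0) :
    ∀ e : ℕ, δ (gi u e) = -((e : K) / 2 * (δ u / u) * gi u e)
  | 0 => by
    have h1 : δ 1 = 0 := by
      have h := hδ 1 1
      simp at h
      exact h
    simp [gi, h1]
  | 1 => by simp [gi]
  | (e + 2) => by
    have ih := der_gi δ hδ u hu e
    have h2 : u * gi u (e + 2) = algebraMap k K (((e : k) + 1) / 2) * gi u e := by
      rw [gi_two u hu, map_div₀, map_add, map_natCast, map_one, map_ofNat]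
    have h3 := congrArg δ h2
    rw [hδ, ← Algebra.smul_def, map_smul, Algebra.smul_def, ih] at h3
    have h4 : u * δ (gi u (e + 2)) = -((((e + 2 : ℕ) : K) / 2 * (δ u / u) * gi u (e + 2)) * u) := by
      have h5 : algebraMap k K (((e : k) + 1) / 2) = ((e : K) + 1) / 2 := by
        rw [map_div₀, map_add, map_natCast, map_one, map_ofNat]
      rw [h5] at h3
      have h6 := gi_two u hu e
      have h7 : u * δ (gi u (e + 2)) = -(δ u * gi u (e + 2)) +
          ((e : K) + 1) / 2 * -((e : K) / 2 * (δ u / u) * gi u e) := by
        rw [← h3]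
        ring
      rw [h7]
      have h8 : ((e : K) + 1) / 2 * -((e : K) / 2 * (δ u / u) * gi u e) =
          -((e : K) / 2 * (δ u / u) * (u * gi u (e + 2))) := by
        rw [h6]
        ring
      rw [h8]
      push_cast
      field_simp
      ring
    have h9 : u * δ (gi u (e + 2)) = u * -((((e + 2 : ℕ) : K) / 2 * (δ u / u) * gi u (e + 2))) := by
      rw [h4]
      ring
    exact mul_left_cancel₀ hu h9

end gi

section gan

variable {K J : Type} [Field K] [DecidableEq J] (I : Finset J) (U : J → K)

/-- the weight of a monomial -/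
noncomputable def gan (n : ℕ) (m : J →₀ ℕ) : K :=
  if ∑ i ∈ I, m i = 2 * n then ∏ i ∈ I, gi (U i) (m i) else 0

omit [DecidableEq J] in
theorem sum_single_add (i : J) (hi : i ∈ I) (c : ℕ) (m : J →₀ ℕ) :
    ∑ j ∈ I, (Finsupp.single i c + m) j = c + ∑ j ∈ I, m j := by
  simp only [Finsupp.add_apply, Finset.sum_add_distrib]
  congr 1
  rw [Finset.sum_eq_single i]
  · simp
  · intro j _ hj
    rw [Finsupp.single_eq_of_ne hj]
  · intro h
    exact absurd hi h

theorem gan_two (i : J) (hi : i ∈ I) (hU : U i ≠ 0) (n : ℕ) (m : J →₀ ℕ) :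
    U i * gan I U (n + 1) (Finsupp.single i 2 + m) = ((m i : K) + 1) / 2 * gan I U n m := by
  unfold gan
  rw [sum_single_add I i hi]
  have h1 : (2 + ∑ j ∈ I, m j = 2 * (n + 1)) ↔ (∑ j ∈ I, m j = 2 * n) := by omega
  by_cases h : ∑ j ∈ I, m j = 2 * n
  · rw [if_pos (h1.2 h), if_pos h, ← Finset.mul_prod_erase I _ hi, ← Finset.mul_prod_erase I _ hi]
    have h2 : ∏ j ∈ I.erase i, gi (U j) ((Finsupp.single i 2 + m : J →₀ ℕ) j) =
        ∏ j ∈ I.erase i, gi (U j) (m j) := by
      apply Finset.prod_congr rfl
      intro j hj
      rw [Finsupp.add_apply, Finsupp.single_eq_of_ne (Finset.ne_of_mem_erase hj), zero_add]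
    rw [h2, ← mul_assoc, ← mul_assoc, Finsupp.add_apply, Finsupp.single_eq_same, add_comm 2 (m i),
      gi_two _ hU]
  · rw [if_neg (fun h' => h (h1.1 h')), if_neg h, mul_zero, mul_zero]

theorem gan_one (i : J) (hi : i ∈ I) (hU : U i ≠ 0) (h2 : (2 : K) ≠ 0) (n : ℕ) (m : J →₀ ℕ) :
    2 * U i * gan I U (n + 1) (Finsupp.single i 1 + m) =
      (m i : K) * gan I U n (m - Finsupp.single i 1) := by
  rcases Nat.eq_zero_or_pos (m i) with h | h
  · rw [h, Nat.cast_zero, zero_mul]
    unfold gan
    split_ifs
    · have h3 : ∏ j ∈ I, gi (U j) ((Finsupp.single i 1 + m : J →₀ ℕ) j) = 0 := by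
        apply Finset.prod_eq_zero hi
        rw [Finsupp.add_apply, Finsupp.single_eq_same, h]
        rfl
      rw [h3, mul_zero]
    · rw [mul_zero]
  · obtain ⟨m', hm'⟩ : ∃ m', m' = m - Finsupp.single i 1 := ⟨_, rfl⟩
    have h3 : m = Finsupp.single i 1 + m' := by
      rw [hm']
      ext j
      rw [Finsupp.add_apply, Finsupp.tsub_apply]
      by_cases hj : j = i
      · subst hj
        rw [Finsupp.single_eq_same]
        omega
      · rw [Finsupp.single_eq_of_ne hj]
        omega
    have h4 : (m i : K) = (m' i : K) + 1 := by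
      rw [h3, Finsupp.add_apply, Finsupp.single_eq_same]
      push_cast
      ring
    have h5 : Finsupp.single i 1 + m = Finsupp.single i 2 + m' := by
      rw [h3, ← add_assoc, ← Finsupp.single_add]
    rw [h5, mul_assoc, gan_two I U i hi hU, h4, ← hm']
    field_simp

omit [DecidableEq J] in
theorem gan_out (j : J) (hj : j ∉ I) (n : ℕ) (m : J →₀ ℕ) :
    gan I U n (m - Finsupp.single j 1) = gan I U n m := by
  have h1 : ∀ i ∈ I, (m - Finsupp.single j 1 : J →₀ ℕ) i = m i := by
    intro i hi
    have : i ≠ j := fun h => hj (h ▸ hi)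
    rw [Finsupp.tsub_apply, Finsupp.single_eq_of_ne this]
    omega
  unfold gan
  rw [Finset.sum_congr rfl h1, Finset.prod_congr rfl fun i hi => by rw [h1 i hi]]

omit [DecidableEq J] in
theorem gan_sum (n : ℕ) (m : J →₀ ℕ) (h2 : (2 : K) ≠ 0) :
    ∑ i ∈ I, ((m i : K) + 1) / 2 * gan I U n m = ((n : K) + (I.card : K) / 2) * gan I U n m := by
  by_cases h : ∑ j ∈ I, m j = 2 * n
  · rw [← Finset.sum_mul, ← Finset.sum_div, Finset.sum_add_distrib, ← Nat.cast_sum, h]
    simp
    left
    field_simp
  · unfold gan
    rw [if_neg h]
    simp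

theorem gan_zero (n : ℕ) (c : ℕ) (hc : 0 < c) (i : J) (hi : i ∈ I) (m : J →₀ ℕ) (hn : n = 0) :
    gan I U n (Finsupp.single i c + m) = 0 := by
  unfold gan
  rw [sum_single_add I i hi, if_neg]
  omega

theorem der_gan [CharZero K] {k : Type} [Field k] [Algebra k K] (δ : K →ₗ[k] K)
    (hδ : ∀ x y, δ (x * y) = δ x * y + x * δ y) (hU : ∀ i ∈ I, U i ≠ 0) (n : ℕ) (m : J →₀ ℕ) :
    δ (gan I U n m) = -∑ i ∈ I, (m i : K) / 2 * (δ (U i) / U i) * gan I U n m := by
  have h1 : ∀ S : Finset J, S ⊆ I → δ (∏ i ∈ S, gi (U i) (m i)) =
      -∑ i ∈ S, (m i : K) / 2 * (δ (U i) / U i) * ∏ i ∈ S, gi (U i) (m i) := by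
    intro S
    induction S using Finset.induction_on with
    | empty =>
      intro _
      have h := hδ 1 1
      simp at h
      simp [h]
    | insert a S ha ih =>
      intro hS
      have ih' := ih ((Finset.subset_insert a S).trans hS)
      rw [Finset.prod_insert ha, hδ, ih', der_gi δ hδ (U a) (hU a (hS (Finset.mem_insert_self a S))),
        ← Finset.sum_mul, ← Finset.sum_mul, Finset.sum_insert ha]
      ring
  unfold gan
  split_ifs with h
  · exact h1 I (Finset.Subset.refl I)
  · simp

end gan

theorem pd_smul {k B J : Type} [Field k] [CommRing B] [Algebra k B] (c : k) (j : J)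
    (x : MvPolynomial J B) : pderiv j (c • x) = c • pderiv j x := by
  rw [← algebraMap_smul B c x, Derivation.map_smul, algebraMap_smul]

section Mod

variable (k A K J : Type) [Field k] [CommRing A] [Algebra k A] [Field K] [Algebra A K] [Algebra k K]
  [IsScalarTower k A K]

/-- the module: `k`-linear maps `A[y] → K[y]` -/
abbrev VV : Type := MvPolynomial J A →ₗ[k] MvPolynomial J K

variable {k A K J}

/-- multiplication of the argument -/
noncomputable def rh : MvPolynomial J A →ₐ[k] Module.End k (VV k A K J) where
  toFun q :=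
    { toFun := fun v => v.comp (LinearMap.mulLeft k q)
      map_add' := fun v w => by
        apply LinearMap.ext
        intro x
        simp
      map_smul' := fun c v => by
        apply LinearMap.ext
        intro x
        simp }
  map_one' := by
    apply LinearMap.ext
    intro v
    apply LinearMap.ext
    intro x
    simp
  map_mul' p q := by
    apply LinearMap.ext
    intro v
    apply LinearMap.ext
    intro x
    simp [mul_left_comm]
  map_zero' := by
    apply LinearMap.ext
    intro v
    apply LinearMap.ext
    intro x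
    simp
  map_add' p q := by
    apply LinearMap.ext
    intro v
    apply LinearMap.ext
    intro x
    simp [add_mul]
  commutes' c := by
    apply LinearMap.ext
    intro v
    apply LinearMap.ext
    intro x
    simp [Algebra.algebraMap_eq_smul_one]

theorem rh_apply (q : MvPolynomial J A) (v : VV k A K J) (x : MvPolynomial J A) :
    rh q v x = v (q * x) := rfl

/-- the derivative in the parameter -/
noncomputable def DXop (d : A →ₗ[k] A) (δ : K →ₗ[k] K) (s : K) : Module.End k (VV k A K J) where
  toFun v :=
    { toFun := fun x => cm δ (v x) - v (cm d x) - C s * v x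
      map_add' := fun x y => by
        rw [map_add, cm_add, cm_add, map_add, mul_add]
        ring
      map_smul' := fun c x => by
        rw [map_smul, cm_smul, cm_smul, map_smul, RingHom.id_apply, smul_sub, smul_sub,
          mul_smul_comm] }
  map_add' v w := by
    apply LinearMap.ext
    intro x
    simp [cm_add, mul_add]
    ring
  map_smul' c v := by
    apply LinearMap.ext
    intro x
    simp [cm_smul, smul_sub]

theorem DXop_apply (d : A →ₗ[k] A) (δ : K →ₗ[k] K) (s : K) (v : VV k A K J)
    (x : MvPolynomial J A) : DXop d δ s v x = cm δ (v x) - v (cm d x) - C s * v x := rfl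

/-- the derivative in `y_j` -/
noncomputable def Dop (j : J) : Module.End k (VV k A K J) where
  toFun v :=
    { toFun := fun x => pderiv j (v x) - v (pderiv j x)
      map_add' := fun x y => by
        rw [map_add, map_add, map_add, map_add]
        ring
      map_smul' := fun c x => by
        rw [map_smul, pd_smul, pd_smul, map_smul, RingHom.id_apply, smul_sub] }
  map_add' v w := by
    apply LinearMap.ext
    intro x
    simp
    ring
  map_smul' c v := by
    apply LinearMap.ext
    intro x
    simp [smul_sub]

theorem Dop_apply (j : J) (v : VV k A K J) (x : MvPolynomial J A) :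
    Dop j v x = pderiv j (v x) - v (pderiv j x) := rfl

/-- the exponent outside `I` -/
noncomputable def fl [DecidableEq J] (I : Finset J) (m : J →₀ ℕ) : J →₀ ℕ :=
  Finsupp.filter (fun j => j ∉ I) m

theorem fl_apply [DecidableEq J] (I : Finset J) (m : J →₀ ℕ) (j : J) :
    fl I m j = if j ∈ I then 0 else m j := by
  unfold fl
  rw [Finsupp.filter_apply]
  split_ifs <;> rfl

theorem fl_add_in [DecidableEq J] (I : Finset J) (i : J) (hi : i ∈ I) (c : ℕ) (m : J →₀ ℕ) :
    fl I (Finsupp.single i c + m) = fl I m := by
  ext j
  rw [fl_apply, fl_apply]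
  by_cases hj : j ∈ I
  · rw [if_pos hj, if_pos hj]
  · rw [if_neg hj, if_neg hj, Finsupp.add_apply,
      Finsupp.single_eq_of_ne (fun h : j = i => hj (h ▸ hi)), zero_add]

theorem fl_sub_in [DecidableEq J] (I : Finset J) (i : J) (hi : i ∈ I) (m : J →₀ ℕ) :
    fl I (m - Finsupp.single i 1) = fl I m := by
  ext j
  rw [fl_apply, fl_apply]
  by_cases hj : j ∈ I
  · rw [if_pos hj, if_pos hj]
  · rw [if_neg hj, if_neg hj, Finsupp.tsub_apply,
      Finsupp.single_eq_of_ne (fun h : j = i => hj (h ▸ hi)), Nat.sub_zero]

theorem fl_sub_out [DecidableEq J] (I : Finset J) (i : J) (m : J →₀ ℕ) :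
    fl I m - Finsupp.single i 1 = fl I (m - Finsupp.single i 1) := by
  ext j
  rw [Finsupp.tsub_apply, fl_apply, fl_apply, Finsupp.tsub_apply]
  by_cases hj : j ∈ I
  · rw [if_pos hj, if_pos hj, Nat.zero_sub]
  · rw [if_neg hj, if_neg hj]

/-- the elements `E_n` -/
noncomputable def En [DecidableEq J] (I : Finset J) (U : J → K) (n : ℕ) : VV k A K J :=
  ((basisMonomials J A).constr A fun m => monomial (fl I m) (gan I U n m)).restrictScalars k

theorem En_monomial [DecidableEq J] (I : Finset J) (U : J → K) (n : ℕ) (m : J →₀ ℕ) (a : A) :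
    (En I U n : VV k A K J) (monomial m a) = monomial (fl I m) (algebraMap A K a * gan I U n m) := by
  have h1 : monomial m a = a • (basisMonomials J A m) := by
    rw [coe_basisMonomials, smul_monomial, smul_eq_mul, mul_one]
  rw [h1]
  unfold En
  rw [LinearMap.restrictScalars_apply, map_smul, Module.Basis.constr_basis, smul_monomial,
    Algebra.smul_def]

/-- two additive maps which agree on monomials agree -/
theorem VV_ext (v w : VV k A K J) (h : ∀ m a, v (monomial m a) = w (monomial m a)) : v = w := by
  apply LinearMap.ext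
  intro x
  induction x using MvPolynomial.induction_on' with
  | monomial m a => exact h m a
  | add p q hp hq => rw [map_add, map_add, hp, hq]

variable [DecidableEq J] (I : Finset J) (U : J → A)

/-- the quadric -/
noncomputable def ff (V : J → A) : MvPolynomial J A := ∑ i ∈ I, monomial (Finsupp.single i 2) (V i)

theorem En_ff (V : J → A) (u : J → K) (hu : ∀ i ∈ I, u i ≠ 0) (n : ℕ) (m : J →₀ ℕ) (a : A) :
    (En I u (n + 1) : VV k A K J) (ff I V * monomial m a) =
      monomial (fl I m) (algebraMap A K a *
        ∑ i ∈ I, algebraMap A K (V i) / u i * (((m i : K) + 1) / 2 * gan I u n m)) := by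
  unfold ff
  rw [Finset.sum_mul, map_sum, Finset.mul_sum, map_sum]
  apply Finset.sum_congr rfl
  intro i hi
  rw [monomial_mul, En_monomial, fl_add_in I i hi, map_mul (algebraMap A K),
    ← gan_two I u i hi (hu i hi)]
  congr 1
  have := hu i hi
  field_simp

theorem En_ff_zero (V : J → A) (u : J → K) (m : J →₀ ℕ) (a : A) :
    (En I u 0 : VV k A K J) (ff I V * monomial m a) = 0 := by
  unfold ff
  rw [Finset.sum_mul, map_sum]
  apply Finset.sum_eq_zero
  intro i hi
  rw [monomial_mul, En_monomial, gan_zero I u 0 2 (by norm_num) i hi m rfl, mul_zero, map_zero]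

end Mod

theorem dX_eq {k J : Type} [Field k] (q : MvPolynomial J (PowerSeries k)) :
    dX q = cm (k := k) (PowerSeries.derivative k : Derivation k _ _).toLinearMap q := rfl

theorem gen_eq {k J : Type} [Field k] [Fintype J] [DecidableEq J] (U : J → PowerSeries k)
    (I : Finset J) (hI : ∀ i, i ∉ I → U i = 0) : gen U 0 0 = ff I U := by
  unfold gen ff
  simp only [Pi.zero_apply, map_zero, zero_mul, Finset.sum_const_zero, add_zero]
  rw [← Finset.sum_subset (Finset.subset_univ I)]
  · apply Finset.sum_congr rfl
    intro i _
    rw [X_pow_eq_monomial, C_mul_monomial, mul_one]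
  · intro i _ hi
    rw [hI i hi, map_zero, zero_mul]

theorem dX_ff {k J : Type} [Field k] (U : J → PowerSeries k) (I : Finset J) :
    dX (ff I U) = ff I fun i => PowerSeries.derivative k (U i) := by
  rw [dX_eq]
  unfold ff
  have h1 : ∀ S : Finset J, cm (k := k) (PowerSeries.derivative k : Derivation k _ _).toLinearMap
      (∑ i ∈ S, monomial (Finsupp.single i 2) (U i)) =
      ∑ i ∈ S, monomial (Finsupp.single i 2) (PowerSeries.derivative k (U i)) := by
    classical
    intro S
    induction S using Finset.induction_on with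
    | empty => 
      ext m
      simp [coeff_cm]
    | insert a S ha ih =>
      rw [Finset.sum_insert ha, Finset.sum_insert ha, cm_add, ih, cm_monomial]
      rfl
  exact h1 I

theorem pd_ff {A J : Type} [CommRing A] [DecidableEq J] (U : J → A) (I : Finset J) (j : J) :
    pderiv j (ff I U) = if j ∈ I then monomial (Finsupp.single j 1) (U j * 2) else 0 := by
  unfold ff
  rw [map_sum]
  simp only [pderiv_monomial]
  split_ifs with h
  · rw [Finset.sum_eq_single j]
    · have h2 : (Finsupp.single j 2 : J →₀ ℕ) - Finsupp.single j 1 = Finsupp.single j 1 := by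
        ext i
        rw [Finsupp.tsub_apply]
        by_cases hi : i = j
        · subst hi
          simp
        · rw [Finsupp.single_eq_of_ne hi, Finsupp.single_eq_of_ne hi]
          rfl
      rw [Finsupp.single_eq_same, h2]
      norm_num
    · intro i _ hi
      rw [Finsupp.single_eq_of_ne (Ne.symm hi)]
      simp
    · intro h'
      exact absurd h h'
  · apply Finset.sum_eq_zero
    intro i hi
    have : j ≠ i := fun h' => h (h' ▸ hi)
    rw [Finsupp.single_eq_of_ne this]
    simp

end PurAux

open PurAux in
/-- **PUR.** The pre-chain of `Σ U_i y_i²`. -/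
theorem PUR : PURStmt := by
  intro k _ _ J _ _ U
  classical
  obtain ⟨δ, hδA, hδ⟩ := exists_der k (PowerSeries k) (PowerSeries.derivative k)
  have hinj : Function.Injective (algebraMap (PowerSeries k) (FractionRing (PowerSeries k))) :=
    IsFractionRing.injective _ _
  have hch : CharZero (FractionRing (PowerSeries k)) :=
    charZero_of_injective_algebraMap
      (algebraMap k (FractionRing (PowerSeries k))).injective
  set d : PowerSeries k →ₗ[k] PowerSeries k :=
    (PowerSeries.derivative k : Derivation k _ _).toLinearMap with hd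
  set I : Finset J := Finset.univ.filter (fun i => U i ≠ 0) with hI
  have hIn : ∀ i, i ∉ I → U i = 0 := by
    intro i hi
    by_contra h
    exact hi (Finset.mem_filter.2 ⟨Finset.mem_univ i, h⟩)
  have hIm : ∀ i ∈ I, U i ≠ 0 := fun i hi => (Finset.mem_filter.1 hi).2
  obtain ⟨u, hu⟩ : ∃ u : J → FractionRing (PowerSeries k), ∀ i, u i = algebraMap _ _ (U i) :=
    ⟨fun i => algebraMap _ _ (U i), fun i => rfl⟩
  have hu0 : ∀ i ∈ I, u i ≠ 0 := by
    intro i hi h
    rw [hu] at h
    exact hIm i hi ((map_eq_zero_iff _ hinj).1 h)
  have hgen : gen U 0 0 = ff I U := gen_eq U I hIn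
  have hrk : rk U = I.card := by
    unfold rk
    congr
  obtain ⟨s, hs⟩ : ∃ s : FractionRing (PowerSeries k), s = (∑ i ∈ I, δ (u i) / u i) / 2 := ⟨_, rfl⟩
  have hderX : ∀ n, DXop d δ s (En I u n : VV k _ _ J) = -rh (dX (gen U 0 0)) (En I u (n + 1)) := by
    intro n
    apply VV_ext
    intro m a
    rw [LinearMap.neg_apply, rh_apply, DXop_apply, hgen, dX_ff, En_ff I _ u hu0, En_monomial,
      cm_monomial, cm_monomial, En_monomial, C_mul_monomial, ← map_sub, ← map_sub, ← map_neg]
    congr 1
    rw [hδ, hδA, der_gan I u δ hδ hu0]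
    have h1 : ∀ i ∈ I, algebraMap (PowerSeries k) (FractionRing (PowerSeries k))
        (PowerSeries.derivative k (U i)) / u i * (((m i : FractionRing (PowerSeries k)) + 1) / 2 *
          gan I u n m) = ((m i : FractionRing (PowerSeries k)) / 2 * (δ (u i) / u i)) * gan I u n m +
            (δ (u i) / u i) / 2 * gan I u n m := by
      intro i hi
      rw [hu i, hδA]
      ring
    rw [Finset.sum_congr rfl h1, Finset.sum_add_distrib, ← Finset.sum_mul _ _ (gan I u n m),
      ← Finset.sum_mul _ _ (gan I u n m), ← Finset.sum_div, ← hs]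
    have h2 : d a = PowerSeries.derivative k a := rfl
    rw [h2]
    ring
  have hder : ∀ i n, Dop i (En I u n : VV k (PowerSeries k) _ J) =
      -rh (pderiv i (gen U 0 0)) (En I u (n + 1)) := by
    intro i n
    apply VV_ext
    intro m a
    rw [LinearMap.neg_apply, rh_apply, Dop_apply, hgen, pd_ff]
    by_cases hi : i ∈ I
    · rw [if_pos hi, monomial_mul, En_monomial, En_monomial, pderiv_monomial, pderiv_monomial,
        En_monomial, fl_sub_in I i hi, fl_add_in I i hi, fl_apply, if_pos hi, Nat.cast_zero, mul_zero,
        map_zero, zero_sub, ← map_neg, ← map_neg]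
      congr 1
      have h3 := gan_one I u i hi (hu0 i hi) two_ne_zero n m
      rw [map_mul, map_mul, map_mul, map_natCast, map_ofNat, ← hu]
      linear_combination (algebraMap (PowerSeries k) (FractionRing (PowerSeries k)) a) * h3
    · rw [if_neg hi, zero_mul, map_zero, neg_zero, En_monomial, pderiv_monomial, pderiv_monomial,
        En_monomial, fl_sub_out, fl_apply, if_neg hi, gan_out I u i hi, ← map_sub]
      have h4 : algebraMap (PowerSeries k) (FractionRing (PowerSeries k)) a * gan I u n m * (m i) -
          algebraMap (PowerSeries k) (FractionRing (PowerSeries k)) (a * (m i)) * gan I u n m = 0 := by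
        rw [map_mul, map_natCast]
        ring
      rw [h4, map_zero]
  refine ⟨{ V := VV k (PowerSeries k) (FractionRing (PowerSeries k)) J
            ρ := rh
            DX := DXop d δ s
            D := Dop
            leibX := ?_
            leib := ?_
            E := En I u
            mul := ?_
            derX := hderX
            der := hder
            ne := ?_ }, ?_, ?_, ?_⟩
  · intro p v
    apply LinearMap.ext
    intro x
    rw [LinearMap.add_apply, rh_apply, rh_apply, DXop_apply, DXop_apply, rh_apply, rh_apply, dX_eq,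
      cm_mul d (fun x y => by
        have := (PowerSeries.derivative k : Derivation k _ _).leibniz x y
        simp only [smul_eq_mul] at this
        change PowerSeries.derivative k (x * y) =
          PowerSeries.derivative k x * y + x * PowerSeries.derivative k y
        rw [this]
        ring), map_add]
    ring
  · intro i p v
    apply LinearMap.ext
    intro x
    rw [LinearMap.add_apply, rh_apply, rh_apply, Dop_apply, Dop_apply, rh_apply, rh_apply,
      Derivation.leibniz, map_add]
    simp only [smul_eq_mul]
    rw [mul_comm x (pderiv i p)]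
    ring
  · intro n
    apply VV_ext
    intro m a
    rw [LinearMap.smul_apply, rh_apply, hgen, En_ff I _ u hu0, En_monomial, smul_monomial]
    congr 1
    have h1 : ∀ i ∈ I, algebraMap (PowerSeries k) (FractionRing (PowerSeries k)) (U i) / u i *
        (((m i : FractionRing (PowerSeries k)) + 1) / 2 * gan I u n m) =
          ((m i : FractionRing (PowerSeries k)) + 1) / 2 * gan I u n m := by
      intro i hi
      rw [← hu, div_self (hu0 i hi), one_mul]
    rw [Finset.sum_congr rfl h1, gan_sum I u n m two_ne_zero, hrk, Algebra.smul_def]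
    have h2 : algebraMap k (FractionRing (PowerSeries k)) ((((I.card : ℚ) / 2 : ℚ) : k) + (n : k)) =
        (n : FractionRing (PowerSeries k)) + (I.card : FractionRing (PowerSeries k)) / 2 := by
      have h3 : (((I.card : ℚ) / 2 : ℚ) : k) = (I.card : k) / 2 := by
        rw [Rat.cast_div, Rat.cast_natCast, Rat.cast_ofNat]
      rw [h3, map_add, map_div₀, map_natCast, map_natCast, map_ofNat]
      ring
    rw [h2]
    ring
  · intro h
    have h1 := congrArg (fun v : VV k (PowerSeries k) (FractionRing (PowerSeries k)) J =>
      v (monomial 0 1)) h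
    simp only [LinearMap.zero_apply] at h1
    rw [En_monomial, monomial_eq_zero, map_one, one_mul] at h1
    unfold gan at h1
    simp [gi] at h1
  · apply VV_ext
    intro m a
    change (En I u 0 : VV k _ _ J) (gen U 0 0 * monomial m a) = 0
    rw [hgen, En_ff_zero]
  · apply VV_ext
    intro m a
    change (En I u 0 : VV k _ _ J) (dX (gen U 0 0) * monomial m a) = 0
    rw [hgen, dX_ff, En_ff_zero]
  · intro i
    apply VV_ext
    intro m a
    change (En I u 0 : VV k _ _ J) (pderiv i (gen U 0 0) * monomial m a) = 0
    rw [hgen, pd_ff]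
    split_ifs with h
    · rw [monomial_mul, En_monomial, gan_zero I u 0 1 one_pos i h m rfl, mul_zero, map_zero]
    · rw [zero_mul, map_zero]

end Pool.Agent.H87.QF
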