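import Pool.Agent.H87.QF.Stmts

/-! # Row RLA of the board qfm: the main reduction -/

set_option autoImplicit false

namespace Pool.Agent.H87.QF

open MvPolynomial Pool.Agent.H39.MonoR Pool.Agent.H75.Mono

section RLA

variable {k : Type} [Field k] [Algebra k ℂ] {E G : Type} [Aff E] [Aff G]

private theorem rla_add {F F' : E → PowerSeries ℂ} (h : PS k F) (h' : PS k F') :
    PS k fun e => F e + F' e := by
  intro l
  have := (h l).add (h' l)
  refine (Eq.mp ?_ this)
  congr 1

private theorem rla_sum {ι : Type} (s : Finset ι) {F : ι → E → PowerSeries ℂ}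
    (h : ∀ i, PS k (F i)) : PS k fun e => ∑ i ∈ s, F i e := by
  intro l
  have h1 := PFun.sum (k := k) s (f := fun i e => PowerSeries.coeff l (F i e)) fun i _ => h i l
  have e : (fun e => PowerSeries.coeff l (∑ i ∈ s, F i e)) =
      fun e => ∑ i ∈ s, PowerSeries.coeff l (F i e) := by
    funext e; rw [map_sum]
  rw [e]; exact h1

private theorem rla_mul {F F' : E → PowerSeries ℂ} (h : PS k F) (h' : PS k F') :
    PS k fun e => F e * F' e := by
  intro l
  have h1 := PFun.sum (k := k) (Finset.HasAntidiagonal.antidiagonal l)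
    (f := fun (p : ℕ × ℕ) e => PowerSeries.coeff p.1 (F e) * PowerSeries.coeff p.2 (F' e))
    fun p _ => (h p.1).mul (h' p.2)
  have e : (fun e => PowerSeries.coeff l (F e * F' e)) =
      fun e => ∑ p ∈ Finset.HasAntidiagonal.antidiagonal l,
        PowerSeries.coeff p.1 (F e) * PowerSeries.coeff p.2 (F' e) := by
    funext e; rw [PowerSeries.coeff_mul]
  rw [e]; exact h1

private theorem rla_comp {F : G → PowerSeries ℂ} (h : PS k F) {g : E → G} (hg : PMap k g) :
    PS k fun e => F (g e) := fun l => Pool.Agent.H75.Mono.PFun.comp (f := fun e => PowerSeries.coeff l (F e)) (h l) hg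

variable {J : Type} [Fintype J]

private theorem rla_arc {d : ℕ} (i : J) :
    PS k fun x : E × (J × Fin (d + 1) → ℂ) => arc x.2 i := by
  intro l
  by_cases hl : l < d + 1
  · have e : (fun x : E × (J × Fin (d + 1) → ℂ) => PowerSeries.coeff l (arc x.2 i)) =
        fun x => x.2 (i, ⟨l, hl⟩) := by
      funext x; rw [coeff_arc, dif_pos hl]
    rw [e]
    exact Pool.Agent.H75.Mono.PFun.comp (f := fun φ : J × Fin (d + 1) → ℂ => φ (i, ⟨l, hl⟩)) (PFun.apply _) PMap.snd
  · have e : (fun x : E × (J × Fin (d + 1) → ℂ) => PowerSeries.coeff l (arc x.2 i)) =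
        fun _ => 0 := by
      funext x; rw [coeff_arc, dif_neg hl]
    rw [e]
    exact PFun.zero

/-- the coefficients of `qf` are polynomial -/
theorem rla_qf {V B : J → E → PowerSeries ℂ} {F : E → PowerSeries ℂ} {d : ℕ}
    (hV : ∀ i, PS k (V i)) (hB : ∀ i, PS k (B i)) (hF : PS k F) :
    PS k fun x : E × (J × Fin (d + 1) → ℂ) => qf V B F x := by
  unfold qf
  refine rla_add (rla_add (rla_sum _ fun i => ?_) (rla_sum _ fun i => ?_)) (rla_comp hF PMap.fst)
  · have h1 : PS k fun x : E × (J × Fin (d + 1) → ℂ) => arc x.2 i ^ 2 := by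
      have := rla_mul (k := k) (E := E × (J × Fin (d + 1) → ℂ)) (rla_arc (d := d) i) (rla_arc i)
      have e : (fun x : E × (J × Fin (d + 1) → ℂ) => arc x.2 i ^ 2) =
          fun x => arc x.2 i * arc x.2 i := by funext x; rw [sq]
      rw [e]; exact this
    exact rla_mul (rla_comp (hV i) PMap.fst) h1
  · exact rla_mul (rla_comp (hB i) PMap.fst) (rla_arc i)

/-- the sets `rel` are constructible -/
theorem rla_rel {V B : J → E → PowerSeries ℂ} {F : E → PowerSeries ℂ} {d : ℕ} {Q : Set E}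
    {c : E → ℂ} (hV : ∀ i, PS k (V i)) (hB : ∀ i, PS k (B i)) (hF : PS k F) (hQ : ICons k Q)
    (hc : PFun k c) : ICons k (rel V B F d Q c) := by
  unfold rel
  refine ICons.and (hQ.mem PMap.fst) (ICons.forall_le d fun l => ICons.eq (rla_qf hV hB hF l) ?_)
  by_cases hl : l = d
  · simp only [if_pos hl]
    exact hc.comp PMap.fst
  · simp only [if_neg hl]
    exact PFun.zero

/-- the condition `low` is constructible -/
theorem rla_low {d : ℕ} (κ : J → ℕ) (m : ℕ) :
    ICons k {x : E × (J × Fin (d + 1) → ℂ) | low κ m x.2} := by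
  unfold low
  have h0 : ∀ q : J × Fin (d + 1), PFun k (fun x : E × (J × Fin (d + 1) → ℂ) => x.2 q) :=
    fun q => Pool.Agent.H75.Mono.PFun.comp (f := fun φ : J × Fin (d + 1) → ℂ => φ q) (PFun.apply _) PMap.snd
  refine ICons.exists_fin fun i => ICons.exists_fin fun a => ICons.and (ICons.const _)
    (ICons.and (ICons.forall_fin fun l => ?_) (ICons.ne (h0 _) PFun.zero))
  by_cases hl : l < a
  · have e : {x : E × (J × Fin (d + 1) → ℂ) | l < a → x.2 (i, l) = 0} =
        {x | x.2 (i, l) = 0} := by ext x; simp [hl]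
    rw [e]; exact ICons.eq (h0 _) PFun.zero
  · have e : {x : E × (J × Fin (d + 1) → ℂ) | l < a → x.2 (i, l) = 0} = Set.univ := by
      ext x; simp [hl]
    rw [e]; exact ICons.univ

/-- the first free coordinate -/
private def kap (κ : J → ℕ) (d : ℕ) (i : J) : ℕ := (d - κ i + 1) / 2

private theorem kap_le (κ : J → ℕ) {d : ℕ} (hd : 0 < d) (i : J) : kap κ d i < d + 1 := by
  unfold kap; omega

private theorem not_low_iff (κ : J → ℕ) {d : ℕ} (y : J × Fin (d + 1) → ℂ) :
    ¬ low κ d y ↔ ∀ (i : J) (l : Fin (d + 1)), (l : ℕ) < kap κ d i → y (i, l) = 0 := by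
  constructor
  · intro h i
    have key : ∀ (n : ℕ) (l : Fin (d + 1)), (l : ℕ) = n → (l : ℕ) < kap κ d i → y (i, l) = 0 := by
      intro n
      induction n using Nat.strong_induction_on with
      | _ n ih =>
        intro l hl hlt
        by_contra hne
        apply h
        refine ⟨i, l, ?_, ?_, hne⟩
        · unfold kap at hlt; omega
        · intro l' hl'
          have h2 : (l' : ℕ) < l := hl'
          exact ih l' (by omega) l' rfl (by omega)
    exact fun l hl => key l l rfl hl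
  · rintro h ⟨i, a, h1, -, h3⟩
    exact h3 (h i a (by unfold kap; omega))

private theorem dvd_arc (κ : J → ℕ) {d : ℕ} {y : J × Fin (d + 1) → ℂ}
    (h : ∀ (i : J) (l : Fin (d + 1)), (l : ℕ) < kap κ d i → y (i, l) = 0) (i : J) :
    (PowerSeries.X : PowerSeries ℂ) ^ kap κ d i ∣ arc y i := by
  rw [PowerSeries.X_pow_dvd_iff]
  intro m hm
  rw [coeff_arc]
  by_cases hl : m < d + 1
  · rw [dif_pos hl]; exact h i ⟨m, hl⟩ hm
  · rw [dif_neg hl]

/-- the coefficients of `V y^2` -/
private theorem coeff_sq {κ a d : ℕ} (v y : PowerSeries ℂ) (hκ : κ ≤ d)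
    (hv : (PowerSeries.X : PowerSeries ℂ) ^ κ ∣ v) (hy : (PowerSeries.X : PowerSeries ℂ) ^ a ∣ y)
    (ha : a = (d - κ + 1) / 2) :
    (∀ l, l < d → PowerSeries.coeff l (v * y ^ 2) = 0) ∧
    PowerSeries.coeff d (v * y ^ 2) =
      if 2 ∣ d - κ then PowerSeries.coeff κ v * PowerSeries.coeff a y ^ 2 else 0 := by
  obtain ⟨v', rfl⟩ := hv
  obtain ⟨y', rfl⟩ := hy
  have e : (PowerSeries.X : PowerSeries ℂ) ^ κ * v' * (PowerSeries.X ^ a * y') ^ 2 =
      PowerSeries.X ^ (κ + 2 * a) * (v' * y' ^ 2) := by ring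
  rw [e]
  have e1 : PowerSeries.coeff κ ((PowerSeries.X : PowerSeries ℂ) ^ κ * v') =
      PowerSeries.constantCoeff v' := by
    rw [PowerSeries.coeff_X_pow_mul', if_pos le_rfl, Nat.sub_self,
      PowerSeries.coeff_zero_eq_constantCoeff_apply]
  have e2 : PowerSeries.coeff a ((PowerSeries.X : PowerSeries ℂ) ^ a * y') =
      PowerSeries.constantCoeff y' := by
    rw [PowerSeries.coeff_X_pow_mul', if_pos le_rfl, Nat.sub_self,
      PowerSeries.coeff_zero_eq_constantCoeff_apply]
  rw [e1, e2]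
  constructor
  · intro l hl
    rw [PowerSeries.coeff_X_pow_mul', if_neg (by omega)]
  · by_cases h2 : 2 ∣ d - κ
    · rw [if_pos h2, PowerSeries.coeff_X_pow_mul', if_pos (by omega)]
      have h3 : d - (κ + 2 * a) = 0 := by omega
      rw [h3, PowerSeries.coeff_zero_eq_constantCoeff_apply, map_mul, map_pow]
    · rw [if_neg h2, PowerSeries.coeff_X_pow_mul', if_neg (by omega)]

private theorem coeff_van {d : ℕ} (v y : PowerSeries ℂ)
    (hv : (PowerSeries.X : PowerSeries ℂ) ^ (d + 1) ∣ v) :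
    ∀ l, l ≤ d → PowerSeries.coeff l (v * y) = 0 := by
  obtain ⟨v', rfl⟩ := hv
  intro l hl
  rw [mul_assoc, PowerSeries.coeff_X_pow_mul', if_neg (by omega)]

end RLA

section RLA2

variable {k : Type} [Field k] [Algebra k ℂ] {E : Type} [Aff E] {J : Type} [Fintype J]
  [DecidableEq J]

/-- the coefficients of `qf` on the part which is not low -/
private theorem rla_coeff {V B : J → E → PowerSeries ℂ} {F : E → PowerSeries ℂ} {d : ℕ}
    {κ : J → ℕ} {Q : Set E} (hd : 0 < d) (hE : ∀ i, Exact (V i) Q d (κ i))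
    (hB : ∀ i, ∀ e ∈ Q, ∀ l, l ≤ d → PowerSeries.coeff l (B i e) = 0)
    (hF : ∀ e ∈ Q, ∀ l, l < d → PowerSeries.coeff l (F e) = 0)
    (e : E) (he : e ∈ Q) (y : J × Fin (d + 1) → ℂ)
    (h : ∀ (i : J) (l : Fin (d + 1)), (l : ℕ) < kap κ d i → y (i, l) = 0) :
    (∀ l, l < d → PowerSeries.coeff l (qf V B F (e, y)) = 0) ∧
    PowerSeries.coeff d (qf V B F (e, y)) =
      ∑ i ∈ Finset.univ.filter (fun i => κ i ≤ d ∧ 2 ∣ d - κ i),
        PowerSeries.coeff (κ i) (V i e) * y (i, ⟨kap κ d i, kap_le κ hd i⟩) ^ 2 +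
      PowerSeries.coeff d (F e) := by
  have hBX : ∀ i, (PowerSeries.X : PowerSeries ℂ) ^ (d + 1) ∣ B i e := by
    intro i
    rw [PowerSeries.X_pow_dvd_iff]
    exact fun m hm => hB i e he m (by omega)
  have hV1 : ∀ i, (∀ l, l < d → PowerSeries.coeff l (V i e * arc y i ^ 2) = 0) ∧
      PowerSeries.coeff d (V i e * arc y i ^ 2) =
        if κ i ≤ d ∧ 2 ∣ d - κ i then
          PowerSeries.coeff (κ i) (V i e) * y (i, ⟨kap κ d i, kap_le κ hd i⟩) ^ 2 else 0 := by
    intro i
    have hex := hE i e he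
    by_cases hκ : κ i ≤ d
    · have hv : (PowerSeries.X : PowerSeries ℂ) ^ κ i ∣ V i e := by
        rw [PowerSeries.X_pow_dvd_iff]
        exact fun m hm => hex.1 m hm (by omega)
      have h1 := coeff_sq (V i e) (arc y i) hκ hv (dvd_arc κ h i) rfl
      refine ⟨h1.1, ?_⟩
      rw [h1.2]
      by_cases h2 : 2 ∣ d - κ i
      · rw [if_pos h2, if_pos ⟨hκ, h2⟩, coeff_arc, dif_pos (kap_le κ hd i)]
      · rw [if_neg h2, if_neg (fun h3 => h2 h3.2)]
    · have hv : (PowerSeries.X : PowerSeries ℂ) ^ (d + 1) ∣ V i e := by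
        rw [PowerSeries.X_pow_dvd_iff]
        exact fun m hm => hex.1 m (by omega) (by omega)
      have h1 := coeff_van (V i e) (arc y i ^ 2) hv
      refine ⟨fun l hl => h1 l hl.le, ?_⟩
      rw [h1 d le_rfl, if_neg (fun h3 => hκ h3.1)]
  have hB1 : ∀ i, ∀ l, l ≤ d → PowerSeries.coeff l (B i e * arc y i) = 0 :=
    fun i => coeff_van (B i e) (arc y i) (hBX i)
  constructor
  · intro l hl
    unfold qf
    rw [map_add, map_add, map_sum, map_sum, hF e he l hl, add_zero,
      Finset.sum_eq_zero (fun i _ => (hV1 i).1 l hl),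
      Finset.sum_eq_zero (fun i _ => hB1 i l hl.le), add_zero]
  · unfold qf
    rw [map_add, map_add, map_sum, map_sum,
      Finset.sum_eq_zero (fun i _ => hB1 i d le_rfl), add_zero, Finset.sum_filter]
    congr 1
    exact Finset.sum_congr rfl fun i _ => (hV1 i).2

/-- the index set of the free coordinates -/
private abbrev Ix (κ : J → ℕ) (d : ℕ) : Type := {p : J × Fin (d + 1) // kap κ d p.1 < (p.2 : ℕ)}

/-- the parametrisation of the part which is not low -/
private noncomputable def par (κ : J → ℕ) (d : ℕ) (x : (E × (J → ℂ)) × (Ix κ d → ℂ)) :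
    E × (J × Fin (d + 1) → ℂ) :=
  (x.1.1, fun p => if h : kap κ d p.1 < (p.2 : ℕ) then x.2 ⟨p, h⟩ else
    if (p.2 : ℕ) = kap κ d p.1 then x.1.2 p.1 else 0)

private theorem card_Ix (κ : J → ℕ) {d : ℕ} (hd : 0 < d) :
    Nat.card (Ix κ d) = ∑ i, (d - kap κ d i) := by
  classical
  have e : Ix κ d ≃ (Σ i : J, {l : Fin (d + 1) // kap κ d i < (l : ℕ)}) :=
    { toFun := fun p => ⟨p.1.1, p.1.2, p.2⟩
      invFun := fun q => ⟨(q.1, q.2.1), q.2.2⟩
      left_inv := fun _ => rfl
      right_inv := fun _ => rfl }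
  rw [Nat.card_congr e, Nat.card_sigma]
  refine Finset.sum_congr rfl fun i _ => ?_
  rw [Nat.card_eq_fintype_card, Fintype.card_subtype]
  have hk := kap_le κ hd i
  have : (Finset.univ.filter fun l : Fin (d + 1) => kap κ d i < (l : ℕ)) =
      Finset.Ioi (⟨kap κ d i, hk⟩ : Fin (d + 1)) := by
    ext l
    simp only [Finset.mem_filter, Finset.mem_univ, true_and, Finset.mem_Ioi]
    exact Iff.rfl
  rw [this, Fin.card_Ioi]
  simp only
  omega

private theorem rla_top {V : J → E → PowerSeries ℂ} {F : E → PowerSeries ℂ} {d : ℕ} {κ : J → ℕ}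
    {Q : Set E} {c : E → ℂ} (hV : ∀ i, PS k (V i)) (hF : PS k F) (hQ : ICons k Q)
    (hc : PFun k c) : ICons k (top V F d κ Q c) := by
  unfold top
  refine ICons.and (hQ.mem PMap.fst) (ICons.eq (PFun.add (PFun.sum _ fun i _ => ?_) ?_)
    (hc.comp PMap.fst))
  · refine PFun.mul (Pool.Agent.H75.Mono.PFun.comp (f := fun e => PowerSeries.coeff (κ i) (V i e)) (hV i _) PMap.fst) ?_
    exact PFun.pow (Pool.Agent.H75.Mono.PFun.comp (f := fun z : J → ℂ => z i) (PFun.apply i) PMap.snd) 2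
  · exact Pool.Agent.H75.Mono.PFun.comp (f := fun e => PowerSeries.coeff d (F e)) (hF d) PMap.fst

private theorem par_PMap (κ : J → ℕ) (d : ℕ) :
    PMap k (par (E := E) κ d) := by
  refine PMap.prodMk (PMap.fst.comp PMap.fst) (PMap.pi fun p => ?_)
  by_cases h : kap κ d p.1 < (p.2 : ℕ)
  · simp only [dif_pos h]
    exact Pool.Agent.H75.Mono.PFun.comp (f := fun w : Ix κ d → ℂ => w ⟨p, h⟩) (PFun.apply _) PMap.snd
  · simp only [dif_neg h]
    by_cases h2 : (p.2 : ℕ) = kap κ d p.1
    · simp only [if_pos h2]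
      exact Pool.Agent.H75.Mono.PFun.comp (f := fun z : J → ℂ => z p.1) (PFun.apply _) (PMap.snd.comp PMap.fst)
    · simp only [if_neg h2]
      exact PFun.zero

/-- the class of the part which is not low -/
private theorem rla_notlow {V B : J → E → PowerSeries ℂ} {F : E → PowerSeries ℂ} {d : ℕ}
    {κ : J → ℕ} {Q : Set E} {c : E → ℂ} (hV : ∀ i, PS k (V i)) (hB : ∀ i, PS k (B i))
    (hF : PS k F) (hQ : ICons k Q) (hc : PFun k c) (hd : 0 < d)
    (hE : ∀ i, Exact (V i) Q d (κ i))
    (hB0 : ∀ i, ∀ e ∈ Q, ∀ l, l ≤ d → PowerSeries.coeff l (B i e) = 0)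
    (hF0 : ∀ e ∈ Q, ∀ l, l < d → PowerSeries.coeff l (F e) = 0) :
    mo k {x | x ∈ rel V B F d Q c ∧ ¬ low κ d x.2} =
      ↑(Lu k ^ ((∑ i, (d - (d - κ i + 1) / 2) : ℕ) : ℤ)) * mo k (top V F d κ Q c) := by
  have h1 : ICons k {x | x ∈ rel V B F d Q c ∧ ¬ low κ d x.2} :=
    ICons.and (rla_rel hV hB hF hQ hc) (rla_low κ d).not
  have h2 : ICons k {x : (E × (J → ℂ)) × (Ix κ d → ℂ) | x.1 ∈ top V F d κ Q c ∧
      x.2 ∈ (Set.univ : Set (Ix κ d → ℂ))} :=
    ICons.prod (rla_top hV hF hQ hc) ICons.univ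
  have h3 := mo_prod (k := k) (rla_top (d := d) (κ := κ) hV hF hQ hc)
    (ICons.univ (k := k) (E := Ix κ d → ℂ))
  rw [mo_univ_pi, card_Ix κ hd] at h3
  have h4 : mo k {x : (E × (J → ℂ)) × (Ix κ d → ℂ) | x.1 ∈ top V F d κ Q c ∧
      x.2 ∈ (Set.univ : Set (Ix κ d → ℂ))} =
      mo k {x | x ∈ rel V B F d Q c ∧ ¬ low κ d x.2} := by
    refine mo_bij h2 h1 (par_PMap κ d) ⟨?_, ?_, ?_⟩
    · rintro ⟨⟨e, z⟩, w⟩ ⟨⟨he, ht⟩, -⟩
      simp only at he ht
      have hz : ∀ (i : J) (l : Fin (d + 1)), (l : ℕ) < kap κ d i →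
          (par κ d ((e, z), w)).2 (i, l) = 0 := by
        intro i l hl
        simp only [par]
        rw [dif_neg (by omega), if_neg (by omega)]
      have hz2 : ∀ i : J, (par κ d ((e, z), w)).2 (i, ⟨kap κ d i, kap_le κ hd i⟩) = z i := by
        intro i
        simp only [par]
        rw [dif_neg (lt_irrefl _), if_pos trivial]
      have hcf := rla_coeff hd hE hB0 hF0 e he (par κ d ((e, z), w)).2 hz
      refine ⟨⟨he, fun l hl => ?_⟩, (not_low_iff κ _).2 hz⟩
      rcases Nat.lt_or_eq_of_le hl with hl' | hl'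
      · rw [if_neg (by omega)]
        exact hcf.1 l hl'
      · rw [if_pos hl', hl']
        refine hcf.2.trans ?_
        simp only [hz2]
        exact ht
    · rintro ⟨⟨e, z⟩, w⟩ - ⟨⟨e', z'⟩, w'⟩ - hxy
      simp only [par, Prod.mk.injEq] at hxy
      obtain ⟨rfl, hp⟩ := hxy
      have hz : z = z' := by
        funext i
        have := congrFun hp (i, ⟨kap κ d i, kap_le κ hd i⟩)
        simpa using this
      have hw : w = w' := by
        funext p
        have := congrFun hp p.1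
        simp only [dif_pos p.2] at this
        exact this
      rw [hz, hw]
    · rintro ⟨e, y⟩ ⟨⟨he, hy⟩, hl⟩
      simp only at he hy hl
      have hz := (not_low_iff κ _).1 hl
      have hcf := rla_coeff hd hE hB0 hF0 e he y hz
      refine ⟨((e, fun i => y (i, ⟨kap κ d i, kap_le κ hd i⟩)), fun p => y p.1),
        ⟨⟨he, ?_⟩, Set.mem_univ _⟩, ?_⟩
      · have := hy d le_rfl
        rw [if_pos rfl, hcf.2] at this
        exact this
      · simp only [par]
        congr 1
        funext p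
        by_cases h : kap κ d p.1 < (p.2 : ℕ)
        · rw [dif_pos h]
        · rw [dif_neg h]
          by_cases h' : (p.2 : ℕ) = kap κ d p.1
          · rw [if_pos h']
            congr 1
            refine Prod.ext rfl (Fin.ext ?_)
            exact h'.symm
          · rw [if_neg h']
            exact (hz p.1 p.2 (by omega)).symm
  rw [← h4, h3, mul_comm]
  rfl

end RLA2

theorem RLA (hPRE : PREStmt) : RLAStmt := by
  intro k _ _ E _ J _ _ V B F d κ Q c hV hB hF hQ hc hd hE hB0 hF0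
  have hl := hPRE k E J V B F d d κ Q c hV hB hF hQ hc hd le_rfl hE
    (fun i e he l hl => hB0 i e he l hl.le)
  have s1 := mo_split (rla_rel (d := d) hV hB hF hQ hc) (rla_low (k := k) (E := E) (d := d) κ d)
  have s0 := mo_split (rla_rel (d := d) (c := fun _ => (0 : ℂ)) hV hB hF hQ PFun.zero)
    (rla_low (k := k) (E := E) (d := d) κ d)
  rw [s1, s0, hl, rla_notlow hV hB hF hQ hc hd hE hB0 hF0,
    rla_notlow hV hB hF hQ PFun.zero hd hE hB0 hF0]
  ring

end Pool.Agent.H87.QF
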