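import Pool.Agent.H87.QF.Stmts

/-!
Row RLB of the board qfm (helper88): the constant term dominates.
-/

set_option autoImplicit false

namespace Pool.Agent.H87.QF

open MvPolynomial Pool.Agent.H39.MonoR Pool.Agent.H75.Mono

/-- a product `V y²` has no coefficients up to `γ` if `κ + 2 ord y > γ` -/
theorem rlb_sq (V y : PowerSeries ℂ) (κ γ : ℕ)
    (hV : ∀ l, l < κ → l ≤ γ → PowerSeries.coeff l V = 0)
    (hy : ∀ l, κ + 2 * l ≤ γ → PowerSeries.coeff l y = 0) :
    PowerSeries.coeff γ (V * y ^ 2) = 0 := by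
  rw [PowerSeries.coeff_mul]
  refine Finset.sum_eq_zero fun p hp => ?_
  rw [Finset.HasAntidiagonal.mem_antidiagonal] at hp
  by_cases h1 : p.1 < κ
  · rw [hV p.1 h1 (by omega), zero_mul]
  · rw [sq, PowerSeries.coeff_mul]
    rw [Finset.sum_eq_zero, mul_zero]
    intro q hq
    rw [Finset.HasAntidiagonal.mem_antidiagonal] at hq
    by_cases h2 : κ + 2 * q.1 ≤ γ
    · rw [hy _ h2, zero_mul]
    · rw [hy q.2 (by omega), mul_zero]

theorem rlb_low {k : Type} [Field k] [Algebra k ℂ] {E : Type} [Aff E] {J : Type} [Fintype J]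
    (V B : J → E → PowerSeries ℂ) (F : E → PowerSeries ℂ) (d γ : ℕ) (κ : J → ℕ) (Q : Set E)
    (c : E → ℂ) (hγ : γ < d) (hV : ∀ i, Exact (V i) Q d (κ i))
    (hB : ∀ i, ∀ e ∈ Q, ∀ l, l ≤ γ → PowerSeries.coeff l (B i e) = 0)
    (hF : ∀ e ∈ Q, PowerSeries.coeff γ (F e) ≠ 0)
    (x : E × (J × Fin (d + 1) → ℂ)) (hx : x ∈ rel V B F d Q c) : low κ (γ + 1) x.2 := by
  by_contra hlow
  have hy : ∀ i (n : ℕ), ∀ a : Fin (d + 1), (a : ℕ) = n → κ i + 2 * n ≤ γ → x.2 (i, a) = 0 := by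
    intro i n
    induction n using Nat.strong_induction_on with
    | _ n ih =>
      intro a ha hn
      by_contra hne
      apply hlow
      refine ⟨i, a, by omega, ?_, hne⟩
      intro l hl
      have hl' : (l : ℕ) < (a : ℕ) := hl
      exact ih l (by omega) l rfl (by omega)
  have harc : ∀ i l, κ i + 2 * l ≤ γ → PowerSeries.coeff l (arc x.2 i) = 0 := by
    intro i l hl
    rw [coeff_arc]
    split_ifs with h
    · exact hy i l ⟨l, h⟩ rfl hl
    · rfl
  apply hF x.1 hx.1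
  have h1 := hx.2 γ hγ.le
  rw [if_neg hγ.ne] at h1
  unfold qf at h1
  rw [map_add, map_add, map_sum, map_sum] at h1
  have h2 : ∀ i, PowerSeries.coeff γ (V i x.1 * arc x.2 i ^ 2) = 0 := by
    intro i
    apply rlb_sq _ _ (κ i) γ
    · intro l hl hl'
      exact (hV i x.1 hx.1).1 l hl (by omega)
    · exact harc i
  have h3 : ∀ i, PowerSeries.coeff γ (B i x.1 * arc x.2 i) = 0 := by
    intro i
    rw [PowerSeries.coeff_mul]
    refine Finset.sum_eq_zero fun p hp => ?_
    rw [Finset.HasAntidiagonal.mem_antidiagonal] at hp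
    rw [hB i x.1 hx.1 p.1 (by omega), zero_mul]
  rw [Finset.sum_eq_zero (fun i _ => h2 i), Finset.sum_eq_zero (fun i _ => h3 i), zero_add,
    zero_add] at h1
  exact h1

theorem RLB (h1 : PREStmt) : RLBStmt := by
  intro k _ _ E _ J _ _ V B F d γ κ Q c hVp hBp hFp hQ hc hγ hV hB hF
  have h := h1 k E J V B F d (γ + 1) κ Q c hVp hBp hFp hQ hc (by omega) (by omega) hV
    (fun i e he l hl => hB i e he l (by omega))
  have e : ∀ c' : E → ℂ, {x | x ∈ rel V B F d Q c' ∧ low κ (γ + 1) x.2} = rel V B F d Q c' := by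
    intro c'
    ext x
    constructor
    · exact fun hx => hx.1
    · exact fun hx => ⟨hx, rlb_low (k := k) V B F d γ κ Q c' hγ hV hB hF x hx⟩
  rw [e, e] at h
  exact h

end Pool.Agent.H87.QF
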