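import Pool.Agent.H87.QF.Stmts

/-! # QFM, row RLC: a linear term dominates -/

set_option autoImplicit false

namespace Pool.Agent.H87.QF

open MvPolynomial Pool.Agent.H39.MonoR Pool.Agent.H75.Mono

section RLC

variable {k : Type} [Field k] [Algebra k ℂ] {E : Type} [Aff E] {J : Type} [Fintype J]

omit [Fintype J] in
private theorem rlc_arc_update [DecidableEq J] {N d : ℕ} (hN : d < N + 1)
    (φ : J × Fin (N + 1) → ℂ) (i : J) (ε : ℂ) :
    arc (Function.update φ (i, ⟨d, hN⟩) (φ (i, ⟨d, hN⟩) + ε)) =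
      Function.update (arc φ) i (arc φ i + PowerSeries.X ^ d * PowerSeries.C ε) := by
  funext j
  ext l
  rw [coeff_arc]
  by_cases hj : j = i
  · subst hj
    rw [Function.update_self, map_add, coeff_arc, PowerSeries.coeff_X_pow_mul']
    by_cases hl : l < N + 1
    · rw [dif_pos hl, dif_pos hl]
      by_cases hld : l = d
      · subst hld
        rw [Function.update_self, if_pos le_rfl, Nat.sub_self, PowerSeries.coeff_zero_C]
      · rw [Function.update_of_ne]
        · by_cases h1 : d ≤ l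
          · rw [if_pos h1, PowerSeries.coeff_C, if_neg (by omega), add_zero]
          · rw [if_neg h1, add_zero]
        · intro h
          apply hld
          have := congrArg (fun p => (p.2 : ℕ)) h
          exact this
    · rw [dif_neg hl, dif_neg hl]
      by_cases h1 : d ≤ l
      · rw [if_pos h1, PowerSeries.coeff_C, if_neg (by omega), add_zero]
      · rw [if_neg h1, add_zero]
  · rw [Function.update_of_ne hj, coeff_arc]
    by_cases hl : l < N + 1
    · rw [dif_pos hl, dif_pos hl, Function.update_of_ne]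
      intro h
      exact hj (congrArg Prod.fst h)
    · rw [dif_neg hl, dif_neg hl]

private theorem rlc_mul {F G : E → PowerSeries ℂ} (hF : PS k F) (hG : PS k G) :
    PS k fun e => F e * G e := by
  intro l
  have h : (fun e => PowerSeries.coeff l (F e * G e)) = fun e =>
      ∑ p ∈ Finset.HasAntidiagonal.antidiagonal l,
        PowerSeries.coeff p.1 (F e) * PowerSeries.coeff p.2 (G e) := by
    funext e
    rw [PowerSeries.coeff_mul]
  change PFun k fun e => PowerSeries.coeff l (F e * G e)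
  rw [h]
  exact PFun.sum _ fun p _ => (hF _).mul (hG _)

private theorem rlc_add {F G : E → PowerSeries ℂ} (hF : PS k F) (hG : PS k G) :
    PS k fun e => F e + G e := by
  intro l
  have h : (fun e => PowerSeries.coeff l (F e + G e)) = fun e =>
      PowerSeries.coeff l (F e) + PowerSeries.coeff l (G e) := by
    funext e
    rw [map_add]
  change PFun k fun e => PowerSeries.coeff l (F e + G e)
  rw [h]
  exact (hF _).add (hG _)

private theorem rlc_sum {ι : Type} (s : Finset ι) {F : ι → E → PowerSeries ℂ}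
    (hF : ∀ i, PS k (F i)) : PS k fun e => ∑ i ∈ s, F i e := by
  intro l
  have h : (fun e => PowerSeries.coeff l (∑ i ∈ s, F i e)) = fun e =>
      ∑ i ∈ s, PowerSeries.coeff l (F i e) := by
    funext e
    rw [map_sum]
  change PFun k fun e => PowerSeries.coeff l (∑ i ∈ s, F i e)
  rw [h]
  exact PFun.sum _ fun i _ => hF i l

private theorem rlc_fst {F : E → PowerSeries ℂ} (hF : PS k F) {d : ℕ} :
    PS k fun x : E × (J × Fin (d + 1) → ℂ) => F x.1 := fun l =>
  Pool.Agent.H75.Mono.PFun.comp (f := fun e => PowerSeries.coeff l (F e)) (hF l) PMap.fst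

private theorem rlc_arc {d : ℕ} (i : J) :
    PS k fun x : E × (J × Fin (d + 1) → ℂ) => arc x.2 i := by
  intro l
  by_cases hl : l < d + 1
  · have h : (fun x : E × (J × Fin (d + 1) → ℂ) => PowerSeries.coeff l (arc x.2 i)) =
        fun x => x.2 (i, ⟨l, hl⟩) := by
      funext x
      rw [coeff_arc, dif_pos hl]
    rw [h]
    exact Pool.Agent.H75.Mono.PFun.comp (f := fun φ : J × Fin (d + 1) → ℂ => φ (i, ⟨l, hl⟩)) (Pool.Agent.H75.Mono.PFun.apply _) PMap.snd
  · have h : (fun x : E × (J × Fin (d + 1) → ℂ) => PowerSeries.coeff l (arc x.2 i)) =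
        fun _ => 0 := by
      funext x
      rw [coeff_arc, dif_neg hl]
    rw [h]
    exact PFun.zero

private theorem rlc_qf {V B : J → E → PowerSeries ℂ} {F : E → PowerSeries ℂ}
    (hV : ∀ i, PS k (V i)) (hB : ∀ i, PS k (B i)) (hF : PS k F) {d : ℕ} :
    PS k fun x : E × (J × Fin (d + 1) → ℂ) => qf V B F x := by
  have h : (fun x : E × (J × Fin (d + 1) → ℂ) => qf V B F x) = fun x =>
      ∑ i, V i x.1 * (arc x.2 i * arc x.2 i) + ∑ i, B i x.1 * arc x.2 i + F x.1 := by
    funext x
    unfold qf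
    simp only [sq]
  rw [h]
  refine rlc_add (rlc_add (rlc_sum _ fun i => rlc_mul (rlc_fst (hV i))
    (rlc_mul (rlc_arc i) (rlc_arc i))) (rlc_sum _ fun i => rlc_mul (rlc_fst (hB i)) (rlc_arc i)))
    (rlc_fst hF)

omit [Aff E] in
private theorem rlc_change [DecidableEq J] (V B : J → E → PowerSeries ℂ) (F : E → PowerSeries ℂ)
    {d j : ℕ} (hj : j < d + 1) (i₀ : J) (e : E) (y : J × Fin (d + 1) → ℂ) (s : ℂ) :
    qf V B F (e, Function.update y (i₀, ⟨j, hj⟩) (y (i₀, ⟨j, hj⟩) + s)) =
      qf V B F (e, y) +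
        (V i₀ e * (2 * arc y i₀ * (PowerSeries.X ^ j * PowerSeries.C s) +
          (PowerSeries.X ^ j * PowerSeries.C s) ^ 2) +
        B i₀ e * (PowerSeries.X ^ j * PowerSeries.C s)) := by
  unfold qf
  simp only
  rw [rlc_arc_update]
  have h1 : ∑ i, V i e * (Function.update (arc y) i₀
      (arc y i₀ + PowerSeries.X ^ j * PowerSeries.C s)) i ^ 2 - ∑ i, V i e * arc y i ^ 2 =
      V i₀ e * (2 * arc y i₀ * (PowerSeries.X ^ j * PowerSeries.C s) +
          (PowerSeries.X ^ j * PowerSeries.C s) ^ 2) := by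
    rw [← Finset.sum_sub_distrib, Finset.sum_eq_single i₀]
    · rw [Function.update_self]
      ring
    · intro i _ hi
      rw [Function.update_of_ne hi, sub_self]
    · intro h
      exact absurd (Finset.mem_univ _) h
  have h2 : ∑ i, B i e * (Function.update (arc y) i₀
      (arc y i₀ + PowerSeries.X ^ j * PowerSeries.C s)) i - ∑ i, B i e * arc y i =
      B i₀ e * (PowerSeries.X ^ j * PowerSeries.C s) := by
    rw [← Finset.sum_sub_distrib, Finset.sum_eq_single i₀]
    · rw [Function.update_self]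
      ring
    · intro i _ hi
      rw [Function.update_of_ne hi, sub_self]
    · intro h
      exact absurd (Finset.mem_univ _) h
  rw [← h1, ← h2]
  ring

omit [Aff E] in
private theorem rlc_coeff [DecidableEq J] (V B : J → E → PowerSeries ℂ) (F : E → PowerSeries ℂ)
    {d β : ℕ} (hβ : β ≤ d) (i₀ : J) (e : E)
    (hV : ∀ l, l ≤ β → PowerSeries.coeff l (V i₀ e) = 0)
    (hB : ∀ l, l < β → PowerSeries.coeff l (B i₀ e) = 0)
    (y : J × Fin (d + 1) → ℂ) (s : ℂ) (hj : d - β < d + 1) :
    (∀ l, l < d → PowerSeries.coeff l (qf V B F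
      (e, Function.update y (i₀, ⟨d - β, hj⟩) (y (i₀, ⟨d - β, hj⟩) + s))) =
        PowerSeries.coeff l (qf V B F (e, y))) ∧
    PowerSeries.coeff d (qf V B F
      (e, Function.update y (i₀, ⟨d - β, hj⟩) (y (i₀, ⟨d - β, hj⟩) + s))) =
        PowerSeries.coeff d (qf V B F (e, y)) + PowerSeries.coeff β (B i₀ e) * s := by
  obtain ⟨W, hW⟩ := PowerSeries.X_pow_dvd_iff.2 (fun l (hl : l < β + 1) => hV l (by omega))
  obtain ⟨D, hD⟩ := PowerSeries.X_pow_dvd_iff.2 hB
  have hc : PowerSeries.coeff β (B i₀ e) = PowerSeries.constantCoeff D := by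
    rw [hD, PowerSeries.coeff_X_pow_mul', if_pos le_rfl, Nat.sub_self,
      PowerSeries.coeff_zero_eq_constantCoeff_apply]
  have hp : (PowerSeries.X : PowerSeries ℂ) ^ d = PowerSeries.X ^ β * PowerSeries.X ^ (d - β) := by
    rw [← pow_add]
    congr 1
    omega
  have hx : qf V B F (e, Function.update y (i₀, ⟨d - β, hj⟩) (y (i₀, ⟨d - β, hj⟩) + s)) =
      qf V B F (e, y) + PowerSeries.X ^ d * (PowerSeries.X * (W * (2 * arc y i₀ * PowerSeries.C s +
          PowerSeries.X ^ (d - β) * PowerSeries.C s ^ 2)) + D * PowerSeries.C s) := by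
    rw [rlc_change, hW, hD, hp]
    ring
  constructor
  · intro l hl
    rw [hx, map_add, PowerSeries.coeff_X_pow_mul', if_neg (by omega), add_zero]
  · rw [hx, map_add, PowerSeries.coeff_X_pow_mul', if_pos le_rfl, Nat.sub_self,
      PowerSeries.coeff_zero_eq_constantCoeff_apply, map_add, map_mul, map_mul,
      PowerSeries.constantCoeff_X, zero_mul, zero_add, map_mul, PowerSeries.constantCoeff_C, hc]

end RLC

/-- **RLC.** A linear term dominates. -/
theorem RLC (hT : TRLStmt) : RLCStmt := by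
  intro k _ _ E _ J _ _ V B F d β i₀ Q c hV hB hF hQ hc hβ hV0 hB0 hB1
  classical
  have hj : d - β < d + 1 := by omega
  have hq := rlc_qf (k := k) hV hB hF (d := d)
  have key : ∀ c : E → ℂ, rel V B F d Q c =
      {x | x ∈ {x : E × (J × Fin (d + 1) → ℂ) | x.1 ∈ Q ∧
        ∀ l, l < d → PowerSeries.coeff l (qf V B F x) = 0} ∧
        PowerSeries.coeff d (qf V B F x) = c x.1} := by
    intro c
    ext x
    constructor
    · rintro ⟨h1, h2⟩
      refine ⟨⟨h1, fun l hl => ?_⟩, ?_⟩
      · rw [h2 l hl.le, if_neg hl.ne]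
      · rw [h2 d le_rfl, if_pos rfl]
    · rintro ⟨⟨h1, h2⟩, h3⟩
      refine ⟨h1, fun l hl => ?_⟩
      by_cases hld : l = d
      · rw [if_pos hld, hld]
        exact h3
      · rw [if_neg hld]
        exact h2 l (by omega)
  rw [key c, key fun _ => 0]
  refine hT k (E × (J × Fin (d + 1) → ℂ)) _ (fun x => PowerSeries.coeff d (qf V B F x))
    (fun x => PowerSeries.coeff β (B i₀ x.1)) (fun x => c x.1)
    (fun z => (z.1.1, Function.update z.1.2 (i₀, ⟨d - β, hj⟩)
      (z.1.2 (i₀, ⟨d - β, hj⟩) + z.2))) ?_ (hq d) ?_ ?_ ?_ ?_ ?_ ?_ ?_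
  · exact ICons.and (hQ.mem PMap.fst) (ICons.forall_lt d fun l => ICons.eq (hq l) PFun.zero)
  · exact Pool.Agent.H75.Mono.PFun.comp (f := fun e => PowerSeries.coeff β (B i₀ e)) (hB i₀ β) PMap.fst
  · exact Pool.Agent.H75.Mono.PFun.comp (f := c) hc PMap.fst
  · refine PMap.prodMk (PMap.fst.comp PMap.fst) (PMap.pi fun q => ?_)
    have h3 : ∀ q : J × Fin (d + 1), PFun k
        (fun z : (E × (J × Fin (d + 1) → ℂ)) × ℂ => z.1.2 q) := fun q =>
      Pool.Agent.H75.Mono.PFun.comp (f := fun φ : J × Fin (d + 1) → ℂ => φ q) (Pool.Agent.H75.Mono.PFun.apply q)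
        (PMap.snd.comp PMap.fst)
    by_cases h : q = (i₀, ⟨d - β, hj⟩)
    · subst h
      simp only [Function.update_self]
      exact (h3 _).add (Pool.Agent.H75.Mono.PFun.comp (f := fun x : ℂ => x) PFun.id' PMap.snd)
    · simp only [Function.update_of_ne h]
      exact h3 q
  · rintro ⟨e, y⟩ ⟨h1, _⟩
    exact hB1 e h1
  · rintro ⟨e, y⟩ ⟨h1, h2⟩ s
    have h4 := rlc_coeff V B F hβ i₀ e (hV0 e h1) (hB0 e h1) y s hj
    refine ⟨⟨h1, fun l hl => ?_⟩, ?_, rfl, rfl⟩
    · exact (h4.1 l hl).trans (h2 l hl)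
    · exact h4.2
  · rintro ⟨e, y⟩ _
    simp only [add_zero, Function.update_eq_self]
  · rintro ⟨e, y⟩ _ s s'
    simp only [Function.update_self, Function.update_idem, add_assoc]

end Pool.Agent.H87.QF
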