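import Pool.Agent.H87.QF.Stmts

/-!
# Board `qfm`, row SBS: substitution of power series
-/

set_option autoImplicit false

namespace Pool.Agent.H87.QF

open Pool.Agent.H39.MonoR Pool.Agent.H75.Mono

theorem SBS.coeff_pow_of_low (n : ℕ) (a : PowerSeries ℂ)
    (ha : ∀ l, l < n → PowerSeries.coeff l a = 0) (j : ℕ) :
    (∀ l, l < n * j → PowerSeries.coeff l (a ^ j) = 0) ∧
      PowerSeries.coeff (n * j) (a ^ j) = PowerSeries.coeff n a ^ j := by
  obtain ⟨b, rfl⟩ := PowerSeries.X_pow_dvd_iff.2 ha
  have e : (PowerSeries.X ^ n * b) ^ j = PowerSeries.X ^ (n * j) * b ^ j := by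
    rw [mul_pow, ← pow_mul]
  refine ⟨fun l hl => ?_, ?_⟩
  · rw [e, PowerSeries.coeff_X_pow_mul', if_neg (by omega)]
  · rw [e, PowerSeries.coeff_X_pow_mul', if_pos le_rfl, Nat.sub_self,
      PowerSeries.coeff_X_pow_mul', if_pos le_rfl, Nat.sub_self,
      PowerSeries.coeff_zero_eq_constantCoeff_apply, map_pow,
      PowerSeries.coeff_zero_eq_constantCoeff_apply]

theorem SBS.coeff_sb {k : Type} [Field k] [Algebra k ℂ] (a : PowerSeries ℂ) (u : PowerSeries k)
    (l : ℕ) : PowerSeries.coeff l (sb a u) = ∑ j ∈ Finset.range (l + 1),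
      algebraMap k ℂ (PowerSeries.coeff j u) * PowerSeries.coeff l (a ^ j) := by
  rw [sb, PowerSeries.coeff_mk]

theorem SBS.subst_eq {k : Type} [Field k] [Algebra k ℂ] (a : PowerSeries ℂ)
    (ha : PowerSeries.constantCoeff a = 0) (u : PowerSeries k) :
    PowerSeries.subst a u = sb a u := by
  have hs : PowerSeries.HasSubst a := PowerSeries.HasSubst.of_constantCoeff_zero' ha
  have h1 : ∀ l, l < 1 → PowerSeries.coeff l a = 0 := by
    intro l hl
    obtain rfl : l = 0 := by omega
    rw [PowerSeries.coeff_zero_eq_constantCoeff_apply, ha]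
  ext l
  rw [SBS.coeff_sb, PowerSeries.coeff_subst' hs]
  rw [finsum_eq_sum_of_support_subset (s := Finset.range (l + 1))]
  · refine Finset.sum_congr rfl fun j _ => ?_
    rw [Algebra.smul_def]
  · intro j hj
    rw [Function.mem_support] at hj
    rw [Finset.coe_range, Set.mem_Iio]
    by_contra hc
    refine hj ?_
    rw [(SBS.coeff_pow_of_low 1 a h1 j).1 l (by omega), smul_zero]

theorem SBS.ps_pow {k : Type} [Field k] [Algebra k ℂ] {E : Type} [Aff E] (F : E → PowerSeries ℂ)
    (hF : PS k F) (j : ℕ) : PS k fun e => F e ^ j := by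
  induction j with
  | zero =>
    intro l
    simp only [pow_zero, PowerSeries.coeff_one]
    by_cases hl : l = 0
    · simp only [hl, if_true]
      exact PFun.one
    · simp only [hl, if_false]
      exact PFun.zero
  | succ j ih =>
    intro l
    simp only [pow_succ, PowerSeries.coeff_mul]
    exact PFun.sum _ fun p _ => (ih p.1).mul (hF p.2)

theorem SBS : SBSStmt := by
  intro k _ _
  refine ⟨fun a ha => ?_, fun n e a u hn ha hu => ?_, fun E _ F u hF l => ?_⟩
  · have hs : PowerSeries.HasSubst a := PowerSeries.HasSubst.of_constantCoeff_zero' ha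
    refine ⟨(PowerSeries.substAlgHom (R := k) hs).toRingHom, fun u => ?_, fun c => ?_, ?_⟩
    · show PowerSeries.substAlgHom (R := k) hs u = sb a u
      rw [PowerSeries.coe_substAlgHom, SBS.subst_eq a ha]
    · show PowerSeries.substAlgHom (R := k) hs (PowerSeries.C c) = _
      rw [PowerSeries.coe_substAlgHom, SBS.subst_eq a ha]
      ext l
      rw [SBS.coeff_sb, Finset.sum_eq_single 0]
      · rw [PowerSeries.coeff_C, PowerSeries.coeff_C, if_pos rfl, pow_zero, PowerSeries.coeff_one]
        split_ifs <;> simp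
      · intro j _ hj
        rw [PowerSeries.coeff_C, if_neg hj, map_zero, zero_mul]
      · intro h0
        exact absurd (Finset.mem_range.2 (Nat.succ_pos l)) h0
    · show PowerSeries.substAlgHom (R := k) hs PowerSeries.X = a
      rw [PowerSeries.coe_substAlgHom, PowerSeries.subst_X hs]
  · have hp := SBS.coeff_pow_of_low n a ha
    refine ⟨fun l hl => ?_, ?_⟩
    · rw [SBS.coeff_sb]
      refine Finset.sum_eq_zero fun j _ => ?_
      by_cases hj : j < e
      · rw [hu j hj, map_zero, zero_mul]
      · rw [(hp j).1 l (lt_of_lt_of_le hl (Nat.mul_le_mul_left n (not_lt.1 hj))), mul_zero]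
    · rw [SBS.coeff_sb, Finset.sum_eq_single e]
      · rw [(hp e).2]
      · intro j _ hj
        by_cases hj' : j < e
        · rw [hu j hj', map_zero, zero_mul]
        · have hlt : e < j := lt_of_le_of_ne (not_lt.1 hj') (Ne.symm hj)
          rw [(hp j).1 (n * e) (Nat.mul_lt_mul_of_pos_left hlt (by omega)), mul_zero]
      · intro h0
        exfalso
        refine h0 (Finset.mem_range.2 ?_)
        have : e ≤ n * e := Nat.le_mul_of_pos_left e (by omega)
        omega
  · simp only [SBS.coeff_sb]
    exact PFun.sum _ fun j _ => (PFun.const _).mul (SBS.ps_pow F hF j l)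

end Pool.Agent.H87.QF
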