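import Pool.Agent.H87.QF.Stmts

/-! # QFM, row SMG: the smooth case has no critical zeros over `x0` -/

set_option autoImplicit false

namespace Pool.Agent.H87.QF

open MvPolynomial

section SMG

variable {k : Type} [Field k] [Algebra k ℂ]

/-- `u ↦ u(0) + r u'(0) ε` -/
noncomputable def smEv (k : Type) [Field k] [Algebra k ℂ] (r : ℂ) : PowerSeries k →+* DualNumber ℂ where
  toFun u := TrivSqZeroExt.inl (algebraMap k ℂ (PowerSeries.coeff 0 u)) +
    TrivSqZeroExt.inr (r * algebraMap k ℂ (PowerSeries.coeff 1 u))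
  map_one' := by
    ext
    · simp
    · simp [PowerSeries.coeff_one]
  map_zero' := by
    ext
    · simp
    · simp
  map_add' u v := by
    ext
    · simp
    · simp [mul_add]
  map_mul' u v := by
    have h1 : PowerSeries.coeff 1 (u * v) = PowerSeries.coeff 0 u * PowerSeries.coeff 1 v +
        PowerSeries.coeff 1 u * PowerSeries.coeff 0 v := by
      rw [PowerSeries.coeff_mul, Finset.Nat.antidiagonal_succ]
      simp
    ext
    · simp
    · rw [h1]
      simp only [PowerSeries.coeff_zero_eq_constantCoeff, map_mul, map_add,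
        TrivSqZeroExt.snd_add, TrivSqZeroExt.snd_inl, TrivSqZeroExt.snd_inr, zero_add,
        TrivSqZeroExt.snd_mul, TrivSqZeroExt.fst_add, TrivSqZeroExt.fst_inl, TrivSqZeroExt.fst_inr,
        add_zero, smul_eq_mul, op_smul_eq_mul]
      ring

theorem smEv_fst (r : ℂ) (u : PowerSeries k) :
    (smEv k r u).fst = algebraMap k ℂ (PowerSeries.coeff 0 u) := by
  change (TrivSqZeroExt.inl _ + TrivSqZeroExt.inr _ : DualNumber ℂ).fst = _
  simp

theorem smEv_snd (r : ℂ) (u : PowerSeries k) :
    (smEv k r u).snd = r * algebraMap k ℂ (PowerSeries.coeff 1 u) := by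
  change (TrivSqZeroExt.inl _ + TrivSqZeroExt.inr _ : DualNumber ℂ).snd = _
  simp

/-- evaluation at a point of dual numbers -/
noncomputable def smW {σ : Type} (w : σ → DualNumber ℂ) : MvPolynomial σ k →+* DualNumber ℂ :=
  eval₂Hom ((TrivSqZeroExt.inlHom ℂ ℂ).comp (algebraMap k ℂ)) w

theorem smW_fst {σ : Type} (w : σ → DualNumber ℂ) (f : MvPolynomial σ k) :
    (smW w f).fst = aeval (fun i => (w i).fst) f := by
  induction f using MvPolynomial.induction_on with
  | C a => simp [smW]
  | add p q hp hq => rw [map_add, TrivSqZeroExt.fst_add, hp, hq, map_add]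
  | mul_X p i hp =>
    rw [map_mul, TrivSqZeroExt.fst_mul, hp, map_mul, aeval_X]
    simp [smW]

theorem smW_snd {σ : Type} [Fintype σ] [DecidableEq σ] (w : σ → DualNumber ℂ)
    (f : MvPolynomial σ k) :
    (smW w f).snd = ∑ i, aeval (fun i => (w i).fst) (pderiv i f) * (w i).snd := by
  induction f using MvPolynomial.induction_on with
  | C a => simp [smW]
  | add p q hp hq =>
    rw [map_add, TrivSqZeroExt.snd_add, hp, hq, ← Finset.sum_add_distrib]
    refine Finset.sum_congr rfl fun i _ => ?_
    rw [map_add, map_add, add_mul]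
  | mul_X p i hp =>
    rw [map_mul, TrivSqZeroExt.snd_mul, hp, smW_fst]
    have h1 : (smW w (X i : MvPolynomial σ k)) = w i := by simp [smW]
    rw [h1]
    have h2 : ∀ j, aeval (fun i => (w i).fst) (pderiv j (p * X i)) * (w j).snd =
        aeval (fun i => (w i).fst) (pderiv j p) * (w j).snd * (w i).fst +
          (if j = i then aeval (fun i => (w i).fst) p * (w j).snd else 0) := by
      intro j
      rw [Derivation.leibniz, map_add, smul_eq_mul, smul_eq_mul, map_mul, map_mul, aeval_X,
        pderiv_X]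
      by_cases hj : j = i
      · subst hj
        rw [Pi.single_eq_same, map_one, if_pos rfl]
        ring
      · rw [Pi.single_eq_of_ne (fun h => hj h.symm), map_zero, if_neg hj]
        ring
    simp only [h2]
    rw [Finset.sum_add_distrib, ← Finset.sum_mul]
    rw [Finset.sum_ite_eq' Finset.univ i]
    simp only [Finset.mem_univ, if_true, smul_eq_mul, op_smul_eq_mul]
    ring

variable {J : Type} [Fintype J]

theorem QD.val_hom {R S T : Type} [CommRing R] [CommRing S] [CommRing T] (D : QD R J)
    (φ : R →+* S) (ψ : S →+* T) (y : J → S) :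
    ψ (D.val φ y) = D.val (ψ.comp φ) fun j => ψ (y j) := by
  simp [QD.val, map_add, map_sum, map_mul]

theorem QD.val_map {R S T : Type} [CommRing R] [CommRing S] [CommRing T] (D : QD R J)
    (φ : R →+* S) (ψ : S →+* T) (y : J → T) :
    (D.map φ).val ψ y = D.val (ψ.comp φ) y := rfl

/-- the first order expansion along an arc -/
theorem smArc [DecidableEq J] (D : QD (Polynomial k) J) (x0 : k) (Δ : Diag (D.map (tay x0)))
    (v : Option J → ℂ) (hv : v none = algebraMap k ℂ x0)
    (hg : ∀ i, aeval v (pderiv i (pol D)) = 0) (y : J → ℂ)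
    (hy : ∀ j, v (some j) = ∑ m, algebraMap k ℂ (PowerSeries.coeff 0 (Δ.A j m)) * y m +
      algebraMap k ℂ (PowerSeries.coeff 0 (Δ.s j))) (r : ℂ) (δ : J → ℂ) :
    ∑ i, (r * algebraMap k ℂ (PowerSeries.coeff 1 (Δ.U i)) * y i ^ 2 +
        algebraMap k ℂ (PowerSeries.coeff 0 (Δ.U i)) * (2 * y i * δ i)) +
      ∑ i, (r * algebraMap k ℂ (PowerSeries.coeff 1 (Δ.B i)) * y i +
        algebraMap k ℂ (PowerSeries.coeff 0 (Δ.B i)) * δ i) +
      r * algebraMap k ℂ (PowerSeries.coeff 1 Δ.c) = 0 := by
  set Y : J → DualNumber ℂ := fun i => TrivSqZeroExt.inl (y i) + TrivSqZeroExt.inr (δ i) with hY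
  have hYf : ∀ i, (Y i).fst = y i := fun i => by simp [hY]
  have hYs : ∀ i, (Y i).snd = δ i := fun i => by simp [hY]
  set η : J → DualNumber ℂ := fun j => ∑ m, smEv k r (Δ.A j m) * Y m + smEv k r (Δ.s j) with hη
  have hηf : ∀ j, (η j).fst = v (some j) := by
    intro j
    rw [hy, hη]
    simp only [TrivSqZeroExt.fst_add, TrivSqZeroExt.fst_sum, TrivSqZeroExt.fst_mul, smEv_fst, hYf]
  let w : Option J → DualNumber ℂ := fun o =>
    match o with
    | none => smEv k r (tay x0 Polynomial.X)
    | some j => η j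
  have hX : tay x0 (Polynomial.X : Polynomial k) = PowerSeries.C x0 + PowerSeries.X := by
    simp [tay]
  have hwf : (fun i => (w i).fst) = v := by
    funext i
    cases i with
    | none =>
      change (smEv k r (tay x0 Polynomial.X)).fst = _
      rw [smEv_fst, hX, hv]
      simp
    | some j => exact hηf j
  have hcomp : (smW (k := k) w).comp (emb k J) = (smEv k r).comp (tay x0) := by
    refine Polynomial.ringHom_ext (fun a => ?_) ?_
    · have e1 : emb k J (Polynomial.C a) = MvPolynomial.C a := by
        simp [emb, MvPolynomial.algebraMap_eq]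
      have e2 : tay x0 (Polynomial.C a) = PowerSeries.C a := by
        simp [tay, PowerSeries.algebraMap_eq]
      rw [RingHom.comp_apply, RingHom.comp_apply, e1, e2]
      ext
      · rw [smW_fst, smEv_fst]
        simp
      · rw [smEv_snd]
        have : PowerSeries.coeff 1 (PowerSeries.C a) = 0 := by
          rw [PowerSeries.coeff_C]
          simp
        rw [this]
        simp [smW]
    · have e1 : emb k J Polynomial.X = MvPolynomial.X none := by
        simp [emb]
      rw [RingHom.comp_apply, RingHom.comp_apply, e1]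
      simp [smW, w]
  have key : smW (k := k) w (pol D) = ∑ i, smEv k r (Δ.U i) * Y i ^ 2 +
      ∑ i, smEv k r (Δ.B i) * Y i + smEv k r Δ.c := by
    rw [pol, QD.val_hom, hcomp, ← QD.val_map, ← Δ.eq]
    congr 1
    funext j
    simp [smW, w, hη]
  have hs := congrArg TrivSqZeroExt.snd key
  rw [smW_snd, hwf] at hs
  have h0 : ∑ i, aeval v (pderiv i (pol D)) * (w i).snd = 0 :=
    Finset.sum_eq_zero fun i _ => by rw [hg i, zero_mul]
  rw [h0] at hs
  rw [hs]
  simp only [TrivSqZeroExt.snd_add, TrivSqZeroExt.snd_sum, pow_two, TrivSqZeroExt.snd_mul,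
    TrivSqZeroExt.fst_mul, smEv_fst, smEv_snd, hYf, hYs, smul_eq_mul, op_smul_eq_mul]

  congr 1
  congr 1
  · refine Finset.sum_congr rfl fun i _ => ?_
    ring
  · refine Finset.sum_congr rfl fun i _ => ?_
    ring

theorem SMG : SMGStmt := by
  intro k _ _ J _ _ D x0 Δ hS v hv _
  by_contra hcon
  push Not at hcon
  obtain ⟨-, h1, hB, hU⟩ := hS
  have inj : ∀ a : k, algebraMap k ℂ a = 0 → a = 0 := fun a h => by
    rwa [map_eq_zero] at h
  -- the coordinates `y'`
  set y : J → ℂ := fun i => ∑ j, algebraMap k ℂ (PowerSeries.coeff 0 (Δ.A' i j)) *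
    (v (some j) - algebraMap k ℂ (PowerSeries.coeff 0 (Δ.s j))) with hydef
  have hAA : ∀ i j, ∑ m, algebraMap k ℂ (PowerSeries.coeff 0 (Δ.A i m)) *
      algebraMap k ℂ (PowerSeries.coeff 0 (Δ.A' m j)) = if i = j then 1 else 0 := by
    intro i j
    have h := congrFun (congrFun Δ.l i) j
    have h' := congrArg (fun u => algebraMap k ℂ (PowerSeries.coeff 0 u)) h
    simp only [Matrix.mul_apply, Matrix.one_apply] at h'
    rw [map_sum, map_sum] at h'
    simp only [PowerSeries.coeff_zero_eq_constantCoeff, map_mul] at h' ⊢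
    rw [h']
    split_ifs <;> simp
  have hy : ∀ j, v (some j) = ∑ m, algebraMap k ℂ (PowerSeries.coeff 0 (Δ.A j m)) * y m +
      algebraMap k ℂ (PowerSeries.coeff 0 (Δ.s j)) := by
    intro j
    have e : ∑ m, algebraMap k ℂ (PowerSeries.coeff 0 (Δ.A j m)) * y m =
        v (some j) - algebraMap k ℂ (PowerSeries.coeff 0 (Δ.s j)) := by
      simp only [hydef, Finset.mul_sum]
      rw [Finset.sum_comm]
      have : ∀ l, ∑ m, algebraMap k ℂ (PowerSeries.coeff 0 (Δ.A j m)) *
          (algebraMap k ℂ (PowerSeries.coeff 0 (Δ.A' m l)) *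
            (v (some l) - algebraMap k ℂ (PowerSeries.coeff 0 (Δ.s l)))) =
          (if j = l then 1 else 0) * (v (some l) - algebraMap k ℂ (PowerSeries.coeff 0 (Δ.s l))) := by
        intro l
        rw [← hAA j l, Finset.sum_mul]
        exact Finset.sum_congr rfl fun m _ => by ring
      simp only [this]
      simp
    rw [e]
    ring
  have hB0 : ∀ i, PowerSeries.coeff 0 (Δ.B i) = 0 := fun i =>
    PowerSeries.X_pow_dvd_iff.1 (hB i) 0 (by norm_num)
  have hB1 : ∀ i, PowerSeries.coeff 1 (Δ.B i) = 0 := fun i =>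
    PowerSeries.X_pow_dvd_iff.1 (hB i) 1 (by norm_num)
  -- the constant terms of the `U_i`
  have hy0 : ∀ i, PowerSeries.coeff 0 (Δ.U i) ≠ 0 → y i = 0 := by
    intro i hi
    have h := smArc D x0 Δ v hv hcon y hy 0 (Pi.single i 1)
    simp only [hB0, hB1, map_zero, mul_zero, zero_mul, add_zero, zero_add,
      Finset.sum_const_zero] at h
    rw [Finset.sum_eq_single i] at h
    · rw [Pi.single_eq_same, mul_one] at h
      rcases mul_eq_zero.1 h with h' | h'
      · exact absurd (inj _ h') hi
      · simpa using h'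
    · intro j _ hj
      rw [Pi.single_eq_of_ne hj]
      simp
    · intro hni
      exact absurd (Finset.mem_univ i) hni
  have h := smArc D x0 Δ v hv hcon y hy 1 0
  simp only [hB0, hB1, map_zero, mul_zero, zero_mul, add_zero, Finset.sum_const_zero,
    Pi.zero_apply, one_mul] at h
  rw [Finset.sum_eq_zero, zero_add] at h
  · exact h1 (inj _ h)
  · intro i _
    by_cases hi : PowerSeries.coeff 0 (Δ.U i) = 0
    · have : PowerSeries.coeff 1 (Δ.U i) = 0 := by
        by_contra hne
        refine hU i ⟨fun h0 => hne (by rw [h0, map_zero]), ?_⟩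
        have : (Δ.U i).order = ((1 : ℕ) : ℕ∞) := by
          rw [PowerSeries.order_eq_nat]
          refine ⟨hne, fun l hl => ?_⟩
          have : l = 0 := by omega
          rw [this, hi]
        rw [od, this]
        rfl
      rw [this, map_zero, zero_mul]
    · rw [hy0 i hi]
      simp

end SMG

end Pool.Agent.H87.QF
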