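import Pool.Agent.H87.QF.Stmts

/-! # QFM, row SPL: splitting by the order of `X` -/

set_option autoImplicit false

namespace Pool.Agent.H87.QF

open MvPolynomial Pool.Agent.H39.MonoR Pool.Agent.H75.Mono

section

variable {k : Type} [Field k] [Algebra k ℂ] {J : Type} [Fintype J]

theorem spl_imp {E : Type} [Aff E] (p : Prop) {q : E → Prop} (h : ICons k {x | q x}) :
    ICons k {x : E | p → q x} := by
  by_cases hp : p
  · have e : {x : E | p → q x} = {x : E | q x} := by
      ext x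
      exact ⟨fun hx => hx hp, fun hx _ => hx⟩
    rw [e]
    exact h
  · have e : {x : E | p → q x} = Set.univ := by
      ext x
      exact ⟨fun _ => Set.mem_univ _, fun _ h1 => absurd h1 hp⟩
    rw [e]
    exact ICons.univ

theorem spl_val (x0 : k) (p : Prop) [Decidable p] {d : ℕ} (l : Fin (d + 1)) :
    ICons k {v : Fin (d + 1) → ℂ | v l = if p then algebraMap k ℂ x0 else 0} := by
  by_cases hp : p
  · simp only [if_pos hp]
    exact ICons.eq (PFun.apply l) (PFun.const x0)
  · simp only [if_neg hp]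
    exact ICons.eq (PFun.apply l) PFun.zero

theorem spl_eq (x0 : k) (d n : ℕ) : ICons k (ordEq x0 d n) :=
  ICons.and (ICons.forall_fin fun l => spl_imp _ (spl_val x0 _ l))
    (ICons.forall_fin fun l => spl_imp _ (ICons.ne (PFun.apply l) PFun.zero))

theorem spl_gt (x0 : k) (d m : ℕ) : ICons k (ordGt x0 d m) :=
  ICons.forall_fin fun l => spl_imp _ (spl_val x0 _ l)

theorem spl_cons (f : MvPolynomial (Option J) k) (d : ℕ) {Q : Set (Fin (d + 1) → ℂ)}
    (hQ : ICons k Q) (t : Test k) :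
    ICons k {x : (Option J × Fin (d + 1) → ℂ) × t.E | x.2 ∈ t.W ∧
      (fun l => x.1 (none, l)) ∈ Q ∧ Hit f d x.1 (t.c x.2)} :=
  ICons.and (ICons.mem t.cW PMap.snd)
    (ICons.and (ICons.mem hQ (PMap.pi fun l => (PFun.apply (none, l)).comp PMap.fst))
      (ICons.hit d f PMap.fst (t.pf.comp PMap.snd)))

theorem spl_zq (f : MvPolynomial (Option J) k) (d : ℕ) {Q A B : Set (Fin (d + 1) → ℂ)}
    (hA : ICons k A) (hB : ICons k B) (h : Disjoint A B) (hQ : Q = A ∪ B) (t : Test k) :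
    zq f d Q t = zq f d A t + zq f d B t := by
  unfold zq
  rw [← mo_union (spl_cons f d hA t) (spl_cons f d hB t)]
  · congr 1
    ext x
    constructor
    · rintro ⟨h1, h2, h3⟩
      rw [hQ] at h2
      rcases h2 with h2 | h2
      · exact Or.inl ⟨h1, h2, h3⟩
      · exact Or.inr ⟨h1, h2, h3⟩
    · rintro (⟨h1, h2, h3⟩ | ⟨h1, h2, h3⟩)
      · exact ⟨h1, hQ ▸ Or.inl h2, h3⟩
      · exact ⟨h1, hQ ▸ Or.inr h2, h3⟩
  · rw [Set.disjoint_left] at h ⊢
    rintro x ⟨-, h1, -⟩ ⟨-, h2, -⟩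
    exact h h1 h2

theorem spl_zd (f : MvPolynomial (Option J) k) (d : ℕ) {Q A B : Set (Fin (d + 1) → ℂ)}
    (hA : ICons k A) (hB : ICons k B) (h : Disjoint A B) (hQ : Q = A ∪ B) (t : Test k) :
    zd f d Q t = zd f d A t + zd f d B t := by
  unfold zd
  rw [spl_zq f d hA hB h hQ t, spl_zq f d hA hB h hQ t.zr]
  ring

theorem spl_step (f : MvPolynomial (Option J) k) (d : ℕ) (x0 : k) (m : ℕ) (hm : m + 1 ≤ d)
    (t : Test k) :
    zd f d (ordGt x0 d m) t = zd f d (ordEq x0 d (m + 1)) t + zd f d (ordGt x0 d (m + 1)) t := by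
  refine spl_zd f d (spl_eq x0 d (m + 1)) (spl_gt x0 d (m + 1)) ?_ ?_ t
  · rw [Set.disjoint_left]
    intro v h1 h2
    have h3 := h1.2 ⟨m + 1, by omega⟩ rfl
    have h4 := h2 ⟨m + 1, by omega⟩ le_rfl
    rw [if_neg (by simp)] at h4
    exact h3 h4
  · ext v
    constructor
    · intro h1
      by_cases h2 : v ⟨m + 1, by omega⟩ = 0
      · right
        intro l hl
        by_cases hl' : (l : ℕ) ≤ m
        · exact h1 l hl'
        · have hl2 : l = ⟨m + 1, by omega⟩ := Fin.ext (by simp; omega)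
          rw [hl2, h2, if_neg (by simp)]
      · left
        refine ⟨fun l hl => h1 l (by omega), fun l hl => ?_⟩
        have hl2 : l = ⟨m + 1, by omega⟩ := Fin.ext hl
        rw [hl2]
        exact h2
    · rintro (h1 | h1)
      · exact fun l hl => h1.1 l (by omega)
      · exact fun l hl => h1 l (by omega)

theorem spl_two (f : MvPolynomial (Option J) k) (d : ℕ) (x0 : k) (t : Test k) :
    ∀ m, m ≤ d → zd f d (ordGt x0 d 0) t =
      ∑ n ∈ Finset.Icc 1 m, zd f d (ordEq x0 d n) t + zd f d (ordGt x0 d m) t := by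
  intro m
  induction m with
  | zero => intro _; simp
  | succ m ih =>
    intro hm
    rw [ih (by omega), spl_step f d x0 m hm t, Finset.sum_Icc_succ_top (by omega), add_assoc]

theorem spl_finset (f : MvPolynomial (Option J) k) (d : ℕ) (s : Finset k) (t : Test k) :
    ICons k {v : Fin (d + 1) → ℂ | ∃ x0 ∈ s, v ∈ ordGt x0 d 0} ∧
    zd f d {v : Fin (d + 1) → ℂ | ∃ x0 ∈ s, v ∈ ordGt x0 d 0} t =
      ∑ x0 ∈ s, zd f d (ordGt x0 d 0) t := by
  classical
  induction s using Finset.induction_on with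
  | empty =>
    have e : {v : Fin (d + 1) → ℂ | ∃ x0 ∈ (∅ : Finset k), v ∈ ordGt x0 d 0} = ∅ := by
      ext v
      simp
    rw [e, Finset.sum_empty]
    refine ⟨ICons.empty, ?_⟩
    have h := spl_zd f d (Q := ∅) (ICons.empty (k := k)) (ICons.empty (k := k))
      (Set.disjoint_empty _) (Set.union_empty _).symm t
    exact left_eq_add.1 h
  | insert a s ha ih =>
    have e : {v : Fin (d + 1) → ℂ | ∃ x0 ∈ insert a s, v ∈ ordGt x0 d 0} =
        ordGt a d 0 ∪ {v : Fin (d + 1) → ℂ | ∃ x0 ∈ s, v ∈ ordGt x0 d 0} := by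
      ext v
      simp
    have hdis : Disjoint (ordGt a d 0) {v : Fin (d + 1) → ℂ | ∃ x0 ∈ s, v ∈ ordGt x0 d 0} := by
      rw [Set.disjoint_left]
      rintro v h1 ⟨x0, hx0, h2⟩
      have h3 := h1 0 (le_refl _)
      have h4 := h2 0 (le_refl _)
      rw [h3] at h4
      simp only [Fin.val_zero, if_true] at h4
      have h5 := (algebraMap k ℂ).injective h4
      rw [h5] at ha
      exact ha hx0
    refine ⟨?_, ?_⟩
    · rw [e]
      exact ICons.union (spl_gt a d 0) ih.1
    · rw [spl_zd f d (spl_gt a d 0) ih.1 hdis e t, ih.2, Finset.sum_insert ha]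

theorem spl_root [IsAlgClosed k] {h : Polynomial k} (hh : h ≠ 0) {z : ℂ}
    (hz : Polynomial.aeval z h = 0) : ∃ x0 ∈ h.rootSet k, algebraMap k ℂ x0 = z := by
  have hint : IsIntegral k z := by
    have : IsAlgebraic k z := ⟨h, hh, hz⟩
    exact this.isIntegral
  have hdeg : (minpoly k z).degree = 1 :=
    IsAlgClosed.degree_eq_one_of_irreducible k (minpoly.irreducible hint)
  obtain ⟨x0, hx0⟩ := minpoly.mem_range_of_degree_eq_one k z hdeg
  refine ⟨x0, ?_, hx0⟩
  rw [Polynomial.mem_rootSet]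
  refine ⟨hh, ?_⟩
  rw [← hx0, Polynomial.aeval_algebraMap_apply] at hz
  exact (map_eq_zero_iff _ (algebraMap k ℂ).injective).1 hz

end

theorem SPL : SPLStmt := by
  intro k _ _ J _ _ f d
  refine ⟨fun x0 n => ⟨spl_eq x0 d n, spl_gt x0 d n⟩, fun x0 m t hm => spl_two f d x0 t m hm, ?_⟩
  intro h t hk hh
  classical
  have hfin : (h.rootSet k).Finite := Polynomial.rootSet_finite h k
  have hsum : ∑ᶠ x0 ∈ h.rootSet k, zd f d (ordGt x0 d 0) t =
      ∑ x0 ∈ hfin.toFinset, zd f d (ordGt x0 d 0) t := finsum_mem_eq_finite_toFinset_sum _ hfin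
  have hne : ICons k {v : Fin (d + 1) → ℂ | Polynomial.aeval (v 0) h ≠ 0} := by
    have h1 : PFun k fun v : Fin (d + 1) → ℂ => Polynomial.aeval (v 0) h := by
      refine ⟨Polynomial.aeval (X (0 : Fin (d + 1))) h, fun v => ?_⟩
      change Polynomial.aeval (v 0) h = aeval v (Polynomial.aeval (X 0) h)
      rw [← Polynomial.aeval_algHom_apply, aeval_X]
    exact ICons.ne h1 PFun.zero
  have h1 := spl_finset f d hfin.toFinset t
  have hdis : Disjoint {v : Fin (d + 1) → ℂ | ∃ x0 ∈ hfin.toFinset, v ∈ ordGt x0 d 0}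
      {v : Fin (d + 1) → ℂ | Polynomial.aeval (v 0) h ≠ 0} := by
    rw [Set.disjoint_left]
    rintro v ⟨x0, hx0, h2⟩ h3
    have h4 := h2 0 (le_refl _)
    simp only [Fin.val_zero, if_true] at h4
    rw [Set.Finite.mem_toFinset, Polynomial.mem_rootSet] at hx0
    apply h3
    rw [h4, Polynomial.aeval_algebraMap_apply, hx0.2, map_zero]
  have hun : (Set.univ : Set (Fin (d + 1) → ℂ)) =
      {v : Fin (d + 1) → ℂ | ∃ x0 ∈ hfin.toFinset, v ∈ ordGt x0 d 0} ∪
      {v : Fin (d + 1) → ℂ | Polynomial.aeval (v 0) h ≠ 0} := by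
    symm
    rw [Set.eq_univ_iff_forall]
    intro v
    by_cases h2 : Polynomial.aeval (v 0) h = 0
    · left
      obtain ⟨x0, hx0, h3⟩ := spl_root hh h2
      refine ⟨x0, hfin.mem_toFinset.2 hx0, fun l hl => ?_⟩
      have hl0 : l = 0 := Fin.ext (by simpa using hl)
      rw [hl0, h3]
      simp
    · right
      exact h2
  have h2 := spl_zd f d h1.1 hne hdis hun t
  rw [h1.2, ← hsum] at h2
  rw [← h2]
  have hcard : Nat.card (Option J) = Fintype.card J + 1 := by
    rw [Nat.card_eq_fintype_card, Fintype.card_option]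
  have h3 : ∀ t : Test k, zt f d t = zq f d Set.univ t *
      ↑(Lu k ^ (-(((Fintype.card J + 1) * d : ℕ) : ℤ))) := by
    intro t
    unfold zt zq
    rw [hcard]
    congr 2
    ext x
    constructor
    · rintro ⟨h4, h5⟩
      exact ⟨h4, Set.mem_univ _, h5⟩
    · rintro ⟨h4, -, h5⟩
      exact ⟨h4, h5⟩
  rw [h3, h3, zd]
  ring

end Pool.Agent.H87.QF
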