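import Pool.Agent.H87.QF.Stmts

/-! # QFM, row SUM: the sum over a fan -/

set_option autoImplicit false

namespace Pool.Agent.H87.QF

open MvPolynomial Pool.Agent.H39.MonoR Pool.Agent.H75.Mono

theorem sum_fsum {R : Type*} [CommRing R] {u : Rˣ} {S : Set (ℤ × ℕ)} {T J : Type*}
    (s : Finset J) {F : J → T → PowerSeries R} (h : ∀ j ∈ s, RatF u S (F j)) :
    RatF u S fun t => ∑ j ∈ s, F j t := by
  classical
  induction s using Finset.induction_on with
  | empty =>
    refine (RatF.of_fin 0 fun t n _ => ?_ : RatF u ∅ _).mono (Set.empty_subset _)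
    simp
  | insert a s ha ih =>
    have h1 := (h a (Finset.mem_insert_self a s)).add
      (ih fun j hj => h j (Finset.mem_insert_of_mem hj))
    rw [Set.union_self] at h1
    refine h1.congr fun t => ?_
    rw [Finset.sum_insert ha]

/-- the cell of `τ` -/
def sumCell (Λ : Finset ℕ) (τ n d : ℕ) : Prop := n * τ ≤ d ∧ ∀ σ ∈ Λ, τ < σ → d < n * σ

theorem sum_cells {R : Type*} [CommRing R] (Λ : Finset ℕ) (τ₁ : ℕ) (h1 : τ₁ ∈ Λ)
    (hmin : ∀ τ ∈ Λ, τ₁ ≤ τ) (d : ℕ) (G : ℕ → R) [∀ τ, DecidablePred fun n => 1 ≤ n ∧ sumCell Λ τ n d] :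
    ∑ n ∈ (Finset.range (d + 1)).filter (fun n => 1 ≤ n ∧ n * τ₁ ≤ d), G n
      = ∑ τ ∈ Λ, ∑ n ∈ (Finset.range (d + 1)).filter (fun n => 1 ≤ n ∧ sumCell Λ τ n d), G n := by
  classical
  -- the largest element with `n τ ≤ d`
  have hg : ∀ n, 1 ≤ n → n * τ₁ ≤ d → ∃ τ ∈ Λ, sumCell Λ τ n d := by
    intro n _ hnd
    have hne : (Λ.filter fun τ => n * τ ≤ d).Nonempty := ⟨τ₁, Finset.mem_filter.2 ⟨h1, hnd⟩⟩
    obtain ⟨hm, hd⟩ := Finset.mem_filter.1 (Finset.max'_mem _ hne)
    refine ⟨_, hm, hd, fun σ hσ hlt => ?_⟩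
    by_contra hc
    have := Finset.le_max' (Λ.filter fun τ => n * τ ≤ d) σ (Finset.mem_filter.2 ⟨hσ, not_lt.1 hc⟩)
    omega
  have huniq : ∀ n τ τ', τ ∈ Λ → τ' ∈ Λ → sumCell Λ τ n d → sumCell Λ τ' n d → τ = τ' := by
    intro n τ τ' hτ hτ' hc hc'
    rcases lt_trichotomy τ τ' with h | h | h
    · exact absurd hc'.1 (not_le.2 (hc.2 τ' hτ' h))
    · exact h
    · exact absurd hc.1 (not_le.2 (hc'.2 τ hτ h))
  simp only [Finset.sum_filter]
  rw [Finset.sum_comm]
  refine Finset.sum_congr rfl fun n _ => ?_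
  by_cases hn : 1 ≤ n ∧ n * τ₁ ≤ d
  · rw [if_pos hn]
    obtain ⟨τ, hτ, hc⟩ := hg n hn.1 hn.2
    rw [Finset.sum_eq_single τ]
    · rw [if_pos ⟨hn.1, hc⟩]
    · intro τ' hτ' hne
      rw [if_neg]
      rintro ⟨_, hc'⟩
      exact hne (huniq n τ' τ hτ' hτ hc' hc)
    · intro h
      exact absurd hτ h
  · rw [if_neg hn]
    symm
    refine Finset.sum_eq_zero fun τ hτ => ?_
    rw [if_neg]
    rintro ⟨h1n, hc⟩
    refine hn ⟨h1n, le_trans (Nat.mul_le_mul_left n (hmin τ hτ)) hc.1⟩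

theorem SUM (h : CONStmt) : SUMStmt := by
  classical
  intro R _ u T G Λ a S μ τ₁ hΛ h1 hmin hμ hmax hcell hlast
  obtain ⟨c1, c2, c3, -⟩ := h R u T
  have key : ∀ τ ∈ Λ, RatF u S fun t : T => PowerSeries.mk fun d =>
      ∑ n ∈ (Finset.range (d + 1)).filter (fun n => 1 ≤ n ∧ sumCell Λ τ n d), G n d t := by
    intro τ hτ
    by_cases hlt : τ < μ
    · -- the successor
      have hne : (Λ.filter fun σ => τ < σ).Nonempty := ⟨μ, Finset.mem_filter.2 ⟨hμ, hlt⟩⟩
      obtain ⟨hm, hd⟩ := Finset.mem_filter.1 (Finset.min'_mem _ hne)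
      set τ' := (Λ.filter fun σ => τ < σ).min' hne with hτ'
      have hs : ∀ σ ∈ Λ, σ ≤ τ ∨ τ' ≤ σ := by
        intro σ hσ
        by_cases hc : σ ≤ τ
        · exact Or.inl hc
        · exact Or.inr (Finset.min'_le _ σ (Finset.mem_filter.2 ⟨hσ, not_le.1 hc⟩))
      refine ((c1 G τ τ' (a τ) (a τ') (hΛ τ hτ).1 hd
        (fun n d t hn hnd hdn => hcell τ hτ τ' hm hd hs n d t hn hnd hdn)).mono ?_).congr ?_
      · rintro p (rfl | rfl)
        · exact (hΛ τ hτ).2
        · exact (hΛ τ' hm).2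
      · intro t
        refine PowerSeries.ext fun d => ?_
        rw [PowerSeries.coeff_mk, PowerSeries.coeff_mk]
        refine Finset.sum_congr (Finset.filter_congr fun n _ => ?_) fun _ _ => rfl
        constructor
        · rintro ⟨ha, hb, hc⟩
          refine ⟨ha, hb, fun σ hσ hlt' => ?_⟩
          rcases hs σ hσ with h' | h'
          · omega
          · exact lt_of_lt_of_le hc (Nat.mul_le_mul_left n h')
        · rintro ⟨ha, hb, hc⟩
          exact ⟨ha, hb, hc τ' hm hd⟩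
    · have hτμ : τ = μ := le_antisymm (hmax τ hτ) (not_lt.1 hlt)
      subst hτμ
      have hce : ∀ n d, sumCell Λ τ n d ↔ n * τ ≤ d := fun n d =>
        ⟨fun hc => hc.1, fun hc => ⟨hc, fun σ hσ hlt' => absurd (hmax σ hσ) (not_le.2 hlt')⟩⟩
      rcases hlast with ⟨r, hr, hG⟩ | ⟨h0, hG⟩
      · refine ((c2 G τ (a τ) r (hΛ τ hτ).1 (fun n d t hn hnd => hG n d t hn hnd)).mono ?_).congr ?_
        · rintro p (rfl | rfl)
          · exact (hΛ τ hτ).2
          · exact hr
        · intro t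
          refine PowerSeries.ext fun d => ?_
          rw [PowerSeries.coeff_mk, PowerSeries.coeff_mk]
          refine Finset.sum_congr (Finset.filter_congr fun n _ => ?_) fun _ _ => rfl
          rw [hce]
      · refine ((c3 (fun n t => G n (n * τ) t) τ (a τ) (hΛ τ hτ).1
          (fun n t hn => hG n t hn)).mono ?_).congr ?_
        · rintro p rfl
          exact (hΛ τ hτ).2
        · intro t
          refine PowerSeries.ext fun d => ?_
          rw [PowerSeries.coeff_mk, PowerSeries.coeff_mk, Finset.sum_filter, Finset.sum_filter]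
          refine Finset.sum_congr rfl fun n _ => ?_
          by_cases hn : 1 ≤ n ∧ n * τ = d
          · rw [if_pos hn, if_pos ⟨hn.1, (hce n d).2 hn.2.le⟩, hn.2]
          · rw [if_neg hn]
            by_cases hc : 1 ≤ n ∧ sumCell Λ τ n d
            · rw [if_pos hc]
              refine (h0 n d t hc.1 (lt_of_le_of_ne ((hce n d).1 hc.2) fun he => hn ⟨hc.1, he⟩)).symm
            · rw [if_neg hc]
  refine (sum_fsum Λ key).congr fun t => ?_
  refine PowerSeries.ext fun d => ?_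
  rw [map_sum, PowerSeries.coeff_mk]
  simp only [PowerSeries.coeff_mk]
  exact (sum_cells Λ τ₁ h1 hmin d (fun n => G n d t)).symm

end Pool.Agent.H87.QF
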