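import Pool.Agent.H87.QF.Stmts

/-! # Board `qfm` (MP_432c1b_ag): row TRL (helper45) -/

set_option autoImplicit false

namespace Pool.Agent.H87.QF

open MvPolynomial Pool.Agent.H39.MonoR Pool.Agent.H75.Mono

theorem TRL : TRLStmt := by
  intro k _ _ G _ P H lam c τ hP hH hlam hc hτ hne hT h0 hadd
  have hS : ∀ e : G → ℂ, PFun k e → ICons k {x : G | x ∈ P ∧ H x = e x} := fun e he =>
    ICons.and hP (ICons.eq hH he)
  have hA : ∀ e : G → ℂ, PFun k e →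
      ICons k {y : G × ℂ | (y.1 ∈ P ∧ H y.1 = e y.1) ∧ lam y.1 * y.2 = 1} := by
    intro e he
    refine ICons.and ((hS e he).mem PMap.fst) (ICons.eq ?_ PFun.one)
    exact (hlam.comp PMap.fst).mul (Pool.Agent.H75.Mono.PFun.comp (f := fun x : ℂ => x) Pool.Agent.H75.Mono.PFun.id' PMap.snd)
  have h1 : ∀ e : G → ℂ, PFun k e → mo k {x : G | x ∈ P ∧ H x = e x} =
      mo k {y : G × ℂ | (y.1 ∈ P ∧ H y.1 = e y.1) ∧ lam y.1 * y.2 = 1} := by
    intro e he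
    refine (mo_bij (hA e he) (hS e he) (f := fun y => y.1) PMap.fst ⟨?_, ?_, ?_⟩).symm
    · intro y hy
      exact hy.1
    · rintro ⟨x, v⟩ hy ⟨x', v'⟩ hy' hxy
      simp only at hxy
      subst hxy
      have h2 : lam x * v = lam x * v' := hy.2.trans hy'.2.symm
      rw [mul_left_cancel₀ (hne x hy.1.1) h2]
    · intro x hx
      refine ⟨(x, (lam x)⁻¹), ⟨hx, ?_⟩, rfl⟩
      exact mul_inv_cancel₀ (hne x hx.1)
  rw [h1 c hc, h1 (fun _ => 0) PFun.zero]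
  have hmap : PMap k (fun y : G × ℂ => (τ (y.1, c y.1 * y.2), y.2)) := by
    refine PMap.prodMk (hτ.comp (PMap.prodMk PMap.fst (PMap.of_pFun ?_))) PMap.snd
    exact (hc.comp PMap.fst).mul (Pool.Agent.H75.Mono.PFun.comp (f := fun x : ℂ => x) Pool.Agent.H75.Mono.PFun.id' PMap.snd)
  refine (mo_bij (hA _ PFun.zero) (hA _ hc) hmap ⟨?_, ?_, ?_⟩).symm
  · rintro ⟨x, v⟩ ⟨⟨hx, hH0⟩, hv⟩
    simp only at hx hH0 hv
    obtain ⟨t1, t2, t3, t4⟩ := hT x hx (c x * v)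
    refine ⟨⟨t1, ?_⟩, ?_⟩
    · simp only
      rw [t2, t4, hH0]
      linear_combination c x * hv
    · simp only
      rw [t3]
      exact hv
  · rintro ⟨x, v⟩ ⟨⟨hx, hH0⟩, hv⟩ ⟨x', v'⟩ ⟨⟨hx', hH0'⟩, hv'⟩ hxy
    simp only at hx hH0 hv hx' hH0' hv' hxy
    rw [Prod.mk.injEq] at hxy
    obtain ⟨e1, e2⟩ := hxy
    subst e2
    have c1 : c x = c x' := by
      rw [← (hT x hx (c x * v)).2.2.2, ← (hT x' hx' (c x' * v)).2.2.2, e1]
    have e3 : τ (τ (x, c x * v), -(c x * v)) = x := by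
      rw [hadd x hx, add_neg_cancel, h0 x hx]
    have e4 : τ (τ (x', c x' * v), -(c x' * v)) = x' := by
      rw [hadd x' hx', add_neg_cancel, h0 x' hx']
    have e5 : x = x' := by
      rw [← e3, ← e4, e1, c1]
    rw [e5]
  · rintro ⟨z, v⟩ ⟨⟨hz, hHz⟩, hv⟩
    simp only at hz hHz hv
    obtain ⟨t1, t2, t3, t4⟩ := hT z hz (-(c z * v))
    refine ⟨(τ (z, -(c z * v)), v), ⟨⟨t1, ?_⟩, ?_⟩, ?_⟩
    · simp only
      rw [t2, hHz]
      linear_combination -c z * hv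
    · simp only
      rw [t3]
      exact hv
    · simp only
      rw [t4, hadd z hz, neg_add_cancel, h0 z hz]

end Pool.Agent.H87.QF
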