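import Pool.Agent.H87.QF.Stmts

/-! # Project QFM, row TYP: over the generic point of the line -/

set_option autoImplicit false

namespace Pool.Agent.H87.QF

open MvPolynomial Pool.Agent.H39.MonoR Pool.Agent.H75.Mono

namespace TypAux

section lin

variable {R J : Type} [CommRing R] [Fintype J]

/-- the derivative of the quadric at `z` in the direction `w` -/
def lin (D : QD R J) {S : Type} [CommRing S] (φ : R →+* S) (z w : J → S) : S :=
  ∑ j, w j * (∑ l, (φ (D.a j l) + φ (D.a l j)) * z l + φ (D.b j))

theorem val_hom (D : QD R J) {S T : Type} [CommRing S] [CommRing T] (φ : R →+* S) (g : S →+* T)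
    (y : J → S) : g (D.val φ y) = D.val (g.comp φ) fun j => g (y j) := by
  simp [QD.val, map_sum, map_add, map_mul]

theorem lin_hom (D : QD R J) {S T : Type} [CommRing S] [CommRing T] (φ : R →+* S) (g : S →+* T)
    (z w : J → S) : g (lin D φ z w) = lin D (g.comp φ) (fun j => g (z j)) fun j => g (w j) := by
  simp [lin, map_sum, map_add, map_mul]

theorem lin_smul (D : QD R J) {S : Type} [CommRing S] (φ : R →+* S) (z w : J → S) (q : S) :
    lin D φ z (fun j => q * w j) = q * lin D φ z w := by
  simp [lin, Finset.mul_sum, mul_assoc]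

theorem val_sub (D : QD R J) {S : Type} [CommRing S] (φ : R →+* S) (z w : J → S) :
    D.val φ (fun j => z j + w j) - D.val φ (fun j => z j - w j) = 2 * lin D φ z w := by
  have h1 : ∑ j, ∑ l, φ (D.a l j) * (z l * w j) = ∑ i, ∑ j, φ (D.a i j) * (z i * w j) :=
    Finset.sum_comm
  have h2 : lin D φ z w = (∑ i, ∑ j, φ (D.a i j) * (w i * z j) +
      ∑ i, ∑ j, φ (D.a i j) * (z i * w j)) + ∑ i, φ (D.b i) * w i := by
    rw [← h1, ← Finset.sum_add_distrib, ← Finset.sum_add_distrib]
    unfold lin
    refine Finset.sum_congr rfl fun j _ => ?_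
    rw [mul_add, Finset.mul_sum, ← Finset.sum_add_distrib, mul_comm (w j) (φ (D.b j))]
    congr 1
    refine Finset.sum_congr rfl fun l _ => ?_
    ring
  have h3 : ∑ i, ∑ j, φ (D.a i j) * ((z i + w i) * (z j + w j)) =
      ∑ i, ∑ j, φ (D.a i j) * ((z i - w i) * (z j - w j)) +
      2 * (∑ i, ∑ j, φ (D.a i j) * (w i * z j) + ∑ i, ∑ j, φ (D.a i j) * (z i * w j)) := by
    rw [← Finset.sum_add_distrib, Finset.mul_sum, ← Finset.sum_add_distrib]
    refine Finset.sum_congr rfl fun i _ => ?_
    rw [← Finset.sum_add_distrib, Finset.mul_sum, ← Finset.sum_add_distrib]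
    refine Finset.sum_congr rfl fun j _ => ?_
    ring
  have h4 : ∑ i, φ (D.b i) * (z i + w i) =
      ∑ i, φ (D.b i) * (z i - w i) + 2 * ∑ i, φ (D.b i) * w i := by
    rw [Finset.mul_sum, ← Finset.sum_add_distrib]
    refine Finset.sum_congr rfl fun i _ => ?_
    ring
  rw [h2]
  unfold QD.val
  rw [h3, h4]
  ring

end lin

section den

variable {k : Type} [Field k]

theorem den {I : Type} [Finite I] (g : I → FractionRing (Polynomial k)) :
    ∃ (q : Polynomial k) (n : I → Polynomial k), q ≠ 0 ∧
      ∀ i, algebraMap (Polynomial k) (FractionRing (Polynomial k)) (n i) =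
        algebraMap (Polynomial k) (FractionRing (Polynomial k)) q * g i := by
  obtain ⟨b, hb⟩ := IsLocalization.exist_integer_multiples_of_finite
    (nonZeroDivisors (Polynomial k)) g
  choose n hn using hb
  refine ⟨b, n, nonZeroDivisors.coe_ne_zero b, fun i => ?_⟩
  rw [hn i, Algebra.smul_def]

end den

section pol

variable {k : Type} [Field k] [Algebra k ℂ] {J : Type} [Fintype J] [DecidableEq J]

/-- evaluation of the coefficients -/
noncomputable def ev (x : ℂ) : Polynomial k →+* ℂ := (Polynomial.aeval x).toRingHom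

theorem ev_apply (x : ℂ) (p : Polynomial k) : ev x p = Polynomial.aeval x p := rfl

omit [Fintype J] [DecidableEq J] in
theorem aeval_emb (v : Option J → ℂ) (p : Polynomial k) :
    aeval v (emb k J p) = ev (v none) p := by
  have h := Polynomial.aeval_algHom_apply (aeval v : MvPolynomial (Option J) k →ₐ[k] ℂ)
    (X none : MvPolynomial (Option J) k) p
  rw [aeval_X] at h
  exact h.symm

theorem aeval_pol (D : QD (Polynomial k) J) (v : Option J → ℂ) :
    aeval v (pol D) = D.val (ev (v none)) fun l => v (some l) := by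
  have h := val_hom D (emb k J) ((aeval v : MvPolynomial (Option J) k →ₐ[k] ℂ) :
    MvPolynomial (Option J) k →+* ℂ) fun j => X (some j)
  have h2 : ((aeval v : MvPolynomial (Option J) k →ₐ[k] ℂ) :
      MvPolynomial (Option J) k →+* ℂ).comp (emb k J) = ev (v none) :=
    RingHom.ext fun p => aeval_emb v p
  rw [h2] at h
  simp only [RingHom.coe_coe, aeval_X] at h
  exact h

omit [Algebra k ℂ] [Fintype J] [DecidableEq J] in
theorem pderiv_emb (j : J) (p : Polynomial k) : pderiv (some j) (emb k J p) = 0 := by
  have h := Derivation.map_aeval (pderiv (R := k) (some j : Option J)) p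
    (X none : MvPolynomial (Option J) k)
  have h2 : pderiv (R := k) (some j : Option J) (X none) = 0 :=
    pderiv_X_of_ne (by simp)
  rw [h2, smul_zero] at h
  exact h

theorem pderiv_pol (D : QD (Polynomial k) J) (j : J) :
    pderiv (some j) (pol D) =
      ∑ l, (emb k J (D.a j l) + emb k J (D.a l j)) * X (some l) + emb k J (D.b j) := by
  have hX : ∀ i : J, pderiv (R := k) (some j : Option J) (X (some i)) =
      if i = j then 1 else 0 := by
    intro i
    by_cases h : i = j
    · subst h; simp
    · rw [if_neg h]; exact pderiv_X_of_ne (by simpa using h)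
  unfold pol QD.val
  simp only [map_add, map_sum, Derivation.leibniz, pderiv_emb, mul_zero, add_zero, hX,
    smul_eq_mul]
  have e1 : ∀ i : J, ∑ l : J, emb k J (D.a i l) * (X (some i) * (if l = j then 1 else 0) +
      X (some l) * (if i = j then 1 else 0)) =
      emb k J (D.a i j) * X (some i) +
        if i = j then ∑ l, emb k J (D.a i l) * X (some l) else 0 := by
    intro i
    have : ∀ l : J, emb k J (D.a i l) * (X (some i) * (if l = j then 1 else 0) +
      X (some l) * (if i = j then 1 else 0)) =
      (if l = j then emb k J (D.a i l) * X (some i) else 0) +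
        (if i = j then emb k J (D.a i l) * X (some l) else 0) := by
      intro l
      split_ifs <;> simp [mul_add]
    rw [Finset.sum_congr rfl fun l _ => this l, Finset.sum_add_distrib,
      Finset.sum_ite_eq' Finset.univ j, if_pos (Finset.mem_univ j)]
    congr 1
    split_ifs
    · rfl
    · simp
  rw [Finset.sum_congr rfl fun i _ => e1 i, Finset.sum_add_distrib,
    Finset.sum_ite_eq' Finset.univ j, if_pos (Finset.mem_univ j)]
  simp only [mul_ite, mul_one, mul_zero]
  rw [Finset.sum_ite_eq' Finset.univ j, if_pos (Finset.mem_univ j), ← Finset.sum_add_distrib]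
  congr 1
  refine Finset.sum_congr rfl fun l _ => ?_
  ring

theorem aeval_pderiv (D : QD (Polynomial k) J) (v : Option J → ℂ) (j : J) :
    aeval v (pderiv (some j) (pol D)) =
      ∑ l, (ev (v none) (D.a j l) + ev (v none) (D.a l j)) * v (some l) + ev (v none) (D.b j) := by
  rw [pderiv_pol]
  simp only [map_add, map_sum, map_mul, aeval_emb, aeval_X]

/-- a nonzero directional derivative gives a nonzero partial derivative -/
theorem exists_of_lin (D : QD (Polynomial k) J) (v : Option J → ℂ) (w : J → ℂ)
    (h : lin D (ev (v none)) (fun l => v (some l)) w ≠ 0) :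
    ∃ i, aeval v (pderiv i (pol D)) ≠ 0 := by
  by_contra hc
  push Not at hc
  apply h
  unfold lin
  refine Finset.sum_eq_zero fun j _ => ?_
  rw [← aeval_pderiv, hc (some j), mul_zero]

end pol

section lift

variable {k : Type} [Field k] {J : Type} [Fintype J]

omit [Fintype J] in
theorem map_inj :
    Function.Injective (MvPolynomial.map (σ := J)
      (algebraMap (Polynomial k) (FractionRing (Polynomial k)))) :=
  map_injective _ (IsFractionRing.injective _ _)

omit [Fintype J] in
theorem map_comp_C :
    (MvPolynomial.map (σ := J) (algebraMap (Polynomial k) (FractionRing (Polynomial k)))).comp C =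
      C.comp (algebraMap (Polynomial k) (FractionRing (Polynomial k))) :=
  RingHom.ext fun p => by simp

theorem map_lin (D : QD (Polynomial k) J) (w : J → MvPolynomial J (Polynomial k)) :
    MvPolynomial.map (algebraMap (Polynomial k) (FractionRing (Polynomial k)))
      (lin D C X w) =
    lin (D.map (algebraMap (Polynomial k) (FractionRing (Polynomial k)))) C X fun j =>
      MvPolynomial.map (algebraMap (Polynomial k) (FractionRing (Polynomial k))) (w j) := by
  rw [lin_hom, map_comp_C]
  simp only [map_X]
  rfl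

theorem map_val (D : QD (Polynomial k) J) :
    MvPolynomial.map (algebraMap (Polynomial k) (FractionRing (Polynomial k)))
      (D.val C X) =
    (D.map (algebraMap (Polynomial k) (FractionRing (Polynomial k)))).val C X := by
  rw [val_hom, map_comp_C]
  simp only [map_X]
  rfl

theorem spec_lin (D : QD (Polynomial k) J) (w : J → MvPolynomial J (Polynomial k))
    {S : Type} [CommRing S] (φ : Polynomial k →+* S) (y : J → S) :
    eval₂Hom φ y (lin D C X w) = lin D φ y fun j => eval₂Hom φ y (w j) := by
  rw [lin_hom, eval₂Hom_comp_C]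
  simp only [eval₂Hom_X']

theorem spec_val (D : QD (Polynomial k) J)
    {S : Type} [CommRing S] (φ : Polynomial k →+* S) (y : J → S) :
    eval₂Hom φ y (D.val C X) = D.val φ y := by
  rw [val_hom, eval₂Hom_comp_C]
  simp only [eval₂Hom_X']

end lift

section diag

variable {K : Type} [Field K] {J : Type} [Fintype J] [DecidableEq J] {D : QD K J}

/-- the inverse substitution -/
noncomputable def y0 (Δ : Diag D) (m : J) : MvPolynomial J K :=
  ∑ l, C (Δ.A' m l) * (X l - C (Δ.s l))

theorem A_y0 (Δ : Diag D) (j : J) : ∑ m, C (Δ.A j m) * y0 Δ m = X j - C (Δ.s j) := by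
  have h : (Δ.A.map (C : K →+* MvPolynomial J K)).mulVec
      ((Δ.A'.map (C : K →+* MvPolynomial J K)).mulVec fun l => X l - C (Δ.s l)) =
      fun l => X l - C (Δ.s l) := by
    rw [Matrix.mulVec_mulVec, ← Matrix.map_mul, Δ.l, Matrix.map_one _ (map_zero _) (map_one _),
      Matrix.one_mulVec]
  exact congrFun h j

theorem val_X_add (Δ : Diag D) (e : J → MvPolynomial J K) :
    D.val C (fun j => X j + ∑ m, C (Δ.A j m) * e m) =
      ∑ i, C (Δ.U i) * (y0 Δ i + e i) ^ 2 + ∑ i, C (Δ.B i) * (y0 Δ i + e i) + C Δ.c := by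
  rw [← Δ.eq (MvPolynomial J K) C fun i => y0 Δ i + e i]
  congr 1
  funext j
  simp only [mul_add, Finset.sum_add_distrib]
  rw [A_y0]
  ring

theorem lin_A (Δ : Diag D) (h2 : (2 : K) ≠ 0) (e : J → MvPolynomial J K) :
    lin D C X (fun j => ∑ m, C (Δ.A j m) * e m) =
      2 * ∑ i, C (Δ.U i) * (y0 Δ i * e i) + ∑ i, C (Δ.B i) * e i := by
  have h2' : (2 : MvPolynomial J K) ≠ 0 := by
    intro h
    apply h2
    have : (C (2 : K) : MvPolynomial J K) = C 0 := by rw [map_zero, map_ofNat]; exact h
    exact C_injective J K this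
  have h := val_sub D (C : K →+* MvPolynomial J K) X fun j => ∑ m, C (Δ.A j m) * e m
  have hm : (fun j => X j - ∑ m, C (Δ.A j m) * e m) =
      fun j => X j + ∑ m, C (Δ.A j m) * (-e m) := by
    funext j
    simp [sub_eq_add_neg]
  rw [hm, val_X_add, val_X_add] at h
  apply mul_left_cancel₀ h2'
  rw [← h]
  have e1 : ∑ i, C (Δ.U i) * (y0 Δ i + e i) ^ 2 = ∑ i, C (Δ.U i) * (y0 Δ i + -e i) ^ 2 +
      2 * (2 * ∑ i, C (Δ.U i) * (y0 Δ i * e i)) := by
    rw [Finset.mul_sum, Finset.mul_sum, ← Finset.sum_add_distrib]
    exact Finset.sum_congr rfl fun i _ => by ring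
  have e2 : ∑ i, C (Δ.B i) * (y0 Δ i + e i) = ∑ i, C (Δ.B i) * (y0 Δ i + -e i) +
      2 * ∑ i, C (Δ.B i) * e i := by
    rw [Finset.mul_sum, ← Finset.sum_add_distrib]
    exact Finset.sum_congr rfl fun i _ => by ring
  rw [e1, e2]
  ring

theorem val_X (Δ : Diag D) : D.val C X =
    ∑ i, C (Δ.U i) * y0 Δ i ^ 2 + ∑ i, C (Δ.B i) * y0 Δ i + C Δ.c := by
  have h := val_X_add Δ 0
  simpa using h

end diag

section main

variable {k : Type} [Field k] [Algebra k ℂ] {J : Type} [Fintype J] [DecidableEq J]

theorem case1 (D : QD (Polynomial k) J)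
    (Δ : Diag (D.map (algebraMap (Polynomial k) (FractionRing (Polynomial k)))))
    (h2 : (2 : FractionRing (Polynomial k)) ≠ 0)
    (i : J) (hB : Δ.B i ≠ 0) (hU : Δ.U i = 0) : TypeS D := by
  have hιi : Function.Injective (algebraMap (Polynomial k) (FractionRing (Polynomial k))) :=
    IsFractionRing.injective _ _
  obtain ⟨q, n, hq, hn⟩ := den (k := k) fun o : Option J => o.elim (Δ.B i) fun j => Δ.A j i
  have hn0 := hn none
  have hns : ∀ j, _ := fun j => hn (some j)
  simp only [Option.elim] at hn0 hns
  have hl := lin_A Δ h2 (Pi.single i 1)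
  have e1 : (fun j => ∑ m, C (Δ.A j m) *
      (Pi.single i 1 : J → MvPolynomial J (FractionRing (Polynomial k))) m) =
      fun j => C (Δ.A j i) := by
    funext j
    rw [Finset.sum_eq_single i]
    · simp
    · intro m _ hm; simp [Pi.single_eq_of_ne hm]
    · simp
  have e2 : ∑ m, C (Δ.U m) * (y0 Δ m *
      (Pi.single i 1 : J → MvPolynomial J (FractionRing (Polynomial k))) m) = 0 := by
    refine Finset.sum_eq_zero fun m _ => ?_
    by_cases hm : m = i
    · subst hm; rw [hU]; simp
    · simp [Pi.single_eq_of_ne hm]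
  have e3 : ∑ m, C (Δ.B m) *
      (Pi.single i 1 : J → MvPolynomial J (FractionRing (Polynomial k))) m = C (Δ.B i) := by
    rw [Finset.sum_eq_single i]
    · simp
    · intro m _ hm; simp [Pi.single_eq_of_ne hm]
    · simp
  rw [e1, e2, e3, mul_zero, zero_add] at hl
  have key : lin D C X (fun j => C (n (some j))) = (C (n none) : MvPolynomial J (Polynomial k)) := by
    apply map_inj
    rw [map_lin]
    simp only [map_C]
    rw [hn0, map_mul, ← hl, ← lin_smul]
    congr 1
    funext j
    rw [hns j, map_mul]
  refine ⟨n none, ?_, ?_⟩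
  · intro h
    rw [h, map_zero] at hn0
    have := mul_ne_zero ((map_ne_zero_iff _ hιi).mpr hq) hB
    exact this hn0.symm
  · intro v hv _
    have h3 := spec_lin D (fun j => C (n (some j))) (ev (v none)) fun l => v (some l)
    rw [key] at h3
    simp only [eval₂Hom_C] at h3
    exact exists_of_lin D v _ (by rw [← h3]; exact hv)

theorem case2 (D : QD (Polynomial k) J)
    (Δ : Diag (D.map (algebraMap (Polynomial k) (FractionRing (Polynomial k)))))
    (h2 : (2 : FractionRing (Polynomial k)) ≠ 0)
    (hB : ∀ i, Δ.B i = 0) (hc : Δ.c ≠ 0) : TypeS D := by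
  have hιi : Function.Injective (algebraMap (Polynomial k) (FractionRing (Polynomial k))) :=
    IsFractionRing.injective _ _
  obtain ⟨q, n, hq, hn⟩ := den (k := k) fun o : Option J => o.elim Δ.c fun j => Δ.s j
  have hn0 := hn none
  have hns : ∀ j, _ := fun j => hn (some j)
  simp only [Option.elim] at hn0 hns
  have hl := lin_A Δ h2 (y0 Δ)
  simp only [A_y0] at hl
  have hv := val_X Δ
  have hb : ∑ i, C (Δ.B i) * y0 Δ i = 0 := Finset.sum_eq_zero fun i _ => by rw [hB i]; simp
  rw [hb, add_zero] at hv hl
  have hl2 : lin (D.map (algebraMap (Polynomial k) (FractionRing (Polynomial k)))) C X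
      (fun j => X j - C (Δ.s j)) =
      2 * ((D.map (algebraMap (Polynomial k) (FractionRing (Polynomial k)))).val C X -
        C Δ.c) := by
    rw [hl, hv]
    simp only [add_sub_cancel_right, pow_two]
  have key : lin D C X (fun j => C q * X j - C (n (some j))) =
      (2 * (C q * D.val C X - C (n none)) : MvPolynomial J (Polynomial k)) := by
    apply map_inj
    rw [map_lin]
    simp only [map_sub, map_mul, map_C, map_X, map_val, map_ofNat]
    have : (fun j => C (algebraMap (Polynomial k) (FractionRing (Polynomial k)) q) * X j -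
        C (algebraMap (Polynomial k) (FractionRing (Polynomial k)) (n (some j)))) =
        fun j : J => C (algebraMap (Polynomial k) (FractionRing (Polynomial k)) q) *
          (X j - C (Δ.s j)) := by
      funext j
      rw [hns j, map_mul]
      ring
    rw [this, lin_smul, hl2, hn0, map_mul]
    ring
  refine ⟨n none, ?_, ?_⟩
  · intro h
    rw [h, map_zero] at hn0
    have := mul_ne_zero ((map_ne_zero_iff _ hιi).mpr hq) hc
    exact this hn0.symm
  · intro v hv h0
    have h3 := spec_lin D (fun j => C q * X j - C (n (some j))) (ev (v none)) fun l => v (some l)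
    rw [key] at h3
    rw [map_mul, map_sub, map_mul, spec_val, ← aeval_pol, h0, mul_zero, zero_sub, map_ofNat,
      eval₂Hom_C] at h3
    refine exists_of_lin D v _ (by rw [← h3]; exact mul_ne_zero two_ne_zero (neg_ne_zero.mpr hv))

omit [Algebra k ℂ] in
theorem case3 (D : QD (Polynomial k) J)
    (Δ : Diag (D.map (algebraMap (Polynomial k) (FractionRing (Polynomial k)))))
    (hB : ∀ i, Δ.B i = 0) (hc : Δ.c = 0) : Nonempty (HData D) := by
  classical
  have hιi : Function.Injective (algebraMap (Polynomial k) (FractionRing (Polynomial k))) :=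
    IsFractionRing.injective _ _
  obtain ⟨q, n, hq, hn⟩ := den (k := k) fun o : (J × J) ⊕ (J ⊕ J) =>
    o.elim (fun x => Δ.A' x.1 x.2)
      fun o => o.elim (fun i => ∑ l, Δ.A' i l * Δ.s l) fun i => Δ.U i
  have hA : ∀ i l, _ := fun i l => hn (Sum.inl (i, l))
  have hb : ∀ i, _ := fun i => hn (Sum.inr (Sum.inl i))
  have hu : ∀ i, _ := fun i => hn (Sum.inr (Sum.inr i))
  simp only [Sum.elim_inl, Sum.elim_inr] at hA hb hu
  have hv := val_X Δ
  have hb0 : ∑ i, C (Δ.B i) * y0 Δ i = 0 := Finset.sum_eq_zero fun i _ => by rw [hB i]; simp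
  rw [hb0, add_zero, hc, map_zero, add_zero] at hv
  set α : Matrix J J (Polynomial k) := Matrix.of fun i l => n (Sum.inl (i, l)) with hα
  set β : J → Polynomial k := fun i => n (Sum.inr (Sum.inl i)) with hβ
  set π : J → Polynomial k := fun i => n (Sum.inr (Sum.inr i)) with hπ
  have hy : ∀ i, C (algebraMap (Polynomial k) (FractionRing (Polynomial k)) q) * y0 Δ i =
      ∑ l, C (algebraMap (Polynomial k) (FractionRing (Polynomial k)) (α i l)) * X l -
        C (algebraMap (Polynomial k) (FractionRing (Polynomial k)) (β i)) := by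
    intro i
    have e1 : algebraMap (Polynomial k) (FractionRing (Polynomial k)) (β i) = _ := hb i
    have e2 : ∀ l, algebraMap (Polynomial k) (FractionRing (Polynomial k)) (α i l) = _ :=
      fun l => hA i l
    rw [e1]
    simp only [e2]
    unfold y0
    simp only [map_mul, map_sum, Finset.mul_sum]
    rw [← Finset.sum_sub_distrib]
    refine Finset.sum_congr rfl fun l _ => ?_
    ring
  have key : (C q ^ 3 * D.val C X : MvPolynomial J (Polynomial k)) =
      ∑ i, C (π i) * (∑ l, C (α i l) * X l - C (β i)) ^ 2 := by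
    apply map_inj
    simp only [map_mul, map_pow, map_sum, map_sub, map_C, map_X, map_val]
    rw [hv, Finset.mul_sum]
    refine Finset.sum_congr rfl fun i _ => ?_
    rw [← hy i]
    have e3 : algebraMap (Polynomial k) (FractionRing (Polynomial k)) (π i) = _ := hu i
    rw [e3, map_mul]
    ring
  have hdet : α.det ≠ 0 := by
    intro h0
    have h1 : (algebraMap (Polynomial k) (FractionRing (Polynomial k))) α.det = 0 := by
      rw [h0, map_zero]
    rw [RingHom.map_det] at h1
    have h3 : (algebraMap (Polynomial k) (FractionRing (Polynomial k))).mapMatrix α =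
        (algebraMap (Polynomial k) (FractionRing (Polynomial k)) q) • Δ.A' := by
      ext i l
      exact hA i l
    rw [h3, Matrix.det_smul] at h1
    have h4 : Δ.A'.det ≠ 0 := by
      intro h5
      have h6 := congrArg Matrix.det Δ.l
      rw [Matrix.det_mul, h5, mul_zero, Matrix.det_one] at h6
      exact zero_ne_one h6
    exact mul_ne_zero (pow_ne_zero _ ((map_ne_zero_iff _ hιi).mpr hq)) h4 h1
  set Q : Polynomial k := ∏ i, if π i = 0 then 1 else π i with hQ
  have hQ0 : Q ≠ 0 := by
    rw [hQ]
    refine Finset.prod_ne_zero_iff.mpr fun i _ => ?_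
    split_ifs with h
    · exact one_ne_zero
    · exact h
  refine ⟨⟨q ^ 3 * (α.det * Q), α, fun i => - β i, fun i => α.det * Q * π i,
    mul_ne_zero (pow_ne_zero _ hq) (mul_ne_zero hdet hQ0),
    Dvd.dvd.mul_left (Dvd.intro _ rfl) _, ?_, ?_⟩⟩
  · intro i
    by_cases h : π i = 0
    · left; simp only [h, mul_zero]
    · right
      have hd : π i ∣ Q := by
        have := Finset.dvd_prod_of_mem (fun i => if π i = 0 then 1 else π i) (Finset.mem_univ i)
        simpa [h] using this
      obtain ⟨t, ht⟩ := hd
      refine ⟨q ^ 6 * α.det * t, ?_⟩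
      calc (q ^ 3 * (α.det * Q)) ^ 2 = q ^ 6 * α.det * α.det * Q * Q := by ring
        _ = q ^ 6 * α.det * α.det * Q * (π i * t) := by rw [← ht]
        _ = _ := by ring
  · intro S _ φ y
    have h3 := congrArg (eval₂Hom φ y) key
    rw [map_mul, spec_val] at h3
    simp only [map_pow, map_sum, map_mul, map_sub, eval₂Hom_C, eval₂Hom_X'] at h3
    rw [map_mul, map_mul, map_pow]
    calc φ q ^ 3 * (φ α.det * φ Q) * D.val φ y = φ α.det * φ Q * (φ q ^ 3 * D.val φ y) := by ring
      _ = _ := by
        rw [h3, Finset.mul_sum]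
        refine Finset.sum_congr rfl fun i _ => ?_
        rw [map_mul, map_mul, map_neg]
        ring

end main

end TypAux

open TypAux in
/-- TYP -/
theorem TYP (h1 : DGNStmt) : TYPStmt := by
  intro k _ _ J _ _ D
  classical
  haveI : CharZero k := (algebraMap k ℂ).charZero
  haveI : CharZero (FractionRing (Polynomial k)) :=
    charZero_of_injective_algebraMap
      (IsFractionRing.injective (Polynomial k) (FractionRing (Polynomial k)))
  have h2 : (2 : FractionRing (Polynomial k)) ≠ 0 := two_ne_zero
  obtain ⟨Δ, hΔ⟩ := h1 (FractionRing (Polynomial k)) (isUnit_iff_ne_zero.mpr h2) J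
    (D.map (algebraMap (Polynomial k) (FractionRing (Polynomial k))))
  by_cases hB : ∀ i, Δ.B i = 0
  · by_cases hc : Δ.c = 0
    · exact Or.inr (case3 D Δ hB hc)
    · exact Or.inl (case2 D Δ h2 hB hc)
  · push Not at hB
    obtain ⟨i, hi⟩ := hB
    refine Or.inl (case1 D Δ h2 i hi ?_)
    by_contra hU
    rcases hΔ i with h | h
    · exact hi h
    · exact h (IsUnit.dvd (isUnit_iff_ne_zero.mpr hU))

end Pool.Agent.H87.QF
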