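import Pool.Agent.H87.QF.Stmts
import Pool.Agent.H87.QF.Base

/-! # QFM, row WGT: weights -/

set_option autoImplicit false

namespace Pool.Agent.H87.QF

open MvPolynomial

section WGTsec

variable {k : Type} [Field k] {J : Type} {I : Finset J} {e : J → ℕ} {τ : ℕ}

theorem WGT_mul (w w' : ℕ) (p q : MvPolynomial J (PowerSeries k)) (hp : WG I e τ w p)
    (hq : WG I e τ w' q) : WG I e τ (w + w') (p * q) := by
  classical
  intro m a h
  rw [coeff_mul, map_sum] at h
  obtain ⟨x, hx, hx2⟩ := Finset.exists_ne_zero_of_sum_ne_zero h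
  rw [PowerSeries.coeff_mul] at hx2
  obtain ⟨y, hy, hy2⟩ := Finset.exists_ne_zero_of_sum_ne_zero hx2
  have h1 := hp x.1 y.1 (left_ne_zero_of_mul hy2)
  have h2 := hq x.2 y.2 (right_ne_zero_of_mul hy2)
  rw [Finset.HasAntidiagonal.mem_antidiagonal] at hx hy
  have h3 : ∑ i ∈ I, (τ - e i) * m i =
      ∑ i ∈ I, (τ - e i) * x.1 i + ∑ i ∈ I, (τ - e i) * x.2 i := by
    rw [← Finset.sum_add_distrib]
    refine Finset.sum_congr rfl fun i _ => ?_
    rw [← hx, Finsupp.add_apply]
    ring
  rw [h3]
  omega

theorem WGT_pderiv [DecidableEq J] (w : ℕ) (i : J) (q : MvPolynomial J (PowerSeries k))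
    (hq : WG I e τ w q) : WG I e τ (w - if i ∈ I then τ - e i else 0) (pderiv i q) := by
  intro m a h
  have e1 : pderiv i q = ∑ s ∈ q.support, monomial (s - Finsupp.single i 1) (coeff s q * (s i : PowerSeries k)) := by
    conv_lhs => rw [q.as_sum]
    rw [map_sum]
    exact Finset.sum_congr rfl fun s _ => pderiv_monomial
  rw [e1, coeff_sum, map_sum] at h
  obtain ⟨s, hs, hs2⟩ := Finset.exists_ne_zero_of_sum_ne_zero h
  rw [coeff_monomial] at hs2
  split_ifs at hs2 with hm
  · rw [mul_comm, ← nsmul_eq_mul, map_nsmul, nsmul_eq_mul] at hs2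
    have h1 := hq s a (right_ne_zero_of_mul hs2)
    have h2 : s i ≠ 0 := by
      intro h0
      rw [h0] at hs2
      simp at hs2
    have h3 : s = m + Finsupp.single i 1 := by
      rw [← hm]
      exact (tsub_add_cancel_of_le (Finsupp.single_le_iff.2 (Nat.one_le_iff_ne_zero.2 h2))).symm
    have h4 : ∑ j ∈ I, (τ - e j) * s j =
        ∑ j ∈ I, (τ - e j) * m j + if i ∈ I then τ - e i else 0 := by
      rw [h3]
      simp only [Finsupp.add_apply, mul_add, Finset.sum_add_distrib]
      congr 1
      simp only [Finsupp.single_apply, mul_ite, mul_one, mul_zero]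
      rw [Finset.sum_ite_eq]
    rw [h4] at h1
    omega
  · exact absurd (map_zero _) hs2

end WGTsec

theorem WGT : WGTStmt := by
  intro k _ J _ _ I e τ
  refine ⟨WGT_mul, ?_, ?_, WGT_pderiv, ?_, ?_⟩
  · intro w m q hq
    induction m with
    | zero =>
      intro m a _
      rw [mul_zero]
      exact Nat.zero_le _
    | succ n ih =>
      rw [pow_succ, mul_add, mul_one]
      exact WGT_mul _ _ _ _ ih hq
  · intro w q hq m a h
    rw [coeff_dX, PowerSeries.coeff_derivative] at h
    have := hq m (a + 1) (left_ne_zero_of_mul h)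
    omega
  · intro w p q hp hq m a h
    rw [coeff_add, map_add] at h
    by_cases h1 : PowerSeries.coeff a (coeff m p) = 0
    · rw [h1, zero_add] at h
      exact hq m a h
    · exact hp m a h1
  · intro w w' p hw hp m a h
    exact hw.trans (hp m a h)

end Pool.Agent.H87.QF
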