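import Pool.Agent.H87.QF.DIA
import Pool.Agent.H87.QF.DGN
import Pool.Agent.H87.QF.POL
import Pool.Agent.H87.QF.TYP
import Pool.Agent.H87.QF.PUD
import Pool.Agent.H87.QF.CONS
import Pool.Agent.H87.QF.SUM
import Pool.Agent.H87.QF.TRL
import Pool.Agent.H87.QF.PRE
import Pool.Agent.H87.QF.RLB
import Pool.Agent.H87.QF.RLC
import Pool.Agent.H87.QF.RLA
import Pool.Agent.H87.QF.SBS
import Pool.Agent.H87.QF.BAS
import Pool.Agent.H87.QF.NST
import Pool.Agent.H87.QF.LST
import Pool.Agent.H87.QF.ZER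
import Pool.Agent.H87.QF.SPL
import Pool.Agent.H87.QF.NCQ
import Pool.Agent.H87.QF.SMG
import Pool.Agent.H87.QF.LOC
import Pool.Agent.H87.QF.GNH
import Pool.Agent.H87.QF.PRT
import Pool.Agent.H87.QF.GCH
import Pool.Agent.H87.QF.WGT
import Pool.Agent.H87.QF.PRI
import Pool.Agent.H87.QF.PUR
import Pool.Agent.H87.QF.ECH
import Pool.Agent.H87.QF.LRT
import Pool.Agent.H87.QF.GLO
import Pool.Agent.H87.QF.FIN

/-! # QFM: all rows together -/

set_option autoImplicit false

namespace Pool.Agent.H87.QF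

theorem all_RLB : RLBStmt := RLB (PRE TRL)
theorem all_RLC : RLCStmt := RLC TRL
theorem all_RLA : RLAStmt := RLA (PRE TRL)
theorem all_BAS : BASStmt := BAS SBS
theorem all_SUM : SUMStmt := SUM CON
theorem all_DGN : DGNStmt := DGN DIA
theorem all_NST : NSTStmt := NST all_BAS all_RLA SBS
theorem all_LST : LSTStmt := LST all_BAS all_RLA SBS
theorem all_ZER : ZERStmt := ZER all_BAS all_RLB all_RLC SBS
theorem all_LOC : LOCStmt := LOC all_SUM CON all_NST all_LST all_ZER SPL
theorem all_GNH : GNHStmt := GNH all_RLA CON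
theorem all_LRT : LRTStmt := LRT PRT GCH WGT PRI ECH
theorem all_GLO : GLOStmt :=
  GLO all_DGN (TYP all_DGN) PUD all_LOC all_GNH SPL NCQ SMG all_LRT PUR ECH

/-- all rows -/
theorem all_FIN : FINStmt := FIN POL all_GLO

end Pool.Agent.H87.QF
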