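import Pool.Agent.H87.QF.Stmts
import Pool.Agent.H75.Plc.CLO

/-! # QFM: composites of plane curves and quadric families -/

set_option autoImplicit false

namespace Pool.Agent.H87.QF

open MvPolynomial Pool.Agent.H39.MonoR Pool.Agent.H75.Mono

/-- `Fibq s f a`: `f` is a fibrewise composite of plane curves and quadric families at the value `a`,
in the variables `x_i`, `i ∈ s` -/
inductive Fibq {k : Type} [Field k] [Algebra k ℂ] {σ : Type} [DecidableEq σ] :
    Finset σ → MvPolynomial σ k → k → Prop
  | smooth {s : Finset σ} {f : MvPolynomial σ k} {a : k} : f.vars ⊆ s →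
      Sm f (algebraMap k ℂ a) → Fibq s f a
  | plane {s : Finset σ} {f : MvPolynomial σ k} (a : k) : IsAlgClosed k → s.card = 2 →
      f.vars ⊆ s → Nc f → Fibq s f a
  | quad {s : Finset σ} {f : MvPolynomial σ k} (a : k) (i : σ) : IsAlgClosed k → i ∈ s →
      f.vars ⊆ s → Nc f → (∀ m, coeff m f ≠ 0 → ∑ j ∈ s.erase i, m j ≤ 2) → Fibq s f a
  | mul {s t : Finset σ} {f g : MvPolynomial σ k} : Disjoint s t → Nc f → Nc g → Fibq s f 0 →
      Fibq t g 0 → Fibq (s ∪ t) (f * g) 0
  | gate {r : ℕ} {s : Fin (r + 1) → Finset σ} {f : Fin (r + 1) → MvPolynomial σ k}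
      {G : MvPolynomial (Fin (r + 1)) k} {a : k} (T : Finset (Fin (r + 1) → k))
      (w : (Fin (r + 1) → k) → Fin (r + 1) → ℕ) (n : (Fin (r + 1) → k) → ℕ)
      (B : (Fin (r + 1) → k) → Finset (Fin (r + 1))) :
      (∀ x : Fin (r + 1) → ℂ, aeval x G = algebraMap k ℂ a →
        (∀ i, aeval x (pderiv i G) = 0 ∨ ¬ Sm (f i) (x i)) →
          ∃ b ∈ T, ∀ i, x i = algebraMap k ℂ (b i)) →
      (∀ b ∈ T, eval b G = a) → (∀ b ∈ T, SWH (w b) (n b) (B b) (shf G b a)) →
      (∀ b ∈ T, ∀ i ∈ B b, w b i < n b ∧ Sm (f i) (algebraMap k ℂ (b i))) →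
      (∀ i j, i ≠ j → Disjoint (s i) (s j)) → (∀ i, Nc (f i)) → (∀ i, (f i).vars ⊆ s i) →
      (∀ b ∈ T, ∀ i, Fibq (s i) (f i) (b i)) → Fibq (Finset.univ.biUnion s) (aeval f G) a

section Quad

variable {k : Type} [Field k] [Algebra k ℂ] {σ : Type}

/-- quadric families in the variables `x_i`, `i ∈ s` -/
theorem P3.quad (hFIN : FINStmt) [IsAlgClosed k] [DecidableEq σ] {s : Finset σ}
    {f : MvPolynomial σ k} (a : k) {i : σ} (hi : i ∈ s) (hv : f.vars ⊆ s) (hf : Nc f)
    (hq : ∀ m, coeff m f ≠ 0 → ∑ j ∈ s.erase i, m j ≤ 2) : P3 (res s f) a := by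
  classical
  have := charZero k
  let i' : {x // x ∈ s} := ⟨i, hi⟩
  let J := {x : {x // x ∈ s} // x ≠ i'}
  let e : Option J ≃ {x // x ∈ s} := Equiv.optionSubtypeNe i'
  have he : ∀ j : J, e (some j) = j.1 := fun j => rfl
  set F : MvPolynomial (Option J) k := rename e.symm (res s f) with hF
  have hFf : rename (fun x => ((e x : {x // x ∈ s}) : σ)) F = f := by
    rw [hF, rename_rename]
    have : (fun x => ((e x : {x // x ∈ s}) : σ)) ∘ e.symm = Subtype.val := by
      funext x
      simp
    rw [this, rename_res hv]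
  have hinj : Function.Injective (fun x : Option J => ((e x : {x // x ∈ s}) : σ)) :=
    Subtype.val_injective.comp e.injective
  have h1 : Nc F := by
    rw [← nc_rename hinj, hFf]
    exact hf
  have h2 : ∀ m, coeff m F ≠ 0 → ∑ j, m (some j) ≤ 2 := by
    intro m hm
    have h3 := coeff_rename_mapDomain (fun x : Option J => ((e x : {x // x ∈ s}) : σ)) hinj F m
    rw [hFf] at h3
    have h4 := hq _ (by rw [h3]; exact hm)
    have h5 : ∑ j ∈ s.erase i, (Finsupp.mapDomain (fun x : Option J => ((e x : {x // x ∈ s}) : σ)) m) j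
        = ∑ j, m (some j) := by
      symm
      refine Finset.sum_bij (fun (j : J) _ => ((j.1 : {x // x ∈ s}) : σ)) ?_ ?_ ?_ ?_
      · intro j _
        rw [Finset.mem_erase]
        exact ⟨fun h => j.2 (Subtype.ext h), j.1.2⟩
      · intro j _ j' _ h
        exact Subtype.ext (Subtype.ext h)
      · intro x hx
        rw [Finset.mem_erase] at hx
        exact ⟨⟨⟨x, hx.2⟩, fun h => hx.1 (congrArg Subtype.val h)⟩, Finset.mem_univ _, rfl⟩
      · intro j _
        exact (Finsupp.mapDomain_apply hinj m (some j)).symm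
    rwa [h5] at h4
  have h3 : F ≠ C a := by
    intro h
    obtain ⟨j, hj⟩ := h1
    rw [h, pderiv_C] at hj
    exact hj rfl
  have h4 := (hFIN k J F a h2 h3).equiv e
  rw [hF, rename_rename, Equiv.self_comp_symm, rename_id_apply] at h4
  exact h4

variable [Finite σ]

theorem Fibq.p3 (hFIN : FINStmt) [DecidableEq σ] {s : Finset σ} {f : MvPolynomial σ k} {a : k}
    (h : Fibq s f a) : f.vars ⊆ s ∧ P3 (res s f) a := by
  induction h with
  | smooth h1 h2 =>
    refine ⟨h1, P3.of_sm ?_⟩
    rw [← sm_rename Subtype.val_injective, rename_res h1]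
    exact h2
  | @plane s f a hk hs hv hf =>
    refine ⟨hv, ?_⟩
    have e : Fin 2 ≃ {x // x ∈ s} := (Fintype.equivFinOfCardEq (by simpa using hs)).symm
    have h1 : Nc (rename e.symm (res s f)) := by
      rw [nc_rename e.symm.injective, ← nc_rename Subtype.val_injective, rename_res hv]
      exact hf
    have h2 := (P3.plane h1 a).equiv e
    rwa [rename_rename, Equiv.self_comp_symm, rename_id_apply] at h2
  | @quad s f a i hk hi hv hf hq => exact ⟨hv, P3.quad hFIN a hi hv hf hq⟩
  | @mul s t f g hd hf hg _ _ ih1 ih2 =>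
    refine ⟨vars_mul_union ih1.1 ih2.1, ?_⟩
    obtain ⟨e, he⟩ := res_mul hd ih1.1 ih2.1
    rw [he]
    refine (P3.mul ih1.2 ih2.2 ?_ ?_).equiv e
    · rwa [← nc_rename Subtype.val_injective, rename_res ih1.1]
    · rwa [← nc_rename Subtype.val_injective, rename_res ih2.1]
  | @gate r s f G a T w n B h1 h2 h3 h4 hd hN hv _ ih =>
    refine ⟨vars_aeval_biUnion hv G, ?_⟩
    obtain ⟨e, he⟩ := res_aeval hd hv G
    rw [he]
    have hs : ∀ i x, Sm (f i) x ↔ Sm (res (s i) (f i)) x := fun i x => by
      conv_lhs => rw [← rename_res (hv i)]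
      exact sm_rename Subtype.val_injective
    refine (P3.gate (T := T) (w := w) (n := n) (B := B) ?_ h2 h3 ?_ ?_ fun b hb i =>
      (ih b hb i).2).equiv e
    · intro x hx hx'
      exact h1 x hx fun i => by
        rw [hs]
        exact hx' i
    · intro b hb i hi
      rw [← hs]
      exact h4 b hb i hi
    · intro i
      rw [← nc_rename Subtype.val_injective, rename_res (hv i)]
      exact hN i

/-- **The strong motivic monodromy conjecture for composites of plane curves and quadric families.** -/
theorem Fibq.main (hFIN : FINStmt) [DecidableEq σ] {s : Finset σ} {f : MvPolynomial σ k}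
    (h : Fibq s f 0) (hf : Nc f) : ∃ S : Finset (ℤ × ℕ), (∀ p ∈ S, p.1 < 0 ∧ 0 < p.2) ∧
      Zmot k f ∈ RS k (S : Set (ℤ × ℕ)) ∧ ∀ p ∈ S, IsRoot k f (p.1 / p.2) := by
  obtain ⟨h1, h2⟩ := h.p3 hFIN
  have h3 := h2.final (e := (Subtype.val : {x // x ∈ s} → σ)) (by
    rwa [← nc_rename Subtype.val_injective, rename_res h1]) Subtype.val_injective
  rwa [rename_res h1] at h3

omit [Finite σ] in
/-- the variables -/
theorem Fibq.vars [DecidableEq σ] {s : Finset σ} {f : MvPolynomial σ k} {a : k}
    (h : Fibq s f a) : f.vars ⊆ s := by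
  induction h with
  | smooth h1 h2 => exact h1
  | plane a hk hs hv hf => exact hv
  | quad a i hk hi hv hf hq => exact hv
  | mul hd hf hg _ _ ih1 ih2 => exact vars_mul_union ih1 ih2
  | gate T w n B h1 h2 h3 h4 hd hN hv _ ih => exact vars_aeval_biUnion hv _

end Quad

section CLO
/-- Gates of two inputs which are smooth at the critical pairs. -/
theorem gate2 {k : Subfield ℂ} [IsAlgClosed k] {n : ℕ} {s t : Finset (Fin n)}
    {f g : MvPolynomial (Fin n) k} (hd : Disjoint s t) (hf : Nc f) (hg : Nc g)
    (h1 : ∀ a, Fibq s f a) (h2 : ∀ a, Fibq t g a) {G : MvPolynomial (Fin 2) k} {a : k}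
    (hG : ∀ x : Fin 2 → ℂ, aeval x G = (a : ℂ) → ∀ i, aeval x (pderiv i G) ≠ 0) :
    Fibq (s ∪ t) (aeval ![f, g] G) a := by
  classical
  obtain ⟨T1, hT1⟩ := exists_critical f
  obtain ⟨T2, hT2⟩ := exists_critical g
  let T : Finset (Fin 2 → k) := ((T1 ×ˢ T2).image fun z => ![z.1, z.2]).filter fun b => eval b G = a
  have hs : s ∪ t = Finset.univ.biUnion ![s, t] := by
    ext i
    simp [Fin.exists_fin_two]
  have hev : ∀ (b : Fin 2 → k) (P : MvPolynomial (Fin 2) k),
      aeval (fun i => (b i : ℂ)) P = ((eval b P : k) : ℂ) := by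
    intro b P
    exact aeval_coe_eq b P
  rw [hs]
  refine Fibq.gate T (fun _ _ => 1) (fun _ => 1) (fun _ => ∅) ?_ ?_ ?_ (fun b _ i hi => absurd hi
    (by simp)) ?_ ?_ ?_ ?_
  · intro x hx hx'
    have h3 : ∀ i, ¬ Sm (![f, g] i) (x i) := fun i => (hx' i).resolve_left (hG x hx i)
    obtain ⟨b1, hb1, e1⟩ := hT1 _ (h3 0)
    obtain ⟨b2, hb2, e2⟩ := hT2 _ (h3 1)
    have e : x = fun i => ((![b1, b2] : Fin 2 → k) i : ℂ) := by
      funext i
      fin_cases i
      · exact e1
      · exact e2
    refine ⟨![b1, b2], ?_, fun i => congrFun e i⟩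
    rw [Finset.mem_filter, Finset.mem_image]
    refine ⟨⟨(b1, b2), Finset.mem_product.2 ⟨hb1, hb2⟩, rfl⟩, ?_⟩
    rw [e, hev] at hx
    exact Subtype.ext hx
  · intro b hb
    exact (Finset.mem_filter.1 hb).2
  · intro b hb
    have hba := (Finset.mem_filter.1 hb).2
    have hp : ∀ i, eval b (pderiv i G) ≠ 0 := by
      intro i h0
      apply hG (fun i => (b i : ℂ)) (by rw [hev, hba]) i
      rw [hev, h0]
      rfl
    exact SWH.linear hba hp
  · intro i j hij
    fin_cases i <;> fin_cases j <;> first | exact absurd rfl hij | exact hd | exact hd.symm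
  · intro i
    fin_cases i
    · exact hf
    · exact hg
  · intro i
    fin_cases i
    · exact (h1 0).vars
    · exact (h2 0).vars
  · intro b _ i
    fin_cases i
    · exact h1 _
    · exact h2 _

/-- `f` is nonconstant and good at all values. -/
def AllFibq {k : Subfield ℂ} {n : ℕ} (s : Finset (Fin n)) (f : MvPolynomial (Fin n) k) : Prop :=
  Nc f ∧ ∀ a, Fibq s f a

/-- Sums in disjoint variables. -/
theorem add_mem {k : Subfield ℂ} [IsAlgClosed k] {n : ℕ} {s t : Finset (Fin n)}
    {f g : MvPolynomial (Fin n) k} (hd : Disjoint s t) (hf : AllFibq s f) (hg : AllFibq t g) :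
    AllFibq (s ∪ t) (f + g) := by
  refine ⟨?_, fun a => ?_⟩
  · obtain ⟨i, hi⟩ := hf.1
    refine ⟨i, ?_⟩
    have h1 : i ∉ g.vars := fun h => Finset.disjoint_left.1 hd
      ((hf.2 0).vars (Nc.mem_vars hi)) ((hg.2 0).vars h)
    rw [map_add, pderiv_eq_zero_of_notMem_vars h1, add_zero]
    exact hi
  · have h := gate2 hd hf.1 hg.1 hf.2 hg.2 (G := X 0 + X 1) (a := a) (fun x _ i => by
      fin_cases i <;> simp)
    simpa using h

/-- Products in disjoint variables. -/
theorem mul_mem {k : Subfield ℂ} [IsAlgClosed k] {n : ℕ} {s t : Finset (Fin n)}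
    {f g : MvPolynomial (Fin n) k} (hd : Disjoint s t) (hf : AllFibq s f) (hg : AllFibq t g) :
    AllFibq (s ∪ t) (f * g) := by
  refine ⟨?_, fun a => ?_⟩
  · obtain ⟨i, hi⟩ := hf.1
    refine ⟨i, ?_⟩
    have h1 : i ∉ g.vars := fun h => Finset.disjoint_left.1 hd
      ((hf.2 0).vars (Nc.mem_vars hi)) ((hg.2 0).vars h)
    have hg0 : g ≠ 0 := by
      rintro rfl
      obtain ⟨j, hj⟩ := hg.1
      simp at hj
    rw [Derivation.leibniz, pderiv_eq_zero_of_notMem_vars h1, smul_zero, zero_add, smul_eq_mul]
    exact mul_ne_zero hg0 hi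
  · by_cases ha : a = 0
    · subst ha
      exact Fibq.mul hd hf.1 hg.1 (hf.2 0) (hg.2 0)
    · have h := gate2 hd hf.1 hg.1 hf.2 hg.2 (G := X 0 * X 1) (a := a) (fun x hx i => by
        have ha' : (a : ℂ) ≠ 0 := fun h => ha (Subtype.ext h)
        rw [map_mul, aeval_X, aeval_X] at hx
        have h0 : x 0 ≠ 0 := fun h => ha' (by rw [← hx, h, zero_mul])
        have h1 : x 1 ≠ 0 := fun h => ha' (by rw [← hx, h, mul_zero])
        fin_cases i
        · simpa [pderiv_X_of_ne] using h1
        · simpa [pderiv_X_of_ne] using h0)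
      simpa using h

/-- Nc polynomials in one variable which are evaluated at `f`. -/
theorem outer_mem {k : Subfield ℂ} [IsAlgClosed k] {n : ℕ} {s : Finset (Fin n)}
    {f : MvPolynomial (Fin n) k} {p : Polynomial k} (hp : 0 < p.natDegree) (hf : AllFibq s f) :
    AllFibq s (Polynomial.aeval f p) := by
  classical
  have hsub : Subsingleton (Fin (0 + 1)) := inferInstanceAs (Subsingleton (Fin 1))
  have hch : CharZero k := charZero k
  have hs : s = Finset.univ.biUnion fun _ : Fin (0 + 1) => s := by
    ext i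
    simp
  let G : MvPolynomial (Fin (0 + 1)) k := Polynomial.aeval (X 0) p
  have hG : aeval (fun _ : Fin (0 + 1) => f) G = Polynomial.aeval f p := by
    have h := Polynomial.aeval_algHom_apply (aeval (fun _ : Fin (0 + 1) => f) :
      MvPolynomial (Fin (0 + 1)) k →ₐ[k] MvPolynomial (Fin n) k) (X 0) p
    rw [aeval_X] at h
    exact h.symm
  have hGx : ∀ x : Fin (0 + 1) → ℂ, aeval x G = Polynomial.aeval (x 0) p := by
    intro x
    have h := Polynomial.aeval_algHom_apply (aeval x : MvPolynomial (Fin (0 + 1)) k →ₐ[k] ℂ) (X 0) p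
    rw [aeval_X] at h
    exact h.symm
  refine ⟨?_, fun a => ?_⟩
  · -- the outer polynomial is not constant
    have htr : ∀ q : Polynomial k, q ≠ 0 → Polynomial.aeval f q ≠ 0 := by
      intro q hq h0
      obtain ⟨c, hc⟩ : ∃ c : k, f = C c := by
        have hsp := (IsAlgClosed.splits q).eq_prod_roots
        rw [hsp, map_mul, Polynomial.aeval_C, map_multiset_prod, mul_eq_zero] at h0
        rcases h0 with h0 | h0
        · exfalso
          apply hq
          have h2 : (C q.leadingCoeff : MvPolynomial (Fin n) k) = 0 := h0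
          rw [map_eq_zero_iff _ (MvPolynomial.C_injective _ _)] at h2
          exact Polynomial.leadingCoeff_eq_zero.1 h2
        · rw [Multiset.prod_eq_zero_iff, Multiset.map_map, Multiset.mem_map] at h0
          obtain ⟨r, -, hr⟩ := h0
          refine ⟨r, ?_⟩
          simp only [Function.comp_apply, map_sub, Polynomial.aeval_X, Polynomial.aeval_C] at hr
          rw [sub_eq_zero] at hr
          exact hr
      obtain ⟨i, hi⟩ := hf.1
      rw [hc, pderiv_C] at hi
      exact hi rfl
    obtain ⟨i, hi⟩ := hf.1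
    refine ⟨i, ?_⟩
    have h1 : pderiv i (Polynomial.aeval f p) =
        Polynomial.aeval f (Polynomial.derivative p) * pderiv i f := by
      rw [Derivation.map_aeval, smul_eq_mul]
    rw [h1]
    refine mul_ne_zero (htr _ ?_) hi
    intro h0
    have := Polynomial.derivative_eq_zero.1 h0
    omega
  · have hpa : p - Polynomial.C a ≠ 0 := by
      intro h
      rw [sub_eq_zero] at h
      rw [h, Polynomial.natDegree_C] at hp
      exact lt_irrefl _ hp
    let T : Finset (Fin (0 + 1) → k) := (p - Polynomial.C a).roots.toFinset.image fun z => fun _ => z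
    let Q : (Fin (0 + 1) → k) → Polynomial k := fun b => Polynomial.taylor (b 0) (p - Polynomial.C a)
    have hT : ∀ b ∈ T, (p - Polynomial.C a).eval (b 0) = 0 := by
      intro b hb
      obtain ⟨z, hz, rfl⟩ := Finset.mem_image.1 hb
      rw [Multiset.mem_toFinset, Polynomial.mem_roots hpa] at hz
      exact hz
    have h := Fibq.gate (s := fun _ : Fin (0 + 1) => s) (f := fun _ => f)
      (G := G) (a := a) T (fun _ _ => 1) (fun b => (Q b).natTrailingDegree) (fun _ => ∅)
      ?_ ?_ ?_ (fun b _ i hi => absurd hi (by simp))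
      (fun i j hij => absurd (Subsingleton.elim i j) hij) (fun _ => hf.1)
      (fun _ => (hf.2 0).vars) (fun b _ i => hf.2 _)
    · rw [← hs, hG] at h
      exact h
    · intro x hx _
      rw [hGx] at hx
      have hx2 : Polynomial.aeval (x 0) (p - Polynomial.C a) = 0 := by
        rw [map_sub, hx, Polynomial.aeval_C, sub_eq_zero]
      obtain ⟨z, hz, hz'⟩ : ∃ z ∈ (p - Polynomial.C a).roots, x 0 = (z : ℂ) := by
        have hsp := (IsAlgClosed.splits (p - Polynomial.C a)).eq_prod_roots
        rw [hsp, map_mul, Polynomial.aeval_C, map_multiset_prod, mul_eq_zero] at hx2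
        rcases hx2 with h0 | h0
        · exfalso
          apply hpa
          rw [map_eq_zero] at h0
          exact Polynomial.leadingCoeff_eq_zero.1 h0
        · rw [Multiset.prod_eq_zero_iff, Multiset.map_map, Multiset.mem_map] at h0
          obtain ⟨r, hr1, hr⟩ := h0
          refine ⟨r, hr1, ?_⟩
          simp only [Function.comp_apply, map_sub, Polynomial.aeval_X, Polynomial.aeval_C] at hr
          rw [sub_eq_zero] at hr
          exact hr
      refine ⟨fun _ => z, Finset.mem_image.2 ⟨z, Multiset.mem_toFinset.2 hz, rfl⟩, fun i => ?_⟩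
      have hi : i = 0 := Subsingleton.elim _ _
      rw [hi]
      exact hz'
    · intro b hb
      have h1 : eval b G = p.eval (b 0) := by
        have h := Polynomial.aeval_algHom_apply (aeval b : MvPolynomial (Fin (0 + 1)) k →ₐ[k] k)
          (X 0) p
        rw [aeval_X] at h
        rw [← MvPolynomial.coe_aeval_eq_eval]
        exact h.symm
      have h2 := hT b hb
      rw [Polynomial.eval_sub, Polynomial.eval_C, sub_eq_zero] at h2
      rw [h1, h2]
    · intro b hb
      have hQ0 : Q b ≠ 0 := by
        intro h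
        exact hpa ((Polynomial.taylor_eq_zero _ _).1 h)
      have hm : 0 < (Q b).natTrailingDegree := by
        rw [Nat.pos_iff_ne_zero]
        intro h
        rcases Polynomial.natTrailingDegree_eq_zero.1 h with h | h
        · exact hQ0 h
        · apply h
          rw [Polynomial.taylor_coeff_zero]
          exact hT b hb
      set m := (Q b).natTrailingDegree with hmd
      have hc : (Q b).coeff m ≠ 0 := by
        have := Polynomial.trailingCoeff_nonzero_iff_nonzero.2 hQ0
        exact this
      have hshift : aeval (fun i => X i + C (b i)) G - C a =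
          Polynomial.aeval (X 0 : MvPolynomial (Fin (0 + 1)) k) (Q b) := by
        have h := Polynomial.aeval_algHom_apply (aeval (fun i => X i + C (b i)) :
          MvPolynomial (Fin (0 + 1)) k →ₐ[k] MvPolynomial (Fin (0 + 1)) k) (X 0) p
        rw [aeval_X] at h
        show aeval (fun i => X i + C (b i)) (Polynomial.aeval (X 0) p) - C a = _
        rw [← h]
        simp only [Q, Polynomial.taylor_apply, Polynomial.aeval_comp, map_sub, map_add,
          Polynomial.aeval_X, Polynomial.aeval_C, MvPolynomial.algebraMap_eq]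
      have hw : ∀ e : Fin (0 + 1) →₀ ℕ, Finsupp.weight (fun _ : Fin (0 + 1) => 1) e = e 0 := by
        intro e
        rw [Finsupp.weight_apply, Finsupp.sum_fintype _ _ (by simp)]
        have : (Finset.univ : Finset (Fin (0 + 1))) = {0} := by
          ext i
          simp [Subsingleton.elim i 0]
        rw [this, Finset.sum_singleton]
        simp
      refine ⟨hm, fun _ => ⟨one_pos, hm⟩, C ((Q b).coeff m) * X 0 ^ m,
        Polynomial.aeval (X 0) (Q b - Polynomial.monomial m ((Q b).coeff m)), ?_, ?_, ?_, ?_⟩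
      · show aeval (fun i => X i + C (b i)) G - C a = _
        rw [hshift, map_sub, Polynomial.aeval_monomial, MvPolynomial.algebraMap_eq]
        ring
      · have := ((isWeightedHomogeneous_X k (fun _ : Fin (0 + 1) => 1) 0).pow m).C_mul
          ((Q b).coeff m)
        simpa using this
      · intro e he
        rw [coeff_aeval_X, Polynomial.coeff_sub, Polynomial.coeff_monomial] at he
        rw [hw]
        by_contra hlt
        push Not at hlt
        apply he
        rcases Nat.lt_or_ge (e 0) m with h | h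
        · rw [Polynomial.coeff_eq_zero_of_lt_natTrailingDegree h, if_neg (by omega), sub_zero]
        · have : e 0 = m := by omega
          rw [this, if_pos rfl, sub_self]
      · intro x _ hx
        funext i
        have hi : i = 0 := Subsingleton.elim _ _
        have h2 := hx 0 (by simp)
        rw [Derivation.leibniz, pderiv_C, Derivation.leibniz_pow, pderiv_X_self] at h2
        simp only [smul_eq_mul, nsmul_eq_mul, map_mul, map_pow, map_natCast, aeval_X, mul_one,
          mul_zero, add_zero, aeval_C] at h2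
        rw [hi]
        rcases mul_eq_zero.1 h2 with h | h
        · exact h
        · rcases mul_eq_zero.1 h with h | h
          · exact absurd ((map_eq_zero _).1 h) hc
          · by_contra h3
            rcases mul_eq_zero.1 h with h | h
            · exact hm.ne' (by exact_mod_cast h)
            · exact pow_ne_zero _ h3 h


end CLO

end Pool.Agent.H87.QF
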