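import Pool.Agent.H87.QF.Stmts
import Mathlib.LinearAlgebra.Matrix.Transvection

set_option autoImplicit false

namespace Pool.Agent.H87.QF

open Matrix

namespace DIAaux

variable {R : Type} [CommRing R]

/-- congruent matrices -/
def Cong {J : Type} [Fintype J] [DecidableEq J] (S S' : Matrix J J R) : Prop :=
  ∃ A A' : Matrix J J R, A * A' = 1 ∧ A' * A = 1 ∧ A.transpose * S * A = S'

/-- diagonalisable by congruence -/
def Dbl {J : Type} [Fintype J] [DecidableEq J] (S : Matrix J J R) : Prop :=
  ∃ (A A' : Matrix J J R) (U : J → R), A * A' = 1 ∧ A' * A = 1 ∧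
    A.transpose * S * A = Matrix.diagonal U

section

variable {J : Type} [Fintype J] [DecidableEq J]

theorem dbl_of_cong {S S' : Matrix J J R} (h : Cong S S') (h' : Dbl S') : Dbl S := by
  obtain ⟨A, A', h1, h2, h3⟩ := h
  obtain ⟨B, B', U, k1, k2, k3⟩ := h'
  refine ⟨A * B, B' * A', U, ?_, ?_, ?_⟩
  · rw [show A * B * (B' * A') = A * (B * B') * A' by simp only [Matrix.mul_assoc], k1,
      Matrix.mul_one, h1]
  · rw [show B' * A' * (A * B) = B' * (A' * A) * B by simp only [Matrix.mul_assoc], h2,
      Matrix.mul_one, k2]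
  · rw [transpose_mul, show B.transpose * A.transpose * S * (A * B) =
      B.transpose * (A.transpose * S * A) * B by simp only [Matrix.mul_assoc], h3, k3]

theorem dbl_reindex {K : Type} [Fintype K] [DecidableEq K] (e : J ≃ K) (S : Matrix K K R)
    (h : Dbl (S.submatrix e e)) : Dbl S := by
  obtain ⟨A, A', U, h1, h2, h3⟩ := h
  refine ⟨A.submatrix e.symm e.symm, A'.submatrix e.symm e.symm, U ∘ e.symm, ?_, ?_, ?_⟩
  · rw [submatrix_mul_equiv, h1, submatrix_one_equiv]
  · rw [submatrix_mul_equiv, h2, submatrix_one_equiv]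
  · have hS : S = (S.submatrix e e).submatrix e.symm e.symm := by
      ext i j
      simp
    rw [transpose_submatrix]
    nth_rewrite 1 [hS]
    rw [submatrix_mul_equiv, submatrix_mul_equiv, h3]
    ext i j
    simp [diagonal_apply]

theorem dbl_block (a : R) (S : Matrix J J R) (h : Dbl S) :
    Dbl (fromBlocks (of fun _ _ : Unit => a) 0 0 S) := by
  obtain ⟨A, A', U, h1, h2, h3⟩ := h
  refine ⟨fromBlocks 1 0 0 A, fromBlocks 1 0 0 A', Sum.elim (fun _ => a) U, ?_, ?_, ?_⟩
  · rw [fromBlocks_multiply]
    simp [h1]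
  · rw [fromBlocks_multiply]
    simp [h2]
  · rw [fromBlocks_transpose, fromBlocks_multiply, fromBlocks_multiply]
    simp only [transpose_one, transpose_zero, Matrix.one_mul, Matrix.zero_mul, Matrix.mul_zero,
      Matrix.mul_one, add_zero, zero_add, h3]
    ext i j
    rcases i with i | i <;> rcases j with j | j <;> simp [diagonal_apply]

theorem schur (a : R) (c : J → R) (D : Matrix J J R) :
    Cong (fromBlocks (of fun _ _ : Unit => a) (of fun (_ : Unit) j => a * c j)
      (of fun j (_ : Unit) => a * c j) D)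
      (fromBlocks (of fun _ _ : Unit => a) 0 0 (D - of fun i j => a * c i * c j)) := by
  refine ⟨fromBlocks 1 (of fun (_ : Unit) j => -c j) 0 1,
    fromBlocks 1 (of fun (_ : Unit) j => c j) 0 1, ?_, ?_, ?_⟩
  · rw [fromBlocks_multiply, ← fromBlocks_one]
    congr 1
    · simp
    · ext i j
      simp
    · simp
    · simp
  · rw [fromBlocks_multiply, ← fromBlocks_one]
    congr 1
    · simp
    · ext i j
      simp
    · simp
    · simp
  · rw [fromBlocks_transpose, fromBlocks_multiply, fromBlocks_multiply]
    congr 1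
    · ext i j
      simp
    · ext i j
      simp [Matrix.mul_apply]
    · ext i j
      simp [Matrix.mul_apply, Matrix.add_apply]
      ring
    · ext i j
      simp [Matrix.mul_apply, Matrix.add_apply, Matrix.sub_apply]
      ring

end

theorem exists_min [IsDomain R] [ValuationRing R] {ι : Type} (f : ι → R) (s : Finset ι)
    (hs : s.Nonempty) : ∃ i ∈ s, ∀ j ∈ s, f i ∣ f j := by
  classical
  induction hs using Finset.Nonempty.cons_induction with
  | singleton a => exact ⟨a, by simp, by simp⟩
  | cons a s h hs ih =>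
    obtain ⟨i, hi, hi'⟩ := ih
    rcases ValuationRing.dvd_total (f a) (f i) with h1 | h1
    · refine ⟨a, by simp, ?_⟩
      intro j hj
      rcases Finset.mem_cons.1 hj with rfl | hj
      · exact dvd_rfl
      · exact h1.trans (hi' j hj)
    · refine ⟨i, by simp [hi], ?_⟩
      intro j hj
      rcases Finset.mem_cons.1 hj with rfl | hj
      · exact h1
      · exact hi' j hj

theorem pivot [IsDomain R] [ValuationRing R] (h2 : IsUnit (2 : R)) {J : Type} [Fintype J]
    [DecidableEq J] [Nonempty J] (S : Matrix J J R) (hS : S.IsSymm) :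
    ∃ S' : Matrix J J R, Cong S S' ∧ S'.IsSymm ∧ ∃ p, ∀ i j, S' p p ∣ S' i j := by
  by_cases hA : ∃ p, ∀ i j, S p p ∣ S i j
  · exact ⟨S, ⟨1, 1, Matrix.one_mul 1, Matrix.one_mul 1, by simp⟩, hS, hA⟩
  obtain ⟨⟨p, q⟩, -, hpq⟩ := exists_min (fun x : J × J => S x.1 x.2) Finset.univ
    Finset.univ_nonempty
  have hmin : ∀ i j, S p q ∣ S i j := fun i j => hpq (i, j) (Finset.mem_univ _)
  have hne : p ≠ q := by
    rintro rfl
    exact hA ⟨p, hmin⟩
  obtain ⟨m, hm⟩ := hmin p p
  obtain ⟨m', hm'⟩ := hmin q q
  have hmu : m ∈ nonunits R := by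
    intro hu
    apply hA
    refine ⟨p, fun i j => ?_⟩
    rw [hm, hu.mul_right_dvd]
    exact hmin i j
  have hmu' : m' ∈ nonunits R := by
    intro hu
    apply hA
    refine ⟨q, fun i j => ?_⟩
    rw [hm', hu.mul_right_dvd]
    exact hmin i j
  have hu : IsUnit (2 + m + m') := by
    by_contra hn
    have h3 : m + m' ∈ nonunits R := IsLocalRing.nonunits_add hmu hmu'
    have h4 : -(m + m') ∈ nonunits R := by
      intro h5
      exact h3 (IsUnit.neg_iff _ |>.1 h5)
    have h6 : (2 + m + m') + -(m + m') ∈ nonunits R := IsLocalRing.nonunits_add hn h4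
    apply h6
    rw [show (2 + m + m') + -(m + m') = (2 : R) by ring]
    exact h2
  have hsym : S q p = S p q := hS.apply p q
  set A : Matrix J J R := transvection q p 1 with hAdef
  have hAA : A * transvection q p (-1) = 1 := by
    rw [hAdef, transvection_mul_transvection_same _ _ hne.symm]
    simp
  have hAA' : transvection q p (-1) * A = 1 := by
    rw [hAdef, transvection_mul_transvection_same _ _ hne.symm]
    simp
  have hpp : (A.transpose * S * A) p p = S p q * (2 + m + m') := by
    have h5 : ∀ M : Matrix J J R, (A.transpose * M) p p = M p p + M q p := by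
      intro M
      have : (A.transpose * M) p p = (M.transpose * A) p p := by
        rw [← transpose_apply (M.transpose * A), transpose_mul, transpose_transpose]
      rw [this, hAdef, mul_transvection_apply_same]
      simp
    rw [Matrix.mul_assoc, h5, hAdef, mul_transvection_apply_same, mul_transvection_apply_same,
      hm, hm', hsym]
    ring
  refine ⟨A.transpose * S * A, ⟨A, transvection q p (-1), hAA, hAA', rfl⟩, ?_, p, ?_⟩
  · unfold Matrix.IsSymm
    rw [transpose_mul, transpose_mul, transpose_transpose, hS.eq, Matrix.mul_assoc]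
  · intro i j
    rw [hpp, hu.mul_right_dvd, Matrix.mul_apply]
    refine Finset.dvd_sum fun l _ => Dvd.dvd.mul_right ?_ _
    rw [Matrix.mul_apply]
    exact Finset.dvd_sum fun k _ => Dvd.dvd.mul_left (hmin k l) _

theorem main [IsDomain R] [ValuationRing R] (h2 : IsUnit (2 : R)) (n : ℕ) :
    ∀ (J : Type) [Fintype J] [DecidableEq J] (S : Matrix J J R), Fintype.card J = n →
      S.IsSymm → Dbl S := by
  induction n with
  | zero =>
    intro J _ _ S hJ _
    have : IsEmpty J := Fintype.card_eq_zero_iff.1 hJ
    refine ⟨1, 1, fun _ => 0, Matrix.one_mul 1, Matrix.one_mul 1, ?_⟩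
    ext i
    exact isEmptyElim i
  | succ n ih =>
    intro J _ _ S hJ hS
    have : Nonempty J := Fintype.card_pos_iff.1 (by omega)
    obtain ⟨S', hc, hS', p, hp⟩ := pivot h2 S hS
    apply dbl_of_cong hc
    let e : Unit ⊕ {a : J // ¬ a = p} ≃ J :=
      (Equiv.sumCongr (Equiv.ofUnique Unit {a : J // a = p}) (Equiv.refl _)).trans
        (Equiv.sumCompl (fun a => a = p))
    apply dbl_reindex e
    have hcj : ∀ j, ∃ c, S' p j = S' p p * c := fun j => hp p j
    choose c hc' using hcj
    have hsymm : ∀ i j, S' i j = S' j i := fun i j => hS'.apply j i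
    have hM : S'.submatrix e e = fromBlocks (of fun _ _ : Unit => S' p p)
        (of fun (_ : Unit) (j : {a : J // ¬ a = p}) => S' p p * c j.1)
        (of fun (j : {a : J // ¬ a = p}) (_ : Unit) => S' p p * c j.1)
        (of fun i j : {a : J // ¬ a = p} => S' i.1 j.1) := by
      ext i j
      rcases i with i | i <;> rcases j with j | j
      · rfl
      · exact hc' j.1
      · show S' i.1 p = S' p p * c i.1
        rw [hsymm, hc']
      · rfl
    rw [hM]
    refine dbl_of_cong (schur (S' p p) (fun j : {a : J // ¬ a = p} => c j.1) _) (dbl_block _ _ ?_)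
    apply ih
    · rw [Fintype.card_subtype_compl, hJ]
      simp
    · ext i j
      show S' j.1 i.1 - S' p p * c j.1 * c i.1 = S' i.1 j.1 - S' p p * c i.1 * c j.1
      rw [hsymm j.1 i.1]
      ring

end DIAaux

theorem DIA : DIAStmt := by
  intro R _ _ _ h2 J _ _ S hS
  exact DIAaux.main h2 (Fintype.card J) J S rfl hS

end Pool.Agent.H87.QF
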