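import Pool.Agent.H75.Fib.FIN3
import Pool.Agent.H75.Plc.CN1

/-! # Project QFM (quadric families and the motivic monodromy conjecture, MP_432c1b_ag): definitions -/

set_option autoImplicit false

namespace Pool.Agent.H87.QF

open MvPolynomial Pool.Agent.H39.MonoR Pool.Agent.H75.Mono

/-! ### quadrics over a ring -/

/-- a polynomial of degree at most two in the `y_j`, `j ∈ J`, with coefficients in `R` -/
structure QD (R J : Type) where
  a : J → J → R
  b : J → R
  c : R

section QD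

variable {R J : Type} [CommRing R] [Fintype J]

/-- the value `Σ a_ij y_i y_j + Σ b_i y_i + c`, through a ring homomorphism -/
def QD.val (D : QD R J) {S : Type} [CommRing S] (φ : R →+* S) (y : J → S) : S :=
  ∑ i, ∑ j, φ (D.a i j) * (y i * y j) + ∑ i, φ (D.b i) * y i + φ D.c

/-- the image under a ring homomorphism -/
def QD.map (D : QD R J) {S : Type} [CommRing S] (φ : R →+* S) : QD S J :=
  ⟨fun i j => φ (D.a i j), fun i => φ (D.b i), φ D.c⟩

/-- a diagonal form: `D(A y + s) = Σ U_i y_i² + Σ B_i y_i + c`, `A` invertible -/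
structure Diag [DecidableEq J] (D : QD R J) where
  A : Matrix J J R
  A' : Matrix J J R
  l : A * A' = 1
  r : A' * A = 1
  s : J → R
  U : J → R
  B : J → R
  c : R
  eq : ∀ (S : Type) [CommRing S] (φ : R →+* S) (y : J → S),
    D.val φ (fun j => ∑ m, φ (A j m) * y m + φ (s j)) =
      ∑ i, φ (U i) * y i ^ 2 + ∑ i, φ (B i) * y i + φ c

/-- reduced: each `B_i` is zero or not a multiple of `U_i` -/
def Diag.Red [DecidableEq J] {D : QD R J} (Δ : Diag D) : Prop :=
  ∀ i, Δ.B i = 0 ∨ ¬ Δ.U i ∣ Δ.B i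

end QD

section Pol

variable {k : Type} [Field k] {J : Type} [Fintype J]

/-- `k[x] → k[x, y]` -/
noncomputable def emb (k : Type) [Field k] (J : Type) :
    Polynomial k →+* MvPolynomial (Option J) k :=
  (Polynomial.aeval (X none : MvPolynomial (Option J) k)).toRingHom

/-- the polynomial of a quadric over `k[x]`; the variable `none` is `x`, `some j` is `y_j` -/
noncomputable def pol (D : QD (Polynomial k) J) : MvPolynomial (Option J) k :=
  D.val (emb k J) fun j => X (some j)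

/-- the Taylor expansion at `x0`: `k[x] → k⟦X⟧`, `x ↦ x0 + X` -/
noncomputable def tay (x0 : k) : Polynomial k →+* PowerSeries k :=
  (Polynomial.aeval (PowerSeries.C x0 + PowerSeries.X : PowerSeries k)).toRingHom

end Pol

/-! ### the local data of a diagonal form over `k⟦X⟧` -/

section Loc

variable {k : Type} [Field k] {J : Type} [Fintype J] [DecidableEq J] {D : QD (PowerSeries k) J}

/-- the order of a power series (`0` for the zero series) -/
noncomputable def od (u : PowerSeries k) : ℕ := u.order.toNat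

/-- the leading coefficient -/
noncomputable def lc (u : PowerSeries k) : k := PowerSeries.coeff (od u) u

open Classical in
/-- `a_τ = 2 + Σ (τ - e_i)`, the sum over the `i` with `U_i ≠ 0`, `e_i < τ` -/
noncomputable def aT (U : J → PowerSeries k) (τ : ℕ) : ℕ :=
  2 + ∑ i ∈ Finset.univ.filter (fun i => U i ≠ 0), (τ - od (U i))

open Classical in
/-- the number of nonzero `U_i` -/
noncomputable def rk (U : J → PowerSeries k) : ℕ := (Finset.univ.filter fun i => U i ≠ 0).card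

/-- all `B_i` and `c` are divisible by `X^m` -/
def Deep (Δ : Diag D) (m : ℕ) : Prop :=
  (∀ i, (PowerSeries.X : PowerSeries k) ^ m ∣ Δ.B i) ∧ (PowerSeries.X : PowerSeries k) ^ m ∣ Δ.c

/-- `τ` is a level of the diagonal form: `1 ≤ τ ≤ μ`, where `μ` is the minimal order of the `B_i` and of
`c` (`∞` if they all vanish), and `τ` is `μ` or the order of some `U_i ≠ 0` -/
def Lev (Δ : Diag D) (τ : ℕ) : Prop :=
  1 ≤ τ ∧ Deep Δ τ ∧ ((∃ i, Δ.U i ≠ 0 ∧ od (Δ.U i) = τ) ∨ ¬ Deep Δ (τ + 1))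

/-- `B = 0`, `c = 0` -/
def Pure (Δ : Diag D) : Prop := (∀ i, Δ.B i = 0) ∧ Δ.c = 0

/-- the smooth case: `c` has order one, all `B_i` have order at least two and no `U_i` has order one -/
def Smo (Δ : Diag D) : Prop :=
  PowerSeries.coeff 0 Δ.c = 0 ∧ PowerSeries.coeff 1 Δ.c ≠ 0 ∧
    (∀ i, (PowerSeries.X : PowerSeries k) ^ 2 ∣ Δ.B i) ∧ ∀ i, ¬ (Δ.U i ≠ 0 ∧ od (Δ.U i) = 1)

end Loc

/-! ### relative quadrics over a space of parameters -/

section Rel

variable (k : Type) [Field k] [Algebra k ℂ] {E : Type} [Aff E]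

/-- a family of power series with polynomial coefficients -/
def PS (F : E → PowerSeries ℂ) : Prop := ∀ l, PFun k fun e => PowerSeries.coeff l (F e)

variable {k} {J : Type} [Fintype J]

/-- `Σ V_i y_i² + Σ B_i y_i + F` -/
noncomputable def qf (V B : J → E → PowerSeries ℂ) (F : E → PowerSeries ℂ) {d : ℕ}
    (x : E × (J × Fin (d + 1) → ℂ)) : PowerSeries ℂ :=
  ∑ i, V i x.1 * arc x.2 i ^ 2 + ∑ i, B i x.1 * arc x.2 i + F x.1

/-- `{(e, y) : e ∈ Q, Σ V_i y_i² + Σ B_i y_i + F = c t^d mod t^(d+1)}` -/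
def rel (V B : J → E → PowerSeries ℂ) (F : E → PowerSeries ℂ) (d : ℕ) (Q : Set E) (c : E → ℂ) :
    Set (E × (J × Fin (d + 1) → ℂ)) :=
  {x | x.1 ∈ Q ∧ ∀ l, l ≤ d → PowerSeries.coeff l (qf V B F x) = if l = d then c x.1 else 0}

/-- `V e` has order exactly `κ` for all `e ∈ Q` (order `> d` if `κ > d`) -/
def Exact (V : E → PowerSeries ℂ) (Q : Set E) (d κ : ℕ) : Prop :=
  ∀ e ∈ Q, (∀ l, l < κ → l ≤ d → PowerSeries.coeff l (V e) = 0) ∧
    (κ ≤ d → PowerSeries.coeff κ (V e) ≠ 0)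

/-- some `y_i` has `κ_i + 2 ord y_i < m` -/
def low (κ : J → ℕ) (m : ℕ) {d : ℕ} (y : J × Fin (d + 1) → ℂ) : Prop :=
  ∃ i, ∃ a : Fin (d + 1), κ i + 2 * a < m ∧ (∀ l : Fin (d + 1), l < a → y (i, l) = 0) ∧
    y (i, a) ≠ 0

/-- the truncated series with given coefficients -/
noncomputable def ser {N : ℕ} (v : Fin N → ℂ) : PowerSeries ℂ :=
  PowerSeries.mk fun l => if h : l < N then v ⟨l, h⟩ else 0

/-- the substitution `u(a)` of a series without constant term -/
noncomputable def sb (a : PowerSeries ℂ) (u : PowerSeries k) : PowerSeries ℂ :=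
  PowerSeries.mk fun l => ∑ j ∈ Finset.range (l + 1),
    algebraMap k ℂ (PowerSeries.coeff j u) * PowerSeries.coeff l (a ^ j)

/-- the class of the arcs `φ` of `(x, y)`-space over the test `t` with `f(φ) = c t^d mod t^(d+1)` whose
`x`-part `v` lies in `Q` -/
noncomputable def zq [Finite J] (f : MvPolynomial (Option J) k) (d : ℕ)
    (Q : Set (Fin (d + 1) → ℂ)) (t : Test k) : M k :=
  mo k {x : (Option J × Fin (d + 1) → ℂ) × t.E | x.2 ∈ t.W ∧ (fun l => x.1 (none, l)) ∈ Q ∧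
    Hit f d x.1 (t.c x.2)}

/-- the difference of the classes for `c` and for `0` -/
noncomputable def zd (f : MvPolynomial (Option J) k) (d : ℕ)
    (Q : Set (Fin (d + 1) → ℂ)) (t : Test k) : M k :=
  zq f d Q t - zq f d Q t.zr

/-- the `x`-arcs `x0 + X`, `ord X = n` -/
def ordEq (x0 : k) (d n : ℕ) : Set (Fin (d + 1) → ℂ) :=
  {v | (∀ l : Fin (d + 1), (l : ℕ) < n → v l = if (l : ℕ) = 0 then algebraMap k ℂ x0 else 0) ∧
    ∀ l : Fin (d + 1), (l : ℕ) = n → v l ≠ 0}

/-- the `x`-arcs `x0 + X`, `ord X > m` -/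
def ordGt (x0 : k) (d m : ℕ) : Set (Fin (d + 1) → ℂ) :=
  {v | ∀ l : Fin (d + 1), (l : ℕ) ≤ m → v l = if (l : ℕ) = 0 then algebraMap k ℂ x0 else 0}

end Rel

/-! ### pre-chains over `k⟦X⟧[y]` -/

section Root

variable {k : Type} [Field k] {J : Type}

/-- the derivative `d/dX` of the coefficients -/
noncomputable def dX (q : MvPolynomial J (PowerSeries k)) : MvPolynomial J (PowerSeries k) :=
  ∑ m ∈ q.support, monomial m (PowerSeries.derivative k (coeff m q))

/-- the diagonal polynomial `Σ U_i y_i² + Σ B_i y_i + c` -/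
noncomputable def gen [Fintype J] (U B : J → PowerSeries k) (c : PowerSeries k) :
    MvPolynomial J (PowerSeries k) :=
  ∑ i, C (U i) * X i ^ 2 + ∑ i, C (B i) * X i + C c

/-- a D-module over `k⟦X⟧[y]` with elements `E_n`, which behave like `Γ(s+n) f^(-s-n)`, `n ≥ 0` -/
structure PC (f : MvPolynomial J (PowerSeries k)) (s : ℚ) : Type 1 where
  V : Type
  [acg : AddCommGroup V]
  [mod : Module k V]
  ρ : MvPolynomial J (PowerSeries k) →ₐ[k] Module.End k V
  DX : Module.End k V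
  D : J → Module.End k V
  leibX : ∀ p v, DX (ρ p v) = ρ (dX p) v + ρ p (DX v)
  leib : ∀ i p v, D i (ρ p v) = ρ (pderiv i p) v + ρ p (D i v)
  E : ℕ → V
  mul : ∀ n, ρ f (E (n + 1)) = ((s : k) + n) • E n
  derX : ∀ n, DX (E n) = -ρ (dX f) (E (n + 1))
  der : ∀ i n, D i (E n) = -ρ (pderiv i f) (E (n + 1))
  ne : E 0 ≠ 0

attribute [instance] PC.acg PC.mod

/-- `f`, `∂f/∂X`, `∂f/∂y_i` kill `E_0` -/
def PC.Z {f : MvPolynomial J (PowerSeries k)} {s : ℚ} (p : PC f s) : Prop :=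
  p.ρ f (p.E 0) = 0 ∧ p.ρ (dX f) (p.E 0) = 0 ∧ ∀ i, p.ρ (pderiv i f) (p.E 0) = 0

/-- a D-module with elements `G_c`, `c ∈ ℤ`, which behave like `Γ(t+c) g^(-t-c)`; for `τ = 1` the derivatives
are only required for `c ≥ 0` -/
structure GC (g : MvPolynomial J k) (t : ℚ) (τ : ℕ) : Type 1 where
  V : Type
  [acg : AddCommGroup V]
  [mod : Module k V]
  ρ : MvPolynomial J k →ₐ[k] Module.End k V
  D : J → Module.End k V
  leib : ∀ i p v, D i (ρ p v) = ρ (pderiv i p) v + ρ p (D i v)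
  G : ℤ → V
  mul : ∀ c : ℤ, ρ g (G (c + 1)) = ((t : k) + c) • G c
  der : ∀ (i : J) (c : ℤ), 2 ≤ τ ∨ 0 ≤ c → D i (G c) = -ρ (pderiv i g) (G (c + 1))
  ne : G 0 ≠ 0

attribute [instance] GC.acg GC.mod

/-- all monomials `X^a y^m` of `q` have weight `2a + Σ_(i ∈ I) (τ - e_i) m_i ≥ w` -/
def WG (I : Finset J) (e : J → ℕ) (τ w : ℕ) (q : MvPolynomial J (PowerSeries k)) : Prop :=
  ∀ (m : J →₀ ℕ) (a : ℕ), PowerSeries.coeff a (coeff m q) ≠ 0 → w ≤ 2 * a + ∑ i ∈ I, (τ - e i) * m i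

/-- the principal part `Σ_(i ∈ I) u_i X^(e_i) y_i² + X^τ g` -/
noncomputable def prin (I : Finset J) (e : J → ℕ) (u : J → k) (τ : ℕ) (g : MvPolynomial J k) :
    MvPolynomial J (PowerSeries k) :=
  ∑ i ∈ I, C (PowerSeries.C (u i) * PowerSeries.X ^ e i) * X i ^ 2 +
    C (PowerSeries.X ^ τ) * MvPolynomial.map PowerSeries.C g

end Root

/-! ### the good pairs -/

/-- the pairs `(a, b)`, `a < 0 < b`, such that there is a chain for `f` with exponent `-a/b`, whose first
element is killed by `f` and its derivatives -/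
def Gd {k : Type} [Field k] {σ : Type} (f : MvPolynomial σ k) : Set (ℤ × ℕ) :=
  {p | p.1 < 0 ∧ 0 < p.2 ∧ SRs k f (-(p.1 : ℚ) / p.2)}

end Pool.Agent.H87.QF
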