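import Pool.Agent.H87.QF.PDefs
import Pool.Agent.H66.Mot.Bridge
import Pool.Agent.H87.QF.CLS

/-!
# Fibrewise composites of plane curves and quadric families: from the definitions of `PDefs`
-/

set_option autoImplicit false

namespace Pool.QF

open MvPolynomial Pool.Agent.H87.QF

theorem Good.fibq {k : Subfield ℂ} {n : ℕ} {s : Finset (Fin n)} {f : MvPolynomial (Fin n) k} {a : k}
    (h : Good s f a) : Fibq s f a := by
  classical
  induction h with
  | smooth s f a h1 h2 => exact .smooth h1 h2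
  | plane s f a h1 h2 h3 h4 => exact .plane a h1 h2 h3 h4
  | quadric s f a i h1 h2 h3 h4 h5 =>
    exact .quad a i h1 h2 h3 h4 fun m hm => h5 m (mem_support_iff.2 hm)
  | mul s t f g hd hf hg _ _ ih1 ih2 => exact .mul hd hf hg ih1 ih2
  | sum s t f g a h1 hd hf hg _ _ ih1 ih2 =>
    exact (Pool.Agent.H87.QF.add_mem hd ⟨hf, ih1⟩ ⟨hg, ih2⟩).2 a
  | prod s t f g a h1 hd hf hg _ _ ih1 ih2 =>
    exact (Pool.Agent.H87.QF.mul_mem hd ⟨hf, ih1⟩ ⟨hg, ih2⟩).2 a
  | outer s f p a h1 hp hf _ ih => exact (Pool.Agent.H87.QF.outer_mem hp ⟨hf, ih⟩).2 a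
  | @gate r s f G a T hG hd hN hv _ ih =>
    obtain ⟨h1, h2⟩ := hG
    choose! h3 w d B h4 h5 using h2
    exact .gate T w d B h1 h3 h4 h5 hd hN hv ih

/-- The theorem, from the last row of the project. -/
theorem composites (hFIN : FINStmt) (k : Subfield ℂ) (n : ℕ) (s : Finset (Fin n))
    (f : MvPolynomial (Fin n) k) (hf : Good s f 0) (hc : Nonconstant f) : Pool.Mot.Strong k f :=
  Pool.Mot.strong_of (hf.fibq.main hFIN hc)

end Pool.QF
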