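import Mathlib

/-!
# Fibrewise composites of plane curves and quadric families (definitions)

`k` is a field with an embedding into `ℂ`, for example a subfield of `ℂ`.
-/

set_option autoImplicit false

namespace Pool.QF

open MvPolynomial

variable {k : Type} [Field k]

/-- Some partial derivative is not zero. -/
def Nonconstant {n : ℕ} (f : MvPolynomial (Fin n) k) : Prop := ∃ i, pderiv i f ≠ 0

variable [Algebra k ℂ]

/-- `a` is not a critical value of `f : ℂ^n → ℂ`. -/
def Noncritical {n : ℕ} (f : MvPolynomial (Fin n) k) (a : ℂ) : Prop :=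
  ∀ x : Fin n → ℂ, aeval x f = a → ∃ i, aeval x (pderiv i f) ≠ 0

/-- `P = H + R`, `H` weighted homogeneous of degree `d` for weights `0 < w_i ≤ d`, all monomials of `R`
of weight greater than `d`, and the origin is the only common zero in `ℂ^r` of `∂H/∂u_i`, `i ∈ B`, and
`u_i ∂H/∂u_i`, `i ∉ B`. -/
def SemiWeighted {r : ℕ} (w : Fin r → ℕ) (d : ℕ) (B : Finset (Fin r)) (P : MvPolynomial (Fin r) k) :
    Prop :=
  0 < d ∧ (∀ i, 0 < w i ∧ w i ≤ d) ∧ ∃ H R : MvPolynomial (Fin r) k, P = H + R ∧
    IsWeightedHomogeneous w H d ∧ (∀ m, coeff m R ≠ 0 → d < Finsupp.weight w m) ∧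
    ∀ x : Fin r → ℂ, (∀ i ∈ B, aeval x (pderiv i H) = 0) →
      (∀ i, i ∉ B → x i * aeval x (pderiv i H) = 0) → x = 0

/-- The gate `G(f_0, …, f_r)` at the value `a`, with the finite set `T` of points `b`: the points
`x ∈ ℂ^(r+1)` with `G(x) = a`, such that for each `i` the derivative `∂G/∂u_i` vanishes at `x` or `x_i`
is a critical value of `f_i`, are in `T`; for `b ∈ T` one has `G(b) = a`, and `G(b + u) - a` is
semi-weighted homogeneous relative to a set `B` of indices such that `b_i` is a noncritical value of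
`f_i` and `w_i < d` for `i ∈ B`. -/
def Gate {n r : ℕ} (f : Fin r → MvPolynomial (Fin n) k) (G : MvPolynomial (Fin r) k) (a : k)
    (T : Finset (Fin r → k)) : Prop :=
  (∀ x : Fin r → ℂ, aeval x G = algebraMap k ℂ a →
    (∀ i, aeval x (pderiv i G) = 0 ∨ ¬ Noncritical (f i) (x i)) →
      ∃ b ∈ T, ∀ i, x i = algebraMap k ℂ (b i)) ∧
  ∀ b ∈ T, eval b G = a ∧ ∃ (w : Fin r → ℕ) (d : ℕ) (B : Finset (Fin r)),
    SemiWeighted w d B (aeval (fun i => X i + C (b i)) G - C a) ∧
      ∀ i ∈ B, w i < d ∧ Noncritical (f i) (algebraMap k ℂ (b i))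

/-- `Good s f a`: `f` is a fibrewise composite of plane curves and quadric families at the value `a`, in
the variables `x_i`, `i ∈ s`. -/
inductive Good {n : ℕ} : Finset (Fin n) → MvPolynomial (Fin n) k → k → Prop
  | smooth (s : Finset (Fin n)) (f : MvPolynomial (Fin n) k) (a : k) : f.vars ⊆ s →
      Noncritical f (algebraMap k ℂ a) → Good s f a
  | plane (s : Finset (Fin n)) (f : MvPolynomial (Fin n) k) (a : k) : IsAlgClosed k →
      s.card = 2 → f.vars ⊆ s → Nonconstant f → Good s f a
  | quadric (s : Finset (Fin n)) (f : MvPolynomial (Fin n) k) (a : k) (i : Fin n) : IsAlgClosed k →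
      i ∈ s → f.vars ⊆ s → Nonconstant f → (∀ m ∈ f.support, ∑ j ∈ s.erase i, m j ≤ 2) → Good s f a
  | mul (s t : Finset (Fin n)) (f g : MvPolynomial (Fin n) k) : Disjoint s t → Nonconstant f →
      Nonconstant g → Good s f 0 → Good t g 0 → Good (s ∪ t) (f * g) 0
  | sum (s t : Finset (Fin n)) (f g : MvPolynomial (Fin n) k) (a : k) : IsAlgClosed k →
      Disjoint s t → Nonconstant f → Nonconstant g → (∀ b, Good s f b) → (∀ b, Good t g b) →
      Good (s ∪ t) (f + g) a
  | prod (s t : Finset (Fin n)) (f g : MvPolynomial (Fin n) k) (a : k) : IsAlgClosed k →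
      Disjoint s t → Nonconstant f → Nonconstant g → (∀ b, Good s f b) → (∀ b, Good t g b) →
      Good (s ∪ t) (f * g) a
  | outer (s : Finset (Fin n)) (f : MvPolynomial (Fin n) k) (p : Polynomial k) (a : k) :
      IsAlgClosed k → 0 < p.natDegree → Nonconstant f → (∀ b, Good s f b) →
      Good s (Polynomial.aeval f p) a
  | gate {r : ℕ} (s : Fin (r + 1) → Finset (Fin n)) (f : Fin (r + 1) → MvPolynomial (Fin n) k)
      (G : MvPolynomial (Fin (r + 1)) k) (a : k) (T : Finset (Fin (r + 1) → k)) : Gate f G a T →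
      (∀ i j, i ≠ j → Disjoint (s i) (s j)) → (∀ i, Nonconstant (f i)) →
      (∀ i, (f i).vars ⊆ s i) → (∀ b ∈ T, ∀ i, Good (s i) (f i) (b i)) →
      Good (Finset.univ.biUnion s) (aeval f G) a

end Pool.QF
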