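import Pool.Agent.H87.QF.Defs

/-!
# Project QFM: the rows

GOAL (MP_432c1b_ag, weight 10). `k ⊂ ℂ` algebraically closed, `f ∈ k[x, y_1, …, y_m]` nonconstant, of total
degree `≤ 2` in the `y_j` (the coefficients are ARBITRARY polynomials in `x`). Then `P3 f a` for all `a`
(`Pool.Agent.H75.Mono.P3`), so the strong motivic monodromy conjecture holds for `f`, and `f` can be used as
an input of the gates of helper75.

Every row `XXX` is a `def XXXStmt : Prop`; prove it as `theorem XXX (h₁ : YYYStmt) … : XXXStmt` (hypotheses =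
the rows of the column `needs`, in that order; fewer is fine) in `Pool/Agent/H87/QF/XXX.lean`,
`namespace Pool.Agent.H87.QF`, importing `Pool.Agent.H87.QF.Stmts` only (plus Mathlib / H75 files).
Axioms only `propext`, `Classical.choice`, `Quot.sound`; no `native_decide`.

Tools of helper75 (`Pool/Agent/H75/Mono/*.lean`, `Pool/Agent/H75/Fib/*.lean`): `mo_bij`, `mo_prod`,
`mo_split`, `mo_union`, `mo_biUnion`, `mo_graph`, `mo_univ_pi`, `mo_univ_C` (MO.lean), `ICons.*` (IC.lean),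
`PFun.*`, `PMap.*` (PF.lean), `coeff_arc`, `ICons.hit`, `coeff_arcEval_add`, `mo_nc` (Fib/NCR.lean; its proof
`ncr_stratum` is the model of TRL, PRE, RLC), `RatF.*` (RA, RB, SA.lean), `exists_chain`, `SR.one`.
-/

set_option autoImplicit false

namespace Pool.Agent.H87.QF

open MvPolynomial Pool.Agent.H39.MonoR Pool.Agent.H75.Mono

/-! ## Part N: normal forms -/

/-- **DIA.** Symmetric matrices over a valuation ring with `1/2` are diagonalisable by congruence.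
PROOF. Reindex to `J = Fin n`, induct on `n`. `S = 0`: `A = 1`. Otherwise, divisibility being total
(`ValuationRing.dvd_total`), some entry `S_pq` divides all entries. (i) If some diagonal entry divides all
entries, take `v = e_p`. (ii) Otherwise `p ≠ q`, `S_pp = m S_pq`, `S_qq = m' S_pq` with nonunits `m, m'` (a unit
`m` would make `S_pp` divide everything), `R` is local and `2` a unit, so `2 + m + m'` is a unit; take
`v = e_p + e_q`, `vᵀ S v = (2 + m + m') S_pq`. In both cases `vᵀSv` divides all entries of `S`. Let `P` be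
invertible with first column `v` (a permutation matrix, times a transvection in case (ii)); `S' = PᵀSP` has
`S'_00 = vᵀSv` and all entries divisible by it: `S'_0j = S'_00 c_j`. With `T = 1 - Σ_(j>0) c_j E_0j` the
matrix `TᵀS'T` is the block matrix `(S'_00, S'')`; apply the induction hypothesis to `S''`. -/
def DIAStmt : Prop :=
  ∀ (R : Type) [CommRing R] [IsDomain R] [ValuationRing R], IsUnit (2 : R) →
  ∀ (J : Type) [Fintype J] [DecidableEq J] (S : Matrix J J R), S.IsSymm →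
  ∃ (A A' : Matrix J J R) (U : J → R), A * A' = 1 ∧ A' * A = 1 ∧
    A.transpose * S * A = Matrix.diagonal U

/-- **DGN** (needs DIA). Reduced diagonal forms exist.
PROOF. DIA for `S_ij = a_ij + a_ji`: `AᵀSA = diag(U⁰)`; put `U = U⁰/2`. With `x = A y'` one has
`2 Σ a_ij x_i x_j = Σ S_ij x_i x_j = Σ U⁰_i y'_i²`, so (`2` is a unit) `Σ a_ij x_i x_j = Σ U_i y'_i²`, and
`Σ b_j x_j = Σ B⁰_i y'_i`, `B⁰_i = Σ_j b_j A_ji`. For every `i` with `U_i ∣ B⁰_i`, `B⁰_i = U_i q_i`, put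
`s'_i = -q_i/2`, for the other `i` put `s'_i = 0`; substitute `y'_i = y_i + s'_i`:
`U_i (y_i+s'_i)² + B⁰_i (y_i + s'_i) = U_i y_i² + (2U_i s'_i + B⁰_i) y_i + (U_i s'_i² + B⁰_i s'_i)`.
So `s = A s'`, `B_i = 2U_i s'_i + B⁰_i` (zero if `U_i ∣ B⁰_i`, and `B⁰_i` otherwise),
`c = D.c + Σ (U_i s'_i² + B⁰_i s'_i)`. All identities are proved over `S` after applying `φ`. -/
def DGNStmt : Prop :=
  ∀ (R : Type) [CommRing R] [IsDomain R] [ValuationRing R], IsUnit (2 : R) →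
  ∀ (J : Type) [Fintype J] [DecidableEq J] (D : QD R J), ∃ Δ : Diag D, Δ.Red

/-- **POL.** Polynomials of total degree `≤ 2` in the `y_j` are of the form `pol D`.
PROOF. The set of the `pol D` is closed under addition (add the data) and contains each monomial
`c x^n y^β` with `|β| ≤ 2` (`β = 0`: `D.c = c x^n`; `β = 1_j`: `D.b j`; `|β| = 2`: `β = 1_i + 1_j`, one
entry `D.a i j`). Now `f` is the sum of its monomials. -/
def POLStmt : Prop :=
  ∀ (k : Type) [Field k] (J : Type) [Fintype J] [DecidableEq J] (f : MvPolynomial (Option J) k),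
    (∀ m, coeff m f ≠ 0 → ∑ j, m (some j) ≤ 2) → ∃ D : QD (Polynomial k) J, f = pol D

/-- the generic fibre is smooth over `h ≠ 0` -/
def TypeS {k : Type} [Field k] [Algebra k ℂ] {J : Type} [Fintype J] (D : QD (Polynomial k) J) : Prop :=
  ∃ h : Polynomial k, h ≠ 0 ∧ ∀ v : Option J → ℂ, Polynomial.aeval (v none) h ≠ 0 →
    aeval v (pol D) = 0 → ∃ i, aeval v (pderiv i (pol D)) ≠ 0

/-- `h f = Σ u_i (Σ C_ij y_j + b_i)²` with `det C ∣ h`, `u_i = 0` or `u_i ∣ h²` -/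
structure HData {k : Type} [Field k] {J : Type} [Fintype J] [DecidableEq J]
    (D : QD (Polynomial k) J) where
  h : Polynomial k
  C : Matrix J J (Polynomial k)
  b : J → Polynomial k
  u : J → Polynomial k
  ne : h ≠ 0
  det : C.det ∣ h
  dvd : ∀ i, u i = 0 ∨ u i ∣ h ^ 2
  eq : ∀ (S : Type) [CommRing S] (φ : Polynomial k →+* S) (y : J → S),
    φ h * D.val φ y = ∑ i, φ (u i) * (∑ j, φ (C i j) * y j + φ (b i)) ^ 2

/-- the number of nonzero `u_i` -/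
noncomputable def HData.r {k : Type} [Field k] {J : Type} [Fintype J] [DecidableEq J]
    {D : QD (Polynomial k) J} (H : HData D) : ℕ := by
  classical exact (Finset.univ.filter fun i => H.u i ≠ 0).card

/-- **TYP** (needs DGN). Over the generic point of the `x`-line.
PROOF. Let `K = FractionRing k[x]` (a field, so a valuation ring; char 0) and `Δ` a reduced diagonal form of
`D.map (k[x] → K)`. Over a field `Red` says: `B_i = 0` or (`B_i ≠ 0` and `U_i = 0`).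
(1) Some `B_i ≠ 0`. Differentiate `Δ.eq` (with `S = K[y']`, `φ = C`) with respect to `y'_i`: by the chain
rule `Σ_j A_ji (∂_(y_j) D)(A y' + s) = 2U_i y'_i + B_i = B_i`; substituting `y' = A'(y - s)`:
`Σ_j A_ji ∂_(y_j) f = B_i` in `K[y]`. (Or: compare coefficients; `∂_(y_j) D(y) = Σ_l (a_jl + a_lj) y_l + b_j`.)
Multiply by a common denominator `q ≠ 0`: `Σ_j (qA_ji) ∂_(y_j) f = q B_i =: h ∈ k[x]`, `h ≠ 0`. Where
`h(x) ≠ 0`, some `∂_(y_j) f ≠ 0`. Type S.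
(2) All `B_i = 0`, `c ≠ 0`. Then `f - c = Σ U_i y'_i² = ½ Σ_i y'_i ∂_(y'_i)(…) = ½ Σ_j (y_j - s_j) ∂_(y_j) f`
in `K[y]`. With a common denominator `q` of `c` and the `s_j`: `q f = qc + ½ Σ_j (q y_j - q s_j) ∂_(y_j) f`,
`h = q·(qc)`, say. Where `h(x) ≠ 0` and `f = 0`, some `∂_(y_j) f ≠ 0`. Type S.
(3) All `B_i = 0`, `c = 0`. `D.val(y) = Σ U_i ((A'(y-s))_i)²`. Let `q ≠ 0` be a common denominator of `A'`,
`A's`, `U`; `C = qA'`, `b = -qA's`, `p_i = qU_i` in `k[x]`; `det C = q^|J| det A' ≠ 0`. Put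
`h = q³ · det C · ∏_(p_i ≠ 0) p_i` and `u_i = (h/q³) p_i`. Then `h f = Σ u_i (C y + b)_i²`; `det C ∣ h`;
`u_i = 0` or `u_i ∣ h²`. The identity holds in `K[y]`, so in `k[x][y]` (`k[x][y] → K[y]` is injective), so in
every `S` (apply `eval₂Hom φ y`). Type H. (`pol D ≠ 0` is not needed.) -/
def TYPStmt : Prop :=
  ∀ (k : Type) [Field k] [Algebra k ℂ] (J : Type) [Fintype J] [DecidableEq J]
    (D : QD (Polynomial k) J), TypeS D ∨ Nonempty (HData D)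

/-- **PUD.** Type H gives a pure diagonal form at every `x0` with `h(x0) ≠ 0`.
PROOF. `tay x0` is injective, and the constant coefficient of `tay x0 p` is `p(x0)`. Let `~` denote images
under `tay x0`. `det C̃` and `h̃` are units of `k⟦X⟧` (`det C ∣ h`). Put `A = C̃⁻¹`, `A' = C̃`, `s = -C̃⁻¹ b̃`,
`U_i = h̃⁻¹ ũ_i`, `B = 0`, `c = 0`. For `φ : k⟦X⟧ → S`, `y' = Ay + s` one has `C̃y' + b̃ = y`, so
`φ(h̃) D̃.val(y') = Σ φ(ũ_i) y_i²`, and `φ(h̃)` is a unit. `U_i ≠ 0` iff `u_i ≠ 0`. -/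
def PUDStmt : Prop :=
  ∀ (k : Type) [Field k] (J : Type) [Fintype J] [DecidableEq J] (D : QD (Polynomial k) J)
    (H : HData D) (x0 : k), H.h.eval x0 ≠ 0 →
    ∃ Δ : Diag (D.map (tay x0)), Pure Δ ∧ rk Δ.U = H.r

/-! ## Part C: sums over cones -/

/-- **CON.** Four elementary families.
PROOF. `RatF` asks for a finite product of `1 - u^a T^b` which kills all coefficients of large index. Write
`den' (a,b) * F`: its `d`-th coefficient is `F_d - u^a F_(d-b)` (second term only for `d ≥ b`).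
(4) `l = {(a,2τ)}`, `N = 2τ + 1`. (3) `F_d = Σ_(n ≥ 1, nτ = d) G n`; `F_d = u^a F_(d-2τ)` for `d ≥ 3τ`.
(1) Put `δ = τ' - τ`, `p = nτ' - d`, `q = d - nτ`; the cell is `p ≥ 1, q ≥ 0` (then `n = (p+q)/δ ≥ 1`). The
shift `(n,d) ↦ (n+2, d+2τ)` is `p += 2δ`, `(n,d) ↦ (n+2,d+2τ')` is `q += 2δ`. Multiplication by
`den' (a,2τ)` leaves the sum over `1 ≤ p ≤ 2δ`, `q ≥ 0`, i.e. `nτ' - 2δ ≤ d < nτ'`, `d ≥ nτ`, then
multiplication by `den' (a',2τ')` leaves the sum over `1 ≤ p ≤ 2δ`, `0 ≤ q < 2δ`, where `n < 4`: finitely many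
`d`. (2) The same with `q = d - nτ ≥ 0` and `n ≥ 1`: the shifts are `n += 2` (`q` fixed) and `q += 2` (`n`
fixed); what remains is `n ≤ 2`, `q ≤ 1`. (One lemma about a shift `(n,d) ↦ (n+A,d+B)` and three predicates,
as in `cn1_shift` of H75/Plc/CN1.lean, does (1) and (2).) -/
def CONStmt : Prop :=
  ∀ (R : Type 1) [CommRing R] (u : Rˣ) (T : Type 1),
  (∀ (G : ℕ → ℕ → T → R) (τ τ' : ℕ) (a a' : ℤ), 1 ≤ τ → τ < τ' →
    (∀ n d t, 1 ≤ n → n * τ ≤ d → d < n * τ' →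
      G (n + 2) (d + 2 * τ) t = ↑(u ^ a) * G n d t ∧
      G (n + 2) (d + 2 * τ') t = ↑(u ^ a') * G n d t) →
    RatF u {(a, 2 * τ), (a', 2 * τ')} fun t : T => PowerSeries.mk fun d =>
      ∑ n ∈ (Finset.range (d + 1)).filter (fun n => 1 ≤ n ∧ n * τ ≤ d ∧ d < n * τ'), G n d t) ∧
  (∀ (G : ℕ → ℕ → T → R) (τ : ℕ) (a a' : ℤ), 1 ≤ τ →
    (∀ n d t, 1 ≤ n → n * τ ≤ d →
      G (n + 2) (d + 2 * τ) t = ↑(u ^ a) * G n d t ∧ G n (d + 2) t = ↑(u ^ a') * G n d t) →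
    RatF u {(a, 2 * τ), (a', 2)} fun t : T => PowerSeries.mk fun d =>
      ∑ n ∈ (Finset.range (d + 1)).filter (fun n => 1 ≤ n ∧ n * τ ≤ d), G n d t) ∧
  (∀ (G : ℕ → T → R) (τ : ℕ) (a : ℤ), 1 ≤ τ →
    (∀ n t, 1 ≤ n → G (n + 2) t = ↑(u ^ a) * G n t) →
    RatF u {(a, 2 * τ)} fun t : T => PowerSeries.mk fun d =>
      ∑ n ∈ (Finset.range (d + 1)).filter (fun n => 1 ≤ n ∧ n * τ = d), G n t) ∧
  (∀ (G : ℕ → T → R) (τ : ℕ) (a : ℤ), 1 ≤ τ →
    (∀ d t, 1 ≤ d → G (d + 2 * τ) t = ↑(u ^ a) * G d t) →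
    RatF u {(a, 2 * τ)} fun t : T => PowerSeries.mk fun d => if d = 0 then 0 else G d t)

/-- **SUM** (needs CON). The sum over a fan.
PROOF. `{n : 1 ≤ n, n τ₁ ≤ d}` is the disjoint union over `τ ∈ Λ` of the cells
`{n : 1 ≤ n, nτ ≤ d, and d < nτ' for the successor τ' of τ in Λ}` (no second condition for `τ = μ`): the cell of
`n` is the largest `τ ∈ Λ` with `nτ ≤ d`. The series is the sum of the series of the cells. A cell with
`τ < μ`: CON (1). The cell `μ`: CON (2) in the first case; in the second case only `nμ = d` contributes: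
CON (3). Finite sums of `RatF`: `RatF.add`, `RatF.fsum` (H75/Plc/BEY.lean), `RatF.mono`. (A convenient
formulation: induct on the number of elements of `Λ` below `μ`, or sort `Λ`.) -/
def SUMStmt : Prop :=
  ∀ (R : Type 1) [CommRing R] (u : Rˣ) (T : Type 1) (G : ℕ → ℕ → T → R) (Λ : Finset ℕ) (a : ℕ → ℤ)
    (S : Set (ℤ × ℕ)) (μ τ₁ : ℕ), (∀ τ ∈ Λ, 1 ≤ τ ∧ (a τ, 2 * τ) ∈ S) →
    τ₁ ∈ Λ → (∀ τ ∈ Λ, τ₁ ≤ τ) → μ ∈ Λ → (∀ τ ∈ Λ, τ ≤ μ) →
    (∀ τ ∈ Λ, ∀ τ' ∈ Λ, τ < τ' → (∀ σ ∈ Λ, σ ≤ τ ∨ τ' ≤ σ) →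
      ∀ n d t, 1 ≤ n → n * τ ≤ d → d < n * τ' →
        G (n + 2) (d + 2 * τ) t = ↑(u ^ a τ) * G n d t ∧
        G (n + 2) (d + 2 * τ') t = ↑(u ^ a τ') * G n d t) →
    ((∃ r : ℤ, (r, 2) ∈ S ∧ ∀ n d t, 1 ≤ n → n * μ ≤ d →
        G (n + 2) (d + 2 * μ) t = ↑(u ^ a μ) * G n d t ∧ G n (d + 2) t = ↑(u ^ r) * G n d t) ∨
      ((∀ n d t, 1 ≤ n → n * μ < d → G n d t = 0) ∧
        ∀ n t, 1 ≤ n → G (n + 2) ((n + 2) * μ) t = ↑(u ^ a μ) * G n (n * μ) t)) →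
    RatF u S fun t : T => PowerSeries.mk fun d =>
      ∑ n ∈ (Finset.range (d + 1)).filter (fun n => 1 ≤ n ∧ n * τ₁ ≤ d), G n d t

/-! ## Part Z: classes -/

/-- **TRL.** Translations.
PROOF. In `G × ℂ` let `A_c = {(x,v) : x ∈ P, H x = c x, lam x · v = 1}` and `A_0` the same with `H x = 0`. The
projections `A_c → {x ∈ P, H x = c x}`, `A_0 → {x ∈ P, H x = 0}` are bijective polynomial maps (`v = 1/lam x`).
The map `(x,v) ↦ (τ(x, c(x) v), v)` is a bijection `A_0 → A_c`, with inverse `(x,v) ↦ (τ(x,-c(x)v), v)`: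
`H(τ(x,cv)) = 0 + lam·c·v = c`, `c` and `lam` are constant along `τ`. Three times `mo_bij`. Compare
`ncr_stratum` in H75/Fib/NCR.lean. -/
def TRLStmt : Prop :=
  ∀ (k : Type) [Field k] [Algebra k ℂ] (G : Type) [Aff G] (P : Set G) (H lam c : G → ℂ)
    (τ : G × ℂ → G), ICons k P → PFun k H → PFun k lam → PFun k c → PMap k τ →
    (∀ x ∈ P, lam x ≠ 0) →
    (∀ x ∈ P, ∀ s : ℂ, τ (x, s) ∈ P ∧ H (τ (x, s)) = H x + lam x * s ∧ lam (τ (x, s)) = lam x ∧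
      c (τ (x, s)) = c x) →
    (∀ x ∈ P, τ (x, 0) = x) → (∀ x ∈ P, ∀ s s' : ℂ, τ (τ (x, s), s') = τ (x, s + s')) →
    mo k {x | x ∈ P ∧ H x = c x} = mo k {x | x ∈ P ∧ H x = 0}

/-- **PRE** (needs TRL). Arcs with a low term do not contribute to the difference.
PROOF. Enumerate `J` (induct over a `Finset`): the set `low κ m` is the disjoint union of the strata
`P_(i,a)`: `κ_i + 2a < m`, `ord y_i = a`, and no index before `i` is low. On `P_(i,a)` (intersected with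
`e ∈ Q` and the conditions `coeff l (qf) = 0`, `l < d`) use TRL with `τ((e,y),s)` = add `s` to the coordinate
`y(i, j₀)`, `j₀ = d - κ_i - a`. Note `a < j₀ ≤ d` because `κ_i + 2a < m ≤ d`; so `ord y_i`, the leading
coefficient of `y_i` and the other `y_j` do not change. The series changes by
`V_i (2 y_i s t^j₀ + s² t^(2j₀)) + B_i s t^j₀`, where `V_i y_i t^j₀` has order exactly `κ_i + a + j₀ = d` with
coefficient `coeff κ_i (V_i) · y(i,a)`, `V_i t^(2j₀)` has order `≥ κ_i + 2j₀ > d`, and `B_i t^j₀` has order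
`≥ m + j₀ > d` because `m > κ_i + 2a ≥ κ_i + a`. So the coefficients below `d` do not change and the `d`-th one
changes by `lam·s`, `lam = 2 coeff κ_i (V_i e) y(i,a) ≠ 0`. (`H` = `d`-th coefficient, `c` = `c(e)`.) If
`κ_i > d` the condition `κ_i + 2a < m` is void. -/
def PREStmt : Prop :=
  ∀ (k : Type) [Field k] [Algebra k ℂ] (E : Type) [Aff E] (J : Type) [Fintype J] [DecidableEq J]
    (V B : J → E → PowerSeries ℂ) (F : E → PowerSeries ℂ) (d m : ℕ) (κ : J → ℕ) (Q : Set E)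
    (c : E → ℂ), (∀ i, PS k (V i)) → (∀ i, PS k (B i)) → PS k F → ICons k Q → PFun k c →
    0 < d → m ≤ d → (∀ i, Exact (V i) Q d (κ i)) →
    (∀ i, ∀ e ∈ Q, ∀ l, l < m → PowerSeries.coeff l (B i e) = 0) →
    mo k {x | x ∈ rel V B F d Q c ∧ low κ m x.2} =
      mo k {x | x ∈ rel V B F d Q (fun _ => 0) ∧ low κ m x.2}

/-- **RLB** (needs PRE). The constant term dominates.
PROOF. PRE with `m = γ + 1 ≤ d` for the part with `low κ (γ+1)`. On the complement every `y_i ≠ 0` of order `a`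
has `κ_i + 2a ≥ γ + 1`, so all `V_i y_i²` vanish up to order `γ`, and so do the `B_i y_i`; hence the `γ`-th
coefficient of `qf` is that of `F`, which is not zero, but `γ < d`: both sets are empty there. `mo_split`. -/
def RLBStmt : Prop :=
  ∀ (k : Type) [Field k] [Algebra k ℂ] (E : Type) [Aff E] (J : Type) [Fintype J] [DecidableEq J]
    (V B : J → E → PowerSeries ℂ) (F : E → PowerSeries ℂ) (d γ : ℕ) (κ : J → ℕ) (Q : Set E)
    (c : E → ℂ), (∀ i, PS k (V i)) → (∀ i, PS k (B i)) → PS k F → ICons k Q → PFun k c →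
    γ < d → (∀ i, Exact (V i) Q d (κ i)) →
    (∀ i, ∀ e ∈ Q, ∀ l, l ≤ γ → PowerSeries.coeff l (B i e) = 0) →
    (∀ e ∈ Q, PowerSeries.coeff γ (F e) ≠ 0) →
    mo k (rel V B F d Q c) = mo k (rel V B F d Q fun _ => 0)

/-- **RLC** (needs TRL). A linear term dominates.
PROOF. TRL with `P = {e ∈ Q, coeff l (qf) = 0 for l < d}`, `H` the `d`-th coefficient and `τ` = add `s` to the
coordinate `y(i₀, d-β)`. The series changes by `V_(i₀)(2 y s t^(d-β) + s² t^(2(d-β))) + B_(i₀) s t^(d-β)`; the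
first term has order `≥ (β+1) + (d-β) > d`, the last one has order exactly `d`, with coefficient
`lam·s`, `lam = coeff β (B_(i₀) e) ≠ 0`. -/
def RLCStmt : Prop :=
  ∀ (k : Type) [Field k] [Algebra k ℂ] (E : Type) [Aff E] (J : Type) [Fintype J] [DecidableEq J]
    (V B : J → E → PowerSeries ℂ) (F : E → PowerSeries ℂ) (d β : ℕ) (i₀ : J) (Q : Set E)
    (c : E → ℂ), (∀ i, PS k (V i)) → (∀ i, PS k (B i)) → PS k F → ICons k Q → PFun k c →
    β ≤ d → (∀ e ∈ Q, ∀ l, l ≤ β → PowerSeries.coeff l (V i₀ e) = 0) →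
    (∀ e ∈ Q, ∀ l, l < β → PowerSeries.coeff l (B i₀ e) = 0) →
    (∀ e ∈ Q, PowerSeries.coeff β (B i₀ e) ≠ 0) →
    mo k (rel V B F d Q c) = mo k (rel V B F d Q fun _ => 0)

/-- the top set `Σ_P V_(i,κ_i) z_i² + F_d = c`, `P = {i : κ_i ≤ d, 2 ∣ d - κ_i}` -/
def top {E : Type} {J : Type} [Fintype J] (V : J → E → PowerSeries ℂ) (F : E → PowerSeries ℂ) (d : ℕ)
    (κ : J → ℕ) (Q : Set E) (c : E → ℂ) : Set (E × (J → ℂ)) :=
  {x | x.1 ∈ Q ∧ ∑ i ∈ Finset.univ.filter (fun i => κ i ≤ d ∧ 2 ∣ d - κ i),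
    PowerSeries.coeff (κ i) (V i x.1) * x.2 i ^ 2 + PowerSeries.coeff d (F x.1) = c x.1}

/-- **RLA** (needs PRE). The main reduction.
PROOF. The part `low κ d` has difference zero (PRE with `m = d`). On the complement put
`k_i = (d - κ_i + 1)/2` (`= 0` if `κ_i > d`); not low means: `y(i,l) = 0` for all `i` and `l < k_i` (for
`κ_i ≤ d`: the order `a` of `y_i`, if `≤ d`, has `κ_i + 2a ≥ d`, i.e. `a ≥ k_i`; conversely clear; for
`κ_i > d` no condition; note `k_i ≤ d`). Then `V_i y_i²` has all coefficients below `d` zero, and `d`-th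
coefficient `coeff κ_i (V_i) y(i,k_i)²` if `i ∈ P` (then `κ_i + 2k_i = d`), and `0` if `i ∉ P`
(`κ_i + 2k_i = d + 1`, or `κ_i > d`). So this part of `rel V B F d Q c` is
`{e ∈ Q, y(i,l) = 0 (l < k_i), Σ_P coeff κ_i (V_i) y(i,k_i)² + coeff d F = c}`, which is the product of `top`
(with `z_i = y(i,k_i)`) and the affine space of the `y(i,l)`, `l > k_i`, of dimension `Σ_i (d - k_i)`:
`mo_bij`, `mo_prod`, `mo_univ_pi`. -/
def RLAStmt : Prop :=
  ∀ (k : Type) [Field k] [Algebra k ℂ] (E : Type) [Aff E] (J : Type) [Fintype J] [DecidableEq J]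
    (V B : J → E → PowerSeries ℂ) (F : E → PowerSeries ℂ) (d : ℕ) (κ : J → ℕ) (Q : Set E)
    (c : E → ℂ), (∀ i, PS k (V i)) → (∀ i, PS k (B i)) → PS k F → ICons k Q → PFun k c →
    0 < d → (∀ i, Exact (V i) Q d (κ i)) →
    (∀ i, ∀ e ∈ Q, ∀ l, l ≤ d → PowerSeries.coeff l (B i e) = 0) →
    (∀ e ∈ Q, ∀ l, l < d → PowerSeries.coeff l (F e) = 0) →
    mo k (rel V B F d Q c) - mo k (rel V B F d Q fun _ => 0) =
      ↑(Lu k ^ ((∑ i, (d - (d - κ i + 1) / 2) : ℕ) : ℤ)) *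
        (mo k (top V F d κ Q c) - mo k (top V F d κ Q fun _ => 0))

/-- **SBS.** The substitution `sb a u = u(a)`.
PROOF. (1) For `constantCoeff a = 0`: `a^j` has order `≥ j`, so `sb a u` is `Σ_j u_j a^j`; use
`PowerSeries.substAlgHom` (after `PowerSeries.map (algebraMap k ℂ)`), `PowerSeries.coeff_subst`, or prove
directly that `sb a` is additive and multiplicative (Cauchy product). (2) `a^j` has order `≥ nj`, and
`coeff (ne) (a^e) = (coeff n a)^e`; so in `coeff l (sb a u) = Σ_(j ≤ l) u_j coeff l (a^j)`, `l ≤ ne`, only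
`j = e`, `l = ne` contributes (note `e ≤ ne`). (3) `coeff l (F^j)` is a polynomial in the coefficients of `F`
(`PowerSeries.coeff_pow` or induction on `j` with `PowerSeries.coeff_mul`). -/
def SBSStmt : Prop :=
  ∀ (k : Type) [Field k] [Algebra k ℂ],
  (∀ a : PowerSeries ℂ, PowerSeries.constantCoeff a = 0 →
    ∃ φ : PowerSeries k →+* PowerSeries ℂ, (∀ u, φ u = sb a u) ∧
      (∀ c, φ (PowerSeries.C c) = PowerSeries.C (algebraMap k ℂ c)) ∧ φ PowerSeries.X = a) ∧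
  (∀ (n e : ℕ) (a : PowerSeries ℂ) (u : PowerSeries k), 1 ≤ n →
    (∀ l, l < n → PowerSeries.coeff l a = 0) → (∀ l, l < e → PowerSeries.coeff l u = 0) →
    (∀ l, l < n * e → PowerSeries.coeff l (sb a u) = 0) ∧
      PowerSeries.coeff (n * e) (sb a u) =
        algebraMap k ℂ (PowerSeries.coeff e u) * PowerSeries.coeff n a ^ e) ∧
  (∀ (E : Type) [Aff E] (F : E → PowerSeries ℂ) (u : PowerSeries k), PS k F →
    PS k fun e => sb (F e) u)

/-- the series `v(t) - x0` of an `x`-arc -/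
noncomputable def xs {k : Type} [Field k] [Algebra k ℂ] (x0 : k) {d : ℕ} (v : Fin (d + 1) → ℂ) :
    PowerSeries ℂ :=
  ser v - PowerSeries.C (algebraMap k ℂ x0)

/-- **BAS** (needs SBS). Arcs over `x(0) = x0` and the diagonal form.
PROOF. Let `(v,w)` with `v ∈ Q`, `w ∈ W`. By SBS (1) `ψ = sb (xs x0 v)` is a ring homomorphism
`k⟦X⟧ → ℂ⟦t⟧`, and `ψ ∘ tay x0` is `p ↦ p(v(t))` (`Polynomial.ringHom_ext`). Consider the polynomial map
`((v,w),y') ↦ (φ,w)`, `φ(none,l) = v_l`, `φ(some j, l) = coeff l (Σ_m ψ(A_jm) arc y'_m + ψ(s_j))`, polynomial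
by SBS (3). It is a bijection from `rel …` onto the set of `zq`: the inverse map is given in the same way by
`y' = A'(y - s)` mod `t^(d+1)`, as `A A' = A' A = 1`. It respects the conditions: modulo `t^(d+1)`,
`pol D (arc φ) = D.val (ψ ∘ tay x0) (arc φ (some ·)) = (D.map (tay x0)).val ψ (A y' + s)`
`= Σ ψ(U_i) y'_i² + Σ ψ(B_i) y'_i + ψ(c)` by `Δ.eq` (changing an argument modulo `t^(d+1)` does not change the
value modulo `t^(d+1)`: `Ideal.Quotient` or `PowerSeries.trunc`, cf. `arcEval_congr`, H39/MonoR/B1.lean).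
`mo_bij`; the constructibility of both sets: `ICons.hit`, `PFun`. -/
def BASStmt : Prop :=
  ∀ (k : Type) [Field k] [Algebra k ℂ] (J : Type) [Fintype J] [DecidableEq J]
    (D : QD (Polynomial k) J) (x0 : k) (Δ : Diag (D.map (tay x0))) (d : ℕ)
    (Q : Set (Fin (d + 1) → ℂ)) (t : Test k), ICons k Q → (∀ v ∈ Q, v 0 = algebraMap k ℂ x0) →
    zq (pol D) d Q t = mo k (rel (E := (Fin (d + 1) → ℂ) × t.E)
      (fun i e => sb (xs x0 e.1) (Δ.U i)) (fun i e => sb (xs x0 e.1) (Δ.B i))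
      (fun e => sb (xs x0 e.1) Δ.c) d {e | e.1 ∈ Q ∧ e.2 ∈ t.W} fun e => t.c e.2)

section Numbers

variable {k : Type} [Field k] {J : Type} [Fintype J]

open Classical in
/-- `Σ (d - n e_i + 1)/2`, the sum over the `i` with `U_i ≠ 0` (truncated subtraction) -/
noncomputable def kk (U : J → PowerSeries k) (n d : ℕ) : ℕ :=
  ∑ i ∈ Finset.univ.filter (fun i => U i ≠ 0), (d - n * od (U i) + 1) / 2

open Classical in
/-- the number of `U_i` of order zero -/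
noncomputable def k0 (U : J → PowerSeries k) : ℕ :=
  (Finset.univ.filter fun i => U i ≠ 0 ∧ od (U i) = 0).card

variable [Algebra k ℂ]

open Classical in
/-- `Σ u_i α^(e_i) z_i² + c_(d/n) α^(d/n)`: the sum over the `i` with `U_i ≠ 0`, `n e_i ≤ d`, `d - n e_i` even;
the last term only if `n ∣ d` -/
noncomputable def ld (U : J → PowerSeries k) (c : PowerSeries k) (n d : ℕ) (α : ℂ) (z : J → ℂ) : ℂ :=
  ∑ i ∈ Finset.univ.filter (fun i => U i ≠ 0 ∧ n * od (U i) ≤ d ∧ 2 ∣ d - n * od (U i)),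
    algebraMap k ℂ (lc (U i)) * α ^ od (U i) * z i ^ 2 +
  if n ∣ d then algebraMap k ℂ (PowerSeries.coeff (d / n) c) * α ^ (d / n) else 0

/-- the difference of the classes of `{α ≠ 0, ld = c(w)}` and `{α ≠ 0, ld = 0}` -/
noncomputable def dl (U : J → PowerSeries k) (c : PowerSeries k) (n d : ℕ) (t : Test k) : M k :=
  mo k {x : (ℂ × (J → ℂ)) × t.E | x.2 ∈ t.W ∧ x.1.1 ≠ 0 ∧ ld U c n d x.1.1 x.1.2 = t.c x.2} -
    mo k {x : (ℂ × (J → ℂ)) × t.E | x.2 ∈ t.W ∧ x.1.1 ≠ 0 ∧ ld U c n d x.1.1 x.1.2 = 0}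

open Classical in
/-- `Σ u_i z_i²` over the `U_i` of order zero, if `d` is even, and `0` if `d` is odd -/
noncomputable def ld0 (U : J → PowerSeries k) (d : ℕ) (z : J → ℂ) : ℂ :=
  if 2 ∣ d then ∑ i ∈ Finset.univ.filter (fun i => U i ≠ 0 ∧ od (U i) = 0),
    algebraMap k ℂ (lc (U i)) * z i ^ 2 else 0

/-- the difference of the classes of `{ld0 = c(w)}` and `{ld0 = 0}` -/
noncomputable def dl0 (U : J → PowerSeries k) (d : ℕ) (t : Test k) : M k :=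
  mo k {x : (J → ℂ) × t.E | x.2 ∈ t.W ∧ ld0 U d x.1 = t.c x.2} -
    mo k {x : (J → ℂ) × t.E | x.2 ∈ t.W ∧ ld0 U d x.1 = 0}

end Numbers

/-- **NST** (needs BAS, RLA, SBS). Arcs with `ord X = n`.
PROOF. BAS for `t` and `t.zr` (`Q = ordEq x0 d n`; `v 0 = x0` as `n ≥ 1`). For `v ∈ Q` the series `a = xs x0 v`
has order exactly `n`, `α = v_n ≠ 0` (`n ≤ d`). By SBS (2) `V_i = sb a (U_i)` satisfies
`Exact V_i Q d κ_i` with `κ_i = n od(U_i)` if `U_i ≠ 0` (leading coefficient `lc(U_i) α^(od U_i)`) and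
`κ_i = d + 1` if `U_i = 0`; `sb a (B_i)` vanishes up to `d`; `sb a c` vanishes below `d`, and its `d`-th
coefficient is `coeff (d/n) c · α^(d/n)` if `n ∣ d` and `0` otherwise (write `X^m ∣ c`, `d ≤ nm`: if `d < nm`
both are `0`, since `d/n < m`; if `d = nm` it is SBS (2) with `e = m`). RLA: the difference is
`L^(Σ_i (d - (d-κ_i+1)/2))` times the difference of the classes of `top`; the condition of `top` is
`ld U c n d (v_n) z = c(w)`. `top` is in bijection with `{((α,z),w)} × ℂ^(d-n)` (the `v_l`, `l > n`, are free,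
the `v_l`, `l < n`, are fixed): factor `L^(d-n)`. Exponent:
`(d-n) + Σ_i (d - k_i) = (|J|+1)d - n - kk U n d`, since `k_i = 0` for `U_i = 0` and
`k_i = (d - n od + 1)/2 ≤ d` otherwise. -/
def NSTStmt : Prop :=
  ∀ (k : Type) [Field k] [Algebra k ℂ] (J : Type) [Fintype J] [DecidableEq J]
    (D : QD (Polynomial k) J) (x0 : k) (Δ : Diag (D.map (tay x0))) (n d : ℕ) (t : Test k),
    1 ≤ n → n ≤ d →
    (∀ i, ∃ m, (PowerSeries.X : PowerSeries k) ^ m ∣ Δ.B i ∧ d < n * m) →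
    (∃ m, (PowerSeries.X : PowerSeries k) ^ m ∣ Δ.c ∧ d ≤ n * m) →
    zd (pol D) d (ordEq x0 d n) t =
      ↑(Lu k ^ ((((Fintype.card J + 1) * d : ℕ) : ℤ) - n - kk Δ.U n d)) * dl Δ.U Δ.c n d t

/-- **LST** (needs BAS, RLA, SBS). Arcs with `ord X > m`.
PROOF. As NST with `Q = ordGt x0 d m`. For `v ∈ Q`, `a = xs x0 v` has `coeff l a = 0` for `l ≤ m`. If
`od(U_i) = 0`, `U_i ≠ 0`: `κ_i = 0`, `coeff 0 (sb a U_i) = lc(U_i)`. If `U_i ≠ 0`, `od(U_i) ≥ 1`: by SBS (2) with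
`n = m + 1` the series `sb a U_i` vanishes below `(m+1) od(U_i) > d`: `κ_i = d + 1`. `U_i = 0`: `κ_i = d + 1`.
`sb a B_i` and `sb a c` vanish up to `d`. RLA: exponent `Σ_i (d - k_i)`, `k_i = (d+1)/2` for the `k0 U` indices
with `U_i ≠ 0`, `od = 0`, and `0` otherwise; `top` is `{(z,w) : ld0 U d z = c(w)}` times the space of the `v_l`,
`l > m`, of dimension `d - m`. -/
def LSTStmt : Prop :=
  ∀ (k : Type) [Field k] [Algebra k ℂ] (J : Type) [Fintype J] [DecidableEq J]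
    (D : QD (Polynomial k) J) (x0 : k) (Δ : Diag (D.map (tay x0))) (m d : ℕ) (t : Test k),
    0 < d → m ≤ d → (∀ i, Δ.U i ≠ 0 → od (Δ.U i) = 0 ∨ d < (m + 1) * od (Δ.U i)) →
    (∀ i, ∃ m', (PowerSeries.X : PowerSeries k) ^ m' ∣ Δ.B i ∧ d < (m + 1) * m') →
    (∃ m', (PowerSeries.X : PowerSeries k) ^ m' ∣ Δ.c ∧ d < (m + 1) * m') →
    zd (pol D) d (ordGt x0 d m) t =
      ↑(Lu k ^ ((((Fintype.card J + 1) * d : ℕ) : ℤ) - m - (k0 Δ.U * ((d + 1) / 2) : ℕ))) *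
        dl0 Δ.U d t

/-- **ZER** (needs BAS, RLB, RLC, SBS). The vanishing cases.
PROOF. BAS for `t` and `t.zr`; `a = xs x0 v`. (1) `ord a = n`; `sb a c` has order exactly `nγ < d`, the
`sb a B_i` vanish up to `nγ` (order `≥ n(γ+1)`), `Exact` for the `U_i` as in NST (SBS (2)): RLB. (2) `sb a B_(i₀)`
has order exactly `nβ ≤ d`, `sb a U_(i₀)` has order `≥ n(β+1) > nβ`: RLC. (3) `Q = ordGt x0 d 0`,
`coeff 0 a = 0`: `coeff 0 (sb a c) = coeff 0 c ≠ 0`, `coeff 0 (sb a B_i) = 0`, `d > 0`. RLB with `γ = 0` needs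
`Exact V_i Q d κ_i`, which fails on all of `Q` at once; but only `low κ 1` matters: split `Q` by the order of `a`
into `ordEq x0 d n`, `1 ≤ n ≤ d`, and `ordGt x0 d d` (or use (1), whose proof works for `γ = 0`, `n ≥ 1`, and for
`a = 0`). (4) RLC with `β = 0` directly on `Q`: `coeff 0 (sb a U_(i₀)) = 0`, `coeff 0 (sb a B_(i₀)) ≠ 0`. -/
def ZERStmt : Prop :=
  ∀ (k : Type) [Field k] [Algebra k ℂ] (J : Type) [Fintype J] [DecidableEq J]
    (D : QD (Polynomial k) J) (x0 : k) (Δ : Diag (D.map (tay x0))) (d : ℕ) (t : Test k), 0 < d →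
    (∀ n γ : ℕ, 1 ≤ n → n ≤ d → n * γ < d → (PowerSeries.X : PowerSeries k) ^ γ ∣ Δ.c →
      PowerSeries.coeff γ Δ.c ≠ 0 → (∀ i, (PowerSeries.X : PowerSeries k) ^ (γ + 1) ∣ Δ.B i) →
      zd (pol D) d (ordEq x0 d n) t = 0) ∧
    (∀ (n β : ℕ) (i₀ : J), 1 ≤ n → n ≤ d → n * β ≤ d →
      (PowerSeries.X : PowerSeries k) ^ β ∣ Δ.B i₀ → PowerSeries.coeff β (Δ.B i₀) ≠ 0 →
      (PowerSeries.X : PowerSeries k) ^ (β + 1) ∣ Δ.U i₀ →
      zd (pol D) d (ordEq x0 d n) t = 0) ∧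
    (PowerSeries.coeff 0 Δ.c ≠ 0 → (∀ i, PowerSeries.coeff 0 (Δ.B i) = 0) →
      zd (pol D) d (ordGt x0 d 0) t = 0) ∧
    (∀ i₀ : J, PowerSeries.coeff 0 (Δ.B i₀) ≠ 0 → PowerSeries.coeff 0 (Δ.U i₀) = 0 →
      zd (pol D) d (ordGt x0 d 0) t = 0)

/-- **SPL.** Splitting by the order of `X`, and the sets are constructible.
PROOF. `ordGt x0 d 0 = ⊔_(1 ≤ n ≤ m) ordEq x0 d n ⊔ ordGt x0 d m` (disjoint; `m ≤ d`; the order of `v(t) - x0`).
Induct on `m` with `ordGt x0 d m = ordEq x0 d (m+1) ⊔ ordGt x0 d (m+1)`, `m + 1 ≤ d`; `mo_split` or `mo_union`.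
(2) For `h ∈ k[x]`, `k` algebraically closed, every root of `h` in `ℂ` is in `k` (`h ≠ 0` splits over `k`), so
all `x`-arcs are the disjoint union of `{h(v_0) ≠ 0}` and the `ordGt x0 d 0`, `x0` a root of `h`
(`ordGt x0 d 0 = {v_0 = x0}`): `mo_biUnion`. The set of `zt` is the set of `zq` for `Q = univ`. -/
def SPLStmt : Prop :=
  ∀ (k : Type) [Field k] [Algebra k ℂ] (J : Type) [Fintype J] [DecidableEq J]
    (f : MvPolynomial (Option J) k) (d : ℕ),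
    (∀ (x0 : k) (n : ℕ), ICons k (ordEq x0 d n) ∧ ICons k (ordGt x0 d n)) ∧
    (∀ (x0 : k) (m : ℕ) (t : Test k), m ≤ d →
      zd f d (ordGt x0 d 0) t =
        ∑ n ∈ Finset.Icc 1 m, zd f d (ordEq x0 d n) t + zd f d (ordGt x0 d m) t) ∧
    (∀ (h : Polynomial k) (t : Test k), IsAlgClosed k → h ≠ 0 →
      zt f d t - zt f d t.zr = ↑(Lu k ^ (-(((Fintype.card J + 1) * d : ℕ) : ℤ))) *
        (∑ᶠ x0 ∈ h.rootSet k, zd f d (ordGt x0 d 0) t +
          zd f d {v | Polynomial.aeval (v 0) h ≠ 0} t))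

/-- **NCQ.** No critical zeros over `P ⊂ ℂ`.
PROOF. `mo_nc` (H75/Fib/NCR.lean) with `Q = {q : q none ∈ P}`: an arc `φ` with `Hit f d φ c`, `d ≥ 1`, has
`f(org φ) = 0`, so if `org φ none ∈ P`, some `∂_i f (org φ) ≠ 0`. See `Inv.of_sm` in H75/Fib/DIF.lean (same
proof with `Q = univ`). -/
def NCQStmt : Prop :=
  ∀ (k : Type) [Field k] [Algebra k ℂ] (J : Type) [Fintype J] (f : MvPolynomial (Option J) k)
    (P : Set ℂ), ICons k P →
    (∀ v : Option J → ℂ, v none ∈ P → aeval v f = 0 → ∃ i, aeval v (pderiv i f) ≠ 0) →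
    ∀ (d : ℕ) (t : Test k), 0 < d → zd f d {v | v 0 ∈ P} t = 0

/-- **SMG.** The smooth case has no critical zeros over `x0`.
PROOF. Suppose `f = pol D` and all `∂_i f` vanish at `(x0, y)`. Let `y' = A'(0)(y - s(0))`, so
`y = A(0)y' + s(0)` (constant coefficients, mapped to `ℂ`). Let `ψ : k⟦X⟧ → ℂ⟦t⟧` be the coefficientwise map
and `η = ψ(A) y' + ψ(s)`, `η(0) = y`. The arc `(x0 + t, η(t))` starts at `(x0,y)`, so, `f` and its gradient
vanishing there, `f(x0+t, η(t)) ≡ 0 mod t²` (Taylor: the part of degree one of `f` at the point vanishes). By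
`Δ.eq`, `f(x0+t,η(t)) = Σ ψ(U_i) y'_i² + Σ ψ(B_i) y'_i + ψ(c)`, so
`coeff 1`: `Σ coeff 1 (U_i) y'_i² + 0 + coeff 1 c = 0`. For `od(U_i) ≥ 2` (or `U_i = 0`) `coeff 1 U_i = 0`;
`od(U_i) = 1` is excluded; for `od(U_i) = 0` we show `y'_i = 0`: the arc `(x0, y + t A(0)e_i)` also starts at
`(x0,y)`, and `f` on it is `Σ_l U_l(0)(y'_l + tδ_li)² + …` with `t`-coefficient `2U_i(0)y'_i + B_i(0) = 2U_i(0)y'_i`,
which must vanish. Hence `coeff 1 c = 0`, a contradiction. (So some `∂_i f ≠ 0` whenever `v none = x0`; the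
hypothesis `f = 0` is only used for the constant coefficient and may be dropped.) -/
def SMGStmt : Prop :=
  ∀ (k : Type) [Field k] [Algebra k ℂ] (J : Type) [Fintype J] [DecidableEq J]
    (D : QD (Polynomial k) J) (x0 : k) (Δ : Diag (D.map (tay x0))), Smo Δ →
    ∀ v : Option J → ℂ, v none = algebraMap k ℂ x0 → aeval v (pol D) = 0 →
      ∃ i, aeval v (pderiv i (pol D)) ≠ 0

/-- **LOC** (needs SUM, CON, NST, LST, ZER, SPL). The local series at `x0`.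
PROOF. Put `q(d) = L^(-(|J|+1)d)`, `G n d t = q(d) zd (pol D) d (ordEq x0 d n) t` for `1 ≤ n ≤ d` (and `0`
otherwise), `Λ = {τ : Lev Δ τ}`.
CASE `Λ` empty. (a) `Pure Δ`: then no `U_i ≠ 0` has order `≥ 1`; LST with `m = 0`: the series is
`L^(-(rk U)((d+1)/2)) dl0 U d t`, and `d ↦ d + 2` multiplies it by `L^(-rk U)` (`dl0` depends on the parity of
`d` only): CON (4) with `τ = 1`. (b) not pure: let `μ` be the largest number with `Deep Δ μ`
(`¬ Deep Δ (μ+1)`); `μ ≥ 1` would give `Lev Δ μ`; so `μ = 0`: ZER (4) if some `coeff 0 (B_i) ≠ 0` (by `Red`,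
`U_i ∤ B_i`, so `coeff 0 U_i = 0`), otherwise ZER (3). The series is `0`.
CASE `Λ` nonempty. `Λ` is finite: if not pure, `τ ≤ μ`; if pure, `τ` is an order of some `U_i`. Let
`τ₁ = min Λ`, `μ = max Λ` (in the nonpure case this is the `μ` above). By SPL with `m = d/τ₁ ≤ d` the series is
`Σ_(1 ≤ n, nτ₁ ≤ d) G n d t + q(d) zd (ordGt x0 d m)`.
The last term: LST applies (`U_i ≠ 0`, `od ≥ 1` implies `od ≥ τ₁`, as `od ≤ μ` gives `Lev Δ od`; all `B_i` and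
`c` are divisible by `X^μ`, resp. zero, `(m+1)τ₁ > d`); it is `L^(-m - k0·((d+1)/2)) dl0 U d t`, and
`d ↦ d + 2τ₁` multiplies it by `L^(-2-k0 τ₁) = L^(-aT U τ₁)`: CON (4).
The first sum: SUM with `a τ = -aT U τ`, `S` the set of the statement. Cones `τ < τ'` consecutive, `nτ ≤ d < nτ'`
(so `d < nμ`): NST applies at `(n,d)`, `(n+2,d+2τ)`, `(n+2,d+2τ')` and gives `G n d t = L^(-n-kk U n d) dl`. For
`U_i ≠ 0`: `n od(U_i) ≤ d` iff `od(U_i) ≤ τ` (otherwise `od ≥ τ'`: if `od ≤ μ` it is in `Λ`), the same at the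
shifted points; `kk` grows by `Σ(τ - od)₊`, resp. `Σ(τ' - od)₊` (sum over `U_i ≠ 0`), i.e. by `aT - 2`, and `n` by `2`;
`dl` does not change: same index set (parities: `d - n od` changes by `2(τ-od)`), and the `c`-term is zero
(`d/n < μ`, `X^μ ∣ c`). TOP, pure: `nμ ≤ d`: the same for the shift `(2,2μ)`; the shift `(0,2)` changes `kk` by
`rk U` (all `od(U_i) ≤ μ` here, `n od ≤ d`), `dl` is unchanged, `c = 0`. TOP, not pure: if some `B_i` has order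
exactly `μ` then (Red) `X^(μ+1) ∣ U_i` and ZER (2) gives `G n d t = 0` for `nμ ≤ d`; otherwise `c` has order
exactly `μ`, all `B_i` are divisible by `X^(μ+1)`, ZER (1) gives `G n d t = 0` for `nμ < d`, and for `d = nμ` NST
applies, `G n (nμ) t = L^(-n - kk U n (nμ)) dl`, where `dl` has the term `coeff μ c · α^μ` and the index set
`{od(U_i) ≤ μ, n(μ - od) even}`: `n ↦ n + 2` multiplies by `L^(-2 - Σ(μ-od)₊)`. -/
def LOCStmt : Prop :=
  ∀ (k : Type) [Field k] [Algebra k ℂ] (J : Type) [Fintype J] [DecidableEq J]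
    (D : QD (Polynomial k) J) (x0 : k) (Δ : Diag (D.map (tay x0))), Δ.Red →
    RatF (Lu k) {p : ℤ × ℕ | (∃ τ, Lev Δ τ ∧ p = (-(aT Δ.U τ : ℤ), 2 * τ)) ∨
        (Pure Δ ∧ p = (-(rk Δ.U : ℤ), 2))}
      fun t : Test k => PowerSeries.mk fun d => if d = 0 then 0 else
        ↑(Lu k ^ (-(((Fintype.card J + 1) * d : ℕ) : ℤ))) * zd (pol D) d (ordGt x0 d 0) t

/-- **GNH** (needs RLA, CON). The generic part of type H.
PROOF. `d ≥ 1`. Let `Q = {v : h(v_0) ≠ 0}`. The map `((v,w),y) ↦ ((v,w),y')`,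
`y' = C(v(t)) y + b(v(t))` mod `t^(d+1)`, is polynomial, and bijective over `v ∈ Q` (the determinant of
`C(v(t))` has constant coefficient `det C (v_0) ≠ 0`, so `C(v(t))` is invertible over `ℂ⟦t⟧`). As `h(v(t))` is
a unit with constant term `h(v_0)`: `f(v,y) ≡ c t^d` iff `h(v(t)) f(v,y) ≡ h(v_0) c t^d` mod `t^(d+1)`, and
`h f = Σ u_i(v(t)) y'_i²` (`H.eq`). So the set of `zq` is in bijection with
`rel V 0 0 d {(v,w) : v ∈ Q, w ∈ W} c'`, `V_i = u_i(v(t))`, `c' = h(v_0) c(w)`; `Exact V_i _ d κ_i` with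
`κ_i = 0` if `u_i ≠ 0` (`u_i ∣ h²`, so `u_i(v_0) ≠ 0`) and `κ_i = d + 1` if `u_i = 0`. RLA: the difference is
`L^(Σ(d-k_i))` times the difference of the classes of
`{(v,w,z) : h(v_0) ≠ 0, w ∈ W, Σ_(u_i ≠ 0, d even) u_i(v_0) z_i² = h(v_0) c(w)}` (and `0`), where `v_1, …, v_d` are
free: `L^d`. Normalised by `L^(-(|J|+1)d)`: `L^(-r((d+1)/2))` times something which depends on the parity of `d`
only. So `d ↦ d + 2` multiplies by `L^(-r)`: CON (4), `τ = 1`. -/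
def GNHStmt : Prop :=
  ∀ (k : Type) [Field k] [Algebra k ℂ] (J : Type) [Fintype J] [DecidableEq J]
    (D : QD (Polynomial k) J) (H : HData D),
    RatF (Lu k) {(-(H.r : ℤ), 2)}
      fun t : Test k => PowerSeries.mk fun d => if d = 0 then 0 else
        ↑(Lu k ^ (-(((Fintype.card J + 1) * d : ℕ) : ℤ))) *
          zd (pol D) d {v | Polynomial.aeval (v 0) H.h ≠ 0} t

/-! ## Part R: roots -/

/-- **PRT.** Perturbation of a pre-chain.
PROOF. Same `V, ρ, DX, D`; `E'_n = Σ_(m ≥ 0) (-1)^m/m! · ρ(h^m) E_(n+m)` (a finite sum by hypothesis; use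
`∑ m ∈ range K` with `K` large, or `finsum`). `(f₀+h)E'_(n+1) = Σ (-1)^m/m! h^m (s+n+m) E_(n+m)`
`+ Σ (-1)^m/m! h^(m+1) E_(n+1+m)`, and the second sum is `-Σ m (-1)^m/m! h^m E_(n+m)`; the total is `(s+n)E'_n`.
`∂E'_n = Σ (-1)^m/m! [m h^(m-1) (∂h) E_(n+m) - h^m (∂f₀) E_(n+m+1)] = -(∂h + ∂f₀) E'_(n+1)` (`∂ = DX` or `D i`,
`leib`; `dX` and `pderiv` are derivations, so `∂(h^m) = m h^(m-1) ∂h`; for `dX` prove it by comparing
coefficients). `E'_0 = E_0` by the second hypothesis. -/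
def PRTStmt : Prop :=
  ∀ (k : Type) [Field k] [CharZero k] (J : Type) [Fintype J] [DecidableEq J]
    (f₀ h : MvPolynomial J (PowerSeries k)) (s : ℚ) (p : PC f₀ s),
    (∀ n, ∃ K, ∀ m, K ≤ m → p.ρ (h ^ m) (p.E (n + m)) = 0) →
    (∀ m, 1 ≤ m → p.ρ (h ^ m) (p.E m) = 0) →
    ∃ p' : PC (f₀ + h) s, ∀ q, p.ρ q (p.E 0) = 0 → p'.ρ q (p'.E 0) = 0

/-- **GCH.** The elements `G_c`.
PROOF. `τ ≥ 2`: `exists_chain` (H75/Mono) gives a chain `e_j`, `j ≥ 0`, of `g` with exponent `t`: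
`g e_(j+1) = e_j`, `D_i e_j = -(t+j)(∂_i g) e_(j+1)`, `e_0 ≠ 0`. For `c ≥ 0` put
`G_c = t(t+1)…(t+c-1) · e_c`; for `c < 0` put `G_c = [(t-1)(t-2)…(t-|c|)]⁻¹ g^|c| e_0` (`t < 1`, so no factor is
zero). Then `g G_(c+1) = (t+c) G_c` and `D_i G_c = -(∂_i g) G_(c+1)`: for `c ≥ 0` immediate; for `c = -b < 0`:
`D_i(g^b e_0) = b g^(b-1)(∂_i g) e_0 - t g^b (∂_i g) e_1 = (b - t) g^(b-1) (∂_i g) e_0`. `τ = 1`, `t = 1`:
`SR.one` gives a chain with exponent `1` and `g e_0 = 0`; `G_c = c! e_c` for `c ≥ 0` and `G_c = 0` for `c < 0`;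
`g G_0 = 0 = (1 - 1) G_(-1)`. -/
def GCHStmt : Prop :=
  ∀ (k : Type) [Field k] [Algebra k ℂ] (J : Type) [Finite J] (g : MvPolynomial J k) (t : ℚ) (τ : ℕ),
    g ≠ 0 → (2 ≤ τ ∧ t < 1 ∨ τ = 1 ∧ t = 1 ∧ ¬ IsUnit g) → Nonempty (GC g t τ)

/-- **WGT.** Weights.
PROOF. Coefficient of a product: `coeff a (coeff m (pq)) = Σ coeff a' (coeff m' p) · coeff a'' (coeff m'' q)` over
`m'+m'' = m`, `a'+a'' = a`; the weight is additive in `(a, m)`. (3) `coeff a (coeff m (dX q)) =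
(a+1) coeff (a+1) (coeff m q)`. (4) `coeff a (coeff m (pderiv i q)) = (m_i+1) coeff a (coeff (m + 1_i) q)`. (5) linear. -/
def WGTStmt : Prop :=
  ∀ (k : Type) [Field k] (J : Type) [Fintype J] [DecidableEq J] (I : Finset J) (e : J → ℕ) (τ : ℕ),
    (∀ w w' p q, WG (k := k) I e τ w p → WG I e τ w' q → WG I e τ (w + w') (p * q)) ∧
    (∀ w m q, WG (k := k) I e τ w q → WG I e τ (w * m) (q ^ m)) ∧
    (∀ w q, WG (k := k) I e τ w q → WG I e τ (w - 2) (dX q)) ∧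
    (∀ w i q, WG (k := k) I e τ w q → WG I e τ (w - if i ∈ I then τ - e i else 0) (pderiv i q)) ∧
    (∀ w p q, WG (k := k) I e τ w p → WG I e τ w q → WG I e τ w (p + q)) ∧
    (∀ w w' p, w' ≤ w → WG (k := k) I e τ w p → WG I e τ w' p)

/-- **PRI.** The pre-chain of the principal part `f₀ = Σ_(i ∈ I) u_i X^(e_i) y_i² + X^τ g`.
PROOF. Write `R = k⟦X⟧[y]`. `V` = all `k`-linear maps `λ : R → C`, `C = G.V` the module of `g`;
`ρ(r)λ = λ ∘ (r·)`, `DX λ = -λ ∘ dX`, `D_i λ = -λ ∘ ∂_i` for `i ∈ I`, `D_j λ = G.D_j ∘ λ - λ ∘ ∂_j` for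
`j ∉ I`. The Leibniz rules hold for all `λ`. For `b : I → ℕ` let
`a_b(n) = Σ e_i b_i + τ(n - |b|) ∈ ℤ`, `c_b = ∏_(i ∈ I) (1/2)(3/2)…(b_i - 1/2) u_i^(-b_i)`, and for `q ∈ R` let
`[q]_(a,b) ∈ k[y_j : j ∉ I] ⊂ k[y]` be the coefficient of `X^a ∏_(i∈I) y_i^(2b_i)` (zero if `a < 0`). Put
`E_n(q) = Σ_b c_b · [q]_(a_b(n), b) · G_(n-|b|)`; only `b` with `a_b(n) ≥ 0`, i.e. `Σ(τ-e_i)b_i ≤ τn`,
occur: a finite sum. (For `τ = 1` all `e_i = 0` and `n - |b| ≥ 0`.) Weight of `X^(a_b) y^(2b)`: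
`2a_b + 2Σ(τ-e_i)b_i = 2τn`, so `E_n(q) = 0` if all monomials of `q` have weight `> 2τn`. CHECKS.
(1) `E_(n+1)(f₀q) = (s+n)E_n(q)`: `[f₀q]_(a_b(n+1),b) = Σ_i u_i [q]_(a_b(n+1)-e_i, b-1_i) + g [q]_(a_b(n+1)-τ, b)`,
and `a_b(n+1) - e_i = a_(b-1_i)(n)`, `a_b(n+1) - τ = a_b(n)`. Collecting the terms with `[q]_(a_b(n),b)`:
`Σ_i c_(b+1_i) u_i G_(n-|b|) + c_b g G_(n+1-|b|) = c_b (Σ_i (b_i + 1/2) + t + n - |b|) G_(n-|b|)` and
`|I|/2 + t = s`. (2) `i ∈ I`: `-E_n(∂_i q) = -Σ c_b (2b_i+1) [q at y^(2b+1_i)] G_(n-|b|)`, and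
`-E_(n+1)(2u_i X^(e_i) y_i q) = -Σ c_(b+1_i) 2u_i [q at X^(a_b(n)) y^(2b+1_i)] G_(n-|b|)`; equal, as
`2u_i c_(b+1_i) = (2b_i+1) c_b`. (3) `X`: `-E_n(dX q) = -Σ c_b (a_b(n)+1) [q]_(a_b(n)+1,b) G_(n-|b|)` and
`-E_(n+1)(dX f₀ · q)` has the factor `Σ_i c_(b+1_i) u_i e_i + c_b τ(t + n - |b|) =
c_b(Σ_i (b_i+1/2)e_i + τt + τ(n-|b|)) = c_b(a_b(n) + 1)`, because `τt + Σe_i/2 = 1`; also for `a_b(n) = -1`
(factor zero). (4) `j ∉ I`: `G.D_j(E_n(q)) - E_n(∂_j q) = Σ c_b [q]_(a_b(n),b) G.D_j G_(n-|b|)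
= -Σ c_b [q] (∂_j g) G_(n+1-|b|) = -E_(n+1)(X^τ ∂_j g · q)` (only `b` with `a_b(n) ≥ 0` occur; for `τ = 1` these have
`n - |b| ≥ 0`, as `GC.der` requires). (5) `E_0(1) = G_0 ≠ 0`; for `τ = 1`: `E_0(g q) = [q]_(0,0) g G_0 = 0`. -/
def PRIStmt : Prop :=
  ∀ (k : Type) [Field k] [CharZero k] (J : Type) [Fintype J] [DecidableEq J] (I : Finset J)
    (e : J → ℕ) (u : J → k) (g : MvPolynomial J k) (t : ℚ) (τ : ℕ), 1 ≤ τ →
    (∀ i ∈ I, e i < τ ∧ u i ≠ 0) → (∀ m, coeff m g ≠ 0 → ∀ i ∈ I, m i = 0) →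
    (τ : ℚ) * t = 1 - (∑ i ∈ I, (e i : ℚ)) / 2 → GC g t τ →
    ∃ p : PC (prin I e u τ g) ((2 + ∑ i ∈ I, ((τ : ℚ) - e i)) / (2 * τ)),
      (∀ n q, WG I e τ (2 * τ * n + 1) q → p.ρ q (p.E n) = 0) ∧
      (τ = 1 → p.ρ (MvPolynomial.map PowerSeries.C g) (p.E 0) = 0)

/-- **PUR.** The pre-chain of `Σ U_i y_i²`.
PROOF. Let `K = FractionRing k⟦X⟧` (or `LaurentSeries k`) with its derivation `'` extending `d/dX`,
`I = {i : U_i ≠ 0}`, `r = |I| = rk U`, `R = k⟦X⟧[y]`, `C = K[y]` (all `y_j`). `V` = `k`-linear maps `λ : R → C`,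
`ρ(q)λ = λ ∘ (q·)`, `DX λ = ∂_X ∘ λ - λ ∘ dX - ½ Σ_(i∈I) (U_i'/U_i) λ` (`∂_X` acts on the coefficients in `K`),
`D_i λ = -λ ∘ ∂_i` for `i ∈ I`, `D_j λ = ∂_j ∘ λ - λ ∘ ∂_j` for `j ∉ I`. Leibniz holds for all `λ`.
`E_n(q) = Σ_(|b| = n) c_b U^(-b) [q]_b`, `b : I → ℕ`, `c_b = ∏ (1/2)(3/2)…(b_i-1/2)`, `[q]_b ∈ k⟦X⟧[y_j : j ∉ I]`
the coefficient of `∏ y_i^(2b_i)`. `f = Σ_(i∈I) U_i y_i²` (`gen U 0 0`; the other terms are zero).
(1) `E_(n+1)(fq) = Σ_(|b|=n) Σ_i c_(b+1_i) U^(-b) [q]_b = (n + r/2) E_n(q)`. (2) `i ∈ I`: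
`-E_n(∂_i q) = -E_(n+1)(2U_i y_i q)` as in PRI. (3) `j ∉ I`: `∂_j E_n(q) - E_n(∂_j q) = 0` and `∂_j f = 0`.
(4) `X`: `∂_X(E_n q) - E_n(dX q) = Σ c_b (U^(-b))' [q]_b = -Σ c_b Σ_i b_i (U_i'/U_i) U^(-b) [q]_b`, and
`-E_(n+1)(Σ U_i' y_i² q) = -Σ c_b Σ_i (b_i+1/2)(U_i'/U_i) U^(-b) [q]_b`. (5) `Z`: `E_0(q) = [q]_0` kills the
multiples of the `y_i`, `i ∈ I`; `f`, `dX f`, `∂_i f` are such. `E_0(1) = 1`. -/
def PURStmt : Prop :=
  ∀ (k : Type) [Field k] [CharZero k] (J : Type) [Fintype J] [DecidableEq J]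
    (U : J → PowerSeries k), ∃ p : PC (gen U 0 0) ((rk U : ℚ) / 2), p.Z

/-- **ECH.** From a pre-chain of the diagonal form to a chain of `pol D`.
PROOF. Let `R = k⟦X⟧[y]`, `f̃ = gen U B c`, `θ : k[x,y] → R` the `k`-algebra map `x ↦ x0 + X`,
`y_j ↦ Σ_m A_jm y_m + s_j`. By `Δ.eq` (`S = R`, `φ = C`), `θ(pol D) = f̃`. Chain rule, for all `p ∈ k[x,y]`:
`∂_(y_l)(θp) = Σ_j A_jl θ(∂_j p)`, so `θ(∂_j p) = Σ_l A'_lj ∂_(y_l)(θp)`, and
`dX(θp) = θ(∂_x p) + Σ_j dX(θ y_j) θ(∂_j p)` (`MvPolynomial.induction_on`; `dX` is a derivation). On `V` let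
`k[x,y]` act through `ρ∘θ`, put `D'_(some j) = Σ_l ρ(C A'_lj) ∘ D_l`,
`D'_none = DX - Σ_j ρ(dX(θ y_j)) ∘ D'_(some j)`. These satisfy the Leibniz rule and
`D'_i E_n = -ρ(θ(∂_i pol D)) E_(n+1)`. Normalise: `e_n = (s(s+1)…(s+n-1))⁻¹ E_n` (`s > 0`): `f e_(n+1) = e_n`,
`D' e_n = -(s+n)(∂f) e_(n+1)`, `e_0 = E_0 ≠ 0`. `θ(∂_i pol D)` kills `E_0`: it is a combination of
`dX f̃`, `∂_l f̃`. -/
def ECHStmt : Prop :=
  ∀ (k : Type) [Field k] [CharZero k] (J : Type) [Fintype J] [DecidableEq J]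
    (D : QD (Polynomial k) J) (x0 : k) (Δ : Diag (D.map (tay x0))) (s : ℚ), 0 < s →
    ∀ p : PC (gen Δ.U Δ.B Δ.c) s, p.Z → SRs k (pol D) s

/-- **LRT** (needs PRT, GCH, WGT, PRI, ECH). The local roots `aT U τ / (2τ)`.
PROOF. `I = {i : U_i ≠ 0, od(U_i) < τ}`, `e_i = od(U_i)`, `u_i = lc(U_i)`,
`g = Σ_(U_i ≠ 0, od(U_i) = τ) lc(U_i) y_i² + Σ_i coeff τ (B_i) y_i + coeff τ c`. `X^τ` divides `c` and all `B_i`;
for `i ∈ I` this and `Red` give `B_i = 0` (otherwise `U_i ∤ B_i`, the order of `B_i` is `< od(U_i) < τ`). So `g` does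
not involve the `y_i`, `i ∈ I`. `s = aT/(2τ) = (2 + Σ_I (τ - e_i))/(2τ)`, `t = (1 - Σ_I e_i/2)/τ`.
`g ≠ 0`: by `Lev`, some `od(U_i) = τ` or some `coeff τ` of a `B_i` or of `c` is not zero. `τ ≥ 2`: `t ≤ 1/2 < 1`.
`τ = 1`: all `e_i = 0`, `t = 1`; `g` is not constant: otherwise no `od(U_i) = 1`, all `coeff 1 (B_i) = 0`, so
`coeff 1 c ≠ 0`: this is `Smo Δ`. GCH gives `G_c`, PRI the pre-chain of `f₀ = prin I e u τ g`. `h = gen U B c - f₀`
has all weights `≥ 2τ + 1`: its terms are `(U_i - u_i X^(e_i)) y_i²` (`i ∈ I`, `X`-exponents `> e_i`, weight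
`≥ 2(e_i+1) + 2(τ-e_i)`), and for the rest `X`-exponents `≥ τ + 1`. `h^m` has weights `≥ (2τ+1)m`
(WGT), so `ρ(h^m)E_(n+m) = 0` if `(2τ+1)m > 2τ(n+m)`, i.e. `m > 2τn`: PRT. `Z`: elements of weight `≥ 1` kill
`E_0` (`n = 0` in PRI), so does `f` (weights `≥ 2τ`), `∂_i f` (`≥ 2τ - (τ - e_i) ≥ 1`), `dX f` if `τ ≥ 2`
(`≥ 2τ - 2`); for `τ = 1`: `dX f = g + dX h` (`prin` has `e_i = 0`), and `g` kills `E_0` (PRI), `dX h` has weights
`≥ 1`. (All for `p`, hence for `p'`, by the last clause of PRT.) ECH. -/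
def LRTStmt : Prop :=
  ∀ (k : Type) [Field k] [Algebra k ℂ] (J : Type) [Fintype J] [DecidableEq J]
    (D : QD (Polynomial k) J) (x0 : k) (Δ : Diag (D.map (tay x0))) (τ : ℕ), Δ.Red → Lev Δ τ →
    ¬ Smo Δ → SRs k (pol D) ((aT Δ.U τ : ℚ) / (2 * τ))

/-! ## Assembly -/

/-- **GLO** (needs DGN, TYP, PUD, LOC, GNH, SPL, NCQ, SMG, LRT, PUR, ECH). `Inv` for `pol D ≠ 0`.
PROOF. `Inv.of_dif` (H75/Fib/DIF.lean). Choose `h` from TYP, and split by SPL (3): `rootSet` is finite. For each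
root `x0` of `h`: `Δ` from DGN (`k⟦X⟧` is a discrete valuation ring, `2` is a unit). If `Smo Δ`: NCQ with
`P = {x0}`, SMG: zero. If not: LOC; its set is contained in `Gd (pol D)`: `(-aT, 2τ)` by LRT;
`(-rk, 2)` if `Pure Δ`: PUR and ECH give `SRs k (pol D) (rk/2)` if `rk ≥ 1`; and `rk = 0` would give
`(D.map (tay x0)).val φ y = 0` for all `φ, y` (`Δ.eq` and `A` invertible), so `pol D = 0`. The part `h ≠ 0`: type S: NCQ
with `P = {h ≠ 0}`: zero. Type H: GNH, and `(-r,2) ∈ Gd`: take `x0 ∈ k` with `h(x0) ≠ 0`, PUD, PUR, ECH. -/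
def GLOStmt : Prop :=
  ∀ (k : Type) [Field k] [Algebra k ℂ] [IsAlgClosed k] (J : Type) [Fintype J] [DecidableEq J]
    (D : QD (Polynomial k) J), pol D ≠ 0 → Inv (pol D) (Gd (pol D))

/-- **FIN** (needs POL, GLO). `P3 f a` for all `a`.
PROOF. `f - a = pol D` by POL (its `y`-degree is still `≤ 2`), `≠ 0`; GLO; a finite subset of `Gd` suffices
(`RatF` uses a multiset `l` of elements of the set; take `l.toFinset`). -/
def FINStmt : Prop :=
  ∀ (k : Type) [Field k] [Algebra k ℂ] [IsAlgClosed k] (J : Type) [Fintype J] [DecidableEq J]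
    (f : MvPolynomial (Option J) k) (a : k), (∀ m, coeff m f ≠ 0 → ∑ j, m (some j) ≤ 2) →
    f ≠ C a → P3 f a

end Pool.Agent.H87.QF
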