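import Pool.Agent.H87.QF.Stmts

/-! # Row ZER of the board qfm: the vanishing cases -/

set_option autoImplicit false

namespace Pool.Agent.H87.QF

open MvPolynomial Pool.Agent.H39.MonoR Pool.Agent.H75.Mono

section ZER

variable {k : Type} [Field k] [Algebra k ℂ]

private theorem zer_coeff_xs (x0 : k) {d : ℕ} (v : Fin (d + 1) → ℂ) (l : ℕ) :
    PowerSeries.coeff l (xs x0 v) =
      (if h : l < d + 1 then v ⟨l, h⟩ else 0) - (if l = 0 then algebraMap k ℂ x0 else 0) := by
  unfold xs ser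
  rw [map_sub, PowerSeries.coeff_mk, PowerSeries.coeff_C]

private theorem zer_van {x0 : k} {d n : ℕ} (hn : n ≤ d + 1) {v : Fin (d + 1) → ℂ}
    (hv : v ∈ ordEq x0 d n) : ∀ l, l < n → PowerSeries.coeff l (xs x0 v) = 0 := by
  intro l hl
  have hl' : l < d + 1 := by omega
  rw [zer_coeff_xs, dif_pos hl', hv.1 ⟨l, hl'⟩ hl, sub_self]

private theorem zer_ne {x0 : k} {d n : ℕ} (h1 : 1 ≤ n) (hn : n ≤ d) {v : Fin (d + 1) → ℂ}
    (hv : v ∈ ordEq x0 d n) : PowerSeries.coeff n (xs x0 v) ≠ 0 := by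
  have hl' : n < d + 1 := by omega
  rw [zer_coeff_xs, dif_pos hl', if_neg (by omega), sub_zero]
  exact hv.2 ⟨n, hl'⟩ rfl

private theorem zer_van0 {x0 : k} {d : ℕ} {v : Fin (d + 1) → ℂ}
    (hv : v ∈ ordGt x0 d 0) : ∀ l, l < 1 → PowerSeries.coeff l (xs x0 v) = 0 := by
  intro l hl
  obtain rfl : l = 0 := by omega
  have h := hv ⟨0, Nat.succ_pos d⟩ le_rfl
  rw [zer_coeff_xs, dif_pos (Nat.succ_pos d), h, sub_self]

private theorem zer_ps (x0 : k) (d : ℕ) (T : Type) [Aff T] :
    PS k fun e : (Fin (d + 1) → ℂ) × T => xs x0 e.1 := by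
  intro l
  have e : (fun e : (Fin (d + 1) → ℂ) × T => PowerSeries.coeff l (xs x0 e.1)) =
      fun e => (if h : l < d + 1 then e.1 ⟨l, h⟩ else 0) -
        (if l = 0 then algebraMap k ℂ x0 else 0) := by
    funext e; rw [zer_coeff_xs]
  rw [e]
  refine PFun.sub ?_ ?_
  · by_cases h : l < d + 1
    · simp only [dif_pos h]
      exact Pool.Agent.H75.Mono.PFun.comp (f := fun v : Fin (d + 1) → ℂ => v ⟨l, h⟩)
        (PFun.apply _) PMap.fst
    · simp only [dif_neg h]
      exact PFun.zero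
  · by_cases h : l = 0
    · simp only [if_pos h]
      exact PFun.const x0
    · simp only [if_neg h]
      exact PFun.zero

private theorem zer_cEq (x0 : k) (d n : ℕ) : ICons k (ordEq x0 d n) := by
  unfold ordEq
  refine ICons.and (ICons.forall_fin fun l => ?_) (ICons.forall_fin fun l => ?_)
  · by_cases h : (l : ℕ) < n
    · have e : {x : Fin (d + 1) → ℂ | (l : ℕ) < n →
          x l = if (l : ℕ) = 0 then algebraMap k ℂ x0 else 0} =
          {x | x l = if (l : ℕ) = 0 then algebraMap k ℂ x0 else 0} := by ext x; simp [h]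
      rw [e]
      refine ICons.eq (PFun.apply l) ?_
      by_cases h0 : (l : ℕ) = 0
      · simp only [if_pos h0]; exact PFun.const x0
      · simp only [if_neg h0]; exact PFun.zero
    · have e : {x : Fin (d + 1) → ℂ | (l : ℕ) < n →
          x l = if (l : ℕ) = 0 then algebraMap k ℂ x0 else 0} = Set.univ := by ext x; simp [h]
      rw [e]; exact ICons.univ
  · by_cases h : (l : ℕ) = n
    · have e : {x : Fin (d + 1) → ℂ | (l : ℕ) = n → x l ≠ 0} = {x | x l ≠ 0} := by
        ext x; simp [h]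
      rw [e]
      exact ICons.ne (PFun.apply l) PFun.zero
    · have e : {x : Fin (d + 1) → ℂ | (l : ℕ) = n → x l ≠ 0} = Set.univ := by ext x; simp [h]
      rw [e]; exact ICons.univ

private theorem zer_cGt (x0 : k) (d m : ℕ) : ICons k (ordGt x0 d m) := by
  unfold ordGt
  refine ICons.forall_fin fun l => ?_
  by_cases h : (l : ℕ) ≤ m
  · have e : {x : Fin (d + 1) → ℂ | (l : ℕ) ≤ m →
        x l = if (l : ℕ) = 0 then algebraMap k ℂ x0 else 0} =
        {x | x l = if (l : ℕ) = 0 then algebraMap k ℂ x0 else 0} := by ext x; simp [h]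
    rw [e]
    refine ICons.eq (PFun.apply l) ?_
    by_cases h0 : (l : ℕ) = 0
    · simp only [if_pos h0]; exact PFun.const x0
    · simp only [if_neg h0]; exact PFun.zero
  · have e : {x : Fin (d + 1) → ℂ | (l : ℕ) ≤ m →
        x l = if (l : ℕ) = 0 then algebraMap k ℂ x0 else 0} = Set.univ := by ext x; simp [h]
    rw [e]; exact ICons.univ

/-- the arcs over `x0` are split by their order -/
private theorem zer_split {J : Type} [Fintype J] (f : MvPolynomial (Option J) k) (x0 : k) (d : ℕ)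
    (t : Test k) :
    zq f d (ordGt x0 d 0) t = ∑ n ∈ Finset.Icc 1 (d + 1), zq f d (ordEq x0 d n) t := by
  have hm : PMap k (fun x : (Option J × Fin (d + 1) → ℂ) × t.E =>
      (fun l => x.1 (none, l) : Fin (d + 1) → ℂ)) :=
    PMap.pi fun l => Pool.Agent.H75.Mono.PFun.comp
      (f := fun φ : Option J × Fin (d + 1) → ℂ => φ (none, l)) (PFun.apply _) PMap.fst
  have hc : ∀ n, ICons k {x : (Option J × Fin (d + 1) → ℂ) × t.E |
      x.2 ∈ t.W ∧ (fun l => x.1 (none, l)) ∈ ordEq x0 d n ∧ Hit f d x.1 (t.c x.2)} := fun n =>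
    (t.cW.mem PMap.snd).and (((zer_cEq x0 d n).mem hm).and
      (ICons.hit d f PMap.fst (Pool.Agent.H75.Mono.PFun.comp (f := t.c) t.pf PMap.snd)))
  unfold zq
  rw [← mo_biUnion]
  · congr 1
    ext x
    simp only [Set.mem_ofPred_eq]
    constructor
    · rintro ⟨hw, hq, hh⟩
      -- the order
      classical
      by_cases hex : ∃ l : Fin (d + 1),
          x.1 (none, l) ≠ if (l : ℕ) = 0 then algebraMap k ℂ x0 else 0
      · have hex' : ∃ n : ℕ, ∃ h : n < d + 1,
            x.1 (none, ⟨n, h⟩) ≠ if n = 0 then algebraMap k ℂ x0 else 0 := by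
          obtain ⟨l, hl⟩ := hex
          exact ⟨l, l.2, hl⟩
        obtain ⟨hn, hne⟩ := Nat.find_spec hex'
        set n := Nat.find hex' with hndef
        have hmin : ∀ m, m < n → ∀ h : m < d + 1,
            x.1 (none, ⟨m, h⟩) = if m = 0 then algebraMap k ℂ x0 else 0 := by
          intro m hm h
          have := Nat.find_min hex' hm
          push Not at this
          exact this h
        have hn0 : n ≠ 0 := by
          intro h0
          have h2 : ∀ (m : ℕ) (h : m < d + 1), m = 0 →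
              x.1 (none, ⟨m, h⟩) = if m = 0 then algebraMap k ℂ x0 else 0 := by
            rintro m h rfl
            exact hq ⟨0, h⟩ le_rfl
          exact hne (h2 n hn h0)
        refine ⟨n, Finset.mem_Icc.2 ⟨by omega, by omega⟩, hw, ⟨?_, ?_⟩, hh⟩
        · intro l hl
          exact hmin l hl l.2
        · intro l hl
          have h2 : l = ⟨n, hn⟩ := Fin.ext hl
          rw [h2]
          rw [if_neg hn0] at hne
          exact hne
      · push Not at hex
        refine ⟨d + 1, Finset.mem_Icc.2 ⟨by omega, le_rfl⟩, hw, ⟨?_, ?_⟩, hh⟩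
        · intro l _
          exact hex l
        · intro l hl
          exact absurd l.2 (by omega)
    · rintro ⟨n, hn, hw, hq, hh⟩
      refine ⟨hw, ?_, hh⟩
      intro l hl
      have h1 : 1 ≤ n := (Finset.mem_Icc.1 hn).1
      exact hq.1 l (by omega)
  · exact fun n _ => hc n
  · intro n hn m hm' hne
    rw [Set.disjoint_left]
    rintro x ⟨-, h1, -⟩ ⟨-, h2, -⟩
    have hn' := Finset.mem_Icc.1 hn
    have hm'' := Finset.mem_Icc.1 hm'
    rcases Nat.lt_or_gt_of_ne hne with h | h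
    · have h3 := h1.2 ⟨n, by omega⟩ rfl
      have h4 := h2.1 ⟨n, by omega⟩ h
      apply h3
      rw [h4, if_neg (by simp only; omega)]
    · have h3 := h2.2 ⟨m, by omega⟩ rfl
      have h4 := h1.1 ⟨m, by omega⟩ h
      apply h3
      rw [h4, if_neg (by simp only; omega)]

end ZER

/-- the first case, also for `n = d + 1` -/
private theorem zer_one (hBAS : BASStmt) (hRLB : RLBStmt) (hSBS : SBSStmt)
    {k : Type} [Field k] [Algebra k ℂ] {J : Type} [Fintype J] [DecidableEq J]
    (D : QD (Polynomial k) J) (x0 : k) (Δ : Diag (D.map (tay x0))) (d : ℕ) (t : Test k)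
    (n γ : ℕ) (h1 : 1 ≤ n) (hn : n ≤ d + 1) (hγ : n * γ < d)
    (hcX : (PowerSeries.X : PowerSeries k) ^ γ ∣ Δ.c) (hc : PowerSeries.coeff γ Δ.c ≠ 0)
    (hB : ∀ i, (PowerSeries.X : PowerSeries k) ^ (γ + 1) ∣ Δ.B i) :
    zd (pol D) d (ordEq x0 d n) t = 0 := by
  classical
  obtain ⟨-, hS2, hS3⟩ := hSBS k
  have hQ := zer_cEq x0 d n
  have hv0 : ∀ v ∈ ordEq x0 d n, v 0 = algebraMap k ℂ x0 := by
    intro v hv
    have := hv.1 0 (by simp; omega)
    simpa using this
  have b1 := hBAS k J D x0 Δ d (ordEq x0 d n) t hQ hv0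
  have b0 := hBAS k J D x0 Δ d (ordEq x0 d n) t.zr hQ hv0
  unfold zd
  rw [b1, b0, sub_eq_zero]
  have hgl : (n ≤ d) ∨ (n = d + 1 ∧ γ = 0) := by
    rcases Nat.lt_or_eq_of_le hn with h | h
    · exact Or.inl (by omega)
    · refine Or.inr ⟨h, ?_⟩
      by_contra h0
      have : n * 1 ≤ n * γ := Nat.mul_le_mul_left n (by omega)
      omega
  refine hRLB k ((Fin (d + 1) → ℂ) × t.E) J
    (fun i e => sb (xs x0 e.1) (Δ.U i)) (fun i e => sb (xs x0 e.1) (Δ.B i))
    (fun e => sb (xs x0 e.1) Δ.c) d (n * γ)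
    (fun i => if Δ.U i = 0 then d + 1 else n * od (Δ.U i))
    {e | e.1 ∈ ordEq x0 d n ∧ e.2 ∈ t.W} (fun e => t.c e.2)
    (fun i => hS3 _ _ _ (zer_ps x0 d t.E)) (fun i => hS3 _ _ _ (zer_ps x0 d t.E))
    (hS3 _ _ _ (zer_ps x0 d t.E)) (ICons.and (hQ.mem PMap.fst) (t.cW.mem PMap.snd))
    (Pool.Agent.H75.Mono.PFun.comp (f := t.c) t.pf PMap.snd) hγ ?_ ?_ ?_
  · intro i e he
    have ha := zer_van hn he.1
    by_cases hU : Δ.U i = 0
    · simp only [if_pos hU]
      have hz : ∀ l, PowerSeries.coeff l (sb (xs x0 e.1) (Δ.U i)) = 0 := by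
        intro l
        unfold sb
        rw [PowerSeries.coeff_mk, hU]
        simp
      exact ⟨fun l _ _ => hz l, fun h => absurd h (by omega)⟩
    · simp only [if_neg hU]
      have h2 := hS2 n (od (Δ.U i)) (xs x0 e.1) (Δ.U i) h1 ha
        (fun l hl => PowerSeries.coeff_of_lt_order_toNat l hl)
      refine ⟨fun l hl _ => h2.1 l hl, fun hle => ?_⟩
      rw [h2.2]
      refine mul_ne_zero ?_ ?_
      · exact fun h => PowerSeries.coeff_order hU
          ((algebraMap k ℂ).injective (h.trans (map_zero _).symm))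
      · rcases hgl with h | ⟨h, -⟩
        · exact pow_ne_zero _ (zer_ne h1 h he.1)
        · have h0 : od (Δ.U i) = 0 := by
            by_contra h0
            have : n * 1 ≤ n * od (Δ.U i) := Nat.mul_le_mul_left n (by omega)
            omega
          rw [h0, pow_zero]
          exact one_ne_zero
  · intro i e he l hl
    have h2 := hS2 n (γ + 1) (xs x0 e.1) (Δ.B i) h1 (zer_van hn he.1)
      (fun l hl => PowerSeries.X_pow_dvd_iff.1 (hB i) l hl)
    refine h2.1 l ?_
    rw [Nat.mul_succ]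
    omega
  · intro e he
    have h2 := hS2 n γ (xs x0 e.1) Δ.c h1 (zer_van hn he.1)
      (fun l hl => PowerSeries.X_pow_dvd_iff.1 hcX l hl)
    rw [h2.2]
    refine mul_ne_zero ?_ ?_
    · exact fun h => hc ((algebraMap k ℂ).injective (h.trans (map_zero _).symm))
    · rcases hgl with h | ⟨-, h⟩
      · exact pow_ne_zero _ (zer_ne h1 h he.1)
      · rw [h, pow_zero]
        exact one_ne_zero

theorem ZER (hBAS : BASStmt) (hRLB : RLBStmt) (hRLC : RLCStmt) (hSBS : SBSStmt) : ZERStmt := by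
  intro k _ _ J _ _ D x0 Δ d t hd
  obtain ⟨-, hS2, hS3⟩ := hSBS k
  refine ⟨?_, ?_, ?_, ?_⟩
  · intro n γ h1 hn hγ hcX hc hB
    exact zer_one hBAS hRLB hSBS D x0 Δ d t n γ h1 (by omega) hγ hcX hc hB
  · intro n β i₀ h1 hn hβ hBX hB0 hUX
    have hQ := zer_cEq x0 d n
    have hv0 : ∀ v ∈ ordEq x0 d n, v 0 = algebraMap k ℂ x0 := by
      intro v hv
      have := hv.1 0 (by simp; omega)
      simpa using this
    have b1 := hBAS k J D x0 Δ d (ordEq x0 d n) t hQ hv0
    have b0 := hBAS k J D x0 Δ d (ordEq x0 d n) t.zr hQ hv0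
    unfold zd
    rw [b1, b0, sub_eq_zero]
    refine hRLC k ((Fin (d + 1) → ℂ) × t.E) J
      (fun i e => sb (xs x0 e.1) (Δ.U i)) (fun i e => sb (xs x0 e.1) (Δ.B i))
      (fun e => sb (xs x0 e.1) Δ.c) d (n * β) i₀
      {e | e.1 ∈ ordEq x0 d n ∧ e.2 ∈ t.W} (fun e => t.c e.2)
      (fun i => hS3 _ _ _ (zer_ps x0 d t.E)) (fun i => hS3 _ _ _ (zer_ps x0 d t.E))
      (hS3 _ _ _ (zer_ps x0 d t.E)) (ICons.and (hQ.mem PMap.fst) (t.cW.mem PMap.snd))
      (Pool.Agent.H75.Mono.PFun.comp (f := t.c) t.pf PMap.snd) hβ ?_ ?_ ?_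
    · intro e he l hl
      have h2 := hS2 n (β + 1) (xs x0 e.1) (Δ.U i₀) h1 (zer_van (by omega) he.1)
        (fun l hl => PowerSeries.X_pow_dvd_iff.1 hUX l hl)
      refine h2.1 l ?_
      rw [Nat.mul_succ]
      omega
    · intro e he l hl
      exact (hS2 n β (xs x0 e.1) (Δ.B i₀) h1 (zer_van (by omega) he.1)
        (fun l hl => PowerSeries.X_pow_dvd_iff.1 hBX l hl)).1 l hl
    · intro e he
      rw [(hS2 n β (xs x0 e.1) (Δ.B i₀) h1 (zer_van (by omega) he.1)
        (fun l hl => PowerSeries.X_pow_dvd_iff.1 hBX l hl)).2]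
      refine mul_ne_zero ?_ (pow_ne_zero _ (zer_ne h1 hn he.1))
      exact fun h => hB0 ((algebraMap k ℂ).injective (h.trans (map_zero _).symm))
  · intro hc hB
    have key : ∀ n ∈ Finset.Icc 1 (d + 1), zd (pol D) d (ordEq x0 d n) t = 0 := by
      intro n hn
      obtain ⟨h1, h2⟩ := Finset.mem_Icc.1 hn
      refine zer_one hBAS hRLB hSBS D x0 Δ d t n 0 h1 h2 (by simpa using hd) ?_ hc ?_
      · rw [pow_zero]; exact one_dvd _
      · intro i
        rw [PowerSeries.X_pow_dvd_iff]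
        intro m hm
        obtain rfl : m = 0 := by omega
        exact hB i
    unfold zd at key ⊢
    rw [zer_split, zer_split, sub_eq_zero]
    exact Finset.sum_congr rfl fun n hn => sub_eq_zero.1 (key n hn)
  · intro i₀ hB0 hU0
    have hQ := zer_cGt x0 d 0
    have hv0 : ∀ v ∈ ordGt x0 d 0, v 0 = algebraMap k ℂ x0 := by
      intro v hv
      have := hv 0 (by simp)
      simpa using this
    have b1 := hBAS k J D x0 Δ d (ordGt x0 d 0) t hQ hv0
    have b0 := hBAS k J D x0 Δ d (ordGt x0 d 0) t.zr hQ hv0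
    unfold zd
    rw [b1, b0, sub_eq_zero]
    have hz : ∀ (u : PowerSeries k) (v : Fin (d + 1) → ℂ), v ∈ ordGt x0 d 0 →
        PowerSeries.coeff 0 (sb (xs x0 v) u) = algebraMap k ℂ (PowerSeries.coeff 0 u) := by
      intro u v hv
      have h2 := (hS2 1 0 (xs x0 v) u le_rfl (zer_van0 hv) (fun l hl => absurd hl (by omega))).2
      rw [mul_zero, pow_zero, mul_one] at h2
      exact h2
    refine hRLC k ((Fin (d + 1) → ℂ) × t.E) J
      (fun i e => sb (xs x0 e.1) (Δ.U i)) (fun i e => sb (xs x0 e.1) (Δ.B i))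
      (fun e => sb (xs x0 e.1) Δ.c) d 0 i₀
      {e | e.1 ∈ ordGt x0 d 0 ∧ e.2 ∈ t.W} (fun e => t.c e.2)
      (fun i => hS3 _ _ _ (zer_ps x0 d t.E)) (fun i => hS3 _ _ _ (zer_ps x0 d t.E))
      (hS3 _ _ _ (zer_ps x0 d t.E)) (ICons.and (hQ.mem PMap.fst) (t.cW.mem PMap.snd))
      (Pool.Agent.H75.Mono.PFun.comp (f := t.c) t.pf PMap.snd) (Nat.zero_le d) ?_ ?_ ?_
    · intro e he l hl
      obtain rfl : l = 0 := by omega
      rw [hz _ _ he.1, hU0, map_zero]
    · intro e he l hl
      exact absurd hl (by omega)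
    · intro e he
      rw [hz _ _ he.1]
      exact fun h => hB0 ((algebraMap k ℂ).injective (h.trans (map_zero _).symm))

end Pool.Agent.H87.QF
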